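import Pool.Agent.X199.ChoqC

open MeasureTheory Filter Topology BoundedContinuousFunction

namespace Pool.Agent.X199.Choq

section
variable {Γ : Type} [AddCommGroup Γ] [TopologicalSpace Γ] [DiscreteTopology Γ]

abbrev VC (Γ : Type) [TopologicalSpace Γ] := (Γ →ᵇ ℂ) →ₗ[ℂ] ℂ

/-- translation -/
noncomputable def trC (γ : Γ) (f : Γ →ᵇ ℂ) : Γ →ᵇ ℂ :=
  f.compContinuous ⟨fun x => x - γ, continuous_of_discreteTopology⟩

@[simp] lemma trC_apply (γ : Γ) (f : Γ →ᵇ ℂ) (x : Γ) : trC γ f x = f (x - γ) := rfl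

/-- indicator function of a set -/
noncomputable def indC (C : Set Γ) : Γ →ᵇ ℂ :=
  BoundedContinuousFunction.ofNormedAddCommGroupDiscrete (C.indicator (fun _ => (1:ℂ))) 1 (by
    intro x
    by_cases h : x ∈ C <;> simp [h])

@[simp] lemma indC_apply (C : Set Γ) (x : Γ) : indC C x = C.indicator (fun _ => (1:ℂ)) x := rfl

/-- the invariant means on complex functions -/
def IMC (Γ : Type) [AddCommGroup Γ] [TopologicalSpace Γ] [DiscreteTopology Γ] : Set (VC Γ) :=
  {m | (∀ f : Γ →ᵇ ℂ, (∀ x, 0 ≤ (f x).re ∧ (f x).im = 0) → 0 ≤ (m f).re ∧ (m f).im = 0) ∧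
    m 1 = 1 ∧ ∀ γ f, m (trC γ f) = m f}

/-- the set of invariant means as a type -/
abbrev MC (Γ : Type) [AddCommGroup Γ] [TopologicalSpace Γ] [DiscreteTopology Γ] : Type :=
  {m : VC Γ // m ∈ IMC Γ}

/-- the extreme invariant means -/
def EMC (Γ : Type) [AddCommGroup Γ] [TopologicalSpace Γ] [DiscreteTopology Γ] : Set (MC Γ) :=
  {m | m.1 ∈ (IMC Γ).extremePoints ℝ}

/-- sigma-algebra generated by the extreme means and by the evaluations -/
@[reducible] def msC (Γ : Type) [AddCommGroup Γ] [TopologicalSpace Γ] [DiscreteTopology Γ] :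
    MeasurableSpace (MC Γ) :=
  MeasurableSpace.generateFrom
    ({EMC Γ} ∪ {S | ∃ (f : Γ →ᵇ ℂ) (c : ℝ), S = {ν : MC Γ | c < (ν.1 f).re}})

noncomputable def toC (f : Γ →ᵇ ℝ) : Γ →ᵇ ℂ :=
  BoundedContinuousFunction.ofNormedAddCommGroupDiscrete (fun x => (f x : ℂ)) ‖f‖ (by
    intro x; simpa using f.norm_coe_le_norm x)

noncomputable def reB (f : Γ →ᵇ ℂ) : Γ →ᵇ ℝ :=
  BoundedContinuousFunction.ofNormedAddCommGroupDiscrete (fun x => (f x).re) ‖f‖ (by
    intro x; exact (Complex.abs_re_le_norm _).trans (f.norm_coe_le_norm x))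

noncomputable def imB (f : Γ →ᵇ ℂ) : Γ →ᵇ ℝ :=
  BoundedContinuousFunction.ofNormedAddCommGroupDiscrete (fun x => (f x).im) ‖f‖ (by
    intro x; exact (Complex.abs_im_le_norm _).trans (f.norm_coe_le_norm x))

@[simp] lemma toC_apply (f : Γ →ᵇ ℝ) (x : Γ) : toC f x = (f x : ℂ) := rfl
@[simp] lemma reB_apply (f : Γ →ᵇ ℂ) (x : Γ) : reB f x = (f x).re := rfl
@[simp] lemma imB_apply (f : Γ →ᵇ ℂ) (x : Γ) : imB f x = (f x).im := rfl

lemma decomp (f : Γ →ᵇ ℂ) : f = toC (reB f) + Complex.I • toC (imB f) := by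
  ext x
  simp only [BoundedContinuousFunction.coe_add, Pi.add_apply, BoundedContinuousFunction.coe_smul,
    toC_apply, reB_apply, imB_apply, smul_eq_mul]
  rw [mul_comm Complex.I]
  exact (Complex.re_add_im _).symm

/-- restriction to real functions -/
noncomputable def rs (M : VC Γ) : V Γ where
  toFun f := (M (toC f)).re
  map_add' f g := by
    have : toC (f + g) = toC f + toC g := by ext x; simp
    rw [this, map_add, Complex.add_re]
  map_smul' r f := by
    have : toC (r • f) = (r : ℂ) • toC f := by ext x; simp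
    rw [this, map_smul]; simp

lemma rs_apply (M : VC Γ) (f : Γ →ᵇ ℝ) : rs M f = (M (toC f)).re := rfl

lemma real_val {M : VC Γ} (h : M ∈ IMC Γ) (f : Γ →ᵇ ℝ) : M (toC f) = ((rs M f : ℝ) : ℂ) := by
  have h1 := (h.1 (toC (f + ‖f‖ • 1)) (fun x => by
    have := neg_le_of_abs_le (f.norm_coe_le_norm x)
    refine ⟨?_, by simp⟩
    simp; linarith)).2
  have e : toC (f + ‖f‖ • (1 : Γ →ᵇ ℝ)) = toC f + (‖f‖ : ℂ) • 1 := by ext x; simp
  rw [e, map_add, map_smul, h.2.1] at h1
  apply Complex.ext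
  · simp [rs_apply]
  · simpa using h1

lemma val {M : VC Γ} (h : M ∈ IMC Γ) (f : Γ →ᵇ ℂ) :
    M f = ((rs M (reB f) : ℝ) : ℂ) + Complex.I * ((rs M (imB f) : ℝ) : ℂ) := by
  conv_lhs => rw [decomp f]
  rw [map_add, map_smul, real_val h, real_val h, smul_eq_mul]

lemma rs_IM {M : VC Γ} (h : M ∈ IMC Γ) : rs M ∈ IM Γ := by
  refine ⟨fun f hf => (h.1 (toC f) (fun x => ⟨by simpa using hf x, by simp⟩)).1, ?_, fun γ f => ?_⟩
  · have : toC (1 : Γ →ᵇ ℝ) = 1 := by ext x; simp
    rw [rs_apply, this, h.2.1]; simp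
  · have : toC (tr γ f) = trC γ (toC f) := by ext x; simp
    rw [rs_apply, this, h.2.2]; rfl

/-- complexification -/
noncomputable def cx (ν : V Γ) : VC Γ where
  toFun f := ((ν (reB f) : ℝ) : ℂ) + Complex.I * ((ν (imB f) : ℝ) : ℂ)
  map_add' f g := by
    have h1 : reB (f + g) = reB f + reB g := by ext x; simp
    have h2 : imB (f + g) = imB f + imB g := by ext x; simp
    rw [h1, h2, map_add, map_add]; push_cast; ring
  map_smul' z f := by
    have h1 : reB (z • f) = z.re • reB f - z.im • imB f := by ext x; simp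
    have h2 : imB (z • f) = z.re • imB f + z.im • reB f := by ext x; simp
    rw [h1, h2, map_add, map_sub, map_smul, map_smul, map_smul, map_smul]
    apply Complex.ext <;> simp

lemma cx_apply (ν : V Γ) (f : Γ →ᵇ ℂ) :
    cx ν f = ((ν (reB f) : ℝ) : ℂ) + Complex.I * ((ν (imB f) : ℝ) : ℂ) := rfl

lemma cx_IMC {ν : V Γ} (h : ν ∈ IM Γ) : cx ν ∈ IMC Γ := by
  refine ⟨fun f hf => ?_, ?_, fun γ f => ?_⟩
  · have h2 : imB f = 0 := by ext x; simpa using (hf x).2
    rw [cx_apply, h2, map_zero]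
    have := h.1 (reB f) (fun x => by simpa using (hf x).1)
    simpa using this
  · have h1 : reB (1 : Γ →ᵇ ℂ) = 1 := by ext x; simp
    have h2 : imB (1 : Γ →ᵇ ℂ) = 0 := by ext x; simp
    rw [cx_apply, h1, h2, map_zero, h.2.1]; simp
  · have h1 : reB (trC γ f) = tr γ (reB f) := by ext x; simp
    have h2 : imB (trC γ f) = tr γ (imB f) := by ext x; simp
    rw [cx_apply, h1, h2, h.2.2, h.2.2]; rfl

lemma cx_rs {M : VC Γ} (h : M ∈ IMC Γ) : cx (rs M) = M := by
  ext f; rw [cx_apply, val h]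

lemma rs_cx (ν : V Γ) : rs (cx ν) = ν := by
  ext f
  have h1 : reB (toC f) = f := by ext x; simp
  have h2 : imB (toC f) = 0 := by ext x; simp
  rw [rs_apply, cx_apply, h1, h2, map_zero]; simp

lemma rs_comb (a b : ℝ) (M N : VC Γ) : rs (a • M + b • N) = a • rs M + b • rs N := by
  ext f; simp [rs_apply]

lemma cx_comb (a b : ℝ) (μ ν : V Γ) : cx (a • μ + b • ν) = a • cx μ + b • cx ν := by
  ext f
  simp only [cx_apply, LinearMap.add_apply, LinearMap.smul_apply, smul_eq_mul, Complex.real_smul]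
  push_cast; ring

lemma ext_iff (M : MC Γ) : rs M.1 ∈ EM Γ ↔ M ∈ EMC Γ := by
  constructor
  · intro h
    refine ⟨M.2, ?_⟩
    rintro x hx y hy ⟨a, b, ha, hb, hab, he⟩
    have := h.2 (rs_IM hx) (rs_IM hy) ⟨a, b, ha, hb, hab, by rw [← rs_comb, he]⟩
    rw [← cx_rs hx, this, cx_rs M.2]
  · intro h
    refine ⟨rs_IM M.2, ?_⟩
    rintro x hx y hy ⟨a, b, ha, hb, hab, he⟩
    have := h.2 (cx_IMC hx) (cx_IMC hy) ⟨a, b, ha, hb, hab, by rw [← cx_comb, he, cx_rs M.2]⟩
    rw [← this, rs_cx]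

attribute [local instance] msC

lemma meas_rs : Measurable (fun M : MC Γ => rs M.1) := by
  refine measurable_generateFrom ?_
  rintro t (ht | ⟨f, c, rfl⟩)
  · rw [Set.mem_singleton_iff] at ht
    subst ht
    have : (fun M : MC Γ => rs M.1) ⁻¹' (EM Γ) = EMC Γ := by
      ext M; exact ext_iff M
    rw [this]
    exact MeasurableSpace.measurableSet_generateFrom (Or.inl rfl)
  · exact MeasurableSpace.measurableSet_generateFrom (Or.inr ⟨toC f, c, rfl⟩)

lemma exists_pre (E : Set (MC Γ)) (hE : MeasurableSet E) :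
    ∃ E' : Set (V Γ), MeasurableSet E' ∧ (fun M : MC Γ => rs M.1) ⁻¹' E' = E := by
  have hle : msC Γ ≤ MeasurableSpace.comap (fun M : MC Γ => rs M.1) instMS := by
    refine MeasurableSpace.generateFrom_le ?_
    rintro t (ht | ⟨f, c, rfl⟩)
    · rw [Set.mem_singleton_iff] at ht
      subst ht
      exact ⟨EM Γ, meas_EM, by ext M; exact ext_iff M⟩
    · refine ⟨{ν | c < ν (reB f)}, measurableSet_lt measurable_const (meas_eval _), ?_⟩
      ext M
      simp only [Set.mem_preimage, Set.mem_setOf_eq]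
      rw [val M.2 f]; simp
  obtain ⟨E', h1, h2⟩ := hle E hE
  exact ⟨E', h1, h2⟩

theorem mainC [Countable Γ] (σ : Measure (MC Γ)) [IsProbabilityMeasure σ] (hσ : σ (EMC Γ) = 1)
    (m : VC Γ) (hm : m ∈ IMC Γ) (hdec : ∀ f : Γ →ᵇ ℂ, m f = ∫ ν, ν.1 f ∂σ) (E : Set (MC Γ))
    (hE : MeasurableSet E) :
    ∃ C : ℕ → Set Γ,
      (∀ ε > 0, ∃ N, ∀ i ≥ N, ∀ j ≥ N,
        ‖m ((indC (C i) - indC (C j)) * star (indC (C i) - indC (C j)))‖ < ε) ∧
      (∀ γ : Γ, Tendsto (fun n =>
        m ((trC γ (indC (C n)) - indC (C n)) * star (trC γ (indC (C n)) - indC (C n)))) atTop (𝓝 0)) ∧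
      ∀ f : Γ →ᵇ ℂ, Tendsto (fun n => m (f * indC (C n))) atTop (𝓝 (∫ ν in E, ν.1 f ∂σ)) := by
  obtain ⟨E', hE', rfl⟩ := exists_pre E hE
  set R : MC Γ → V Γ := fun M => rs M.1 with hR
  have mR : Measurable R := meas_rs
  let σ' : Measure (V Γ) := σ.map R
  haveI : IsProbabilityMeasure σ' := Measure.isProbabilityMeasure_map mR.aemeasurable
  have hσ' : σ' (EM Γ)ᶜ = 0 := by
    rw [prob_compl_eq_zero_iff meas_EM, Measure.map_apply mR meas_EM]
    have : R ⁻¹' (EM Γ) = EMC Γ := by ext M; exact ext_iff M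
    rw [this, hσ]
  have hdec' : ∀ f : Γ →ᵇ ℝ, rs m f = ∫ ν, ν f ∂σ' := by
    intro f
    rw [integral_map mR.aemeasurable (meas_eval f).aestronglyMeasurable]
    have h1 := hdec (toC f)
    have h2 : (∫ ν : MC Γ, ν.1 (toC f) ∂σ) = ((∫ ν : MC Γ, rs ν.1 f ∂σ : ℝ) : ℂ) := by
      rw [← integral_complex_ofReal]
      exact integral_congr_ae (Filter.Eventually.of_forall (fun ν => real_val ν.2 f))
    rw [h2, real_val hm] at h1
    exact_mod_cast h1
  obtain ⟨C, h1, h2, h3⟩ := main (rs m) hσ' hdec' E' hE'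
  have ei : ∀ A : Set Γ, indC A = toC (ind A) := by
    intro A; ext x; by_cases hx : x ∈ A <;> simp [hx]
  have es : ∀ g : Γ →ᵇ ℝ, toC g * star (toC g) = toC (g * g) := by
    intro g; ext x; simp
  have e1 : ∀ A B : Set Γ, (indC A - indC B) * star (indC A - indC B)
      = toC ((ind A - ind B) * (ind A - ind B)) := by
    intro A B
    have : indC A - indC B = toC (ind A - ind B) := by rw [ei, ei]; ext x; simp
    rw [this, es]
  have e2 : ∀ (γ : Γ) (A : Set Γ), (trC γ (indC A) - indC A) * star (trC γ (indC A) - indC A)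
      = toC ((tr γ (ind A) - ind A) * (tr γ (ind A) - ind A)) := by
    intro γ A
    have : trC γ (indC A) - indC A = toC (tr γ (ind A) - ind A) := by rw [ei]; ext x; simp
    rw [this, es]
  refine ⟨C, ?_, ?_, ?_⟩
  · intro ε hε
    obtain ⟨N, hN⟩ := h1 ε hε
    refine ⟨N, fun i hi j hj => ?_⟩
    rw [e1, real_val hm, Complex.norm_real, Real.norm_eq_abs, abs_of_nonneg]
    · exact hN i hi j hj
    · exact (rs_IM hm).1 _ (fun x => by simpa using mul_self_nonneg _)
  · intro γ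
    have := (Complex.continuous_ofReal.tendsto 0).comp (h2 γ)
    rw [Complex.ofReal_zero] at this
    refine this.congr (fun n => ?_)
    rw [e2, real_val hm]; rfl
  · intro f
    have t1 := (Complex.continuous_ofReal.tendsto _).comp (h3 (reB f))
    have t2 := ((Complex.continuous_ofReal.tendsto _).comp (h3 (imB f))).const_mul Complex.I
    have t3 := t1.add t2
    have bd : ∀ g : Γ →ᵇ ℝ, Integrable (fun ν : MC Γ => rs ν.1 g) (σ.restrict (R ⁻¹' E')) := by
      intro g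
      refine Integrable.of_bound ((meas_eval g).comp mR).aestronglyMeasurable ‖g‖ ?_
      exact Filter.Eventually.of_forall (fun ν => IM_abs (rs_IM ν.2) g)
    have hint : ∀ g : Γ →ᵇ ℝ, ∫ ν in E', ν g ∂σ' = ∫ ν in R ⁻¹' E', rs ν.1 g ∂σ := by
      intro g
      rw [setIntegral_map hE' (meas_eval g).aestronglyMeasurable mR.aemeasurable]
    have hlim : (∫ ν in R ⁻¹' E', ν.1 f ∂σ) = ((∫ ν in E', ν (reB f) ∂σ' : ℝ) : ℂ)
        + Complex.I * ((∫ ν in E', ν (imB f) ∂σ' : ℝ) : ℂ) := by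
      rw [hint, hint, ← integral_complex_ofReal, ← integral_complex_ofReal, ← integral_const_mul, ← integral_add]
      · exact integral_congr_ae (Filter.Eventually.of_forall (fun ν => val ν.2 f))
      · exact (bd _).ofReal
      · exact ((bd _).ofReal).const_mul _
    rw [hlim]
    refine t3.congr (fun n => ?_)
    have r1 : reB (f * indC (C n)) = reB f * ind (C n) := by
      ext x; by_cases hx : x ∈ C n <;> simp [hx]
    have r2 : imB (f * indC (C n)) = imB f * ind (C n) := by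
      ext x; by_cases hx : x ∈ C n <;> simp [hx]
    rw [val hm, r1, r2]; rfl

end

end Pool.Agent.X199.Choq
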