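import Mathlib

/-!
# Precompact groups, reflexivity, and the integers with their Bohr topology
-/

open Topology Filter Set

namespace Pool.Agent.X199.BohrZ

/-- A topological group is precompact (totally bounded) if every neighbourhood `U` of `1` has
finitely many left translates covering the group. -/
def Precompact (G : Type*) [Group G] [TopologicalSpace G] : Prop :=
  ∀ U ∈ 𝓝 (1 : G), ∃ F : Set G, F.Finite ∧ ∀ g : G, ∃ f ∈ F, ∃ u ∈ U, g = f * u

/-- An abelian topological group is (Pontryagin) reflexive if the evaluation map into the bidual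
is a topological isomorphism; the duals `PontryaginDual` are the groups of continuous
homomorphisms into the circle with the compact-open topology. -/
def Reflexive (G : Type*) [CommGroup G] [TopologicalSpace G] [IsTopologicalGroup G] : Prop :=
  ∃ e : G ≃ₜ PontryaginDual (PontryaginDual G), ∀ (g : G) (χ : PontryaginDual G), e g χ = χ g

/-- A group with an injective homomorphism into a compact group, with the induced topology, is
precompact. -/
lemma precompact_of_inducing {H K : Type*} [Group H] [TopologicalSpace H] [Group K]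
    [TopologicalSpace K] [IsTopologicalGroup K] [CompactSpace K] (e : H →* K)
    (he : IsInducing e) : Precompact H := by
  intro U hU
  rw [he.nhds_eq_comap, map_one] at hU
  obtain ⟨V, hV, hVU⟩ := hU
  obtain ⟨W, hWo, hW1, hWV⟩ : ∃ W : Set K, IsOpen W ∧ (1 : K) ∈ W ∧
      ∀ a ∈ W, ∀ b ∈ W, a⁻¹ * b ∈ V := by
    have hc : Continuous fun p : K × K => p.1⁻¹ * p.2 := by fun_prop
    have h0 : (fun p : K × K => p.1⁻¹ * p.2) ⁻¹' V ∈ 𝓝 ((1 : K), (1 : K)) := by
      apply hc.continuousAt
      simpa using hV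
    rw [nhds_prod_eq, mem_prod_self_iff] at h0
    obtain ⟨W', hW', hW'V⟩ := h0
    obtain ⟨W, hWW', hWo, hW1⟩ := mem_nhds_iff.1 hW'
    exact ⟨W, hWo, hW1, fun a ha b hb => hW'V (Set.mk_mem_prod (hWW' ha) (hWW' hb))⟩
  have hcov : (univ : Set K) ⊆ ⋃ k : K, (fun x => k⁻¹ * x) ⁻¹' W := by
    intro x _
    exact mem_iUnion.2 ⟨x, by simpa using hW1⟩
  obtain ⟨T, hT⟩ := isCompact_univ.elim_finite_subcover _
    (fun k => hWo.preimage (by fun_prop)) hcov
  classical
  let c : K → H := fun k => if h : ∃ x : H, k⁻¹ * e x ∈ W then h.choose else 1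
  refine ⟨c '' (T : Set K), T.finite_toSet.image _, ?_⟩
  intro g
  obtain ⟨k, hk⟩ := mem_iUnion.1 (hT (mem_univ (e g)))
  obtain ⟨hkT, hk⟩ := mem_iUnion.1 hk
  have hex : ∃ x : H, k⁻¹ * e x ∈ W := ⟨g, hk⟩
  have hc : k⁻¹ * e (c k) ∈ W := by
    simp only [c, dif_pos hex]
    exact hex.choose_spec
  refine ⟨c k, ⟨k, hkT, rfl⟩, (c k)⁻¹ * g, ?_, by group⟩
  apply hVU
  have := hWV _ hc _ hk
  simpa [mul_assoc] using this

lemma circle_dist (a b : Circle) : dist a b = ‖(a : ℂ) - b‖ := by
  rw [← dist_eq_norm]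
  rfl

/-- Compact sets of characters of a precompact group with continuous evaluation are finite. -/
theorem finite_of_isCompact {G : Type*} [CommGroup G] [TopologicalSpace G] [IsTopologicalGroup G]
    (hp : Precompact G) (e : G → PontryaginDual (PontryaginDual G)) (hec : Continuous e)
    (he : ∀ (g : G) (χ : PontryaginDual G), e g χ = χ g) (C : Set (PontryaginDual G))
    (hC : IsCompact C) : C.Finite := by
  by_contra hinf
  have hinf : C.Infinite := hinf
  -- the polar of `C` is a neighbourhood of `1`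
  have hN : {ξ : PontryaginDual (PontryaginDual G) | MapsTo ξ C (Metric.ball 1 (1/4))} ∈
      𝓝 (1 : PontryaginDual (PontryaginDual G)) := by
    apply IsOpen.mem_nhds
    · exact isOpen_induced (ContinuousMap.isOpen_setOfPred_mapsTo hC Metric.isOpen_ball)
    · intro χ _
      simp
  have he1 : e 1 = 1 := by
    ext χ
    rw [he]
    simp
  have hU : {g : G | ∀ χ ∈ C, dist (χ g) 1 < 1/4} ∈ 𝓝 (1 : G) := by
    have h1 := hec.continuousAt (x := (1 : G))
    rw [ContinuousAt, he1] at h1
    filter_upwards [h1 hN] with g hg χ hχ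
    have h2 := hg hχ
    rw [he] at h2
    exact h2
  obtain ⟨F, hF, hcov⟩ := hp _ hU
  have : Fintype F := hF.fintype
  -- two characters of `C` which are close on `F`
  obtain ⟨T, hT, hTc⟩ : ∃ T : Set (F → Circle), T.Finite ∧
      (univ : Set (F → Circle)) ⊆ ⋃ y ∈ T, Metric.ball y (1/8) := by
    obtain ⟨T, -, hT, h⟩ := finite_cover_balls_of_compact (isCompact_univ (X := F → Circle))
      (show (0:ℝ) < 1/8 by norm_num)
    exact ⟨T, hT, h⟩
  have hex : ∀ χ : PontryaginDual G, ∃ y ∈ T, dist (fun f : F => χ f) y < 1/8 := by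
    intro χ
    have h := hTc (mem_univ (fun f : F => χ f))
    simp only [mem_iUnion, Metric.mem_ball] at h
    obtain ⟨y, hy, h⟩ := h
    exact ⟨y, hy, h⟩
  choose y hyT hy using hex
  obtain ⟨χ, hχ, ψ, hψ, hne, heq⟩ := hinf.exists_ne_map_eq_of_mapsTo
    (f := y) (t := T) (fun χ _ => hyT χ) hT
  apply hne
  have hclose : ∀ f ∈ F, dist (χ f) (ψ f) < 1/4 := by
    intro f hf
    have h1 := (dist_le_pi_dist (fun f : F => χ f) (y χ) ⟨f, hf⟩).trans_lt (hy χ)
    have h2 := (dist_le_pi_dist (fun f : F => ψ f) (y ψ) ⟨f, hf⟩).trans_lt (hy ψ)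
    rw [← heq, dist_comm] at h2
    have h3 := dist_triangle (χ f) (y χ ⟨f, hf⟩) (ψ f)
    simp only at h1 h2
    linarith
  have hall : ∀ g : G, dist (χ g) (ψ g) < 3/4 := by
    intro g
    obtain ⟨f, hf, u, hu, rfl⟩ := hcov g
    have h1 := hclose f hf
    have h2 := hu χ hχ
    have h3 := hu ψ hψ
    rw [map_mul, map_mul]
    have h4 : dist (χ f * χ u) (ψ f * ψ u) ≤ dist (χ f) (ψ f) + dist (χ u) (ψ u) := by
      rw [circle_dist, circle_dist, circle_dist]
      have h5 : ((χ f * χ u : Circle) : ℂ) - ((ψ f * ψ u : Circle) : ℂ) =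
          ((χ f : ℂ) - ψ f) * χ u + ψ f * ((χ u : ℂ) - ψ u) := by
        push_cast
        ring
      rw [h5]
      refine (norm_add_le _ _).trans ?_
      rw [norm_mul, norm_mul, Circle.norm_coe, Circle.norm_coe, mul_one, one_mul]
    have h6 := dist_triangle (χ u) 1 (ψ u)
    rw [dist_comm 1 (ψ u)] at h6
    linarith
  ext g
  have hq : χ g * (ψ g)⁻¹ = 1 := by
    apply Circle.eq_one_of_forall_pow_mem_centeredArc_pi_div_two
    intro n _
    have h1 := hall (g ^ n)
    have h2 : ((χ g * (ψ g)⁻¹) ^ n) = χ (g ^ n) * (ψ (g ^ n))⁻¹ := by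
      rw [map_pow, map_pow, mul_pow, inv_pow]
    rw [h2]
    set a := χ (g ^ n)
    set b := ψ (g ^ n)
    have h3 : ‖((a * b⁻¹ : Circle) : ℂ) - 1‖ < 3/4 := by
      have : ((a * b⁻¹ : Circle) : ℂ) - 1 = ((a : ℂ) - b) * ((b⁻¹ : Circle) : ℂ) := by
        have hb : (b : ℂ) * ((b⁻¹ : Circle) : ℂ) = 1 := by
          rw [← Circle.coe_mul, mul_inv_cancel]
          simp
        rw [Circle.coe_mul]
        linear_combination hb
      rw [this, norm_mul, Circle.norm_coe, mul_one, ← circle_dist]
      exact h1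
    rw [Circle.mem_centeredArc (by linarith [Real.pi_pos])]
    rw [Complex.abs_arg_lt_pi_div_two_iff]
    left
    have h4 := (Complex.abs_re_le_norm (((a * b⁻¹ : Circle) : ℂ) - 1)).trans_lt h3
    rw [Complex.sub_re, Complex.one_re, abs_lt] at h4
    linarith [h4.1]
  rw [mul_inv_eq_one] at hq
  rw [hq]

/-- If a precompact group `G` with continuous evaluation maps onto `H`, then all compact sets of
characters of `H` are finite. -/
theorem finite_of_surjective {G H : Type*} [CommGroup G] [TopologicalSpace G]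
    [IsTopologicalGroup G] [CommGroup H] [TopologicalSpace H] [IsTopologicalGroup H]
    (hp : Precompact G) (hr : Reflexive G) (f : G →ₜ* H)
    (hf : Function.Surjective f) (C : Set (PontryaginDual H)) (hC : IsCompact C) : C.Finite := by
  obtain ⟨e, he⟩ := hr
  have h1 : IsCompact (PontryaginDual.map f '' C) :=
    hC.image (PontryaginDual.map f).continuous_toFun
  have h2 := finite_of_isCompact hp e e.continuous he _ h1
  apply Set.Finite.of_finite_image h2
  intro χ _ ψ _ h
  ext b
  obtain ⟨a, rfl⟩ := hf b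
  exact congrArg (fun z : Circle => (z : ℂ)) (DFunLike.congr_fun h a)

end Pool.Agent.X199.BohrZ
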