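import Mathlib
import Pool.Agent.X199.BohrZ

/-!
# The integers with the Bohr topology
-/

open Topology Filter Set

namespace Pool.Agent.X199.BohrZ

/-- The group of integers, written multiplicatively, as a type synonym which will carry the Bohr
topology. -/
def ZB : Type := Multiplicative ℤ

instance : CommGroup ZB := inferInstanceAs (CommGroup (Multiplicative ℤ))

/-- The integer behind an element of `ZB`. -/
def ZB.toInt (n : ZB) : ℤ := Multiplicative.toAdd (n : Multiplicative ℤ)

/-- The element of `ZB` given by an integer. -/
def ZB.ofInt (n : ℤ) : ZB := (Multiplicative.ofAdd n : Multiplicative ℤ)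

@[simp] lemma toInt_ofInt (n : ℤ) : (ZB.ofInt n).toInt = n := rfl
@[simp] lemma ofInt_toInt (n : ZB) : ZB.ofInt n.toInt = n := rfl
@[simp] lemma toInt_mul (m n : ZB) : (m * n).toInt = m.toInt + n.toInt := rfl
@[simp] lemma toInt_one : (1 : ZB).toInt = 0 := rfl
@[simp] lemma toInt_inv (n : ZB) : (n⁻¹).toInt = -n.toInt := rfl
lemma toInt_injective : Function.Injective ZB.toInt := fun a b h => by
  rw [← ofInt_toInt a, h, ofInt_toInt]

/-- The homomorphism `n ↦ (t ^ n)_t` into the product of circles indexed by the circle. -/
noncomputable def ev : ZB →* (Circle → Circle) where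
  toFun n := fun t => t ^ n.toInt
  map_one' := by ext t; simp
  map_mul' m n := by ext t; simp [zpow_add]

/-- The Bohr topology of the integers: the coarsest topology for which all the characters
`n ↦ t ^ n` are continuous. -/
noncomputable instance : TopologicalSpace ZB := TopologicalSpace.induced ev inferInstance

lemma inducing_ev : IsInducing ev := ⟨rfl⟩

instance : IsTopologicalGroup ZB := topologicalGroup_induced ev

lemma continuous_char (t : Circle) : Continuous fun n : ZB => t ^ n.toInt :=
  (continuous_apply t).comp inducing_ev.continuous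

lemma exp_one_zpow {n : ℤ} (h : (Circle.exp 1) ^ n = 1) : n = 0 := by
  by_contra hn
  rw [← Circle.exp_zsmul, zsmul_eq_mul, mul_one, Circle.exp_eq_one] at h
  obtain ⟨k, hk⟩ := h
  have hk0 : (k : ℝ) ≠ 0 := by
    rintro h0
    rw [h0] at hk
    simp only [zero_mul] at hk
    exact hn (by exact_mod_cast hk)
  apply irrational_pi
  refine ⟨(n : ℚ) / (2 * k), ?_⟩
  push_cast
  field_simp
  linarith

lemma char_injective : Function.Injective fun n : ZB => (Circle.exp 1) ^ n.toInt := by
  intro m n h
  apply toInt_injective
  have h' : (Circle.exp 1) ^ m.toInt = (Circle.exp 1) ^ n.toInt := h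
  have h1 : (Circle.exp 1) ^ (m.toInt - n.toInt) = 1 := by
    rw [zpow_sub, h', mul_inv_cancel]
  have := exp_one_zpow h1
  linarith

instance : T2Space ZB := T2Space.of_injective_continuous char_injective (continuous_char _)

theorem precompact_ZB : Precompact ZB := precompact_of_inducing ev inducing_ev

/-- A sequence of non-zero integers does not converge to `0` in the Bohr topology. -/
lemma not_tendsto_one (m : ℕ → ℤ) (hm : ∀ k, m k ≠ 0)
    (h : ∀ t : Circle, Tendsto (fun k => t ^ (m k)) atTop (𝓝 1)) : False := by
  have h1 : ∀ k, ∫ θ in (0:ℝ)..(2 * Real.pi), Complex.exp ((m k * Complex.I) * θ) = 0 := by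
    intro k
    have hc : (m k * Complex.I : ℂ) ≠ 0 := by
      simp [hm k]
    rw [integral_exp_mul_complex hc]
    have h2 : Complex.exp (m k * Complex.I * ((2 * Real.pi : ℝ) : ℂ)) = 1 := by
      have := Complex.exp_int_mul_two_pi_mul_I (m k)
      rw [← this]
      congr 1
      push_cast
      ring
    rw [h2]
    simp
  have h3 : Tendsto (fun k => ∫ θ in (0:ℝ)..(2 * Real.pi), Complex.exp ((m k * Complex.I) * θ))
      atTop (𝓝 (∫ θ in (0:ℝ)..(2 * Real.pi), (1 : ℂ))) := by
    apply intervalIntegral.tendsto_integral_filter_of_dominated_convergence (fun _ => (1:ℝ))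
    · filter_upwards with k
      exact (by fun_prop : Continuous fun θ : ℝ => Complex.exp ((m k * Complex.I) * θ)).aestronglyMeasurable
    · filter_upwards with k
      filter_upwards with θ _
      rw [show (m k * Complex.I) * (θ : ℂ) = ((m k * θ : ℝ) : ℂ) * Complex.I by push_cast; ring,
        Complex.norm_exp_ofReal_mul_I]
    · simp
    · filter_upwards with θ _
      have h4 := h (Circle.exp θ)
      have h5 : Tendsto (fun k => (((Circle.exp θ) ^ (m k) : Circle) : ℂ)) atTop
          (𝓝 ((1 : Circle) : ℂ)) := (continuous_subtype_val.tendsto _).comp h4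
      rw [Circle.coe_one] at h5
      refine h5.congr fun k => ?_
      rw [← Circle.exp_zsmul, Circle.coe_exp]
      congr 1
      push_cast [zsmul_eq_mul]
      ring
  simp only [h1] at h3
  have h6 := tendsto_nhds_unique h3 tendsto_const_nhds
  simp only [intervalIntegral.integral_const, sub_zero] at h6
  have h7 := Real.pi_pos
  rw [Complex.real_smul, mul_one] at h6
  have h8 : (2 * Real.pi : ℝ) = 0 := by exact_mod_cast h6
  linarith

/-- Compact sets of integers in the Bohr topology are finite. -/
theorem finite_of_isCompact_ZB (L : Set ZB) (hL : IsCompact L) : L.Finite := by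
  by_contra hinf
  have hinf : L.Infinite := hinf
  let s := hinf.natEmbedding
  let g : ZB → Circle := fun n => (Circle.exp 1) ^ n.toInt
  have hg : Continuous g := continuous_char _
  obtain ⟨a, ⟨l, hl, rfl⟩, φ, hφ, hlim⟩ := (hL.image hg).tendsto_subseq
    (x := fun k => g (s k)) (fun k => ⟨s k, (s k).2, rfl⟩)
  have : CompactSpace L := isCompact_iff_compactSpace.1 hL
  have hemb : IsClosedEmbedding (fun x : L => g x) :=
    (hg.comp continuous_subtype_val).isClosedEmbedding
      (char_injective.comp Subtype.val_injective)
  have hlim2 : Tendsto (fun k => s (φ k)) atTop (𝓝 (⟨l, hl⟩ : L)) := by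
    rw [hemb.isEmbedding.tendsto_nhds_iff]
    exact hlim
  have hlim3 : Tendsto (fun k => ((s (φ k) : L) : ZB)) atTop (𝓝 l) :=
    (continuous_subtype_val.tendsto (⟨l, hl⟩ : L)).comp hlim2
  have hinj : Function.Injective fun k => ((s (φ k) : L) : ZB) :=
    Subtype.val_injective.comp (s.injective.comp hφ.injective)
  obtain ⟨K, hK⟩ : ∃ K : ℕ, ∀ k, K ≤ k → ((s (φ k) : L) : ZB) ≠ l := by
    by_cases h : ∃ k, ((s (φ k) : L) : ZB) = l
    · obtain ⟨k, hk⟩ := h
      refine ⟨k + 1, fun j hj hjl => ?_⟩
      have := hinj (hjl.trans hk.symm)
      omega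
    · push Not at h
      exact ⟨0, fun k _ => h k⟩
  refine not_tendsto_one (fun k => ((s (φ (k + K)) : L) : ZB).toInt - l.toInt) ?_ ?_
  · intro k h0
    exact hK (k + K) (by omega) (toInt_injective (by linarith))
  · intro t
    have h1 : Tendsto (fun k => t ^ ((s (φ (k + K)) : L) : ZB).toInt) atTop
        (𝓝 (t ^ l.toInt)) :=
      ((continuous_char t).tendsto l).comp (hlim3.comp (tendsto_add_atTop_nat K))
    have h2 := h1.mul_const ((t ^ l.toInt)⁻¹)
    rw [mul_inv_cancel] at h2
    refine h2.congr fun k => ?_
    rw [zpow_sub]

/-- The character `n ↦ t ^ n` of the integers with the Bohr topology. -/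
noncomputable def charZB (t : Circle) : PontryaginDual ZB where
  toFun n := t ^ n.toInt
  map_one' := by simp
  map_mul' m n := by simp [zpow_add]
  continuous_toFun := continuous_char t

lemma charZB_apply (t : Circle) (n : ZB) : charZB t n = t ^ n.toInt := rfl

lemma charZB_injective : Function.Injective charZB := by
  intro t u h
  have := DFunLike.congr_fun h (ZB.ofInt 1)
  rw [charZB_apply, charZB_apply] at this
  simpa using this

/-- The map `t ↦ (n ↦ t ^ n)` from the circle to the dual group (with the compact-open topology)
of the integers with the Bohr topology is continuous. -/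
theorem continuous_charZB : Continuous charZB := by
  refine (ContinuousMonoidHom.isInducing_toContinuousMap ZB Circle).continuous_iff.2 ?_
  refine ContinuousMap.continuous_compactOpen.2 fun K hK U hU => ?_
  have hfin := finite_of_isCompact_ZB K hK
  have : {t : Circle | MapsTo ((charZB t : ZB →ₜ* Circle) : C(ZB, Circle)) K U} =
      ⋂ n ∈ K, {t : Circle | t ^ n.toInt ∈ U} := by
    ext t
    simp only [mem_setOf_eq, mem_iInter]
    exact Iff.rfl
  show IsOpen {t : Circle | MapsTo ((charZB t : ZB →ₜ* Circle) : C(ZB, Circle)) K U}
  rw [this]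
  exact hfin.isOpen_biInter fun n _ => hU.preimage (continuous_zpow _)

/-- The dual group of the integers with the Bohr topology has an infinite compact subset. -/
theorem exists_infinite_compact : ∃ C : Set (PontryaginDual ZB), IsCompact C ∧ C.Infinite := by
  refine ⟨range charZB, isCompact_range continuous_charZB, ?_⟩
  have hinf : Infinite Circle := by
    apply Infinite.of_injective (fun n : ℤ => (Circle.exp 1) ^ n)
    intro m n h
    exact congrArg ZB.toInt (@char_injective (ZB.ofInt m) (ZB.ofInt n) h)
  exact infinite_range_of_injective charZB_injective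

/-- The integers with the Bohr topology are not a continuous homomorphic image of any reflexive
precompact abelian group. -/
theorem not_image (G : Type*) [CommGroup G] [TopologicalSpace G] [IsTopologicalGroup G]
    (hp : Precompact G) (hr : Reflexive G) (f : G →ₜ* ZB) : ¬ Function.Surjective f := by
  intro hf
  obtain ⟨C, hC, hinf⟩ := exists_infinite_compact
  exact hinf (finite_of_surjective hp hr f hf C hC)

end Pool.Agent.X199.BohrZ
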