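import Mathlib

/-!
# Products of a space with the one-point compactification of a discrete space

If `X` is a `T₁` space and the closure of every discrete subset of `X × K` is Lindelöf, where `K` is
the one-point compactification of the set `X` with the discrete topology, then `X` is Lindelöf.
-/

set_option autoImplicit false

open Set Topology Filter

universe u

namespace Pool.Agent.X199

/-- The set `X` with the discrete topology. -/
def Dsc (X : Type u) : Type u := X

instance (X : Type u) : TopologicalSpace (Dsc X) := ⊥

instance (X : Type u) : DiscreteTopology (Dsc X) := ⟨rfl⟩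

/-- The identity. -/
def toDsc {X : Type u} (x : X) : Dsc X := x

variable {X : Type u} [TopologicalSpace X]

/-- The graph of the identity. -/
def Gr (X : Type u) : Set (X × OnePoint (Dsc X)) := range fun x : X => (x, OnePoint.some (toDsc x))

theorem discrete_Gr : DiscreteTopology (Gr X) := by
  rw [discreteTopology_subtype_iff']
  rintro _ ⟨x, rfl⟩
  refine ⟨Prod.snd ⁻¹' {OnePoint.some (toDsc x)}, ?_, ?_⟩
  · refine IsOpen.preimage continuous_snd ?_
    have h := (OnePoint.isOpenEmbedding_coe (X := Dsc X)).isOpenMap {toDsc x} (isOpen_discrete _)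
    rwa [image_singleton] at h
  · ext p
    constructor
    · rintro ⟨h1, y, rfl⟩
      have h2 : OnePoint.some (toDsc y) = toDsc x := h1
      have h3 : y = x := OnePoint.coe_injective h2
      rw [h3]
      rfl
    · intro h
      rw [mem_singleton_iff] at h
      subst h
      exact ⟨rfl, x, rfl⟩

theorem mem_closure_Gr [T1Space X] (x : X) (hx : ¬ IsOpen ({x} : Set X)) :
    (x, (OnePoint.infty : OnePoint (Dsc X))) ∈ closure (Gr X) := by
  rw [mem_closure_iff]
  intro O hO hxO
  obtain ⟨U, V, hU, hV, hxU, hV1, hUV⟩ := isOpen_prod_iff.1 hO x OnePoint.infty hxO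
  have hfin : {y : Dsc X | (y : OnePoint (Dsc X)) ∉ V}.Finite := by
    have h := (OnePoint.isOpen_iff_of_mem hV1).1 hV
    have h2 := h.2
    rw [isCompact_iff_finite] at h2
    exact h2.subset fun y hy => hy
  have hinf : U.Infinite := by
    intro hUf
    apply hx
    have h1 : IsOpen (U ∩ (U \ {x})ᶜ) := hU.inter (hUf.subset sdiff_subset).isClosed.isOpen_compl
    have h2 : U ∩ (U \ {x})ᶜ = {x} := by
      ext y
      constructor
      · rintro ⟨h3, h4⟩
        by_contra h5
        exact h4 ⟨h3, h5⟩
      · intro h
        rw [mem_singleton_iff] at h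
        subst h
        exact ⟨hxU, fun h => h.2 rfl⟩
    rwa [h2] at h1
  obtain ⟨y, hy1, hy2⟩ := hinf.exists_notMem_finite hfin
  refine ⟨(y, OnePoint.some (toDsc y)), hUV ⟨hy1, ?_⟩, y, rfl⟩
  by_contra h
  exact hy2 h

theorem lindelof_of_prod [T1Space X]
    (h : ∀ D : Set (X × OnePoint (Dsc X)), DiscreteTopology D → LindelofSpace (closure D)) :
    LindelofSpace X := by
  let e : X → X × OnePoint (Dsc X) := fun x => (x, OnePoint.infty)
  have he : IsClosedEmbedding e := by
    refine ⟨(isEmbedding_prodMkLeft _), ?_⟩
    have : range e = Prod.snd ⁻¹' {OnePoint.infty} := by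
      ext p
      constructor
      · rintro ⟨x, rfl⟩
        rfl
      · intro hp
        exact ⟨p.1, Prod.ext rfl (Eq.symm hp)⟩
    rw [this]
    exact isClosed_singleton.preimage continuous_snd
  have hA : IsLindelof (e ⁻¹' closure (Gr X)) := by
    have h1 := h (Gr X) discrete_Gr
    rw [← isLindelof_iff_lindelofSpace] at h1
    have h2 : IsLindelof (closure (Gr X) ∩ range e) := h1.inter_right he.isClosed_range
    rw [← image_preimage_eq_inter_range] at h2
    exact (he.isInducing.isLindelof_iff).2 h2
  have hB : IsLindelof (closure {x : X | IsOpen ({x} : Set X)}) := by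
    have hd : DiscreteTopology (e '' {x : X | IsOpen ({x} : Set X)}) := by
      have h0 : DiscreteTopology {x : X | IsOpen ({x} : Set X)} := by
        rw [discreteTopology_subtype_iff']
        intro y hy
        exact ⟨{y}, hy, by
          ext z
          constructor
          · rintro ⟨h1, -⟩
            exact h1
          · intro hz
            rw [mem_singleton_iff] at hz
            subst hz
            exact ⟨rfl, hy⟩⟩
      exact (he.isEmbedding.homeomorphImage _).symm.isEmbedding.discreteTopology
    have h1 := h _ hd
    rw [← isLindelof_iff_lindelofSpace, he.closure_image_eq] at h1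
    exact (he.isInducing.isLindelof_iff).2 h1
  have hu : (univ : Set X) ⊆ (e ⁻¹' closure (Gr X)) ∪ closure {x : X | IsOpen ({x} : Set X)} := by
    intro x _
    by_cases hx : IsOpen ({x} : Set X)
    · exact Or.inr (subset_closure hx)
    · exact Or.inl (mem_closure_Gr x hx)
  have h3 := (hA.union hB).of_isClosed_subset isClosed_univ hu
  exact ⟨h3⟩

end Pool.Agent.X199
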