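import Mathlib

/-!
# Free topological vector spaces: first properties
-/

set_option autoImplicit false

open Set Topology Filter TopologicalSpace
open Cardinal hiding univ

universe u

namespace Pool.Agent.X199.FT

/-- `(V, i)` is the free topological vector space over the space `X`: `V` is a topological vector
space, `i : X → V` is continuous and every continuous map from `X` to a topological vector space
factors through `i` by a unique continuous linear map. -/
structure IsFreeTVS (X : Type u) [TopologicalSpace X] (V : Type u) [AddCommGroup V] [Module ℝ V]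
    [TopologicalSpace V] (i : X → V) : Prop where
  addGroup : IsTopologicalAddGroup V
  contSMul : ContinuousSMul ℝ V
  cont : Continuous i
  lift : ∀ (E : Type u) [AddCommGroup E] [Module ℝ E] [TopologicalSpace E]
    [IsTopologicalAddGroup E] [ContinuousSMul ℝ E] (f : X → E), Continuous f →
    ∃! g : V →L[ℝ] E, ∀ x, g (i x) = f x

variable {X : Type u} [TopologicalSpace X] {V : Type u} [AddCommGroup V] [Module ℝ V]
  [TopologicalSpace V] {i : X → V}

theorem IsFreeTVS.lift_real (h : IsFreeTVS X V i) (f : X → ℝ) (hf : Continuous f) :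
    ∃ g : V →L[ℝ] ℝ, ∀ x, g (i x) = f x := by
  obtain ⟨g, hg, -⟩ := h.lift (ULift.{u} ℝ) (fun x => ULift.up (f x))
    (continuous_uliftUp.comp hf)
  refine ⟨(ContinuousLinearEquiv.ulift : ULift.{u} ℝ ≃L[ℝ] ℝ).toContinuousLinearMap.comp g, ?_⟩
  intro x
  have h1 : ((ContinuousLinearEquiv.ulift : ULift.{u} ℝ ≃L[ℝ] ℝ).toContinuousLinearMap.comp g)
      (i x) = (g (i x)).down := rfl
  rw [h1, hg x]

theorem IsFreeTVS.span_eq (h : IsFreeTVS X V i) : Submodule.span ℝ (range i) = ⊤ := by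
  let S := Submodule.span ℝ (range i)
  let _ : TopologicalSpace (V ⧸ S) := ⊤
  have h1 : IsTopologicalAddGroup (V ⧸ S) :=
    { continuous_add := continuous_top
      continuous_neg := continuous_top }
  have h2 : ContinuousSMul ℝ (V ⧸ S) := ⟨continuous_top⟩
  obtain ⟨g, -, hg⟩ := h.lift (V ⧸ S) (fun _ => 0) continuous_const
  have h3 : (⟨S.mkQ, continuous_top⟩ : V →L[ℝ] V ⧸ S) = g := by
    refine hg _ fun x => ?_
    change S.mkQ (i x) = 0
    rw [Submodule.mkQ_apply, Submodule.Quotient.mk_eq_zero]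
    exact Submodule.subset_span ⟨x, rfl⟩
  have h4 : (0 : V →L[ℝ] V ⧸ S) = g := hg _ fun x => rfl
  rw [eq_top_iff]
  intro v _
  have h5 : S.mkQ v = 0 := by
    have := congrArg (fun k : V →L[ℝ] V ⧸ S => k v) (h3.trans h4.symm)
    exact this
  rwa [Submodule.mkQ_apply, Submodule.Quotient.mk_eq_zero] at h5

theorem exists_fun [T35Space X] (F : Finset X) (x : X) :
    ∃ f : X → ℝ, Continuous f ∧ f x = 1 ∧ ∀ y ∈ F, y ≠ x → f y = 0 := by
  have hcl : IsClosed ((F : Set X) \ {x}) := (F.finite_toSet.sdiff).isClosed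
  obtain ⟨f, hf, h0, h1⟩ := CompletelyRegularSpace.completely_regular x _ hcl
    (fun h => h.2 rfl)
  refine ⟨fun y => 1 - (f y : ℝ), continuous_const.sub (continuous_subtype_val.comp hf), ?_, ?_⟩
  · simp [h0]
  · intro y hy hyx
    have := h1 ⟨hy, hyx⟩
    simp [this]

theorem IsFreeTVS.exists_functional [T35Space X] (h : IsFreeTVS X V i) (l : X →₀ ℝ) (x : X)
    (hx : l x ≠ 0) : ∃ g : V →L[ℝ] ℝ, g (Finsupp.linearCombination ℝ i l) ≠ 0 := by
  obtain ⟨f, hf, h1, h0⟩ := exists_fun l.support x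
  obtain ⟨g, hg⟩ := h.lift_real f hf
  refine ⟨g, ?_⟩
  rw [Finsupp.linearCombination_apply, Finsupp.sum, map_sum]
  rw [Finset.sum_eq_single x]
  · simp [hg, h1, hx]
  · intro y hy hyx
    simp [hg, h0 y hy hyx]
  · intro hx'
    simp only [Finsupp.mem_support_iff, not_not] at hx'
    exact absurd hx' hx

theorem IsFreeTVS.linearIndependent [T35Space X] (h : IsFreeTVS X V i) :
    LinearIndependent ℝ i := by
  rw [linearIndependent_iff]
  intro l hl
  by_contra hne
  obtain ⟨x, hx⟩ := Finsupp.ne_iff.1 hne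
  obtain ⟨g, hg⟩ := h.exists_functional l x hx
  rw [hl, map_zero] at hg
  exact hg rfl

theorem IsFreeTVS.t2 [T35Space X] (h : IsFreeTVS X V i) : T2Space V := by
  refine ⟨fun v w hvw => ?_⟩
  have h1 : v - w ∈ Submodule.span ℝ (range i) := by
    rw [h.span_eq]
    trivial
  obtain ⟨l, hl⟩ := (Finsupp.mem_span_range_iff_exists_finsupp).1 h1
  have hl' : Finsupp.linearCombination ℝ i l = v - w := hl
  have hne : l ≠ 0 := by
    rintro rfl
    rw [map_zero] at hl'
    exact hvw (sub_eq_zero.1 hl'.symm)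
  obtain ⟨x, hx⟩ := Finsupp.ne_iff.1 hne
  obtain ⟨g, hg⟩ := h.exists_functional l x hx
  rw [hl', map_sub] at hg
  exact separated_by_continuous g.continuous (fun h => hg (sub_eq_zero.2 h))

/-- Sums of `n` terms with coefficients of absolute value at most `R` and points in `K`. -/
def Cs (i : X → V) (n : ℕ) (R : ℝ) (K : Set X) : Set V :=
  {v | ∃ (l : Fin n → ℝ) (x : Fin n → X), (∀ j, |l j| ≤ R) ∧ (∀ j, x j ∈ K) ∧
    v = ∑ j, l j • i (x j)}

omit [TopologicalSpace X] [TopologicalSpace V] in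
theorem Cs_mono {n : ℕ} {R R' : ℝ} {K K' : Set X} (hR : R ≤ R') (hK : K ⊆ K') :
    Cs i n R K ⊆ Cs i n R' K' := by
  rintro v ⟨l, x, hl, hx, rfl⟩
  exact ⟨l, x, fun j => (hl j).trans hR, fun j => hK (hx j), rfl⟩

omit [TopologicalSpace X] [TopologicalSpace V] in
theorem Cs_add {m n : ℕ} {R : ℝ} {K : Set X} {v w : V} (hv : v ∈ Cs i m R K)
    (hw : w ∈ Cs i n R K) : v + w ∈ Cs i (m + n) R K := by
  obtain ⟨l, x, hl, hx, rfl⟩ := hv
  obtain ⟨l', x', hl', hx', rfl⟩ := hw
  refine ⟨Fin.append l l', Fin.append x x', ?_, ?_, ?_⟩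
  · intro j
    refine Fin.addCases (fun j => ?_) (fun j => ?_) j
    · rw [Fin.append_left]
      exact hl j
    · rw [Fin.append_right]
      exact hl' j
  · intro j
    refine Fin.addCases (fun j => ?_) (fun j => ?_) j
    · rw [Fin.append_left]
      exact hx j
    · rw [Fin.append_right]
      exact hx' j
  · rw [Fin.sum_univ_add]
    simp [Fin.append_left, Fin.append_right]

omit [TopologicalSpace X] [TopologicalSpace V] in
theorem zero_mem_Cs {n : ℕ} {R : ℝ} {K : Set X} (hR : 0 ≤ R) (hK : K.Nonempty) :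
    (0 : V) ∈ Cs i n R K := by
  obtain ⟨x, hx⟩ := hK
  exact ⟨fun _ => 0, fun _ => x, fun _ => by simpa using hR, fun _ => hx, by simp⟩

omit [TopologicalSpace X] [TopologicalSpace V] in
theorem Cs_mono' {m n : ℕ} {R : ℝ} {K : Set X} (hR : 0 ≤ R) (hK : K.Nonempty) (hmn : m ≤ n) :
    Cs i m R K ⊆ Cs i n R K := by
  intro v hv
  have h1 := Cs_add (m := m) (n := n - m) (v := v) (w := 0) hv (zero_mem_Cs hR hK)
  rwa [add_zero, Nat.add_sub_cancel' hmn] at h1

omit [TopologicalSpace X] [TopologicalSpace V] in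
theorem Cs_smul {n : ℕ} {R S c : ℝ} {K : Set X} {v : V} (hv : v ∈ Cs i n R K)
    (h : |c| * R ≤ S) : c • v ∈ Cs i n S K := by
  obtain ⟨l, x, hl, hx, rfl⟩ := hv
  refine ⟨fun j => c * l j, x, fun j => ?_, hx, ?_⟩
  · rw [abs_mul]
    exact (mul_le_mul_of_nonneg_left (hl j) (abs_nonneg c)).trans h
  · rw [Finset.smul_sum]
    simp [mul_smul]

theorem isCompact_Cs [IsTopologicalAddGroup V] [ContinuousSMul ℝ V] (hi : Continuous i) (n : ℕ)
    (R : ℝ) {K : Set X} (hK : IsCompact K) : IsCompact (Cs i n R K) := by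
  have h1 : IsCompact ((univ.pi fun _ : Fin n => Icc (-R) R) ×ˢ (univ.pi fun _ : Fin n => K)) :=
    (isCompact_univ_pi fun _ => isCompact_Icc).prod (isCompact_univ_pi fun _ => hK)
  have h2 : Continuous fun p : (Fin n → ℝ) × (Fin n → X) => ∑ j, p.1 j • i (p.2 j) := by
    refine continuous_finsetSum _ fun j _ => ?_
    exact ((continuous_apply j).comp continuous_fst).smul
      (hi.comp ((continuous_apply j).comp continuous_snd))
  have h3 := h1.image h2
  convert h3 using 1
  ext v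
  constructor
  · rintro ⟨l, x, hl, hx, rfl⟩
    exact ⟨(l, x), ⟨fun j _ => abs_le.1 (hl j), fun j _ => hx j⟩, rfl⟩
  · rintro ⟨⟨l, x⟩, ⟨h1, h2⟩, rfl⟩
    exact ⟨l, x, fun j => abs_le.2 (h1 j trivial), fun j => h2 j trivial, rfl⟩

theorem IsFreeTVS.exists_mem_Cs [Nonempty X] (h : IsFreeTVS X V i) (v : V) :
    ∃ (n : ℕ) (R : ℝ), v ∈ Cs i n R univ := by
  have h1 : v ∈ Submodule.span ℝ (range i) := by
    rw [h.span_eq]
    trivial
  induction h1 using Submodule.span_induction with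
  | mem x hx =>
    obtain ⟨y, rfl⟩ := hx
    exact ⟨1, 1, fun _ => 1, fun _ => y, fun _ => by simp, fun _ => trivial, by simp⟩
  | zero => exact ⟨0, 0, zero_mem_Cs le_rfl univ_nonempty⟩
  | add x y _ _ hx hy =>
    obtain ⟨m, R, hm⟩ := hx
    obtain ⟨n, S, hn⟩ := hy
    exact ⟨m + n, max R S, Cs_add (Cs_mono (le_max_left R S) Subset.rfl hm)
      (Cs_mono (le_max_right R S) Subset.rfl hn)⟩
  | smul c x _ hx =>
    obtain ⟨m, R, hm⟩ := hx
    exact ⟨m, |c| * R, Cs_smul hm le_rfl⟩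

/-- The level `sp_n(X)`. -/
def sp (i : X → V) (n : ℕ) : Set V :=
  {v | ∃ (l : Fin n → ℝ) (x : Fin n → X), (∀ j, l j ∈ Icc (-(n : ℝ)) n) ∧ v = ∑ j, l j • i (x j)}

omit [TopologicalSpace X] [TopologicalSpace V] in
theorem sp_eq (n : ℕ) : sp i n = Cs i n n univ := by
  ext v
  constructor
  · rintro ⟨l, x, hl, rfl⟩
    exact ⟨l, x, fun j => abs_le.2 (hl j), fun _ => trivial, rfl⟩
  · rintro ⟨l, x, hl, -, rfl⟩
    exact ⟨l, x, fun j => abs_le.1 (hl j), rfl⟩

/-- An element of a level supported in `K` is in the corresponding set for `K`. -/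
theorem IsFreeTVS.mem_Cs_of_span [T35Space X] (h : IsFreeTVS X V i) {n m : ℕ} {R S : ℝ}
    {K : Set X} (hK : K.Nonempty) {v : V} (hv : v ∈ Cs i n R univ) (hv' : v ∈ Cs i m S K) :
    v ∈ Cs i n R K := by
  classical
  have hli := h.linearIndependent
  have hsp : ⊤ ≤ Submodule.span ℝ (range i) := h.span_eq.ge
  let b := Module.Basis.mk hli hsp
  let r : V →ₗ[ℝ] V := b.constr ℝ fun x => if x ∈ K then i x else 0
  have hr : ∀ x, r (i x) = if x ∈ K then i x else 0 := by
    intro x
    have h1 : b x = i x := Module.Basis.mk_apply hli hsp x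
    have h2 : r (b x) = if x ∈ K then i x else 0 := b.constr_basis ℝ _ x
    rwa [h1] at h2
  have h1 : r v = v := by
    obtain ⟨l, x, -, hx, rfl⟩ := hv'
    rw [map_sum]
    refine Finset.sum_congr rfl fun j _ => ?_
    rw [map_smul, hr, if_pos (hx j)]
  obtain ⟨l, x, hl, -, rfl⟩ := hv
  obtain ⟨p, hp⟩ := hK
  refine ⟨fun j => if x j ∈ K then l j else 0, fun j => if x j ∈ K then x j else p, ?_, ?_, ?_⟩
  · intro j
    by_cases hj : x j ∈ K
    · simpa [hj] using hl j
    · simpa [hj] using (abs_nonneg (l j)).trans (hl j)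
  · intro j
    by_cases hj : x j ∈ K
    · simpa [hj] using hj
    · simpa [hj] using hp
  · conv_lhs => rw [← h1]
    rw [map_sum]
    refine Finset.sum_congr rfl fun j _ => ?_
    rw [map_smul, hr]
    by_cases hj : x j ∈ K
    · simp [hj]
    · simp [hj]

/-! ### The topology determined by a sequence of compact sets -/

section KT

/-- The topology on `V` determined by the sets `C m`. -/
@[reducible] def kTop (V : Type*) [t : TopologicalSpace V] (C : ℕ → Set V) : TopologicalSpace V where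
  IsOpen U := ∀ m, ∃ O, IsOpen[t] O ∧ U ∩ C m = O ∩ C m
  isOpen_univ := fun _ => ⟨univ, isOpen_univ, rfl⟩
  isOpen_inter := by
    intro U W hU hW m
    obtain ⟨O, hO, h1⟩ := hU m
    obtain ⟨P, hP, h2⟩ := hW m
    refine ⟨O ∩ P, hO.inter hP, ?_⟩
    rw [inter_inter_distrib_right, h1, h2, ← inter_inter_distrib_right]
  isOpen_sUnion := by
    intro S hS m
    choose O hO h1 using fun U : S => hS U.1 U.2 m
    refine ⟨⋃ U, O U, isOpen_iUnion hO, ?_⟩
    rw [sUnion_eq_iUnion, iUnion_inter, iUnion_inter]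
    exact iUnion_congr h1

/-- The properties of the sequence of compact sets that we need. -/
structure Good (V : Type*) [AddCommGroup V] [Module ℝ V] [TopologicalSpace V]
    (C : ℕ → Set V) : Prop where
  mono : Monotone C
  comp : ∀ m, IsCompact (C m)
  zero : ∀ m, (0 : V) ∈ C m
  add : ∀ m, ∃ m', ∀ v ∈ C m, ∀ w ∈ C m, v + w ∈ C m'
  smul : ∀ (c : ℝ) (m : ℕ), ∃ m', ∀ v ∈ C m, c • v ∈ C m'
  bal : ∀ (c : ℝ) (m : ℕ), |c| ≤ 1 → ∀ v ∈ C m, c • v ∈ C m
  cover : ∀ v, ∃ m, v ∈ C m

variable {W : Type*} [AddCommGroup W] [Module ℝ W] [t : TopologicalSpace W]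
  [IsTopologicalAddGroup W] [ContinuousSMul ℝ W] [T2Space W] {C : ℕ → Set W}

theorem Good.exists_half (hC : Good W C) {U : Set W} (hU : IsOpen[kTop W C] U)
    (h0 : (0 : W) ∈ U) :
    ∃ A : Set W, IsOpen[kTop W C] A ∧ (0 : W) ∈ A ∧ ∀ a ∈ A, ∀ b ∈ A, a + b ∈ U := by
  let P : ℕ → Set W → Prop := fun m A =>
    IsClosed A ∧ A ⊆ C m ∧ (0 : W) ∈ A ∧ ∀ a ∈ A, ∀ b ∈ A, a + b ∈ U
  have hstep : ∀ m A, P m A → ∃ A' G, P (m + 1) A' ∧ IsOpen G ∧ A ⊆ G ∧ G ∩ C (m + 1) ⊆ A' := by
    rintro m A ⟨h1, h2, h3, h4⟩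
    obtain ⟨m', hm'⟩ := hC.add (m + 1)
    obtain ⟨O, hO, hUO⟩ := hU m'
    have hAc : IsCompact A := (hC.comp m).of_isClosed_subset h1 h2
    have hA' : A ⊆ C (m + 1) := h2.trans (hC.mono (Nat.le_succ m))
    have hsub : A ×ˢ A ⊆ {p : W × W | p.1 + p.2 ∈ O} := by
      rintro ⟨a, b⟩ ⟨ha, hb⟩
      have : a + b ∈ U ∩ C m' := ⟨h4 a ha b hb, hm' a (hA' ha) b (hA' hb)⟩
      rw [hUO] at this
      exact this.1
    obtain ⟨u, v, hu, hv, hAu, hAv, huv⟩ := generalized_tube_lemma hAc hAc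
      (hO.preimage continuous_add) hsub
    obtain ⟨G, hG, hAG, hGuv⟩ := hAc.exists_isOpen_closure_subset
      ((hu.inter hv).mem_nhdsSet.2 (subset_inter hAu hAv))
    refine ⟨closure G ∩ C (m + 1), G, ⟨isClosed_closure.inter (hC.comp _).isClosed,
      inter_subset_right, ⟨subset_closure (hAG h3), hC.zero _⟩, ?_⟩, hG, hAG,
      inter_subset_inter_left _ subset_closure⟩
    rintro a ⟨ha, ha'⟩ b ⟨hb, hb'⟩
    have h6 : ((a, b) : W × W) ∈ u ×ˢ v := ⟨(hGuv ha).1, (hGuv hb).2⟩
    have h5 : a + b ∈ O ∩ C m' := ⟨huv h6, hm' a ha' b hb'⟩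
    rw [← hUO] at h5
    exact h5.1
  choose! A' G hP' hG hAG hGA using hstep
  have hP0 : P 0 {0} := by
    refine ⟨isClosed_singleton, ?_, rfl, ?_⟩
    · rintro _ rfl
      exact hC.zero 0
    · rintro _ rfl _ rfl
      simpa using h0
  let A : ℕ → Set W := fun m => Nat.rec {0} (fun m B => A' m B) m
  have hA : ∀ m, P m (A m) := by
    intro m
    induction m with
    | zero => exact hP0
    | succ m ih => exact hP' m _ ih
  have hAsucc : ∀ m, A (m + 1) = A' m (A m) := fun m => rfl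
  have hstepA : ∀ m, A m ⊆ A (m + 1) := by
    intro m x hx
    exact hGA m _ (hA m) ⟨hAG m _ (hA m) hx, hC.mono (Nat.le_succ m) ((hA m).2.1 hx)⟩
  have hmonoA : Monotone A := monotone_nat_of_le_succ hstepA
  refine ⟨⋃ m, A m, ?_, mem_iUnion.2 ⟨0, rfl⟩, ?_⟩
  · intro n
    refine ⟨⋃ m, G (m + n) (A (m + n)), isOpen_iUnion fun m => hG _ _ (hA _), ?_⟩
    ext p
    constructor
    · rintro ⟨hp, hpn⟩
      obtain ⟨m, hm⟩ := mem_iUnion.1 hp
      exact ⟨mem_iUnion.2 ⟨m, hAG _ _ (hA _) (hmonoA (Nat.le_add_right m n) hm)⟩, hpn⟩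
    · rintro ⟨hp, hpn⟩
      obtain ⟨m, hm⟩ := mem_iUnion.1 hp
      refine ⟨mem_iUnion.2 ⟨m + n + 1, ?_⟩, hpn⟩
      exact hGA _ _ (hA _) ⟨hm, hC.mono (by omega) hpn⟩
  · intro a ha b hb
    obtain ⟨m, hm⟩ := mem_iUnion.1 ha
    obtain ⟨n, hn⟩ := mem_iUnion.1 hb
    exact (hA (max m n)).2.2.2 a (hmonoA (le_max_left m n) hm) b (hmonoA (le_max_right m n) hn)

theorem Good.continuous_of_maps (hC : Good W C) {f : W → W} (hf : Continuous f)
    (hm : ∀ m, ∃ m', ∀ v ∈ C m, f v ∈ C m') : @Continuous W W (kTop W C) (kTop W C) f := by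
  refine @Continuous.mk W W (kTop W C) (kTop W C) f ?_
  intro U hU m
  obtain ⟨m', hm'⟩ := hm m
  obtain ⟨O, hO, h1⟩ := hU m'
  refine ⟨f ⁻¹' O, hO.preimage hf, ?_⟩
  ext v
  constructor
  · rintro ⟨hv, hvm⟩
    have : f v ∈ U ∩ C m' := ⟨hv, hm' v hvm⟩
    rw [h1] at this
    exact ⟨this.1, hvm⟩
  · rintro ⟨hv, hvm⟩
    have : f v ∈ O ∩ C m' := ⟨hv, hm' v hvm⟩
    rw [← h1] at this
    exact ⟨this.1, hvm⟩

theorem Good.exists_add_mem (hC : Good W C) (w : W) (m : ℕ) :
    ∃ m', ∀ v ∈ C m, w + v ∈ C m' := by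
  obtain ⟨k, hk⟩ := hC.cover w
  obtain ⟨m', hm'⟩ := hC.add (max k m)
  exact ⟨m', fun v hv => hm' w (hC.mono (le_max_left k m) hk) v (hC.mono (le_max_right k m) hv)⟩

theorem Good.isTopologicalAddGroup (hC : Good W C) : @IsTopologicalAddGroup W (kTop W C) _ := by
  refine @IsTopologicalAddGroup.of_comm_of_nhds_zero W _ (kTop W C) ?_ ?_ ?_
  · rw [Filter.tendsto_def]
    intro s hs
    obtain ⟨U, hUs, hU, h0⟩ := (@mem_nhds_iff W (kTop W C) 0 s).1 hs
    obtain ⟨A, hA, hA0, hAA⟩ := hC.exists_half hU h0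
    have hA' : A ∈ @nhds W (kTop W C) 0 := (@IsOpen.mem_nhds W (kTop W C) 0 A hA hA0)
    refine Filter.mem_of_superset (Filter.prod_mem_prod hA' hA') ?_
    rintro ⟨a, b⟩ ⟨ha, hb⟩
    exact hUs (hAA a ha b hb)
  · have h1 := hC.continuous_of_maps (f := fun x : W => -x) continuous_neg (fun m =>
      ⟨m, fun v hv => by simpa using hC.bal (-1) m (by simp) v hv⟩)
    have h2 := @Continuous.tendsto W W (kTop W C) (kTop W C) _ h1 0
    simpa using h2
  · intro w
    have h1 := hC.continuous_of_maps (f := fun x : W => w + x) (continuous_const.add continuous_id)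
      (hC.exists_add_mem w)
    have h2 := hC.continuous_of_maps (f := fun x : W => -w + x)
      (continuous_const.add continuous_id) (hC.exists_add_mem (-w))
    refine le_antisymm ?_ ?_
    · have h3 := @Continuous.tendsto W W (kTop W C) (kTop W C) _ h2 w
      rw [neg_add_cancel] at h3
      intro s hs
      rw [Filter.mem_map] at hs
      have h4 := h3 hs
      rw [Filter.mem_map] at h4
      convert h4 using 1
      ext x
      simp
    · have h3 := @Continuous.tendsto W W (kTop W C) (kTop W C) _ h1 0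
      rw [add_zero] at h3
      exact h3

theorem Good.continuousSMul (hC : Good W C) : @ContinuousSMul ℝ W _ _ (kTop W C) := by
  have := hC.isTopologicalAddGroup
  refine @ContinuousSMul.of_nhds_zero ℝ W _ _ (kTop W C) _ _ _ _ ?_ ?_ ?_
  · rw [Filter.tendsto_def]
    intro s hs
    obtain ⟨U, hUs, hU, h0⟩ := (@mem_nhds_iff W (kTop W C) 0 s).1 hs
    let A : Set W := {v | ∀ c ∈ Icc (-1 : ℝ) 1, c • v ∈ U}
    have hA : IsOpen[kTop W C] A := by
      intro m
      obtain ⟨O, hO, h1⟩ := hU m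
      refine ⟨{v | ∀ c ∈ Icc (-1 : ℝ) 1, c • v ∈ O}, ?_, ?_⟩
      · have hcont : Continuous fun p : ℝ × W => p.1 • p.2 := continuous_smul
        rw [isOpen_iff_mem_nhds]
        intro v hv
        obtain ⟨a, b, ha, hb, haI, hvb, hab⟩ := generalized_tube_lemma
          (s := Icc (-1 : ℝ) 1) isCompact_Icc (t := {v}) isCompact_singleton
          (hO.preimage hcont) (by
            rintro ⟨c, w⟩ ⟨hc, hw⟩
            rw [mem_singleton_iff] at hw
            subst hw
            exact hv c hc)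
        refine Filter.mem_of_superset (hb.mem_nhds (hvb rfl)) ?_
        intro w hw c hc
        have h7 : ((c, w) : ℝ × W) ∈ a ×ˢ b := ⟨haI hc, hw⟩
        exact hab h7
      · ext v
        constructor
        · rintro ⟨hv, hvm⟩
          refine ⟨fun c hc => ?_, hvm⟩
          have : c • v ∈ U ∩ C m := ⟨hv c hc, hC.bal c m (abs_le.2 hc) v hvm⟩
          rw [h1] at this
          exact this.1
        · rintro ⟨hv, hvm⟩
          refine ⟨fun c hc => ?_, hvm⟩
          have : c • v ∈ O ∩ C m := ⟨hv c hc, hC.bal c m (abs_le.2 hc) v hvm⟩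
          rw [← h1] at this
          exact this.1
    have hA0 : (0 : W) ∈ A := fun c _ => by simpa using h0
    have hA' : A ∈ @nhds W (kTop W C) 0 := (@IsOpen.mem_nhds W (kTop W C) 0 A hA hA0)
    have hI : Icc (-1 : ℝ) 1 ∈ 𝓝 (0 : ℝ) := Icc_mem_nhds (by norm_num) (by norm_num)
    refine Filter.mem_of_superset (Filter.prod_mem_prod hI hA') ?_
    rintro ⟨a, b⟩ ⟨ha, hb⟩
    exact hUs (hb a ha)
  · intro v
    obtain ⟨m, hm⟩ := hC.cover v
    rw [Filter.tendsto_def]
    intro s hs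
    obtain ⟨U, hUs, hU, h0⟩ := (@mem_nhds_iff W (kTop W C) 0 s).1 hs
    obtain ⟨O, hO, h1⟩ := hU m
    have h2 : Tendsto (fun c : ℝ => c • v) (𝓝 0) (𝓝 ((0 : ℝ) • v)) :=
      ((continuous_id.smul continuous_const).tendsto 0)
    rw [zero_smul] at h2
    have h3 : (0 : W) ∈ O := by
      have : (0 : W) ∈ U ∩ C m := ⟨h0, hC.zero m⟩
      rw [h1] at this
      exact this.1
    have hI : Icc (-1 : ℝ) 1 ∈ 𝓝 (0 : ℝ) := Icc_mem_nhds (by norm_num) (by norm_num)
    filter_upwards [h2 (hO.mem_nhds h3), hI] with c hc hc1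
    have : c • v ∈ O ∩ C m := ⟨hc, hC.bal c m (abs_le.2 hc1) v hm⟩
    rw [← h1] at this
    exact hUs this.1
  · intro c
    have h1 := hC.continuous_of_maps (f := fun x : W => c • x) (continuous_const.smul continuous_id)
      (hC.smul c)
    have h2 := @Continuous.tendsto W W (kTop W C) (kTop W C) _ h1 0
    simpa using h2

end KT

omit [TopologicalSpace X] [TopologicalSpace V] in
theorem lin_id (hs : Submodule.span ℝ (range i) = ⊤) (L : V →ₗ[ℝ] V) (hL : ∀ x, L (i x) = i x)
    (v : V) : L v = v := by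
  have h4 : v ∈ Submodule.span ℝ (range i) := by
    rw [hs]
    trivial
  induction h4 using Submodule.span_induction with
  | mem x hx =>
    obtain ⟨y, rfl⟩ := hx
    exact hL y
  | zero => exact map_zero L
  | add x y _ _ hx hy => rw [map_add, hx, hy]
  | smul c x _ hx => rw [map_smul, hx]

/-- A copy of `V`. -/
def Syn (V : Type u) : Type u := V

instance : AddCommGroup (Syn V) := inferInstanceAs (AddCommGroup V)
instance : Module ℝ (Syn V) := inferInstanceAs (Module ℝ V)

/-- The topology of `V(X)` is the finest vector topology for which `i` is continuous. -/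
theorem IsFreeTVS.le_of (h : IsFreeTVS X V i) [τ : TopologicalSpace (Syn V)]
    [IsTopologicalAddGroup (Syn V)] [ContinuousSMul ℝ (Syn V)]
    (hi : @Continuous X (Syn V) _ _ i) (U : Set (Syn V)) (hU : IsOpen U) :
    IsOpen (X := V) U := by
  obtain ⟨g, hg, -⟩ := h.lift (Syn V) i hi
  let L : V →ₗ[ℝ] V := g.toLinearMap
  have hid : ∀ v, L v = v := lin_id h.span_eq L hg
  have hpre : IsOpen (g ⁻¹' U) := hU.preimage g.continuous
  have : g ⁻¹' U = U := by
    ext v
    change L v ∈ U ↔ v ∈ U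
    rw [hid v]
  rwa [this] at hpre

/-- If `X` is exhausted by compact sets `K m` whose interiors cover then `V(X)` is determined by
the compact sets `Cs i m m (K m)`. -/
theorem IsFreeTVS.kOmega [T35Space X] (h : IsFreeTVS X V i) (K : ℕ → Set X)
    (hK : ∀ m, IsCompact (K m)) (hmono : Monotone K) (hne : ∀ m, (K m).Nonempty)
    (hint : ∀ x, ∃ m, x ∈ interior (K m)) {U : Set V}
    (hU : ∀ m : ℕ, ∃ O, IsOpen O ∧ U ∩ Cs i m m (K m) = O ∩ Cs i m m (K m)) : IsOpen U := by
  have h1 := h.addGroup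
  have h2 := h.contSMul
  have h3 := h.t2
  have hnx : Nonempty X := (hne 0).to_type
  let C : ℕ → Set V := fun m => Cs i m m (K m)
  have hC : Good V C := by
    refine ⟨?_, ?_, ?_, ?_, ?_, ?_, ?_⟩
    · intro m n hmn
      exact (Cs_mono (Nat.cast_le.2 hmn) (hmono hmn)).trans (Cs_mono' (by positivity) (hne n) hmn)
    · intro m
      exact isCompact_Cs h.cont m m (hK m)
    · intro m
      exact zero_mem_Cs (by positivity) (hne m)
    · intro m
      refine ⟨m + m, fun v hv w hw => ?_⟩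
      exact Cs_mono (by simp) (hmono (Nat.le_add_right m m)) (Cs_add hv hw)
    · intro c m
      obtain ⟨N, hN⟩ := exists_nat_ge (|c| * m)
      refine ⟨max N m, fun v hv => ?_⟩
      have h4 : |c| * (m : ℝ) ≤ ((max N m : ℕ) : ℝ) := hN.trans (by exact_mod_cast le_max_left N m)
      exact Cs_mono' (by positivity) (hne _) (le_max_right N m)
        (Cs_mono le_rfl (hmono (le_max_right N m)) (Cs_smul hv h4))
    · intro c m hc v hv
      refine Cs_smul hv ?_
      calc |c| * (m : ℝ) ≤ 1 * m := by gcongr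
        _ = m := one_mul _
    · intro v
      obtain ⟨n, R, l, x, hl, -, rfl⟩ := h.exists_mem_Cs v
      obtain ⟨N, hN⟩ := exists_nat_ge R
      have h4 : ∀ j, ∃ m, x j ∈ K m := fun j => by
        obtain ⟨m, hm⟩ := hint (x j)
        exact ⟨m, interior_subset hm⟩
      choose m hm using h4
      refine ⟨max n (max N (Finset.univ.sup m)), ?_⟩
      refine Cs_mono' (by positivity) (hne _) (le_max_left _ _) ?_
      refine ⟨l, x, fun j => (hl j).trans (hN.trans ?_), fun j => ?_, rfl⟩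
      · exact_mod_cast (le_max_left N _).trans (le_max_right n _)
      · refine hmono ?_ (hm j)
        exact (Finset.le_sup (Finset.mem_univ j)).trans
          ((le_max_right N _).trans (le_max_right n _))
  have hi : @Continuous X V _ (kTop V C) i := by
    refine @Continuous.mk X V _ (kTop V C) i ?_
    intro W hW
    rw [isOpen_iff_mem_nhds]
    intro x hx
    obtain ⟨m, hm⟩ := hint x
    obtain ⟨O, hO, h4⟩ := hW (m + 1)
    have h5 : ∀ y ∈ K m, i y ∈ C (m + 1) := by
      intro y hy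
      have : i y ∈ Cs i 1 1 (K (m + 1)) :=
        ⟨fun _ => 1, fun _ => y, fun _ => by simp, fun _ => hmono (Nat.le_succ m) hy, by simp⟩
      exact Cs_mono' (by positivity) (hne _) (by omega)
        (Cs_mono (by exact_mod_cast Nat.succ_le_succ (Nat.zero_le m)) Subset.rfl this)
    have h6 : i x ∈ O := by
      have : i x ∈ W ∩ C (m + 1) := ⟨hx, h5 x (interior_subset hm)⟩
      rw [h4] at this
      exact this.1
    filter_upwards [isOpen_interior.mem_nhds hm, (hO.preimage h.cont).mem_nhds h6] with y hy1 hy2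
    have : i y ∈ O ∩ C (m + 1) := ⟨hy2, h5 y (interior_subset hy1)⟩
    rw [← h4] at this
    exact this.1
  exact @IsFreeTVS.le_of X _ V _ _ _ i h (kTop V C) hC.isTopologicalAddGroup
    hC.continuousSMul hi U hU

end Pool.Agent.X199.FT
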