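import Mathlib
import Pool.Agent.X199.FTVS

/-!
# Free topological vector spaces over metrizable spaces
-/

set_option autoImplicit false

open Set Topology Filter TopologicalSpace
open Cardinal hiding univ

universe u

namespace Pool.Agent.X199.FT

/-- Large nonnegative functions along a locally finite countable family of points. -/
theorem exists_large {X : Type*} [MetricSpace X] {ι : Type*} [Countable ι] (u : ι → X)
    (hu : ∀ a, ∃ δ > 0, {n | dist (u n) a < δ}.Finite) (c : ι → ℝ) :
    ∃ f : X → ℝ, Continuous f ∧ (∀ x, 0 ≤ f x) ∧ ∀ n, c n ≤ f (u n) := by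
  obtain ⟨e, he⟩ := exists_injective_nat ι
  let g : ι → X → ℝ := fun n x => |c n| * max 0 (1 - dist x (u n) * (e n + 1))
  have hg : ∀ n, Continuous (g n) := fun n => by
    refine continuous_const.mul (continuous_const.max (continuous_const.sub ?_))
    exact (continuous_id.dist continuous_const).mul continuous_const
  have hg0 : ∀ n x, 0 ≤ g n x := fun n x => by positivity
  have hlf : LocallyFinite fun n => Function.support (g n) := by
    intro a
    obtain ⟨δ, hδ, hfin⟩ := hu a
    refine ⟨Metric.ball a (δ / 2), Metric.ball_mem_nhds a (by positivity), ?_⟩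
    have h2 : {n : ι | (e n : ℝ) + 1 ≤ 2 / δ}.Finite := by
      have h3 : {k : ℕ | (k : ℝ) + 1 ≤ 2 / δ}.Finite := by
        obtain ⟨N, hN⟩ := exists_nat_ge (2 / δ)
        refine (finite_le_nat N).subset ?_
        intro k hk
        have : (k : ℝ) ≤ N := by
          have := hk.out
          linarith
        exact_mod_cast this
      exact h3.preimage he.injOn
    refine (hfin.union h2).subset ?_
    rintro n ⟨x, hx1, hx2⟩
    by_cases hn : (e n : ℝ) + 1 ≤ 2 / δ
    · exact Or.inr hn
    · left
      rw [not_le] at hn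
      have h4 : 0 < 1 - dist x (u n) * (e n + 1) := by
        by_contra hcon
        rw [not_lt] at hcon
        refine hx1 ?_
        change |c n| * max 0 (1 - dist x (u n) * (e n + 1)) = 0
        rw [max_eq_left hcon, mul_zero]
      have h5 : dist x (u n) * (2 / δ) < 1 := by
        have h6 : dist x (u n) * (2 / δ) ≤ dist x (u n) * (e n + 1) :=
          mul_le_mul_of_nonneg_left hn.le dist_nonneg
        linarith
      have h7 : dist x (u n) < δ / 2 := by
        rw [mul_div_assoc', div_lt_one hδ] at h5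
        linarith
      have h8 : dist x a < δ / 2 := hx2
      have h9 := dist_triangle (u n) x a
      rw [dist_comm (u n) x] at h9
      have : dist (u n) a < δ := by linarith
      exact this
  refine ⟨fun x => ∑ᶠ n, g n x, continuous_finsum hg hlf, fun x => finsum_nonneg fun n => hg0 n x,
    fun n => ?_⟩
  have h1 : g n (u n) ≤ ∑ᶠ k, g k (u n) :=
    single_le_finsum n (hlf.point_finite (u n)) fun k => hg0 k (u n)
  refine le_trans ?_ h1
  change c n ≤ |c n| * max 0 (1 - dist (u n) (u n) * (e n + 1))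
  simp [le_abs_self]

/-- Extension of functions on a closed discrete subset of a metric space to a vector space. -/
theorem exists_ext {X : Type*} [MetricSpace X] {Y : Set X} (hY : IsClosed Y)
    (hd : DiscreteTopology Y) {E : Type*} [AddCommGroup E] [Module ℝ E] [TopologicalSpace E]
    [IsTopologicalAddGroup E] [ContinuousSMul ℝ E] (c : Y → E) :
    ∃ r : X → E, Continuous r ∧ ∀ y : Y, r y = c y := by
  have h1 : ∀ y : Y, ∃ ρ > 0, ∀ z : Y, z ≠ y → ρ ≤ dist (y : X) z := by
    intro y
    obtain ⟨ρ, hρ, h2⟩ := Metric.isOpen_singleton_iff.1 (isOpen_discrete ({y} : Set Y))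
    refine ⟨ρ, hρ, fun z hz => ?_⟩
    by_contra hcon
    rw [not_le, dist_comm] at hcon
    exact hz (h2 z hcon)
  choose ρ hρ hsep using h1
  let φ : Y → X → ℝ := fun y x => max 0 (1 - dist x y * (4 / ρ y))
  have hφ : ∀ y, Continuous (φ y) := fun y => by
    refine continuous_const.max (continuous_const.sub ?_)
    exact (continuous_id.dist continuous_const).mul continuous_const
  have hsupp : ∀ y x, φ y x ≠ 0 → dist x y < ρ y / 4 := by
    intro y x hx
    have h4 : 0 < 1 - dist x y * (4 / ρ y) := by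
      by_contra hcon
      rw [not_lt] at hcon
      exact hx (max_eq_left hcon)
    have h5 : dist x y * (4 / ρ y) < 1 := by linarith
    rw [mul_div_assoc', div_lt_one (hρ y)] at h5
    linarith
  have hφ1 : ∀ y : Y, φ y y = 1 := fun y => by simp [φ]
  have hφ0 : ∀ y z : Y, z ≠ y → φ y z = 0 := by
    intro y z hz
    by_contra hcon
    have h4 := hsupp y z hcon
    have h5 := hsep y z hz
    rw [dist_comm] at h5
    have := hρ y
    linarith
  -- each point has a ball meeting at most one of the balls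
  have hball : ∀ a : X, ∃ η > 0, ∀ y z : Y, ∀ x x' : X, dist x a < η → dist x' a < η →
      φ y x ≠ 0 → φ z x' ≠ 0 → y = z := by
    intro a
    have key : ∀ η > 0, ∀ y z : Y, ∀ x x' : X, dist x a < η → dist x' a < η →
        φ y x ≠ 0 → φ z x' ≠ 0 → y ≠ z → dist (y : X) a < 2 * η ∧ dist (z : X) a < 2 * η := by
      intro η hη y z x x' hx hx' h4 h5 hyz
      have h6 := hsupp y x h4
      have h7 := hsupp z x' h5
      have h8 : ρ y ≤ dist (y : X) z := hsep y z (Ne.symm hyz)
      have h9 : ρ z ≤ dist (y : X) z := by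
        rw [dist_comm]
        exact hsep z y hyz
      have h10 : dist (y : X) z ≤ dist (y : X) x + (dist x a + dist x' a) + dist x' z := by
        have h11 := dist_triangle (y : X) x z
        have h12 := dist_triangle x x' z
        have h13 := dist_triangle x a x'
        rw [dist_comm a x'] at h13
        linarith
      rw [dist_comm (y : X) x] at h10
      have h14 := dist_triangle (y : X) x a
      have h15 := dist_triangle (z : X) x' a
      rw [dist_comm (y : X) x] at h14
      rw [dist_comm (z : X) x'] at h15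
      constructor <;> linarith
    by_cases ha : a ∈ Y
    · refine ⟨ρ ⟨a, ha⟩ / 4, by have := hρ ⟨a, ha⟩; positivity, ?_⟩
      intro y z x x' hx hx' h4 h5
      by_contra hyz
      obtain ⟨h6, h7⟩ := key _ (by have := hρ ⟨a, ha⟩; positivity) y z x x' hx hx' h4 h5 hyz
      have h8 := hρ ⟨a, ha⟩
      by_cases hya : y = ⟨a, ha⟩
      · have hza : z ≠ ⟨a, ha⟩ := fun h => hyz (hya.trans h.symm)
        have h9 := hsep ⟨a, ha⟩ z hza
        rw [dist_comm] at h9
        change ρ ⟨a, ha⟩ ≤ dist (z : X) a at h9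
        linarith
      · have h9 := hsep ⟨a, ha⟩ y hya
        rw [dist_comm] at h9
        change ρ ⟨a, ha⟩ ≤ dist (y : X) a at h9
        linarith
    · obtain ⟨δ, hδ, h4⟩ := Metric.isOpen_iff.1 hY.isOpen_compl a ha
      refine ⟨δ / 2, by positivity, ?_⟩
      intro y z x x' hx hx' h5 h6
      by_contra hyz
      obtain ⟨h7, -⟩ := key _ (by positivity) y z x x' hx hx' h5 h6 hyz
      refine h4 (show (y : X) ∈ Metric.ball a δ from ?_) y.2
      rw [Metric.mem_ball]
      linarith
  have hlf : LocallyFinite fun y => Function.support fun x => φ y x • c y := by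
    intro a
    obtain ⟨η, hη, h4⟩ := hball a
    refine ⟨Metric.ball a η, Metric.ball_mem_nhds a hη, ?_⟩
    refine Set.Subsingleton.finite ?_
    rintro y ⟨x, hx1, hx2⟩ z ⟨x', hx1', hx2'⟩
    refine h4 y z x x' hx2 hx2' ?_ ?_
    · intro h
      refine hx1 ?_
      change φ y x • c y = 0
      rw [h, zero_smul]
    · intro h
      refine hx1' ?_
      change φ z x' • c z = 0
      rw [h, zero_smul]
  refine ⟨fun x => ∑ᶠ y, φ y x • c y, continuous_finsum (fun y => (hφ y).smul continuous_const) hlf,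
    fun y => ?_⟩
  change ∑ᶠ z, φ z y • c z = c y
  rw [finsum_eq_single _ y]
  · rw [hφ1, one_smul]
  · intro z hz
    rw [hφ0 z y (Ne.symm hz), zero_smul]

/-- A nonseparable metric space contains an uncountable separated set indexed by a set of
sequences. -/
theorem exists_separated {X : Type u} [MetricSpace X] (h : ¬ SeparableSpace X) :
    ∃ (T : Set (ℕ → Bool)) (x : T → X) (ε : ℝ), 0 < ε ∧ ¬ T.Countable ∧
      ∀ s t : T, s ≠ t → ε ≤ dist (x s) (x t) := by
  have h1 : ∃ ε > (0 : ℝ), ∃ D : Set X, ¬ D.Countable ∧ ∀ y ∈ D, ∀ z ∈ D, y ≠ z → ε ≤ dist y z := by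
    by_contra hcon
    push Not at hcon
    refine h ?_
    have h2 : SecondCountableTopology X := by
      refine Metric.secondCountable_of_almost_dense_set fun ε hε => ?_
      obtain ⟨D, -, hD⟩ := zorn_subset_nonempty {D : Set X | ∀ y ∈ D, ∀ z ∈ D, y ≠ z → ε ≤ dist y z}
        (by
          intro c hc hchain _
          refine ⟨⋃₀ c, ?_, fun s hs => subset_sUnion_of_mem hs⟩
          rintro y ⟨D, hD, hy⟩ z ⟨D', hD', hz⟩ hyz
          rcases hchain.total hD hD' with h3 | h3
          · exact hc hD' y (h3 hy) z hz hyz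
          · exact hc hD y hy z (h3 hz) hyz) ∅ (by
            intro y hy
            exact absurd hy (notMem_empty y))
      have hDc : D.Countable := by
        by_contra hDc
        obtain ⟨y, hy, z, hz, hyz, h3⟩ := hcon ε hε D hDc
        exact absurd (hD.prop y hy z hz hyz) (not_le.2 h3)
      refine ⟨D, hDc, fun x => ?_⟩
      by_contra hx
      push Not at hx
      have hx' : ∀ y ∈ D, ε < dist x y := hx
      have hmem : x ∉ D := fun hxD => by
        have := hx' x hxD
        rw [dist_self] at this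
        linarith
      have hins : insert x D ∈ {D : Set X | ∀ y ∈ D, ∀ z ∈ D, y ≠ z → ε ≤ dist y z} := by
        rintro y (rfl | hy) z (rfl | hz) hyz
        · exact absurd rfl hyz
        · exact (hx' z hz).le
        · rw [dist_comm]
          exact (hx' y hy).le
        · exact hD.prop y hy z hz hyz
      exact hmem (hD.le_of_ge hins (subset_insert x D) (mem_insert x D))
    infer_instance
  obtain ⟨ε, hε, D, hD, hsep⟩ := h1
  -- a set of sequences of cardinality aleph one
  obtain ⟨T, hT⟩ : ∃ T : Set (ℕ → Bool), #T = ℵ₁ := by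
    refine Cardinal.le_mk_iff_exists_set.1 ?_
    have : #(ℕ → Bool) = 𝔠 := by simp
    rw [this]
    exact Cardinal.aleph_one_le_continuum
  have hle : Cardinal.lift.{u} #T ≤ Cardinal.lift.{0} #D := by
    rw [hT]
    have h2 : ¬ #D ≤ ℵ₀ := fun h => hD (Cardinal.le_aleph0_iff_set_countable.1 h)
    rw [not_le] at h2
    have h3 : ℵ₁ ≤ #D := by
      rw [← Cardinal.succ_aleph0]
      exact Order.succ_le_of_lt h2
    simpa using h3
  obtain ⟨f⟩ := Cardinal.lift_mk_le'.1 hle
  refine ⟨T, fun t => (f t : X), ε, hε, ?_, ?_⟩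
  · intro hc
    have := Cardinal.le_aleph0_iff_set_countable.2 hc
    rw [hT] at this
    exact absurd this (not_le.2 Cardinal.aleph0_lt_aleph_one)
  · intro s t hst
    exact hsep _ (f s).2 _ (f t).2 fun h => hst (f.injective (Subtype.ext h))


section Main

variable {X : Type u} [MetricSpace X] {V : Type u} [AddCommGroup V] [Module ℝ V]
  [TopologicalSpace V] {i : X → V}

/-- A compact set cannot contain elements on which a functional extending a continuous function is
unbounded. -/
theorem IsFreeTVS.bounded (h : IsFreeTVS X V i) {K : Set V} (hK : IsCompact K) (f : X → ℝ)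
    (hf : Continuous f) : ∃ (g : V →L[ℝ] ℝ) (B : ℝ), (∀ x, g (i x) = f x) ∧ ∀ v ∈ K, g v ≤ B := by
  obtain ⟨g, hg⟩ := h.lift_real f hf
  obtain ⟨B, hB⟩ := (hK.image g.continuous).bddAbove
  exact ⟨g, B, hg, fun v hv => hB ⟨v, hv, rfl⟩⟩

theorem fam_of_sep {ι : Type*} {u : ι → X} {ε : ℝ} (hε : 0 < ε)
    (hu : ∀ s t, s ≠ t → ε ≤ dist (u s) (u t)) : ∀ a, ∃ δ > 0, {n | dist (u n) a < δ}.Finite := by
  intro a
  refine ⟨ε / 2, by positivity, Set.Subsingleton.finite ?_⟩
  intro s hs t ht
  by_contra hne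
  have h1 := hu s t hne
  have h2 := dist_triangle (u s) a (u t)
  rw [dist_comm a (u t)] at h2
  have h3 : dist (u s) a < ε / 2 := hs
  have h4 : dist (u t) a < ε / 2 := ht
  linarith

/-- If `X` is not separable then `sp_2(X)` contains a set `M` such that `0` is in the closure of `M`
but not in the closure of a countable subset of `M`, and `M` meets each compact set in a finite
set. -/
theorem IsFreeTVS.exists_bad (h : IsFreeTVS X V i) (hX : ¬ SeparableSpace X) :
    ∃ M : Set V, M ⊆ sp i 2 ∧ (0 : V) ∈ closure M ∧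
      (∀ C ⊆ M, C.Countable → (0 : V) ∉ closure C) ∧ ∀ K, IsCompact K → (K ∩ M).Finite := by
  classical
  have hag := h.addGroup
  have hsm := h.contSMul
  obtain ⟨T, x, ε, hε, hT, hsep⟩ := exists_separated hX
  let Δ : T → T → ℕ := fun s t => PiNat.firstDiff s.1 t.1
  have hΔ : ∀ s t, Δ s t = Δ t s := fun s t => PiNat.firstDiff_comm s.1 t.1
  let m : T → T → V := fun s t => ((1 : ℝ) / (Δ s t + 1)) • (i (x s) + i (x t))
  have hm : ∀ s t, m s t = m t s := fun s t => by
    change ((1 : ℝ) / (Δ s t + 1)) • (i (x s) + i (x t)) = ((1 : ℝ) / (Δ t s + 1)) •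
      (i (x t) + i (x s))
    rw [hΔ s t, add_comm (i (x s))]
  have hgm : ∀ (g : V →L[ℝ] ℝ) (f : X → ℝ), (∀ x, g (i x) = f x) → ∀ s t,
      g (m s t) = (f (x s) + f (x t)) / (Δ s t + 1) := by
    intro g f hg s t
    change g (((1 : ℝ) / (Δ s t + 1)) • (i (x s) + i (x t))) = _
    rw [map_smul, map_add, hg, hg, smul_eq_mul]
    ring
  refine ⟨{v | ∃ s t, v = m s t}, ?_, ?_, ?_, ?_⟩
  · rintro v ⟨s, t, rfl⟩
    have h1 : (1 : ℝ) / (Δ s t + 1) ≤ 1 := by
      rw [div_le_one (by positivity)]
      have : (0 : ℝ) ≤ Δ s t := by positivity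
      linarith
    have h2 : (0 : ℝ) ≤ (1 : ℝ) / (Δ s t + 1) := by positivity
    refine ⟨fun _ => (1 : ℝ) / (Δ s t + 1), ![x s, x t], fun j => ⟨?_, ?_⟩, ?_⟩
    · push_cast
      linarith
    · push_cast
      linarith
    · rw [Fin.sum_univ_two]
      simp [m, smul_add]
  · rw [mem_closure_iff_nhds]
    intro W hW
    have h1 : Tendsto (fun p : V × V => p.1 + p.2) (𝓝 (0, 0)) (𝓝 ((0 : V) + 0)) :=
      continuous_add.tendsto (0, 0)
    rw [add_zero, nhds_prod_eq] at h1
    obtain ⟨W1, hW1, W2, hW2, hWW⟩ := Filter.mem_prod_iff.1 (h1 hW)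
    have h2 : ∀ t : T, ∃ k : ℕ, ∀ n ≥ k, ((1 : ℝ) / (n + 1)) • i (x t) ∈ W1 ∩ W2 := by
      intro t
      have h3 : Tendsto (fun n : ℕ => ((1 : ℝ) / (n + 1)) • i (x t)) atTop (𝓝 ((0 : ℝ) • i (x t))) :=
        (tendsto_one_div_add_atTop_nhds_zero_nat).smul tendsto_const_nhds
      rw [zero_smul] at h3
      exact eventually_atTop.1 (h3 (inter_mem hW1 hW2))
    choose k hk using h2
    have h3 : ∃ N, {t : T | k t ≤ N}.Infinite := by
      by_contra hcon
      push Not at hcon
      refine hT ?_
      have : (univ : Set T) = ⋃ N, {t : T | k t ≤ N} := by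
        ext t
        simp only [mem_univ, mem_iUnion, true_iff]
        exact ⟨k t, show k t ≤ k t from le_rfl⟩
      have h4 : (univ : Set T).Countable := by
        rw [this]
        exact countable_iUnion fun N => (hcon N).countable
      exact countable_coe_iff.1 (countable_univ_iff.1 h4)
    obtain ⟨N, hN⟩ := h3
    obtain ⟨s, hs, t, ht, hst, hEq⟩ := hN.exists_ne_map_eq_of_mapsTo
      (f := fun t : T => (fun j : Fin N => t.1 j)) (t := univ) (fun _ _ => trivial) finite_univ
    have hst' : s.1 ≠ t.1 := fun h => hst (Subtype.ext h)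
    have hfd : N ≤ Δ s t := by
      by_contra hcon
      rw [not_le] at hcon
      exact PiNat.apply_firstDiff_ne hst' (congrFun hEq ⟨_, hcon⟩)
    refine ⟨m s t, ?_, s, t, rfl⟩
    have h5 := hk s (Δ s t) (hs.out.trans hfd)
    have h6 := hk t (Δ s t) (ht.out.trans hfd)
    have h7 := hWW (show (((1 : ℝ) / (Δ s t + 1)) • i (x s), ((1 : ℝ) / (Δ s t + 1)) • i (x t)) ∈
      W1 ×ˢ W2 from ⟨h5.1, h6.2⟩)
    change ((1 : ℝ) / (Δ s t + 1)) • (i (x s) + i (x t)) ∈ W
    rw [smul_add]
    exact h7
  · intro C hC hCc hcl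
    -- the countable set of indices
    have hTn : Nonempty T := by
      by_contra hcon
      rw [not_nonempty_iff] at hcon
      exact hT (countable_coe_iff.1 (inferInstance : Countable T))
    choose! a b hab using fun (v : V) (hv : v ∈ C) => hC hv
    let S : Set T := a '' C ∪ b '' C
    have hS : S.Countable := (hCc.image a).union (hCc.image b)
    have : Countable S := hS.to_subtype
    obtain ⟨e, he⟩ := exists_injective_nat S
    have hfin : ∀ s : S, {t : S | e t ≤ e s}.Finite := fun s =>
      (finite_le_nat (e s)).preimage he.injOn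
    let c : S → ℝ := fun s => ∑ t ∈ (hfin s).toFinset, ((Δ s.1 t.1 : ℝ) + 1)
    have hc : ∀ s t : S, e t ≤ e s → (Δ s.1 t.1 : ℝ) + 1 ≤ c s := by
      intro s t hts
      refine Finset.single_le_sum (f := fun t : S => (Δ s.1 t.1 : ℝ) + 1) (fun t _ => by positivity) ?_
      simpa using hts
    obtain ⟨f, hf, hf0, hfc⟩ := exists_large (fun s : S => x s.1) (fam_of_sep hε fun s t hst =>
      hsep _ _ fun h => hst (Subtype.ext h)) c
    obtain ⟨g, hg⟩ := h.lift_real f hf
    have hone : ∀ v ∈ C, 1 ≤ g v := by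
      intro v hv
      have h1 : v = m (a v) (b v) := hab v hv
      have h2 := hgm g f hg (a v) (b v)
      rw [← h1] at h2
      rw [h2, le_div_iff₀ (by positivity), one_mul]
      have h3 : a v ∈ S := Or.inl ⟨v, hv, rfl⟩
      have h4 : b v ∈ S := Or.inr ⟨v, hv, rfl⟩
      have h5 := hfc ⟨a v, h3⟩
      have h6 := hfc ⟨b v, h4⟩
      simp only at h5 h6
      rcases le_total (e ⟨b v, h4⟩) (e ⟨a v, h3⟩) with h7 | h7
      · have h8 := hc ⟨a v, h3⟩ ⟨b v, h4⟩ h7
        have h9 := hf0 (x (b v))
        simp only at h8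
        linarith
      · have h8 := hc ⟨b v, h4⟩ ⟨a v, h3⟩ h7
        have h9 := hf0 (x (a v))
        simp only at h8
        rw [hΔ] at h8
        linarith
    have h1 : (0 : V) ∈ closure {v | 1 ≤ g v} := closure_mono hone hcl
    rw [(isClosed_le continuous_const g.continuous).closure_eq] at h1
    have : (1 : ℝ) ≤ g 0 := h1
    rw [map_zero] at this
    linarith
  · intro K hK
    by_contra hinf
    -- for each finite set there is an element of the trace with an index outside
    have h1 : ∀ F : Finset T, ∃ s t, m s t ∈ K ∧ t ∉ F := by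
      intro F
      by_contra hcon
      push Not at hcon
      refine hinf ((((F ×ˢ F).finite_toSet.image fun p : T × T => m p.1 p.2)).subset ?_)
      rintro v ⟨hv, s, t, rfl⟩
      refine ⟨(s, t), ?_, rfl⟩
      rw [Finset.mem_coe, Finset.mem_product]
      exact ⟨hcon t s (hm s t ▸ hv), hcon s t hv⟩
    choose p q hp hq using h1
    let F : ℕ → Finset T := fun n => Nat.rec ∅ (fun _ G => insert (q G) G) n
    have hFs : ∀ n, F (n + 1) = insert (q (F n)) (F n) := fun n => rfl
    have hFm : Monotone F := monotone_nat_of_le_succ fun n => by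
      rw [hFs]
      exact Finset.subset_insert _ _
    have hinj : Function.Injective fun n => q (F n) := by
      have key : ∀ m n, m < n → q (F m) ≠ q (F n) := by
        intro m n hmn h
        refine hq (F n) ?_
        rw [← h]
        exact hFm (Nat.succ_le_of_lt hmn) (by
          change q (F m) ∈ F (m + 1)
          rw [hFs]
          exact Finset.mem_insert_self _ _)
      intro m n hmn
      by_contra hne
      rcases lt_or_gt_of_ne hne with h | h
      · exact key m n h hmn
      · exact key n m h hmn.symm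
    obtain ⟨f, hf, hf0, hfc⟩ := exists_large (fun n : ℕ => x (q (F n))) (fam_of_sep hε fun s t hst =>
      hsep _ _ fun h => hst (hinj h)) fun n => (n : ℝ) * (Δ (p (F n)) (q (F n)) + 1)
    obtain ⟨g, B, hg, hB⟩ := h.bounded hK f hf
    obtain ⟨n, hn⟩ := exists_nat_gt B
    have h2 := hB _ (hp (F n))
    rw [hgm g f hg] at h2
    have h3 := hfc n
    have h4 := hf0 (x (p (F n)))
    rw [div_le_iff₀ (by positivity)] at h2
    have h5 : B * (Δ (p (F n)) (q (F n)) + 1) < n * ((Δ (p (F n)) (q (F n)) : ℝ) + 1) := by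
      refine mul_lt_mul_of_pos_right hn (by positivity)
    linarith

/-- If `X` is not locally compact then `sp_2(X)` contains a nonclosed set meeting each compact set
in a finite set. -/
theorem IsFreeTVS.exists_bad' (h : IsFreeTVS X V i) (hX : ¬ WeaklyLocallyCompactSpace X) :
    ∃ (M : Set V) (x₀ : X), M ⊆ sp i 2 ∧ i x₀ ∈ closure M ∧ i x₀ ∉ M ∧
      ∀ K, IsCompact K → (K ∩ M).Finite := by
  classical
  have hag := h.addGroup
  have hsm := h.contSMul
  obtain ⟨x₀, hx₀⟩ : ∃ x₀ : X, ∀ r > 0, ¬ IsCompact (Metric.closedBall x₀ r) := by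
    by_contra hcon
    push Not at hcon
    refine hX ⟨fun a => ?_⟩
    obtain ⟨r, hr, hc⟩ := hcon a
    exact ⟨_, hc, Metric.closedBall_mem_nhds a hr⟩
  have h1 : ∀ n : ℕ, ∃ u : ℕ → X, (∀ j, u j ∈ Metric.closedBall x₀ (1 / (n + 1))) ∧
      ∀ a, ∃ δ > 0, {j | dist (u j) a < δ}.Finite := by
    intro n
    have h2 := hx₀ (1 / (n + 1)) (by positivity)
    have h3 : ¬ IsSeqCompact (Metric.closedBall x₀ (1 / (n + 1))) := fun hs => h2 hs.isCompact
    rw [IsSeqCompact] at h3
    push Not at h3
    obtain ⟨u, hu, hno⟩ := h3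
    refine ⟨u, hu, fun a => ?_⟩
    by_contra hcon
    push Not at hcon
    have h4 : ∀ k : ℕ, ∃ᶠ j in atTop, dist (u j) a < 1 / (k + 1) := fun k =>
      Nat.frequently_atTop_iff_infinite.2 (hcon _ (by positivity))
    obtain ⟨φ, hφ, hφ2⟩ := extraction_forall_of_frequently h4
    have h5 : Tendsto (u ∘ φ) atTop (𝓝 a) := by
      rw [tendsto_iff_dist_tendsto_zero]
      refine squeeze_zero (fun _ => dist_nonneg) (fun k => (hφ2 k).le) ?_
      exact tendsto_one_div_add_atTop_nhds_zero_nat
    have h6 : a ∈ Metric.closedBall x₀ (1 / (n + 1)) :=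
      Metric.isClosed_closedBall.mem_of_tendsto h5 (Eventually.of_forall fun k => hu (φ k))
    exact hno a h6 φ hφ h5
  choose u hu hfam using h1
  let d : ℕ → X := u 0
  let m : ℕ → ℕ → V := fun n j => i (u n j) + ((1 : ℝ) / (j + 1)) • i (d n)
  have hgm : ∀ (g : V →L[ℝ] ℝ) (f : X → ℝ), (∀ x, g (i x) = f x) → ∀ n j,
      g (m n j) = f (u n j) + f (d n) / (j + 1) := by
    intro g f hg n j
    change g (i (u n j) + ((1 : ℝ) / (j + 1)) • i (d n)) = _
    rw [map_add, map_smul, hg, hg, smul_eq_mul]
    ring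
  refine ⟨{v | ∃ n j, v = m n j}, x₀, ?_, ?_, ?_, ?_⟩
  · rintro v ⟨n, j, rfl⟩
    have h1 : (1 : ℝ) / (j + 1) ≤ 1 := by
      rw [div_le_one (by positivity)]
      have : (0 : ℝ) ≤ j := by positivity
      linarith
    have h2 : (0 : ℝ) ≤ (1 : ℝ) / (j + 1) := by positivity
    refine ⟨![1, (1 : ℝ) / (j + 1)], ![u n j, d n], fun k => ?_, ?_⟩
    · rw [mem_Icc]
      fin_cases k
      · norm_num
      · simp only [Fin.mk_one, Fin.isValue, Matrix.cons_val_one, Matrix.cons_val_fin_one]
        constructor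
        · push_cast
          linarith
        · push_cast
          linarith
    · rw [Fin.sum_univ_two]
      simp [m]
  · rw [mem_closure_iff_nhds]
    intro W hW
    have h1 : Tendsto (fun p : V × V => p.1 + p.2) (𝓝 (i x₀, 0)) (𝓝 (i x₀ + 0)) :=
      continuous_add.tendsto (i x₀, 0)
    rw [add_zero, nhds_prod_eq] at h1
    obtain ⟨W1, hW1, W2, hW2, hWW⟩ := Filter.mem_prod_iff.1 (h1 hW)
    obtain ⟨r, hr, hrW⟩ := Metric.mem_nhds_iff.1 (h.cont.continuousAt.preimage_mem_nhds hW1)
    obtain ⟨n, hn⟩ := exists_nat_one_div_lt hr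
    have h3 : Tendsto (fun k : ℕ => ((1 : ℝ) / (k + 1)) • i (d n)) atTop (𝓝 ((0 : ℝ) • i (d n))) :=
      (tendsto_one_div_add_atTop_nhds_zero_nat).smul tendsto_const_nhds
    rw [zero_smul] at h3
    have h3' : ∀ᶠ k : ℕ in atTop, ((1 : ℝ) / (k + 1)) • i (d n) ∈ W2 := h3 hW2
    obtain ⟨j, hj⟩ := h3'.exists
    refine ⟨m n j, ?_, n, j, rfl⟩
    have h4 : u n j ∈ Metric.ball x₀ r := by
      have := Metric.mem_closedBall.1 (hu n j)
      rw [Metric.mem_ball]
      linarith
    exact hWW (show (i (u n j), ((1 : ℝ) / (j + 1)) • i (d n)) ∈ W1 ×ˢ W2 from ⟨hrW h4, hj⟩)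
  · rintro ⟨n, j, hnj⟩
    obtain ⟨g, hg⟩ := h.lift_real (fun _ => 1) continuous_const
    have h1 := congrArg g hnj
    rw [hg, hgm g _ hg] at h1
    have : (0 : ℝ) < 1 / ((j : ℝ) + 1) := by positivity
    linarith
  · intro K hK
    have hcol : ∀ n, {j | m n j ∈ K}.Finite := by
      intro n
      by_contra hinf
      obtain ⟨f, hf, hf0, hfc⟩ := exists_large (u n) (hfam n) fun j => (j : ℝ)
      obtain ⟨g, B, hg, hB⟩ := h.bounded hK f hf
      obtain ⟨N, hN⟩ := exists_nat_gt B
      have : ∃ j ∈ {j | m n j ∈ K}, N ≤ j := by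
        by_contra hcon
        push Not at hcon
        exact hinf ((finite_lt_nat N).subset hcon)
      obtain ⟨j, hj, hNj⟩ := this
      have h2 := hB _ hj
      rw [hgm g f hg] at h2
      have h3 := hfc j
      have h4 : 0 ≤ f (d n) / ((j : ℝ) + 1) := div_nonneg (hf0 _) (by positivity)
      have h5 : (N : ℝ) ≤ j := by exact_mod_cast hNj
      linarith
    have hrow : {n | ∃ j, m n j ∈ K}.Finite := by
      by_contra hinf
      choose c hc using fun n : {n | ∃ j, m n j ∈ K} => n.2
      obtain ⟨f, hf, hf0, hfc⟩ := exists_large (fun n : {n | ∃ j, m n j ∈ K} => d n.1) (by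
        intro a
        obtain ⟨δ, hδ, hfin⟩ := hfam 0 a
        exact ⟨δ, hδ, hfin.preimage Subtype.val_injective.injOn⟩) fun n => (n.1 : ℝ) * (c n + 1)
      obtain ⟨g, B, hg, hB⟩ := h.bounded hK f hf
      obtain ⟨N, hN⟩ := exists_nat_gt B
      have : ∃ n ∈ {n | ∃ j, m n j ∈ K}, N ≤ n := by
        by_contra hcon
        push Not at hcon
        exact hinf ((finite_lt_nat N).subset hcon)
      obtain ⟨n, hn, hNn⟩ := this
      have h2 := hB _ (hc ⟨n, hn⟩)
      rw [hgm g f hg] at h2
      have h3 := hfc ⟨n, hn⟩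
      simp only at h3
      have h4 : (n : ℝ) ≤ f (d n) / ((c ⟨n, hn⟩ : ℝ) + 1) := by
        rw [le_div_iff₀ (by positivity)]
        exact h3
      have h5 := hf0 (u n (c ⟨n, hn⟩))
      have h6 : (N : ℝ) ≤ n := by exact_mod_cast hNn
      simp only at h2
      linarith
    refine (hrow.biUnion fun n _ => (hcol n).image (m n)).subset ?_
    rintro v ⟨hv, n, j, rfl⟩
    exact mem_biUnion (x := n) ⟨j, hv⟩ ⟨j, hv, rfl⟩

end Main

end Pool.Agent.X199.FT
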