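import Mathlib
import Pool.Agent.X199.FTVS2

/-!
# Free topological vector spaces over metrizable spaces: tightness and the k-property
-/

set_option autoImplicit false

open Set Topology Filter TopologicalSpace
open Cardinal hiding univ

universe u

namespace Pool.Agent.X199.FT

/-- Countable tightness. -/
def CountablyTight (Z : Type*) [TopologicalSpace Z] : Prop :=
  ∀ (A : Set Z) (z : Z), z ∈ closure A → ∃ C ⊆ A, C.Countable ∧ z ∈ closure C

/-- `k`-spaces: a set is closed when its trace on every compact subspace is closed there. -/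
def KSpace (Z : Type*) [TopologicalSpace Z] : Prop :=
  ∀ F : Set Z, (∀ K : Set Z, IsCompact K → IsClosed ((fun z : K => (z : Z)) ⁻¹' F)) → IsClosed F

variable {X : Type u} [TopologicalSpace X] {V : Type u} [AddCommGroup V] [Module ℝ V]
  [TopologicalSpace V] {i : X → V}

theorem IsFreeTVS.subsingleton (h : IsFreeTVS X V i) [IsEmpty X] : Subsingleton V := by
  have h1 := h.span_eq
  rw [range_eq_empty, Submodule.span_empty] at h1
  exact (Submodule.subsingleton_iff ℝ).1 (subsingleton_of_bot_eq_top h1)

/-- If `X` is separable and metrizable, all subspaces of `V(X)` are countably tight. -/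
theorem IsFreeTVS.countablyTight [SecondCountableTopology X] (h : IsFreeTVS X V i) (S : Set V) :
    CountablyTight S := by
  have hag := h.addGroup
  have hsm := h.contSMul
  intro A z hz
  let φ : (n : ℕ) → (Fin n → ℝ) × (Fin n → X) → V := fun n p => ∑ j, p.1 j • i (p.2 j)
  have hφ : ∀ n, Continuous (φ n) := by
    intro n
    refine continuous_finsetSum _ fun j _ => ?_
    exact ((continuous_apply j).comp continuous_fst).smul
      (h.cont.comp ((continuous_apply j).comp continuous_snd))
  have hD : ∀ n, ∃ D : Set ((Fin n → ℝ) × (Fin n → X)), D.Countable ∧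
      D ⊆ φ n ⁻¹' (Subtype.val '' A) ∧ φ n ⁻¹' (Subtype.val '' A) ⊆ closure D := by
    intro n
    obtain ⟨D, hDc, hD⟩ := exists_countable_dense (φ n ⁻¹' (Subtype.val '' A))
    refine ⟨Subtype.val '' D, hDc.image _, ?_, ?_⟩
    · rintro _ ⟨p, -, rfl⟩
      exact p.2
    · intro p hp
      have := hD ⟨p, hp⟩
      rw [closure_subtype] at this
      exact this
  choose D hDc hDA hD using hD
  have hcover : Subtype.val '' A ⊆ closure (⋃ n, φ n '' D n) := by
    intro v hv
    obtain ⟨n, p, rfl⟩ : ∃ n p, v = φ n p := by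
      rcases isEmpty_or_nonempty X with hX | hX
      · have := h.subsingleton
        exact ⟨0, (Fin.elim0, Fin.elim0), Subsingleton.elim _ _⟩
      · obtain ⟨n, R, l, x, -, -, rfl⟩ := h.exists_mem_Cs v
        exact ⟨n, (l, x), rfl⟩
    have h1 : φ n p ∈ closure (φ n '' D n) :=
      image_closure_subset_closure_image (hφ n) ⟨p, hD n hv, rfl⟩
    exact closure_mono (subset_iUnion (fun n => φ n '' D n) n) h1
  refine ⟨A ∩ Subtype.val ⁻¹' (⋃ n, φ n '' D n), inter_subset_left, ?_, ?_⟩
  · have h1 : (⋃ n, φ n '' D n).Countable := countable_iUnion fun n => (hDc n).image _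
    exact (h1.preimage Subtype.val_injective).mono inter_subset_right
  · rw [closure_subtype] at hz ⊢
    have h1 : (Subtype.val '' (A ∩ Subtype.val ⁻¹' (⋃ n, φ n '' D n)) : Set V) =
        ⋃ n, φ n '' D n := by
      ext v
      constructor
      · rintro ⟨w, ⟨-, hw⟩, rfl⟩
        exact hw
      · intro hv
        obtain ⟨n, p, hp, hpv⟩ := mem_iUnion.1 hv
        obtain ⟨w, hw, hwv⟩ := hDA n hp
        refine ⟨w, ⟨hw, ?_⟩, hwv.trans hpv⟩
        change (w : V) ∈ ⋃ n, φ n '' D n
        rw [hwv, hpv]
        exact hv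
    rw [h1]
    exact closure_minimal hcover isClosed_closure hz

/-- If `X` is metrizable, locally compact and separable then all levels are `k`-spaces. -/
theorem IsFreeTVS.kSpace [T35Space X] [WeaklyLocallyCompactSpace X] [SecondCountableTopology X]
    (h : IsFreeTVS X V i) (n : ℕ) : KSpace (sp i n) := by
  have hag := h.addGroup
  have hsm := h.contSMul
  have hT2 := h.t2
  rcases isEmpty_or_nonempty X with hX | ⟨⟨p⟩⟩
  · have := h.subsingleton
    intro F _
    have h1 : F = ∅ ∨ F = univ := by
      rcases F.eq_empty_or_nonempty with h1 | ⟨v, hv⟩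
      · exact Or.inl h1
      · exact Or.inr (eq_univ_of_forall fun w => Subsingleton.elim v w ▸ hv)
    rcases h1 with rfl | rfl
    · exact isClosed_empty
    · exact isClosed_univ
  · let E : CompactExhaustion X := default
    let K : ℕ → Set X := fun m => insert p (E m)
    have hK : ∀ m, IsCompact (K m) := fun m => (E.isCompact m).insert p
    have hmono : Monotone K := fun m n hmn => insert_subset_insert (E.subset hmn)
    have hne : ∀ m, (K m).Nonempty := fun m => ⟨p, mem_insert _ _⟩
    have hint : ∀ x, ∃ m, x ∈ interior (K m) := by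
      intro x
      obtain ⟨m, hm⟩ := E.exists_mem x
      exact ⟨m + 1, interior_mono (subset_insert p _) (E.subset_interior_succ m hm)⟩
    have hcl : ∀ F : Set V, (∀ m : ℕ, IsClosed (F ∩ Cs i m m (K m))) → IsClosed F := by
      intro F hF
      rw [← isOpen_compl_iff]
      refine h.kOmega K hK hmono hne hint fun m => ⟨(F ∩ Cs i m m (K m))ᶜ, (hF m).isOpen_compl, ?_⟩
      ext v
      constructor
      · rintro ⟨h1, h2⟩
        exact ⟨fun h3 => h1 h3.1, h2⟩
      · rintro ⟨h1, h2⟩
        exact ⟨fun h3 => h1 ⟨h3, h2⟩, h2⟩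
    have hspcl : IsClosed (sp i n) := by
      refine hcl _ fun m => ?_
      have h1 : sp i n ∩ Cs i m m (K m) = Cs i n n (K m) ∩ Cs i m m (K m) := by
        rw [sp_eq]
        ext v
        constructor
        · rintro ⟨h1, h2⟩
          exact ⟨h.mem_Cs_of_span (hne m) h1 h2, h2⟩
        · rintro ⟨h1, h2⟩
          exact ⟨Cs_mono le_rfl (subset_univ _) h1, h2⟩
      rw [h1]
      exact (isCompact_Cs h.cont n n (hK m)).isClosed.inter
        (isCompact_Cs h.cont m m (hK m)).isClosed
    intro F hF
    have h2 : IsClosed (Subtype.val '' F : Set V) := by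
      refine hcl _ fun m => ?_
      have h3 : IsCompact (Subtype.val ⁻¹' (Cs i m m (K m)) : Set (sp i n)) :=
        hspcl.isClosedEmbedding_subtypeVal.isCompact_preimage (isCompact_Cs h.cont m m (hK m))
      have h4 := hF _ h3
      have h5 : IsClosed (F ∩ Subtype.val ⁻¹' (Cs i m m (K m)) : Set (sp i n)) := by
        have h6 := h3.isClosed.isClosedEmbedding_subtypeVal.isClosedMap _ h4
        convert h6 using 1
        ext v
        constructor
        · rintro ⟨h7, h8⟩
          exact ⟨⟨v, h8⟩, h7, rfl⟩
        · rintro ⟨w, hw, rfl⟩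
          exact ⟨hw, w.2⟩
      have h6 := hspcl.isClosedEmbedding_subtypeVal.isClosedMap _ h5
      convert h6 using 1
      ext v
      constructor
      · rintro ⟨⟨w, hw, rfl⟩, h8⟩
        exact ⟨w, ⟨hw, h8⟩, rfl⟩
      · rintro ⟨w, ⟨h7, h8⟩, rfl⟩
        exact ⟨⟨w, h7, rfl⟩, h8⟩
    have h3 := h2.preimage (continuous_subtype_val (p := fun v => v ∈ sp i n))
    rwa [preimage_image_eq _ Subtype.val_injective] at h3

/-- A set with finite traces on compact sets is closed in every `k`-space containing it. -/
theorem closed_of_kSpace {Z : Type*} [TopologicalSpace Z] [T2Space Z] {S M : Set Z}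
    (hS : KSpace S) (hM : ∀ K, IsCompact K → (K ∩ M).Finite) {z : Z} (hz : z ∈ S)
    (hMS : M ⊆ S) (hcl : z ∈ closure M) : z ∈ M := by
  have h1 : IsClosed (Subtype.val ⁻¹' M : Set S) := by
    refine hS _ fun K hK => ?_
    have h2 : (fun z : K => (z : S)) ⁻¹' (Subtype.val ⁻¹' M) =
        (fun z : K => ((z : S) : Z)) ⁻¹' (Subtype.val '' K ∩ M) := by
      ext w
      exact ⟨fun h => ⟨⟨w.1, w.2, rfl⟩, h⟩, fun h => h.2⟩
    rw [h2]
    refine (hM _ (hK.image continuous_subtype_val)).isClosed.preimage ?_
    exact continuous_subtype_val.comp continuous_subtype_val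
  have h3 : (⟨z, hz⟩ : S) ∈ closure (Subtype.val ⁻¹' M : Set S) := by
    rw [closure_subtype, Subtype.image_preimage_coe, inter_eq_self_of_subset_right hMS]
    exact hcl
  rw [h1.closure_eq] at h3
  exact h3

omit [TopologicalSpace X] [TopologicalSpace V] in
theorem sp_mono {m n : ℕ} (hmn : m ≤ n) [Nonempty X] : sp i m ⊆ sp i n := by
  rw [sp_eq, sp_eq]
  exact (Cs_mono (Nat.cast_le.2 hmn) Subset.rfl).trans (Cs_mono' (by positivity) univ_nonempty hmn)

/-- If some level `sp_n(X)` with `n ≥ 2` is a `k`-space and `X` is metrizable then `X` is separable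
and locally compact. -/
theorem IsFreeTVS.of_kSpace {X : Type u} [TopologicalSpace X] [MetrizableSpace X] {V : Type u}
    [AddCommGroup V] [Module ℝ V] [TopologicalSpace V] {i : X → V} (h : IsFreeTVS X V i)
    {n : ℕ} (hn : 2 ≤ n) (hk : KSpace (sp i n)) :
    SecondCountableTopology X ∧ WeaklyLocallyCompactSpace X := by
  let _ : MetricSpace X := metrizableSpaceMetric X
  have hT2 := h.t2
  constructor
  · by_contra hX
    have hX' : ¬ SeparableSpace X := fun h => hX (UniformSpace.secondCountable_of_separable X)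
    have hnX : Nonempty X := by
      by_contra hcon
      rw [not_nonempty_iff] at hcon
      exact hX' inferInstance
    obtain ⟨M, hM2, h0, hc, hK⟩ := h.exists_bad hX'
    have h1 : (0 : V) ∈ M := by
      refine closed_of_kSpace hk hK ?_ (hM2.trans (sp_mono hn)) h0
      rw [sp_eq]
      exact zero_mem_Cs (by positivity) univ_nonempty
    exact hc {0} (by simpa using h1) (countable_singleton _) (subset_closure rfl)
  · by_contra hX
    obtain ⟨M, x₀, hM2, h0, hnot, hK⟩ := h.exists_bad' hX
    have hnX : Nonempty X := ⟨x₀⟩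
    refine hnot (closed_of_kSpace hk hK ?_ (hM2.trans (sp_mono hn)) h0)
    refine sp_mono (show 1 ≤ n by omega) ?_
    exact ⟨fun _ => 1, fun _ => x₀, fun _ => by simp, by simp⟩

end Pool.Agent.X199.FT
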