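import Mathlib
import Pool.Agent.X199.BohrZ

/-!
# Discrete abelian groups with their Bohr topology
-/

open Topology Filter Set MeasureTheory

namespace Pool.Agent.X199.BohrA

open Pool.Agent.X199.BohrZ

universe u v

private theorem circ_sep_J :
    ∃ J : AddCircle (1 : ℚ) →+ AddCircle (1 : ℝ), ∀ x, J x = 0 → x = 0 := by
  let c : ℚ →+ ℝ := (Rat.castHom ℝ).toAddMonoidHom
  have hle : AddSubgroup.zmultiples (1 : ℚ) ≤ (AddSubgroup.zmultiples (1 : ℝ)).comap c := by
    intro q hq
    obtain ⟨n, hn⟩ := AddSubgroup.mem_zmultiples_iff.mp hq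
    rw [AddSubgroup.mem_comap]
    refine AddSubgroup.mem_zmultiples_iff.mpr ⟨n, ?_⟩
    rw [← hn]
    show n • (1 : ℝ) = ((n • (1 : ℚ) : ℚ) : ℝ)
    simp
  refine ⟨QuotientAddGroup.map _ _ c hle, fun x hx => ?_⟩
  obtain ⟨q, rfl⟩ := QuotientAddGroup.mk_surjective x
  have h1 : ((c q : ℝ) : AddCircle (1 : ℝ)) = 0 := hx
  rw [AddCircle.coe_eq_zero_iff] at h1
  obtain ⟨n, hn⟩ := h1
  show ((q : ℚ) : AddCircle (1 : ℚ)) = 0
  rw [AddCircle.coe_eq_zero_iff]
  refine ⟨n, ?_⟩
  have h2 : n • (1 : ℝ) = ((q : ℚ) : ℝ) := hn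
  have h3 : ((n : ℚ) : ℝ) = ((q : ℚ) : ℝ) := by
    rw [← h2]; simp
  have h4 : (n : ℚ) = q := by exact_mod_cast h3
  rw [← h4]; simp

/-- Characters of an abelian group separate points. -/
theorem circ_sep {B : Type u} [CommGroup B] (b : B) (hb : b ≠ 1) : ∃ χ : B →* Circle, χ b ≠ 1 := by
  have hb' : Additive.ofMul b ≠ 0 := fun h => hb (Additive.ofMul.injective h)
  obtain ⟨c, hc⟩ := CharacterModule.exists_character_apply_ne_zero_of_ne_zero hb'
  obtain ⟨J, hJ⟩ := circ_sep_J
  let c' : Additive B →+ AddCircle (1 : ℚ) := c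
  refine ⟨⟨⟨fun x => AddCircle.toCircle (J (c' (Additive.ofMul x))), ?_⟩, ?_⟩, fun h => hc ?_⟩
  · simp
  · intro x y
    simp [AddCircle.toCircle_add]
  · have h1 : AddCircle.toCircle (J (c' (Additive.ofMul b))) = 1 := h
    rw [← AddCircle.toCircle_zero (T := (1:ℝ))] at h1
    exact hJ _ (AddCircle.injective_toCircle one_ne_zero h1)

/-- A copy of the abelian group `A` which will carry the Bohr topology. -/
def Bohr (A : Type u) : Type u := A

variable {A : Type u} [CommGroup A]

instance : CommGroup (Bohr A) := inferInstanceAs (CommGroup A)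

/-- The identity map from the copy to `A`. -/
def un : Bohr A ≃* A := MulEquiv.refl A

/-- The evaluation of all the homomorphisms into the circle. -/
noncomputable def ev : Bohr A →* ((A →* Circle) → Circle) where
  toFun a := fun χ => χ (un a)
  map_one' := by funext χ; simp
  map_mul' a b := by funext χ; simp

/-- The Bohr topology of the discrete group `A`: the coarsest topology for which all the
homomorphisms from `A` into the circle are continuous. -/
noncomputable instance : TopologicalSpace (Bohr A) := TopologicalSpace.induced ev inferInstance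

lemma inducing_ev : IsInducing (ev (A := A)) := ⟨rfl⟩

instance : IsTopologicalGroup (Bohr A) := topologicalGroup_induced ev

lemma continuous_char (χ : A →* Circle) : Continuous fun a : Bohr A => χ (un a) :=
  (continuous_apply χ).comp inducing_ev.continuous

lemma ev_injective : Function.Injective (ev (A := A)) := by
  rw [injective_iff_map_eq_one]
  intro a ha
  by_contra hne
  obtain ⟨χ, hχ⟩ := circ_sep (un a) (fun h => hne (by simpa using h))
  exact hχ (congrFun ha χ)

instance : T2Space (Bohr A) := T2Space.of_injective_continuous ev_injective inducing_ev.continuous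

theorem precompact_bohr : Precompact (Bohr A) := precompact_of_inducing ev inducing_ev

lemma sep_quot (B : Subgroup A) (x : A ⧸ B) (hx : x ≠ 1) : ∃ χ : A ⧸ B →* Circle, χ x ≠ 1 :=
  circ_sep x hx

lemma mem_of_mk (B : Subgroup A) (a : A) (h : (QuotientGroup.mk a : A ⧸ B) = 1) : a ∈ B :=
  (QuotientGroup.eq_one_iff a).1 h

/-- Every subgroup is closed in the Bohr topology. -/
theorem isClosed_subgroup (B : Subgroup A) : IsClosed {a : Bohr A | un a ∈ B} := by
  rw [← isOpen_compl_iff, isOpen_iff_mem_nhds]
  intro a ha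
  obtain ⟨χ, hχ⟩ : ∃ χ : A ⧸ B →* Circle, χ (QuotientGroup.mk (un a)) ≠ 1 :=
    sep_quot B _ fun h => ha (show un a ∈ B from mem_of_mk B (un a) h)
  let ψ : A →* Circle := χ.comp (QuotientGroup.mk' B)
  have h1 : IsOpen {x : Bohr A | ψ (un x) ≠ 1} :=
    isOpen_ne.preimage (continuous_char ψ)
  refine mem_of_superset (h1.mem_nhds hχ) fun x hx hxB => hx ?_
  have h2 : (QuotientGroup.mk (un x) : A ⧸ B) = 1 := (QuotientGroup.eq_one_iff _).2 hxB
  show χ (QuotientGroup.mk (un x)) = 1
  rw [h2, map_one]

lemma continuous_eval {B : Type*} [Monoid B] [TopologicalSpace B] (b : B) :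
    Continuous fun χ : PontryaginDual B => χ b :=
  (continuous_eval_const (F := C(B, Circle)) b).comp
    (ContinuousMonoidHom.isInducing_toContinuousMap B Circle).continuous

/-- A sequence of non-trivial elements of a discrete group does not converge to `1` in the Bohr
topology. -/
lemma not_tendsto_one (m : ℕ → A) (hm : ∀ k, m k ≠ 1)
    (h : ∀ χ : A →* Circle, Tendsto (fun k => χ (m k)) atTop (𝓝 1)) : False := by
  let _ : TopologicalSpace A := ⊥
  have _ : DiscreteTopology A := ⟨rfl⟩
  let _ : MeasurableSpace (PontryaginDual A) := borel _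
  have _ : BorelSpace (PontryaginDual A) := ⟨rfl⟩
  let μ : Measure (PontryaginDual A) := Measure.haarMeasure ⊤
  have hμ : IsFiniteMeasure μ := by
    constructor
    exact isCompact_univ.measure_lt_top
  have hevc : ∀ a : A, Continuous fun χ : PontryaginDual A => ((χ a : Circle) : ℂ) := by
    intro a
    exact continuous_subtype_val.comp (continuous_eval a)
  have h1 : ∀ k, ∫ χ : PontryaginDual A, ((χ (m k) : Circle) : ℂ) ∂μ = 0 := by
    intro k
    obtain ⟨ψ, hψ⟩ := circ_sep (m k) (hm k)
    let ψ' : PontryaginDual A := (⟨ψ, continuous_of_discreteTopology⟩ : A →ₜ* Circle)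
    have h2 := integral_mul_left_eq_self (μ := μ)
      (fun χ : PontryaginDual A => ((χ (m k) : Circle) : ℂ)) ψ'
    have h3 : ∀ χ : PontryaginDual A,
        (((ψ' * χ) (m k) : Circle) : ℂ) = (ψ (m k) : ℂ) * ((χ (m k) : Circle) : ℂ) :=
      fun χ => rfl
    simp only [h3] at h2
    rw [integral_const_mul] at h2
    have h4 : ((ψ (m k) : ℂ) - 1) * ∫ χ : PontryaginDual A, ((χ (m k) : Circle) : ℂ) ∂μ = 0 := by
      rw [sub_mul, h2]; simp
    rcases mul_eq_zero.1 h4 with h5 | h5
    · exfalso
      apply hψ
      ext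
      rw [Circle.coe_one]
      linear_combination h5
    · exact h5
  have h3 : Tendsto (fun k => ∫ χ : PontryaginDual A, ((χ (m k) : Circle) : ℂ) ∂μ)
      atTop (𝓝 (∫ χ : PontryaginDual A, (1 : ℂ) ∂μ)) := by
    apply tendsto_integral_of_dominated_convergence (fun _ => (1:ℝ))
    · intro k
      exact (hevc (m k)).aestronglyMeasurable
    · exact integrable_const _
    · intro k
      filter_upwards with χ
      exact (Circle.norm_coe _).le
    · filter_upwards with χ
      have h4 := h (χ : A →ₜ* Circle)
      have h5 : Tendsto (fun k => (((χ (m k)) : Circle) : ℂ)) atTop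
          (𝓝 ((1 : Circle) : ℂ)) := (continuous_subtype_val.tendsto _).comp h4
      rwa [Circle.coe_one] at h5
  simp only [h1] at h3
  have h6 := tendsto_nhds_unique h3 tendsto_const_nhds
  rw [integral_const] at h6
  have h7 : μ.real univ = 1 := by
    rw [Measure.real, show (univ : Set (PontryaginDual A)) =
      ((⊤ : TopologicalSpace.PositiveCompacts (PontryaginDual A)) : Set (PontryaginDual A)) from
      (TopologicalSpace.PositiveCompacts.coe_top).symm, Measure.haarMeasure_self]
    simp
  rw [h7] at h6
  simp at h6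

/-- A countable set of characters which separates the points of a countable subgroup. -/
lemma exists_countable_sep (B : Subgroup A) [Countable B] :
    ∃ D : Set (A →* Circle), D.Countable ∧ ∀ b ∈ B, b ≠ 1 → ∃ χ ∈ D, χ b ≠ 1 := by
  have h : ∀ b : B, ∃ χ : A →* Circle, (b : A) ≠ 1 → χ b ≠ 1 := by
    intro b
    by_cases hb : (b : A) = 1
    · exact ⟨1, fun h => absurd hb h⟩
    · obtain ⟨χ, hχ⟩ := circ_sep (b : A) hb
      exact ⟨χ, fun _ => hχ⟩
  choose χ hχ using h
  exact ⟨range χ, countable_range χ, fun b hb hb1 => ⟨χ ⟨b, hb⟩, ⟨_, rfl⟩, hχ ⟨b, hb⟩ hb1⟩⟩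

/-- Compact sets in the Bohr topology of a discrete group are finite. -/
theorem finite_of_isCompact_bohr (L : Set (Bohr A)) (hL : IsCompact L) : L.Finite := by
  by_contra hinf
  have hinf : L.Infinite := hinf
  let s := hinf.natEmbedding
  let B : Subgroup A := Subgroup.closure (range fun k => un (s k : Bohr A))
  have hB : Countable B := by
    have h1 : (range fun k => un (s k : Bohr A)).Countable := countable_range _
    have : Countable (range fun k => un (s k : Bohr A)) := h1.to_subtype
    have h2 : Countable (FreeGroup (range fun k => un (s k : Bohr A))) := inferInstance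
    show (Subgroup.closure (range fun k => un (s k : Bohr A)) : Set A).Countable
    rw [FreeGroup.closure_eq_range]
    exact Set.countable_range _
  obtain ⟨D, hDc, hD⟩ := exists_countable_sep B
  have hDc' : Countable D := hDc.to_subtype
  have hLB : IsCompact (L ∩ {a : Bohr A | un a ∈ B}) := hL.inter_right (isClosed_subgroup B)
  set L' := L ∩ {a : Bohr A | un a ∈ B} with hL'
  let g : Bohr A → (D → Circle) := fun a χ => (χ : A →* Circle) (un a)
  have hg : Continuous g := continuous_pi fun χ => continuous_char _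
  have hginj : ∀ a b : Bohr A, un a ∈ B → un b ∈ B → g a = g b → a = b := by
    intro a b ha hb h
    by_contra hne
    obtain ⟨χ, hχ, hχ1⟩ := hD (un a * (un b)⁻¹) (B.mul_mem ha (B.inv_mem hb)) (fun h => hne (by
      apply un.injective
      rwa [mul_inv_eq_one] at h))
    apply hχ1
    rw [map_mul, map_inv, mul_inv_eq_one]
    exact congrFun h ⟨χ, hχ⟩
  have hsL' : ∀ k, (s k : Bohr A) ∈ L' := fun k =>
    ⟨(s k).2, Subgroup.subset_closure ⟨k, rfl⟩⟩
  obtain ⟨a, ⟨l, hl, rfl⟩, φ, hφ, hlim⟩ := (hLB.image hg).tendsto_subseq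
    (x := fun k => g (s k)) (fun k => ⟨s k, hsL' k, rfl⟩)
  have : CompactSpace L' := isCompact_iff_compactSpace.1 hLB
  have hemb : IsClosedEmbedding (fun x : L' => g x) :=
    (hg.comp continuous_subtype_val).isClosedEmbedding
      (fun x y h => Subtype.ext (hginj _ _ x.2.2 y.2.2 h))
  have hlim2 : Tendsto (fun k => (⟨s (φ k), hsL' _⟩ : L')) atTop (𝓝 (⟨l, hl⟩ : L')) := by
    rw [hemb.isEmbedding.tendsto_nhds_iff]
    exact hlim
  have hlim3 : Tendsto (fun k => ((s (φ k) : L) : Bohr A)) atTop (𝓝 l) :=
    (continuous_subtype_val.tendsto (⟨l, hl⟩ : L')).comp hlim2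
  have hinj : Function.Injective fun k => ((s (φ k) : L) : Bohr A) :=
    Subtype.val_injective.comp (s.injective.comp hφ.injective)
  obtain ⟨K, hK⟩ : ∃ K : ℕ, ∀ k, K ≤ k → ((s (φ k) : L) : Bohr A) ≠ l := by
    by_cases h : ∃ k, ((s (φ k) : L) : Bohr A) = l
    · obtain ⟨k, hk⟩ := h
      refine ⟨k + 1, fun j hj hjl => ?_⟩
      have := hinj (hjl.trans hk.symm)
      omega
    · push Not at h
      exact ⟨0, fun k _ => h k⟩
  refine not_tendsto_one (fun k => un ((s (φ (k + K)) : L) : Bohr A) * (un l)⁻¹) ?_ ?_
  · intro k h0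
    rw [mul_inv_eq_one] at h0
    exact hK (k + K) (by omega) (un.injective h0)
  · intro χ
    have h1 : Tendsto (fun k => χ (un ((s (φ (k + K)) : L) : Bohr A))) atTop
        (𝓝 (χ (un l))) :=
      ((continuous_char χ).tendsto l).comp (hlim3.comp (tendsto_add_atTop_nat K))
    have h2 := h1.mul_const ((χ (un l))⁻¹)
    rw [mul_inv_cancel] at h2
    refine h2.congr fun k => ?_
    rw [map_mul, map_inv]

/-- The homomorphism `χ`, as a character of the group `A` with its Bohr topology. -/
noncomputable def charB (χ : A →* Circle) : PontryaginDual (Bohr A) :=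
  (⟨χ.comp un.toMonoidHom, continuous_char χ⟩ : Bohr A →ₜ* Circle)

lemma charB_apply (χ : A →* Circle) (a : Bohr A) : charB χ a = χ (un a) := rfl

lemma charB_injective : Function.Injective (charB (A := A)) := by
  intro χ ψ h
  ext a
  exact congrArg (fun z : Circle => (z : ℂ)) (DFunLike.congr_fun h (un.symm a))

/-- If `A` is infinite, then the dual group of `A` with the Bohr topology has an infinite compact
subset (in fact the whole group is compact). -/
theorem exists_infinite_compact [Infinite A] :
    ∃ C : Set (PontryaginDual (Bohr A)), IsCompact C ∧ C.Infinite := by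
  let _ : TopologicalSpace A := ⊥
  have _ : DiscreteTopology A := ⟨rfl⟩
  let Φ : PontryaginDual A → PontryaginDual (Bohr A) := fun χ =>
    charB ((χ : A →ₜ* Circle) : A →* Circle)
  have hΦ : Continuous Φ := by
    refine (ContinuousMonoidHom.isInducing_toContinuousMap (Bohr A) Circle).continuous_iff.2 ?_
    refine ContinuousMap.continuous_compactOpen.2 fun K hK U hU => ?_
    have hfin := finite_of_isCompact_bohr K hK
    have : {t : PontryaginDual A | MapsTo ((Φ t : Bohr A →ₜ* Circle) : C(Bohr A, Circle)) K U} =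
        ⋂ n ∈ K, {t : PontryaginDual A | t (un n) ∈ U} := by
      ext t
      simp only [mem_ofPred_eq, mem_iInter]
      exact Iff.rfl
    show IsOpen {t : PontryaginDual A |
      MapsTo ((Φ t : Bohr A →ₜ* Circle) : C(Bohr A, Circle)) K U}
    rw [this]
    exact hfin.isOpen_biInter fun n _ => hU.preimage (continuous_eval _)
  refine ⟨range Φ, isCompact_range hΦ, ?_⟩
  intro hfin
  have hrange : (range (charB (A := A))).Finite := by
    refine hfin.subset ?_
    rintro _ ⟨χ, rfl⟩
    exact ⟨(⟨χ, continuous_of_discreteTopology⟩ : A →ₜ* Circle), rfl⟩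
  have hF : Finite (A →* Circle) := (finite_range_iff charB_injective).1 hrange
  -- then `A` embeds in a finite power of the circle
  let s := Infinite.natEmbedding A
  obtain ⟨a, -, φ, hφ, hlim⟩ := (isCompact_univ (X := (A →* Circle) → Circle)).tendsto_subseq
    (x := fun k χ => χ (s k)) (fun k => mem_univ _)
  refine not_tendsto_one (fun k => s (φ (k + 1)) * (s (φ k))⁻¹) ?_ ?_
  · intro k h0
    rw [mul_inv_eq_one] at h0
    have := hφ.injective (s.injective h0)
    omega
  · intro χ
    have h1 : Tendsto (fun k => χ (s (φ k))) atTop (𝓝 (a χ)) :=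
      (tendsto_pi_nhds.1 hlim) χ
    have h2 := (h1.comp (tendsto_add_atTop_nat 1)).mul h1.inv
    rw [mul_inv_cancel] at h2
    refine h2.congr fun k => ?_
    rw [map_mul, map_inv]
    rfl

/-- An infinite abelian group with its Bohr topology is not a continuous homomorphic image of any
reflexive precompact abelian group. -/
theorem not_image [Infinite A] (G : Type v) [CommGroup G] [TopologicalSpace G]
    [IsTopologicalGroup G] (hp : Precompact G) (hr : Reflexive G) (f : G →ₜ* Bohr A) :
    ¬ Function.Surjective f := by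
  intro hf
  obtain ⟨C, hC, hinf⟩ := exists_infinite_compact (A := A)
  exact hinf (finite_of_surjective hp hr f hf C hC)

end Pool.Agent.X199.BohrA
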