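import Mathlib

/-!
# A Boolean group without convergent sequences which projects onto all countable faces
-/

open Topology Filter Set

namespace Pool.Agent.X199.Sirota

/-- Codes of points with prescribed countably many coordinates. -/
abbrev X : Type := (ℕ → ℝ) × (ℕ → ZMod 2)

/-- The free Boolean group on the codes. -/
abbrev F : Type := X →₀ ZMod 2

lemma mk_X : Cardinal.mk X = Cardinal.continuum := by
  rw [Cardinal.mk_prod, Cardinal.lift_id, Cardinal.lift_id, ← Cardinal.power_def,
    ← Cardinal.power_def]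
  simp [Cardinal.mk_real]

instance : Infinite X := by
  rw [Cardinal.infinite_iff, mk_X]
  exact Cardinal.aleph0_le_continuum

lemma mk_F : Cardinal.mk F = Cardinal.continuum := by
  rw [Cardinal.mk_finsupp_lift_of_infinite, mk_X]
  simp only [Cardinal.lift_continuum, Cardinal.mk_fintype, ZMod.card, Cardinal.lift_natCast,
    Nat.cast_ofNat, sup_eq_left]
  rw [Cardinal.lift_id]
  exact_mod_cast (Cardinal.nat_lt_continuum 2).le

lemma mk_seq : Cardinal.mk ((ℕ → F) × ℝ) = Cardinal.mk ℝ := by
  rw [Cardinal.mk_prod, Cardinal.lift_id, Cardinal.lift_id, ← Cardinal.power_def, mk_F]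
  simp [Cardinal.mk_real]

/-- A bijection of the reals with pairs (sequence in `F`, real). -/
noncomputable def code : (ℕ → F) × ℝ ≃ ℝ := (Cardinal.eq.1 mk_seq).some

/-- The linear extension of a function on the codes. -/
noncomputable def ext (ψ : X → ZMod 2) : F →ₗ[ZMod 2] ZMod 2 := Finsupp.linearCombination (ZMod 2) ψ

lemma ext_apply (ψ : X → ZMod 2) (f : F) : ext ψ f = f.sum fun x a => a * ψ x := by
  simp [ext, Finsupp.linearCombination_apply]

lemma continuous_ext (f : F) : Continuous fun ψ : X → ZMod 2 => ext ψ f := by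
  simp only [ext_apply, Finsupp.sum]
  fun_prop

lemma ext_add (ψ ψ' : X → ZMod 2) (f : F) : ext (ψ + ψ') f = ext ψ f + ext ψ' f := by
  simp only [ext_apply, Finsupp.sum, ← Finset.sum_add_distrib, Pi.add_apply, mul_add]

/-- For each injective sequence there is a homomorphism along which it does not converge. -/
theorem exists_kill (v : ℕ → F) (hv : Function.Injective v) :
    ∃ ψ : X → ZMod 2, ∀ N : ℕ, ∃ m n, N ≤ m ∧ N ≤ n ∧ ext ψ (v m) ≠ ext ψ (v n) := by
  classical
  by_contra hcon
  push Not at hcon
  let E : ℕ → Set (X → ZMod 2) := fun N => {ψ | ∀ m n, N ≤ m → N ≤ n → ext ψ (v m) = ext ψ (v n)}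
  have hEc : ∀ N, IsClosed (E N) := by
    intro N
    simp only [E, Set.ofPred_forall]
    refine isClosed_iInter fun m => isClosed_iInter fun n => isClosed_iInter fun _ =>
      isClosed_iInter fun _ => isClosed_eq (continuous_ext _) (continuous_ext _)
  have hEu : ⋃ N, E N = univ := by
    apply eq_univ_of_forall
    intro ψ
    obtain ⟨N, hN⟩ := hcon ψ
    exact mem_iUnion.2 ⟨N, hN⟩
  obtain ⟨N, ψ₀, hψ₀⟩ := nonempty_interior_of_iUnion_of_closed hEc hEu
  rw [mem_interior_iff_mem_nhds, nhds_pi, Filter.mem_pi] at hψ₀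
  obtain ⟨S, hS, t, ht, hsub⟩ := hψ₀
  -- functions vanishing on `S` belong to `E N`
  have h1 : ∀ ψ : X → ZMod 2, (∀ x ∈ S, ψ x = 0) → ψ ∈ E N := by
    intro ψ hψ
    have h2 : ψ₀ ∈ E N := hsub fun x _ => mem_of_mem_nhds (ht x)
    have h3 : ψ₀ + ψ ∈ E N := by
      apply hsub
      intro x hx
      rw [Pi.add_apply, hψ x hx, add_zero]
      exact mem_of_mem_nhds (ht x)
    intro m n hm hn
    have h4 := h3 m n hm hn
    rw [ext_add, ext_add, h2 m n hm hn] at h4
    exact add_left_cancel h4
  -- hence the differences are supported in `S`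
  have h5 : ∀ m, N ≤ m → ∀ x ∉ S, v m x = v N x := by
    intro m hm x hx
    have h6 := h1 (Pi.single x 1) (fun y hy => by
      rw [Pi.single_eq_of_ne]
      rintro rfl
      exact hx hy) m N hm le_rfl
    have h7 : ∀ f : F, ext (Pi.single x 1) f = f x := by
      intro f
      rw [ext_apply, Finsupp.sum]
      rw [Finset.sum_eq_single x]
      · simp
      · intro y _ hyx
        rw [Pi.single_eq_of_ne hyx, mul_zero]
      · intro hx'
        rw [Finsupp.notMem_support_iff.1 hx', zero_mul]
    rwa [h7, h7] at h6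
  have h8 : Set.InjOn (fun m : ℕ => fun x : S => v m x) {m | N ≤ m} := by
    intro m hm n hn hmn
    apply hv
    ext x
    by_cases hx : x ∈ S
    · exact congrFun hmn ⟨x, hx⟩
    · rw [h5 m hm x hx, h5 n hn x hx]
  have : Finite S := hS
  have h9 : ({m | N ≤ m} : Set ℕ).Infinite := Set.infinite_of_not_bddAbove (by
    rintro ⟨b, hb⟩
    have := hb (show b + N + 1 ∈ {m | N ≤ m} by simp only [mem_setOf_eq]; omega)
    omega)
  exact h9 (Set.Finite.of_injOn (t := univ) (fun _ _ => mem_univ _) h8 (toFinite _))

open Classical in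
/-- The chosen killing function. -/
noncomputable def kill (v : ℕ → F) : X → ZMod 2 :=
  if h : Function.Injective v then (exists_kill v h).choose else 0

open Classical in
/-- The value of the `β`-th coordinate at the generator `x`. -/
noncomputable def val (β : ℝ) (x : X) : ZMod 2 :=
  if h : ∃ n, x.1 n = β then x.2 h.choose else kill (code.symm β).1 x

/-- The embedding of `F` into the power. -/
noncomputable def Φ : F →+ (ℝ → ZMod 2) where
  toFun f β := ext (val β) f
  map_zero' := by ext β; simp
  map_add' f g := by ext β; simp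

/-- The group. -/
noncomputable def G : AddSubgroup (ℝ → ZMod 2) := Φ.range

/-- `G` projects onto all the countable faces. -/
theorem face (C : Set ℝ) (hC : C.Countable) (z : ℝ → ZMod 2) : ∃ g : G, ∀ β ∈ C, g.1 β = z β := by
  obtain ⟨e, he⟩ := Set.countable_iff_exists_subset_range.1 hC
  let x : X := (e, fun n => z (e n))
  refine ⟨⟨Φ (Finsupp.single x 1), ⟨_, rfl⟩⟩, ?_⟩
  intro β hβ
  have hex : ∃ n, x.1 n = β := he hβ
  show ext (val β) (Finsupp.single x 1) = z β
  rw [ext_apply, Finsupp.sum_single_index (by simp), one_mul, val, dif_pos hex]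
  show z (e hex.choose) = z β
  rw [show e hex.choose = β from hex.choose_spec]

/-- Injective sequences of `G` do not converge. -/
theorem not_tendsto (u : ℕ → G) (hu : Function.Injective u) (l : G) :
    ¬ Tendsto u atTop (𝓝 l) := by
  intro hlim
  choose v hv using fun n => (u n).2
  have hvi : Function.Injective v := by
    intro m n h
    apply hu
    apply Subtype.ext
    rw [← hv m, ← hv n, h]
  let C : Set ℝ := ⋃ n, ⋃ x ∈ (v n).support, range x.1
  have hC : C.Countable := countable_iUnion fun n =>
    ((v n).support.countable_toSet).biUnion fun x _ => countable_range _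
  obtain ⟨r, hr⟩ : ∃ r : ℝ, code (v, r) ∉ C := by
    by_contra h
    push Not at h
    have h1 : (univ : Set ℝ).Countable := by
      have h2 : Set.Countable ((fun r : ℝ => code (v, r)) ⁻¹' C) := by
        refine hC.preimage_of_injOn ?_
        intro a _ b _ hab
        exact (Prod.mk.inj (code.injective hab)).2
      exact h2.mono fun r _ => h r
    exact Cardinal.not_countable_real h1
  set β := code (v, r) with hβ
  have h3 : ∀ n, (u n).1 β = ext (kill v) (v n) := by
    intro n
    rw [← hv n]
    show ext (val β) (v n) = ext (kill v) (v n)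
    rw [ext_apply, ext_apply]
    apply Finsupp.sum_congr
    intro x hx
    have h4 : ¬ ∃ m, x.1 m = β := by
      rintro ⟨m, hm⟩
      exact hr (mem_iUnion.2 ⟨n, mem_iUnion₂.2 ⟨x, hx, ⟨m, hm⟩⟩⟩)
    rw [val, dif_neg h4, hβ, Equiv.symm_apply_apply]
  have h5 : Tendsto (fun n => (u n).1 β) atTop (𝓝 (l.1 β)) :=
    ((continuous_apply β).comp continuous_subtype_val).continuousAt.tendsto.comp hlim
  rw [nhds_discrete, tendsto_pure] at h5
  obtain ⟨N, hN⟩ := eventually_atTop.1 h5
  have hk : ∀ N : ℕ, ∃ m n, N ≤ m ∧ N ≤ n ∧ ext (kill v) (v m) ≠ ext (kill v) (v n) := by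
    rw [kill, dif_pos hvi]
    exact (exists_kill v hvi).choose_spec
  obtain ⟨m, n, hm, hn, hne⟩ := hk N
  apply hne
  rw [← h3, ← h3, hN m hm, hN n hn]

end Pool.Agent.X199.Sirota
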