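import Mathlib

/-!
# Independent linked families (Kunen, Simon)
-/

open Set Filter Cardinal

namespace Pool.Agent.X199.Kunen

/-- A family of linked systems: `A j i n` increases with `n`, and the intersection of more than
`n` of the sets `A j i n` (`i` varying) is finite. -/
structure Linked (S J I : Type) where
  /-- the sets -/
  A : J → I → ℕ → Set S
  mono : ∀ j i, Monotone (A j i)
  fin : ∀ j n (σ : Finset I), n < σ.card → {s | ∀ i ∈ σ, s ∈ A j i n}.Finite

variable {S J I : Type}

/-- A finite combination. -/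
def Linked.Comb (L : Linked S J I) (τ : Finset J) (σ : J → Finset I) (n : J → ℕ) : Set S :=
  {s | ∀ j ∈ τ, ∀ i ∈ σ j, s ∈ L.A j i (n j)}

/-- The systems with index outside `R` are independent modulo the filter `F`. -/
def Linked.Indep (L : Linked S J I) (F : Filter S) (R : Set J) : Prop :=
  ∀ τ : Finset J, (∀ j ∈ τ, j ∉ R) → ∀ (σ : J → Finset I) (n : J → ℕ),
    (∀ j ∈ τ, (σ j).card ≤ n j) → (F ⊓ 𝓟 (L.Comb τ σ n)).NeBot

variable {L : Linked S J I}

lemma indep_mono {F : Filter S} {R R' : Set J} (h : L.Indep F R) (hR : R ⊆ R') : L.Indep F R' :=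
  fun τ hτ σ n hn => h τ (fun j hj hjR => hτ j hj (hR hjR)) σ n hn

lemma indep_neBot {F : Filter S} {R : Set J} (h : L.Indep F R) : F.NeBot := by
  have := h ∅ (by simp) (fun _ => ∅) (fun _ => 0) (by simp)
  exact this.mono inf_le_left

lemma indep_nonempty {F : Filter S} {R : Set J} (h : L.Indep F R) {τ : Finset J}
    (hτ : ∀ j ∈ τ, j ∉ R) {σ : J → Finset I} {n : J → ℕ} (hn : ∀ j ∈ τ, (σ j).card ≤ n j)
    {G : Set S} (hG : G ∈ F) : (G ∩ L.Comb τ σ n).Nonempty := by
  have := h τ hτ σ n hn
  rw [inf_principal_neBot_iff] at this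
  exact this G hG

/-- Deciding one set. -/
lemma decide {F : Filter S} {R : Set J} (h : L.Indep F R) (B : Set S) :
    ∃ F' ≤ F, ∃ R', R ⊆ R' ∧ (R' \ R).Finite ∧ L.Indep F' R' ∧ (B ∈ F' ∨ Bᶜ ∈ F') := by
  classical
  by_cases hB : L.Indep (F ⊓ 𝓟 B) R
  · exact ⟨F ⊓ 𝓟 B, inf_le_left, R, subset_rfl, by simp, hB,
      Or.inl (mem_inf_of_right (mem_principal_self B))⟩
  · simp only [Linked.Indep] at hB
    push Not at hB
    obtain ⟨τ, hτ, σ, n, hn, hbot⟩ := hB
    refine ⟨F ⊓ 𝓟 (L.Comb τ σ n), inf_le_left, R ∪ τ, subset_union_left,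
      τ.finite_toSet.subset (by intro x hx; rcases hx.1 with h | h; exact absurd h hx.2; exact h),
      ?_, Or.inr ?_⟩
    · intro τ' hτ' σ' n' hn'
      have hdis : ∀ j ∈ τ', j ∉ τ := fun j hj hjt => hτ' j hj (Or.inr hjt)
      have hdisR : ∀ j ∈ τ', j ∉ R := fun j hj hjt => hτ' j hj (Or.inl hjt)
      have h1 := h (τ ∪ τ') (by
        intro j hj
        rcases Finset.mem_union.1 hj with hj | hj
        · exact hτ j hj
        · exact hdisR j hj) (fun j => if j ∈ τ then σ j else σ' j)
        (fun j => if j ∈ τ then n j else n' j) (by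
        intro j hj
        by_cases hjt : j ∈ τ
        · simp [hjt, hn j hjt]
        · have hj' : j ∈ τ' := (Finset.mem_union.1 hj).resolve_left hjt
          simp [hjt, hn' j hj'])
      refine h1.mono ?_
      rw [inf_assoc]
      refine inf_le_inf le_rfl ?_
      rw [inf_principal, principal_mono]
      intro s hs
      constructor
      · intro j hj i hi
        have := hs j (Finset.mem_union_left _ hj) i (by simpa [hj] using hi)
        simpa [hj] using this
      · intro j hj i hi
        have hjt := hdis j hj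
        have := hs j (Finset.mem_union_right _ hj) i (by simpa [hjt] using hi)
        simpa [hjt] using this
    · have h2 : F ⊓ 𝓟 (L.Comb τ σ n) ⊓ 𝓟 B = ⊥ := by
        rw [← hbot]; ac_rfl
      rw [← disjoint_iff, disjoint_principal_right] at h2
      exact h2

/-- The filter generated by `F` and the sets `V i`. -/
def gen (F : Filter S) (V : I → Set S) : Filter S where
  sets := {X | ∃ G ∈ F, ∃ σ : Finset I, ∀ s ∈ G, (∀ i ∈ σ, s ∈ V i) → s ∈ X}
  univ_sets := ⟨univ, univ_mem, ∅, by simp⟩
  sets_of_superset := by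
    rintro X Y ⟨G, hG, σ, h⟩ hXY
    exact ⟨G, hG, σ, fun s hs hi => hXY (h s hs hi)⟩
  inter_sets := by
    classical
    rintro X Y ⟨G, hG, σ, h⟩ ⟨G', hG', σ', h'⟩
    refine ⟨G ∩ G', inter_mem hG hG', σ ∪ σ', fun s hs hi => ⟨h s hs.1 fun i hi' => ?_,
      h' s hs.2 fun i hi' => ?_⟩⟩
    · exact hi i (Finset.mem_union_left _ hi')
    · exact hi i (Finset.mem_union_right _ hi')

lemma gen_le (F : Filter S) (V : I → Set S) : gen F V ≤ F :=
  fun G hG => ⟨G, hG, ∅, fun s hs _ => hs⟩

lemma mem_gen (F : Filter S) (V : I → Set S) (i : I) : V i ∈ gen F V :=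
  ⟨univ, univ_mem, {i}, fun s _ h => h i (Finset.mem_singleton_self i)⟩

/-- The step which makes the final ultrafilter OK. -/
lemma ok_step [Countable S] {F : Filter S} {R : Set J} (h : L.Indep F R) (hF : F ≤ cofinite)
    (j : J) (hj : j ∉ R) (U : ℕ → Set S) (hU : ∀ n, U n ∈ F) :
    ∃ F' ≤ F, L.Indep F' (insert j R) ∧ ∃ V : I → Set S, (∀ i, V i ∈ F') ∧
      ∀ (n : ℕ) (σ : Finset I), n < σ.card → ({s | ∀ i ∈ σ, s ∈ V i} \ U n).Finite := by
  classical
  obtain ⟨e, he⟩ := exists_injective_nat S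
  -- a decreasing sequence with empty intersection
  let W : ℕ → Set S := fun n => {s | (∀ m ≤ n, s ∈ U m) ∧ n ≤ e s}
  have hW : ∀ n, W n ∈ F := by
    intro n
    have h1 : {s | ∀ m ≤ n, s ∈ U m} ∈ F := by
      have : {s | ∀ m ≤ n, s ∈ U m} = ⋂ m ∈ Iic n, U m := by ext s; simp
      rw [this]
      exact (biInter_mem (finite_Iic n)).2 fun m _ => hU m
    have h2 : {s | n ≤ e s} ∈ F := by
      apply hF
      rw [mem_cofinite]
      have : {s | n ≤ e s}ᶜ = e ⁻¹' (Iio n) := by ext s; simp
      rw [this]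
      exact (finite_Iio n).preimage he.injOn
    exact inter_mem h1 h2
  have hWanti : ∀ n m, n ≤ m → W m ⊆ W n := fun n m hnm s hs =>
    ⟨fun k hk => hs.1 k (hk.trans hnm), hnm.trans hs.2⟩
  have hWout : ∀ s, s ∉ W (e s + 1) := fun s hs => by
    have := hs.2
    omega
  have hlevel : ∀ m s, s ∈ W m → ∃ n, m ≤ n ∧ s ∈ W n ∧ s ∉ W (n + 1) := by
    intro m s hs
    by_contra hcon
    push Not at hcon
    have : ∀ k, s ∈ W (m + k) := by
      intro k
      induction k with
      | zero => simpa using hs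
      | succ k ih =>
        have := hcon (m + k) (by omega) ih
        rwa [add_assoc] at this
    exact hWout s (hWanti _ _ (by omega) (this (e s + 1)))
  let V : I → Set S := fun i => {s | ∃ n, s ∈ W n ∧ s ∉ W (n + 1) ∧ s ∈ L.A j i (n + 1)}
  refine ⟨gen F V, gen_le F V, ?_, V, mem_gen F V, ?_⟩
  · intro τ hτ σ n hn
    rw [inf_principal_neBot_iff]
    rintro X ⟨G, hG, ρ, hX⟩
    have hjτ : j ∉ τ := fun hjt => hτ j hjt (mem_insert _ _)
    have hne := indep_nonempty h (τ := insert j τ)
      (σ := fun k => if k = j then ρ else σ k) (n := fun k => if k = j then ρ.card else n k)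
      (by
        intro k hk
        rcases Finset.mem_insert.1 hk with rfl | hk
        · exact hj
        · exact fun hkR => hτ k hk (mem_insert_of_mem _ hkR))
      (by
        intro k hk
        by_cases hkj : k = j
        · simp [hkj]
        · have hk' : k ∈ τ := (Finset.mem_insert.1 hk).resolve_left hkj
          simp [hkj, hn k hk'])
      (inter_mem hG (hW ρ.card))
    obtain ⟨s, ⟨hsG, hsW⟩, hs⟩ := hne
    refine ⟨s, hX s hsG ?_, ?_⟩
    · intro i hi
      obtain ⟨k, hk, hsk, hsk'⟩ := hlevel _ s hsW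
      refine ⟨k, hsk, hsk', ?_⟩
      have h1 := hs j (Finset.mem_insert_self _ _) i (by simpa using hi)
      simp only [if_true] at h1
      exact L.mono j i (by omega) h1
    · intro k hk i hi
      have hkj : k ≠ j := fun h => hjτ (h ▸ hk)
      have h1 := hs k (Finset.mem_insert_of_mem hk) i (by simpa [hkj] using hi)
      simpa [hkj] using h1
  · intro n σ hσ
    refine ((L.fin j n σ hσ).union ((finite_Iio n).preimage he.injOn)).subset ?_
    rintro s ⟨hs, hsU⟩
    have hσ0 : σ.Nonempty := Finset.card_pos.1 (by omega)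
    -- `s` is not in `W n`
    have hsW : s ∉ W n := fun hsW => hsU (hsW.1 n le_rfl)
    left
    intro i hi
    obtain ⟨k, hk, hk', hkA⟩ := hs i hi
    have hkn : k < n := by
      by_contra hkn
      exact hsW (hWanti n k (by omega) hk)
    exact L.mono j i (by omega) hkA

end Pool.Agent.X199.Kunen
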