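import Mathlib
import Pool.Agent.X199.Kunen1

/-!
# Transfinite construction of filters
-/

open Set Filter Cardinal

namespace Pool.Agent.X199.Kunen

variable {S J I Λ : Type} (L : Linked S J I)

/-- A state of the construction. -/
structure St (S J Λ : Type) where
  /-- the filters -/
  F : Λ → Filter S
  /-- the used indices -/
  R : Set J

/-- `y` extends `x`. -/
def Ext (x y : St S J Λ) : Prop := (∀ l, y.F l ≤ x.F l) ∧ x.R ⊆ y.R

lemma Ext.refl (x : St S J Λ) : Ext x x := ⟨fun _ => le_rfl, subset_rfl⟩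

lemma Ext.trans {x y z : St S J Λ} (h : Ext x y) (h' : Ext y z) : Ext x z :=
  ⟨fun l => (h'.1 l).trans (h.1 l), h.2.trans h'.2⟩

/-- A good state. -/
def Good (x : St S J Λ) : Prop := ∀ l, x.F l ≤ cofinite ∧ L.Indep (x.F l) x.R

variable {L}

/-- The limit of a family of states. -/
def lim {ι : Type} (x0 : St S J Λ) (Y : ι → St S J Λ) : St S J Λ :=
  ⟨fun l => x0.F l ⊓ ⨅ η, (Y η).F l, x0.R ∪ ⋃ η, (Y η).R⟩

lemma ext_lim {ι : Type} (x0 : St S J Λ) (Y : ι → St S J Λ) (η : ι) : Ext (Y η) (lim x0 Y) :=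
  ⟨fun _ => inf_le_right.trans (iInf_le _ η), fun _ ha => Or.inr (mem_iUnion.2 ⟨η, ha⟩)⟩

lemma ext_lim0 {ι : Type} (x0 : St S J Λ) (Y : ι → St S J Λ) : Ext x0 (lim x0 Y) :=
  ⟨fun _ => inf_le_left, subset_union_left⟩

lemma good_lim {ι : Type} {x0 : St S J Λ} (h0 : Good L x0) {Y : ι → St S J Λ}
    (hY : ∀ η, Good L (Y η)) (h0Y : ∀ η, Ext x0 (Y η))
    (hdir : ∀ η ζ, ∃ θ, Ext (Y η) (Y θ) ∧ Ext (Y ζ) (Y θ)) : Good L (lim x0 Y) := by
  intro l
  refine ⟨inf_le_left.trans (h0 l).1, ?_⟩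
  rcases isEmpty_or_nonempty ι with hι | hι
  · have h1 : (lim x0 Y).F l = x0.F l := by simp [lim]
    have h2 : (lim x0 Y).R = x0.R := by simp [lim]
    rw [h1, h2]
    exact (h0 l).2
  · intro τ hτ σ n hn
    have hle : (⨅ η, ((Y η).F l ⊓ 𝓟 (L.Comb τ σ n))) ≤ (lim x0 Y).F l ⊓ 𝓟 (L.Comb τ σ n) := by
      rw [← iInf_inf]
      refine inf_le_inf ?_ le_rfl
      refine le_inf ?_ le_rfl
      obtain ⟨η⟩ := hι
      exact (iInf_le _ η).trans ((h0Y η).1 l)
    refine NeBot.mono ?_ hle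
    apply iInf_neBot_of_directed'
    · intro η ζ
      obtain ⟨θ, h1, h2⟩ := hdir η ζ
      exact ⟨θ, inf_le_inf (h1.1 l) le_rfl, inf_le_inf (h2.1 l) le_rfl⟩
    · intro η
      exact (hY η l).2 τ (fun j hj hjR => hτ j hj (Or.inr (mem_iUnion.2 ⟨η, hjR⟩))) σ n hn

open Classical in
/-- One step. -/
noncomputable def step {T : Type} (L : Linked S J I) (P : T → (Λ → Filter S) → Prop) (t : T)
    (x : St S J Λ) : St S J Λ :=
  if h : ∃ y, Ext x y ∧ Good L y ∧ (y.R \ x.R).Countable ∧ P t y.F then h.choose else x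

lemma ext_step {T : Type} (P : T → (Λ → Filter S) → Prop) (t : T) (x : St S J Λ) :
    Ext x (step L P t x) := by
  unfold step
  split_ifs with h
  · exact h.choose_spec.1
  · exact Ext.refl x

lemma countable_step {T : Type} (P : T → (Λ → Filter S) → Prop) (t : T) (x : St S J Λ) :
    ((step L P t x).R \ x.R).Countable := by
  unfold step
  split_ifs with h
  · exact h.choose_spec.2.2.1
  · simp

lemma good_step {T : Type} (P : T → (Λ → Filter S) → Prop) (t : T) (x : St S J Λ)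
    (h : ∃ y, Ext x y ∧ Good L y ∧ (y.R \ x.R).Countable ∧ P t y.F) :
    Good L (step L P t x) ∧ P t (step L P t x).F := by
  unfold step
  rw [dif_pos h]
  exact ⟨h.choose_spec.2.1, h.choose_spec.2.2.2⟩

/-- The transfinite construction. -/
theorem run {T : Type} [LinearOrder T] [WellFoundedLT T] (small : Set J → Prop)
    (hsmall : ∀ t : T, ∀ D : Iio t → Set J, (∀ η, (D η).Countable) → ∀ X ⊆ ⋃ η, D η, small X)
    (x0 : St S J Λ) (h0 : Good L x0) (P : T → (Λ → Filter S) → Prop)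
    (hmono : ∀ t F G, P t F → (∀ l, G l ≤ F l) → P t G)
    (hstep : ∀ t x, Ext x0 x → Good L x → small (x.R \ x0.R) →
      ∃ y, Ext x y ∧ Good L y ∧ (y.R \ x.R).Countable ∧ P t y.F) :
    ∃ z, Ext x0 z ∧ Good L z ∧ (∀ t, P t z.F) ∧
      ∃ D : T → Set J, (∀ t, (D t).Countable) ∧ z.R \ x0.R ⊆ ⋃ t, D t := by
  classical
  let Y : T → St S J Λ := wellFounded_lt.fix fun t rec =>
    step L P t (lim x0 fun η : Iio t => rec η η.2)
  let Z : T → St S J Λ := fun t => lim x0 fun η : Iio t => Y η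
  have hY : ∀ t, Y t = step L P t (Z t) := fun t => wellFounded_lt.fix_eq _ t
  have hZY : ∀ t, Ext (Z t) (Y t) := fun t => by rw [hY]; exact ext_step P t _
  have hYZ : ∀ η t, η < t → Ext (Y η) (Z t) := fun η t h =>
    ext_lim x0 (fun η : Iio t => Y η) ⟨η, h⟩
  have hYY : ∀ η t, η ≤ t → Ext (Y η) (Y t) := by
    intro η t h
    rcases h.eq_or_lt with rfl | h
    · exact Ext.refl _
    · exact (hYZ η t h).trans (hZY t)
  have h0Z : ∀ t, Ext x0 (Z t) := fun t => ext_lim0 x0 _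
  have h0Y : ∀ t, Ext x0 (Y t) := fun t => (h0Z t).trans (hZY t)
  let D : T → Set J := fun t => (Y t).R \ (Z t).R
  have hD : ∀ t, (D t).Countable := fun t => by
    simp only [D]; rw [hY]; exact countable_step P t _
  have hYD : ∀ t, ∀ a ∈ (Y t).R \ x0.R, ∃ η ≤ t, a ∈ D η := by
    intro t
    induction t using WellFoundedLT.induction with
    | ind t ih =>
      rintro a ⟨ha, ha0⟩
      by_cases haZ : a ∈ (Z t).R
      · rcases haZ with haZ | haZ
        · exact absurd haZ ha0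
        · obtain ⟨⟨η, hη⟩, haη⟩ := mem_iUnion.1 haZ
          obtain ⟨ζ, hζ, h⟩ := ih η hη a ⟨haη, ha0⟩
          exact ⟨ζ, hζ.trans (le_of_lt hη), h⟩
      · exact ⟨t, le_rfl, ha, haZ⟩
  have hZD : ∀ t, (Z t).R \ x0.R ⊆ ⋃ η : Iio t, D η := by
    rintro t a ⟨ha | ha, ha0⟩
    · exact absurd ha ha0
    · obtain ⟨⟨η, hη⟩, haη⟩ := mem_iUnion.1 ha
      obtain ⟨ζ, hζ, h⟩ := hYD η a ⟨haη, ha0⟩
      exact mem_iUnion.2 ⟨⟨ζ, lt_of_le_of_lt hζ hη⟩, h⟩
  have hgood : ∀ t, Good L (Z t) ∧ Good L (Y t) ∧ P t (Y t).F := by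
    intro t
    induction t using WellFoundedLT.induction with
    | ind t ih =>
      have h1 : Good L (Z t) := by
        refine good_lim h0 (fun η => (ih η η.2).2.1) (fun η => h0Y η) ?_
        intro η ζ
        rcases le_total (η : T) ζ with h | h
        · exact ⟨ζ, hYY _ _ h, Ext.refl _⟩
        · exact ⟨η, Ext.refl _, hYY _ _ h⟩
      have h2 := good_step P t (Z t) (hstep t (Z t) (h0Z t) h1
        (hsmall t (fun η => D η) (fun η => hD η) _ (hZD t)))
      rw [← hY] at h2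
      exact ⟨h1, h2⟩
  refine ⟨lim x0 Y, ext_lim0 _ _, ?_, ?_, D, hD, ?_⟩
  · refine good_lim h0 (fun η => (hgood η).2.1) (fun η => h0Y η) ?_
    intro η ζ
    rcases le_total η ζ with h | h
    · exact ⟨ζ, hYY _ _ h, Ext.refl _⟩
    · exact ⟨η, Ext.refl _, hYY _ _ h⟩
  · intro t
    exact hmono t _ _ (hgood t).2.2 (ext_lim x0 Y t).1
  · rintro a ⟨ha | ha, ha0⟩
    · exact absurd ha ha0
    · obtain ⟨η, haη⟩ := mem_iUnion.1 ha
      obtain ⟨ζ, -, h⟩ := hYD η a ⟨haη, ha0⟩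
      exact mem_iUnion.2 ⟨ζ, h⟩

/-- Deciding countably many sets. -/
theorem decide_seq {x0 : St S J Λ} [DecidableEq Λ] (h0 : Good L x0) (l : Λ) (U : ℕ → Set S) :
    ∃ z, Ext x0 z ∧ Good L z ∧ (z.R \ x0.R).Countable ∧
      ∀ n, U n ∈ z.F l ∨ (U n)ᶜ ∈ z.F l := by
  obtain ⟨z, hz, hg, hP, D, hD, hzD⟩ := run (L := L) (T := ℕ) (fun _ => True) (fun _ _ _ _ _ => trivial) x0 h0
    (fun n F => U n ∈ F l ∨ (U n)ᶜ ∈ F l)
    (by
      rintro n F G (h | h) hGF
      · exact Or.inl (hGF l h)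
      · exact Or.inr (hGF l h))
    (by
      intro n x _ hx _
      obtain ⟨F', hF', R', hR', hfin, hind, hdec⟩ := decide (hx l).2 (U n)
      refine ⟨⟨Function.update x.F l F', R'⟩, ⟨?_, hR'⟩, ?_, hfin.countable, by simpa using hdec⟩
      · intro k
        by_cases hk : k = l
        · subst hk; simpa using hF'
        · simp [hk]
      · intro k
        by_cases hk : k = l
        · subst hk
          simpa using ⟨hF'.trans (hx k).1, hind⟩
        · simpa [hk] using ⟨(hx k).1, indep_mono (hx k).2 hR'⟩)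
  exact ⟨z, hz, hg, (countable_iUnion hD).mono hzD, hP⟩

end Pool.Agent.X199.Kunen
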