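import Mathlib
import Pool.Agent.X199.Kunen2

/-!
# An independent linked family, and the steps of the construction
-/

open Set Filter Cardinal

namespace Pool.Agent.X199.Kunen

/-- The countable set on which the independent linked family lives. -/
abbrev S0 : Type := Σ k : ℕ, (Set (Fin k) → Set (Set (Fin k)))

/-- The trace of `X` on `{0, ..., k - 1}`. -/
def tr (k : ℕ) (X : Set ℕ) : Set (Fin k) := {i | (i : ℕ) ∈ X}

lemma exists_tr_injOn (σ : Finset (Set ℕ)) : ∃ k0, ∀ k, k0 ≤ k → InjOn (tr k) (σ : Set (Set ℕ)) := by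
  classical
  have h : ∀ p : Set ℕ × Set ℕ, ∃ m : ℕ, p.1 ≠ p.2 → ∀ k, m ≤ k → tr k p.1 ≠ tr k p.2 := by
    intro p
    by_cases hp : p.1 = p.2
    · exact ⟨0, fun h => absurd hp h⟩
    · have : ∃ i, ¬ (i ∈ p.1 ↔ i ∈ p.2) := by
        by_contra hcon
        push Not at hcon
        exact hp (Set.ext hcon)
      obtain ⟨i, hi⟩ := this
      refine ⟨i + 1, fun _ k hk h => hi ?_⟩
      have := congrArg (fun E : Set (Fin k) => (⟨i, by omega⟩ : Fin k) ∈ E) h
      simpa [tr] using this
  choose m hm using h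
  refine ⟨(σ ×ˢ σ).sup m, fun k hk X hX Y hY hXY => ?_⟩
  by_contra hne
  have h1 : m (X, Y) ≤ k :=
    (Finset.le_sup (f := m) (Finset.mem_product.2 ⟨hX, hY⟩)).trans hk
  exact hm (X, Y) hne k h1 hXY

lemma finite_below (k0 : ℕ) : {s : S0 | s.1 < k0}.Finite := by
  have : {s : S0 | s.1 < k0} = ⋃ k ∈ Iio k0, range (Sigma.mk k : _ → S0) := by
    ext ⟨k, f⟩
    simp only [mem_ofPred_eq, mem_iUnion, mem_Iio, mem_range, exists_prop]
    constructor
    · intro h
      exact ⟨k, h, f, rfl⟩
    · rintro ⟨k', hk', f', hf⟩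
      have := congrArg Sigma.fst hf
      simp only at this
      omega
  rw [this]
  exact (finite_Iio k0).biUnion fun k _ => finite_range _

/-- The independent linked family. -/
def L0 : Linked S0 (Set ℕ) (Set ℕ) where
  A Y X n := {s | tr s.1 X ∈ s.2 (tr s.1 Y) ∧ (s.2 (tr s.1 Y)).ncard ≤ n}
  mono Y X := fun _ _ hnm _ hs => ⟨hs.1, hs.2.trans hnm⟩
  fin := by
    classical
    intro Y n σ hσ
    obtain ⟨k0, hk0⟩ := exists_tr_injOn σ
    refine (finite_below k0).subset fun s hs => ?_
    by_contra hcon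
    simp only [mem_ofPred_eq, not_lt] at hcon
    have hne : σ.Nonempty := Finset.card_pos.1 (by omega)
    obtain ⟨X0, hX0⟩ := hne
    have h1 : (tr s.1 '' (σ : Set (Set ℕ))).ncard = σ.card := by
      rw [(hk0 s.1 hcon).ncard_image, ncard_coe_finset]
    have h2 : tr s.1 '' (σ : Set (Set ℕ)) ⊆ s.2 (tr s.1 Y) := by
      rintro _ ⟨X, hX, rfl⟩
      exact (hs X hX).1
    have h3 := ncard_le_ncard h2 (toFinite _)
    have h4 := (hs X0 hX0).2
    omega

lemma comb_level (τ : Finset (Set ℕ)) (σ : Set ℕ → Finset (Set ℕ)) (n : Set ℕ → ℕ)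
    (hn : ∀ j ∈ τ, (σ j).card ≤ n j) : ∃ k0, ∀ k, k0 ≤ k → ∃ s ∈ L0.Comb τ σ n, s.1 = k := by
  classical
  obtain ⟨k0, hk0⟩ := exists_tr_injOn τ
  refine ⟨k0, fun k hk => ?_⟩
  let f : Set (Fin k) → Set (Set (Fin k)) := fun T =>
    {E | ∃ Y ∈ τ, tr k Y = T ∧ ∃ X ∈ σ Y, tr k X = E}
  have hf : ∀ Y ∈ τ, f (tr k Y) = tr k '' (σ Y : Set (Set ℕ)) := by
    intro Y hY
    ext E
    constructor
    · rintro ⟨Y', hY', hYY', X, hX, rfl⟩
      have := hk0 k hk hY' hY hYY'
      subst this
      exact ⟨X, hX, rfl⟩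
    · rintro ⟨X, hX, rfl⟩
      exact ⟨Y, hY, rfl, X, hX, rfl⟩
  refine ⟨⟨k, f⟩, ?_, rfl⟩
  intro Y hY X hX
  have h1 : f (tr k Y) = tr k '' (σ Y : Set (Set ℕ)) := hf Y hY
  constructor
  · show tr k X ∈ f (tr k Y)
    rw [h1]
    exact ⟨X, hX, rfl⟩
  · show (f (tr k Y)).ncard ≤ n Y
    rw [h1]
    refine (ncard_image_le (σ Y).finite_toSet).trans ?_
    rw [ncard_coe_finset]
    exact hn Y hY

/-- The base filter. -/
lemma base_good (w : Filter ℕ) [w.NeBot] (hw : w ≤ cofinite) (R : Set (Set ℕ)) :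
    comap (Sigma.fst : S0 → ℕ) w ≤ cofinite ∧ L0.Indep (comap (Sigma.fst : S0 → ℕ) w) R := by
  constructor
  · rw [le_cofinite_iff_compl_singleton_mem]
    intro s
    refine ⟨{s.1}ᶜ, le_cofinite_iff_compl_singleton_mem.1 hw s.1, ?_⟩
    intro t ht hts
    rw [mem_singleton_iff] at hts
    exact ht (by rw [hts]; rfl)
  · intro τ _ σ n hn
    rw [inf_principal_neBot_iff]
    rintro X ⟨G, hG, hX⟩
    obtain ⟨k0, hk0⟩ := comb_level τ σ n hn
    have h1 : (Iio k0)ᶜ ∈ w := hw (by rw [mem_cofinite, compl_compl]; exact finite_Iio k0)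
    obtain ⟨k, hkG, hk⟩ := Filter.nonempty_of_mem (inter_mem hG h1)
    rw [mem_compl_iff, mem_Iio, not_lt] at hk
    obtain ⟨s, hs, hsk⟩ := hk0 k hk
    exact ⟨s, hX (by show s.1 ∈ G; rw [hsk]; exact hkG), hs⟩

/-- The tasks. -/
inductive Task (Λ : Type) : Type
  | ok (l : Λ) (U : ℕ → Set S0) : Task Λ
  | inc (l l' : Λ) (h : S0 → S0) : Task Λ

/-- The requirement corresponding to a task. -/
def Req {Λ : Type} : Task Λ → (Λ → Filter S0) → Prop
  | .ok l U, F => (∃ n, (U n)ᶜ ∈ F l) ∨ ((∀ n, U n ∈ F l) ∧ ∃ V : Set ℕ → Set S0,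
      (∀ i, V i ∈ F l) ∧ ∀ (n : ℕ) (σ : Finset (Set ℕ)), n < σ.card →
        ({s | ∀ i ∈ σ, s ∈ V i} \ U n).Finite)
  | .inc l l' h, F => l ≠ l' → ∃ A : Set S0, A ∈ F l ∧ (h ⁻¹' A)ᶜ ∈ F l'

lemma req_mono {Λ : Type} (t : Task Λ) (F G : Λ → Filter S0) (h : Req t F)
    (hG : ∀ l, G l ≤ F l) : Req t G := by
  cases t with
  | ok l U =>
    rcases h with ⟨n, hn⟩ | ⟨h1, V, hV, h2⟩
    · exact Or.inl ⟨n, hG l hn⟩
    · exact Or.inr ⟨fun n => hG l (h1 n), V, fun i => hG l (hV i), h2⟩
  | inc l l' f =>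
    intro hne
    obtain ⟨A, hA, hA'⟩ := h hne
    exact ⟨A, hG l hA, hG l' hA'⟩

/-- Adding the set `A j i 1` to one of the filters. -/
lemma add_one {F : Filter S0} {R : Set (Set ℕ)} (h : L0.Indep F R) (j : Set ℕ) (hj : j ∉ R)
    (i : Set ℕ) : L0.Indep (F ⊓ 𝓟 (L0.A j i 1)) (insert j R) := by
  classical
  intro τ hτ σ n hn
  have hjτ : j ∉ τ := fun hjt => hτ j hjt (mem_insert _ _)
  have h1 := h (insert j τ) (by
      intro k hk
      rcases Finset.mem_insert.1 hk with rfl | hk
      · exact hj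
      · exact fun hkR => hτ k hk (mem_insert_of_mem _ hkR))
    (fun k => if k = j then {i} else σ k) (fun k => if k = j then 1 else n k) (by
      intro k hk
      by_cases hkj : k = j
      · simp [hkj]
      · have hk' : k ∈ τ := (Finset.mem_insert.1 hk).resolve_left hkj
        simp [hkj, hn k hk'])
  refine h1.mono ?_
  rw [inf_assoc]
  refine inf_le_inf le_rfl ?_
  rw [inf_principal, principal_mono]
  intro s hs
  constructor
  · have := hs j (Finset.mem_insert_self _ _) i (by simp)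
    simpa using this
  · intro k hk i' hi'
    have hkj : k ≠ j := fun h => hjτ (h ▸ hk)
    have := hs k (Finset.mem_insert_of_mem hk) i' (by simpa [hkj] using hi')
    simpa [hkj] using this

theorem step_exists {Λ : Type} [DecidableEq Λ] (t : Task Λ) (x : St S0 (Set ℕ) Λ)
    (hx : Good L0 x) (hR : (#x.R) < continuum) :
    ∃ y, Ext x y ∧ Good L0 y ∧ (y.R \ x.R).Countable ∧ Req t y.F := by
  have hfresh : ∀ C : Set (Set ℕ), (#C) < continuum → ∃ j, j ∉ C := by
    intro C hC
    by_contra hcon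
    push Not at hcon
    have : C = Set.univ := eq_univ_of_forall hcon
    rw [this, mk_univ, mk_set, mk_nat, two_power_aleph0] at hC
    exact lt_irrefl _ hC
  have hsmall : ∀ C C' : Set (Set ℕ), (#C) < continuum → (C' \ C).Countable → (#C') < continuum := by
    intro C C' hC hC'
    have h1 : C' ⊆ C ∪ (C' \ C) := by simp
    refine (mk_le_mk_of_subset h1).trans_lt ((mk_union_le _ _).trans_lt ?_)
    exact add_lt_of_lt aleph0_le_continuum hC
      ((le_aleph0_iff_set_countable.2 hC').trans_lt aleph0_lt_continuum)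
  cases t with
  | ok l U =>
    obtain ⟨z, hz, hg, hc, hdec⟩ := decide_seq (L := L0) hx l U
    by_cases hall : ∀ n, U n ∈ z.F l
    · obtain ⟨j, hj⟩ := hfresh z.R (hsmall _ _ hR hc)
      obtain ⟨F', hF', hind, V, hV, hV'⟩ := ok_step (hg l).2 (hg l).1 j hj U hall
      refine ⟨⟨Function.update z.F l F', insert j z.R⟩, ⟨?_, hz.2.trans (subset_insert _ _)⟩, ?_,
        ?_, Or.inr ⟨?_, V, ?_, hV'⟩⟩
      · intro k
        by_cases hk : k = l
        · subst hk; simpa using hF'.trans (hz.1 k)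
        · simpa [hk] using hz.1 k
      · intro k
        by_cases hk : k = l
        · subst hk
          simpa using ⟨hF'.trans (hg k).1, hind⟩
        · simpa [hk] using ⟨(hg k).1, indep_mono (hg k).2 (subset_insert _ _)⟩
      · refine (hc.union (countable_singleton j)).mono ?_
        rintro a ⟨rfl | ha, ha'⟩
        · exact Or.inr rfl
        · exact Or.inl ⟨ha, ha'⟩
      · intro n
        simpa using hF' (hall n)
      · intro i
        simpa using hV i
    · push Not at hall
      obtain ⟨n, hn⟩ := hall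
      exact ⟨z, hz, hg, hc, Or.inl ⟨n, (hdec n).resolve_left hn⟩⟩
  | inc l l' f =>
    by_cases hne : l = l'
    · exact ⟨x, Ext.refl x, hx, by simp, fun h => absurd hne h⟩
    · obtain ⟨j, hj⟩ := hfresh x.R hR
      let A : Set S0 := L0.A j ∅ 1
      obtain ⟨F', hF', R', hR', hfin, hind, hdec⟩ :=
        decide (indep_mono (hx l').2 (subset_insert j x.R)) (f ⁻¹' A)
      -- choose which of the two disjoint sets to put in the filter `l`
      have hcase : ∃ i : Set ℕ, ∃ B : Set S0, B ∈ x.F l ⊓ 𝓟 (L0.A j i 1) ∧ (f ⁻¹' B)ᶜ ∈ F' := by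
        rcases hdec with hdec | hdec
        · refine ⟨Set.univ, Aᶜ, ?_, by rwa [preimage_compl, compl_compl]⟩
          have h1 := L0.fin j 1 {∅, Set.univ} (by
            rw [Finset.card_pair (by simpa using (empty_ne_univ (α := ℕ)))]; norm_num)
          have h2 : {s | ∀ i ∈ ({∅, Set.univ} : Finset (Set ℕ)), s ∈ L0.A j i 1}ᶜ ∈ x.F l :=
            (hx l).1 (by rw [mem_cofinite, compl_compl]; exact h1)
          rw [mem_inf_principal]
          filter_upwards [h2] with s hs hs' hsA
          apply hs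
          intro i hi
          rcases Finset.mem_insert.1 hi with rfl | hi
          · exact hsA
          · rw [Finset.mem_singleton.1 hi]; exact hs'
        · exact ⟨∅, A, mem_inf_of_right (mem_principal_self _), hdec⟩
      obtain ⟨i, B, hB, hB'⟩ := hcase
      have hadd : L0.Indep (x.F l ⊓ 𝓟 (L0.A j i 1)) R' :=
        indep_mono (add_one (hx l).2 j hj i) hR'
      refine ⟨⟨Function.update (Function.update x.F l (x.F l ⊓ 𝓟 (L0.A j i 1))) l' F', R'⟩,
        ⟨?_, (subset_insert _ _).trans hR'⟩, ?_, ?_, fun _ => ⟨B, ?_, by simpa using hB'⟩⟩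
      · intro k
        by_cases hk : k = l'
        · subst hk; simpa using hF'
        · by_cases hk' : k = l
          · subst hk'; simp [hk]
          · simp [hk, hk']
      · intro k
        by_cases hk : k = l'
        · subst hk
          simpa using ⟨hF'.trans (hx k).1, hind⟩
        · by_cases hk' : k = l
          · subst hk'
            have : k ≠ l' := hk
            simpa [this] using ⟨inf_le_left.trans (hx k).1, hadd⟩
          · simpa [hk, hk'] using
              ⟨(hx k).1, indep_mono (hx k).2 ((subset_insert _ _).trans hR')⟩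
      · refine (hfin.countable.union (countable_singleton j)).mono ?_
        rintro a ⟨ha, ha'⟩
        by_cases haj : a = j
        · exact Or.inr haj
        · exact Or.inl ⟨ha, fun h => by
            rcases h with h | h
            · exact haj h
            · exact ha' h⟩
      · simpa [hne] using hB

end Pool.Agent.X199.Kunen
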