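import Mathlib
import Pool.Agent.X199.Kunen3

/-!
# Kunen's theorem: weak P-points
-/

open Set Filter Cardinal

namespace Pool.Agent.X199.Kunen

/-- The ultrafilter `p` is nonprincipal. -/
def Free {α : Type} (p : Ultrafilter α) : Prop := (p : Filter α) ≤ cofinite

/-- `p` is a weak P-point: it is nonprincipal and it is not in the closure of any countable set of
nonprincipal ultrafilters different from `p`. -/
def WeakP {α : Type} (p : Ultrafilter α) : Prop :=
  Free p ∧ ∀ x : ℕ → Ultrafilter α, (∀ n, Free (x n) ∧ x n ≠ p) → ∃ A ∈ p, ∀ n, A ∉ x n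

/-- The ultrafilter `p` on `S0` is OK. -/
def OK (p : Ultrafilter S0) : Prop :=
  ∀ U : ℕ → Set S0, (∀ n, U n ∈ p) → ∃ V : Set ℕ → Set S0, (∀ i, V i ∈ p) ∧
    ∀ (n : ℕ) (σ : Finset (Set ℕ)), n < σ.card → ({s | ∀ i ∈ σ, s ∈ V i} \ U n).Finite

lemma weakP_of_OK {p : Ultrafilter S0} (hp : Free p) (h : OK p) : WeakP p := by
  classical
  refine ⟨hp, fun x hx => ?_⟩
  have h1 : ∀ n, ∃ A ∈ p, A ∉ x n := by
    intro n
    by_contra hcon
    push Not at hcon
    exact (hx n).2 (Ultrafilter.coe_le_coe.1 hcon)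
  choose U hU hUx using h1
  obtain ⟨V, hV, hfin⟩ := h U hU
  by_contra hcon
  push Not at hcon
  have h2 : ∀ i, ∃ n, V i ∈ x n := fun i => hcon (V i) (hV i)
  choose m hm using h2
  -- some fibre of `m` is infinite
  have hunc : ¬ (Set.univ : Set (Set ℕ)).Countable := by
    rw [← le_aleph0_iff_set_countable, mk_univ, mk_set, mk_nat, two_power_aleph0, not_le]
    exact aleph0_lt_continuum
  have h3 : ∃ n, (m ⁻¹' {n}).Infinite := by
    by_contra hcon
    push Not at hcon
    apply hunc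
    have : (Set.univ : Set (Set ℕ)) = ⋃ n, m ⁻¹' {n} := by
      ext i; simp
    rw [this]
    exact countable_iUnion fun n => (hcon n).countable
  obtain ⟨n, hn⟩ := h3
  obtain ⟨σ, hσ, hcard⟩ := hn.exists_subset_card_eq (n + 1)
  have h4 := hfin n σ (by omega)
  have h5 : {s | ∀ i ∈ σ, s ∈ V i} ∈ x n := by
    have : {s | ∀ i ∈ σ, s ∈ V i} = ⋂ i ∈ σ, V i := by ext s; simp
    rw [this]
    refine (biInter_finset_mem σ).2 fun i hi => ?_
    have : m i = n := hσ hi
    rw [← this]
    exact hm i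
  have h6 : ({s | ∀ i ∈ σ, s ∈ V i} \ U n)ᶜ ∈ x n := (hx n).1 (by
    rw [mem_cofinite, compl_compl]; exact h4)
  apply hUx n
  filter_upwards [h5, h6] with s hs hs'
  by_contra hsU
  exact hs' ⟨hs, hsU⟩

lemma mk_task_le {Λ : Type} (hΛ : (#Λ) ≤ continuum) : #(Task Λ) ≤ continuum := by
  let f : Task Λ → (Λ × (ℕ → Set S0)) ⊕ (Λ × Λ × (S0 → S0)) := fun t =>
    match t with
    | .ok l U => Sum.inl (l, U)
    | .inc l l' h => Sum.inr (l, l', h)
  have hf : Function.Injective f := by
    intro t t' h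
    cases t <;> cases t' <;> simp_all [f]
  refine (mk_le_of_injective hf).trans ?_
  have hS : (#S0) ≤ ℵ₀ := mk_le_aleph0
  have h1 : #(ℕ → Set S0) ≤ continuum := by
    rw [← power_def, mk_set, mk_nat, ← power_mul]
    calc (2 : Cardinal) ^ ((#S0) * ℵ₀) ≤ 2 ^ (ℵ₀ * ℵ₀) :=
          power_le_power_left two_ne_zero (mul_le_mul_left hS _)
      _ = continuum := by rw [aleph0_mul_aleph0, two_power_aleph0]
  have h2 : #(S0 → S0) ≤ continuum := by
    rw [← power_def]
    calc (#S0) ^ (#S0) ≤ ℵ₀ ^ (#S0) := power_le_power_right hS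
      _ ≤ ℵ₀ ^ ℵ₀ := power_le_power_left aleph0_ne_zero hS
      _ = continuum := aleph0_power_aleph0
  simp only [mk_sum, mk_prod, lift_id]
  refine add_le_of_le aleph0_le_continuum ?_ ?_
  · exact mul_le_of_le aleph0_le_continuum hΛ h1
  · exact mul_le_of_le aleph0_le_continuum hΛ
      (mul_le_of_le aleph0_le_continuum hΛ h2)

theorem exists_ultra {Λ : Type} (hΛ : (#Λ) ≤ continuum) (w : Λ → Filter ℕ) (hw0 : ∀ l, (w l).NeBot)
    (hw : ∀ l, w l ≤ cofinite) : ∃ p : Λ → Ultrafilter S0,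
      (∀ l, (p l : Filter S0) ≤ comap (Sigma.fst : S0 → ℕ) (w l)) ∧ (∀ l, Free (p l)) ∧
      (∀ l, OK (p l)) ∧ ∀ l l', l ≠ l' → ∀ h : S0 → S0, (p l').map h ≠ p l := by
  classical
  let T : Type := (#(Task Λ)).ord.ToType
  have e : T ≃ Task Λ := (Cardinal.eq.1 (mk_ord_toType _)).some
  let x0 : St S0 (Set ℕ) Λ := ⟨fun l => comap (Sigma.fst : S0 → ℕ) (w l), ∅⟩
  have hx0 : Good L0 x0 := fun l => by
    have := hw0 l
    exact base_good (w l) (hw l) ∅
  obtain ⟨z, hz, hg, hP, -⟩ := run (L := L0) (T := T) (fun R => (#R) < continuum)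
    (by
      intro t D hD X hX
      refine (mk_le_mk_of_subset hX).trans_lt ((mk_iUnion_le _).trans_lt ?_)
      refine mul_lt_of_lt aleph0_le_continuum ?_ ?_
      · exact (mk_Iio_toType_ord_lt t).trans_le (mk_task_le hΛ)
      · refine lt_of_le_of_lt ?_ aleph0_lt_continuum
        exact ciSup_le' fun η => le_aleph0_iff_set_countable.2 (hD η))
    x0 hx0 (fun t => Req (e t)) (fun t => req_mono (e t))
    (by
      intro t x _ hx hR
      refine step_exists (e t) x hx ?_
      simpa [x0] using hR)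
  have hnb : ∀ l, (z.F l).NeBot := fun l => indep_neBot (hg l).2
  have hreq : ∀ t : Task Λ, Req t z.F := fun t => by
    have := hP (e.symm t)
    simpa using this
  have hultra : ∀ l (B : Set S0), B ∉ z.F l → Bᶜ ∈ z.F l := by
    intro l B hB
    rcases hreq (.ok l fun _ => B) with ⟨_, h⟩ | ⟨h, _⟩
    · exact h
    · exact absurd (h 0) hB
  let p : Λ → Ultrafilter S0 := fun l => Ultrafilter.ofComplNotMemIff (z.F l) (by
    intro s
    constructor
    · intro h
      by_contra hs
      exact h (hultra l s hs)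
    · intro h hs
      have := inter_mem h hs
      rw [inter_compl_self] at this
      exact (hnb l).ne (empty_mem_iff_bot.1 this))
  have hp : ∀ l B, B ∈ p l ↔ B ∈ z.F l := fun l B => Iff.rfl
  refine ⟨p, fun l => hz.1 l, fun l => (hg l).1, ?_, ?_⟩
  · intro l U hU
    rcases hreq (.ok l U) with ⟨n, h⟩ | ⟨h, V, hV, hfin⟩
    · exfalso
      have := inter_mem (hU n) h
      rw [inter_compl_self] at this
      exact (p l).neBot.ne (empty_mem_iff_bot.1 this)
    · exact ⟨V, hV, hfin⟩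
  · intro l l' hne h heq
    obtain ⟨A, hA, hA'⟩ := hreq (.inc l l' h) hne
    have h1 : A ∈ (p l').map h := by rw [heq]; exact hA
    rw [Ultrafilter.mem_map] at h1
    have := inter_mem h1 hA'
    rw [inter_compl_self] at this
    exact (p l').neBot.ne (empty_mem_iff_bot.1 this)

lemma free_map_equiv {α β : Type} (e : α ≃ β) {p : Ultrafilter α} (hp : Free p) :
    Free (p.map e) := by
  rw [Free, le_cofinite_iff_compl_singleton_mem]
  intro b
  have : e ⁻¹' {b}ᶜ = {e.symm b}ᶜ := by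
    ext a
    simp [Equiv.eq_symm_apply]
  show e ⁻¹' {b}ᶜ ∈ p
  rw [this]
  exact le_cofinite_iff_compl_singleton_mem.1 hp _

lemma map_equiv_symm {α β : Type} (e : α ≃ β) (p : Ultrafilter β) :
    (p.map e.symm).map e = p := by
  rw [Ultrafilter.map_map]
  simp

lemma map_symm_equiv {α β : Type} (e : α ≃ β) (p : Ultrafilter α) :
    (p.map e).map e.symm = p := by
  rw [Ultrafilter.map_map]
  simp

lemma weakP_map_equiv {α β : Type} (e : α ≃ β) {p : Ultrafilter α} (hp : WeakP p) :
    WeakP (p.map e) := by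
  refine ⟨free_map_equiv e hp.1, fun x hx => ?_⟩
  obtain ⟨A, hA, hAx⟩ := hp.2 (fun n => (x n).map e.symm) (fun n =>
    ⟨free_map_equiv e.symm (hx n).1, fun h => (hx n).2 (by rw [← h, map_equiv_symm])⟩)
  refine ⟨e '' A, ?_, fun n h => hAx n ?_⟩
  · show e ⁻¹' (e '' A) ∈ p
    rwa [e.injective.preimage_image]
  · show e.symm ⁻¹' A ∈ x n
    rwa [← e.image_eq_preimage_symm]

/-- **Kunen's theorem** (with Simon's linked families): above any family of at most continuum many
proper filters on `ℕ` containing the cofinite sets there are (via one function) weak P-points, which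
moreover are pairwise incomparable in the Rudin-Keisler order. -/
theorem exists_weakP {Λ : Type} (hΛ : (#Λ) ≤ continuum) (w : Λ → Filter ℕ)
    (hw0 : ∀ l, (w l).NeBot) (hw : ∀ l, w l ≤ cofinite) :
    ∃ (f : ℕ → ℕ) (p : Λ → Ultrafilter ℕ), (∀ l, WeakP (p l)) ∧
      (∀ l, ((p l).map f : Filter ℕ) ≤ w l) ∧
      ∀ l l', l ≠ l' → ∀ h : ℕ → ℕ, (p l').map h ≠ p l := by
  obtain ⟨p, hpw, hfree, hOK, hinc⟩ := exists_ultra hΛ w hw0 hw
  have hinf : Infinite S0 := Infinite.of_injective (fun k => (⟨k, fun _ => ∅⟩ : S0))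
    (fun a b h => congrArg Sigma.fst h)
  obtain ⟨e⟩ : Nonempty (S0 ≃ ℕ) := nonempty_equiv_of_countable
  refine ⟨fun n => (e.symm n).1, fun l => (p l).map e, fun l =>
    weakP_map_equiv e (weakP_of_OK (hfree l) (hOK l)), fun l => ?_, ?_⟩
  · rw [Ultrafilter.map_map]
    have : (fun n => (e.symm n).1) ∘ e = (Sigma.fst : S0 → ℕ) := by
      funext s; simp
    rw [this]
    exact map_le_iff_le_comap.2 (hpw l)
  · intro l l' hne h heq
    apply hinc l l' hne (e.symm ∘ h ∘ e)
    rw [← Ultrafilter.map_map, ← Ultrafilter.map_map, heq, map_symm_equiv]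

end Pool.Agent.X199.Kunen
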