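import Mathlib
import Pool.Agent.X199.Kunen4
import Pool.Agent.Results.MP_55c7a7_lc.FreeSemigroup

/-!
# Weak P-points, limits and tensor products
-/

open Set Filter Cardinal

namespace Pool.Agent.X199.Kunen

open Pool.Agent.Results.MP_55c7a7_lc.FreeSemigroup (RK tens mem_tens mem_bind_iff fix_mem
  eq_of_forall map_congr_mem NonPrincipal singleton_not_mem)

lemma free_iff {u : Ultrafilter ℕ} : Free u ↔ NonPrincipal u := by
  constructor
  · intro h n hn
    have : ({n} : Set ℕ)ᶜ ∈ u := le_cofinite_iff_compl_singleton_mem.1 h n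
    rw [hn] at this
    exact this rfl
  · intro h
    rw [Free, le_cofinite_iff_compl_singleton_mem]
    intro n
    exact Ultrafilter.compl_mem_iff_notMem.2 (singleton_not_mem h n)

/-- If a weak P-point `p` is a limit of ultrafilters `x n` along `U`, then `U`-almost all of them
are principal or equal to `p`. -/
lemma lim_weakP {p : Ultrafilter ℕ} (hp : WeakP p) {U : Ultrafilter ℕ} {x : ℕ → Ultrafilter ℕ}
    (h : U.bind x = p) : {n | ¬ NonPrincipal (x n) ∨ x n = p} ∈ U := by
  classical
  by_contra hcon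
  rw [← Ultrafilter.compl_mem_iff_notMem] at hcon
  obtain ⟨n0, hn0⟩ := Ultrafilter.nonempty_of_mem hcon
  simp only [mem_compl_iff, mem_ofPred_eq, not_or, not_not] at hn0
  let y : ℕ → Ultrafilter ℕ := fun n => if NonPrincipal (x n) ∧ x n ≠ p then x n else x n0
  have hy : ∀ n, Free (y n) ∧ y n ≠ p := by
    intro n
    by_cases hn : NonPrincipal (x n) ∧ x n ≠ p
    · simp only [y, if_pos hn]
      exact ⟨free_iff.2 hn.1, hn.2⟩
    · simp only [y, if_neg hn]
      exact ⟨free_iff.2 hn0.1, hn0.2⟩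
  obtain ⟨A, hA, hAy⟩ := hp.2 y hy
  rw [← h, mem_bind_iff] at hA
  obtain ⟨n, hn, hn'⟩ := Ultrafilter.nonempty_of_mem (inter_mem hA hcon)
  simp only [mem_compl_iff, mem_ofPred_eq, not_or, not_not] at hn'
  have h1 : y n = x n := by simp only [y, if_pos hn']
  exact hAy n (by rw [h1]; exact hn)

lemma principal_of_not {u : Ultrafilter ℕ} (h : ¬ NonPrincipal u) : ∃ m, u = pure m := by
  unfold NonPrincipal at h
  push Not at h
  exact h

lemma bind_map (u : Ultrafilter ℕ) (x : ℕ → Ultrafilter ℕ) (f : ℕ → ℕ) :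
    (u.bind x).map f = u.bind fun i => (x i).map f := by
  apply eq_of_forall
  intro s hs
  rw [Ultrafilter.mem_map, mem_bind_iff] at hs
  rw [mem_bind_iff]
  exact hs

lemma bind_congr_mem {u : Ultrafilter ℕ} {x y : ℕ → Ultrafilter ℕ} (h : {i | x i = y i} ∈ u) :
    u.bind x = u.bind y := by
  apply eq_of_forall
  intro s hs
  rw [mem_bind_iff] at hs ⊢
  filter_upwards [hs, h] with i hi hxy
  have : x i = y i := hxy
  show s ∈ y i
  rw [← this]
  exact hi

lemma bind_pure (u : Ultrafilter ℕ) (c : ℕ → ℕ) : (u.bind fun i => pure (c i)) = u.map c := by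
  apply eq_of_forall
  intro s hs
  rw [mem_bind_iff] at hs
  exact hs

lemma tens_map (u v : Ultrafilter ℕ) (f : ℕ → ℕ) :
    (tens u v).map f = u.bind fun i => v.map fun j => f (Nat.pair i j) := by
  unfold tens
  rw [bind_map]
  rfl

/-- A limit of principal ultrafilters. -/
lemma bind_principal {u : Ultrafilter ℕ} {x : ℕ → Ultrafilter ℕ}
    (h : {i | ¬ NonPrincipal (x i)} ∈ u) :
    ∃ c : ℕ → ℕ, {i | x i = pure (c i)} ∈ u ∧ u.bind x = u.map c := by
  classical
  let c : ℕ → ℕ := fun i => if hi : ¬ NonPrincipal (x i) then (principal_of_not hi).choose else 0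
  have hc : {i | x i = pure (c i)} ∈ u := by
    filter_upwards [h] with i hi
    have hi' : ¬ NonPrincipal (x i) := hi
    show x i = pure (c i)
    simp only [c, dif_pos hi']
    exact (principal_of_not hi').choose_spec
  exact ⟨c, hc, (bind_congr_mem hc).trans (bind_pure u c)⟩

lemma map_fst_tens (u v : Ultrafilter ℕ) : (tens u v).map (fun x => (Nat.unpair x).1) = u := by
  rw [tens_map]
  simp only [Nat.unpair_pair]
  apply eq_of_forall
  intro s hs
  rw [mem_bind_iff] at hs
  filter_upwards [hs] with i hi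
  obtain ⟨j, hj⟩ := Ultrafilter.nonempty_of_mem (Ultrafilter.mem_map.1 hi)
  exact hj

lemma map_snd_tens (u v : Ultrafilter ℕ) : (tens u v).map (fun x => (Nat.unpair x).2) = v := by
  rw [tens_map]
  simp only [Nat.unpair_pair]
  apply eq_of_forall
  intro s hs
  rw [mem_bind_iff] at hs
  obtain ⟨i, hi⟩ := Ultrafilter.nonempty_of_mem hs
  exact hi

lemma tens_first {u v : Ultrafilter ℕ} (hu : WeakP u) (huv : ¬ RK u v) {f : ℕ → ℕ}
    (h : (tens u v).map f = u) : {x | f x = (Nat.unpair x).1} ∈ tens u v := by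
  have h1 := lim_weakP hu (U := u) (x := fun i => v.map fun j => f (Nat.pair i j))
    (by rw [← tens_map]; exact h)
  have h2 : {i | ¬ NonPrincipal (v.map fun j => f (Nat.pair i j))} ∈ u := by
    filter_upwards [h1] with i hi
    rcases hi with hi | hi
    · exact hi
    · exact absurd ⟨_, hi.symm⟩ huv
  obtain ⟨c, hc, hcu⟩ := bind_principal h2
  have h3 : u.map c = u := by rw [← hcu, ← tens_map]; exact h
  have h4 := fix_mem h3
  rw [mem_tens]
  filter_upwards [hc, h4] with i hi hi'
  have h5 : (v.map fun j => f (Nat.pair i j)) = pure i := by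
    have h6 : c i = i := hi'
    have h7 : (v.map fun j => f (Nat.pair i j)) = pure (c i) := hi
    rw [h7, h6]
  have h8 : ({i} : Set ℕ) ∈ v.map fun j => f (Nat.pair i j) := by
    rw [h5]; exact rfl
  rw [Ultrafilter.mem_map] at h8
  filter_upwards [h8] with j hj
  show f (Nat.pair i j) = (Nat.unpair (Nat.pair i j)).1
  rw [Nat.unpair_pair]
  exact hj

lemma tens_second {u v : Ultrafilter ℕ} (hv : WeakP v) (hvu : ¬ RK v u) {f : ℕ → ℕ}
    (h : (tens u v).map f = v) : {x | f x = (Nat.unpair x).2} ∈ tens u v := by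
  have h1 := lim_weakP hv (U := u) (x := fun i => v.map fun j => f (Nat.pair i j))
    (by rw [← tens_map]; exact h)
  have h2 : {i | (v.map fun j => f (Nat.pair i j)) = v} ∈ u := by
    by_contra hcon
    rw [← Ultrafilter.compl_mem_iff_notMem] at hcon
    have h3 : {i | ¬ NonPrincipal (v.map fun j => f (Nat.pair i j))} ∈ u := by
      filter_upwards [h1, hcon] with i hi hi'
      exact hi.resolve_right hi'
    obtain ⟨c, -, hcu⟩ := bind_principal h3
    apply hvu
    refine ⟨c, ?_⟩
    rw [← hcu, ← tens_map]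
    exact h.symm
  rw [mem_tens]
  filter_upwards [h2] with i hi
  have h3 := fix_mem hi
  filter_upwards [h3] with j hj
  show f (Nat.pair i j) = (Nat.unpair (Nat.pair i j)).2
  rw [Nat.unpair_pair]
  exact hj

lemma lt_mem_tens {u v : Ultrafilter ℕ} (hv : Free v) :
    {x | (Nat.unpair x).1 < (Nat.unpair x).2} ∈ tens u v := by
  rw [mem_tens]
  refine univ_mem' fun i => ?_
  have h1 : (Iic i)ᶜ ∈ v := hv (by rw [mem_cofinite, compl_compl]; exact finite_Iic i)
  filter_upwards [h1] with j hj
  show (Nat.unpair (Nat.pair i j)).1 < (Nat.unpair (Nat.pair i j)).2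
  rw [Nat.unpair_pair]
  rw [mem_compl_iff, mem_Iic, not_le] at hj
  exact hj

/-- Two Rudin-Keisler incomparable weak P-points have no least upper bound in the Rudin-Keisler
preorder. -/
theorem no_join {u v : Ultrafilter ℕ} (hu : WeakP u) (hv : WeakP v) (huv : ¬ RK u v)
    (hvu : ¬ RK v u) (w : Ultrafilter ℕ) (huw : RK u w) (hvw : RK v w)
    (hw1 : RK w (tens u v)) (hw2 : RK w (tens v u)) : False := by
  obtain ⟨a, ha⟩ := huw
  obtain ⟨b, hb⟩ := hvw
  obtain ⟨h, hh⟩ := hw1
  obtain ⟨g, hg⟩ := hw2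
  have h1 := tens_first hu huv (f := a ∘ h) (by rw [← Ultrafilter.map_map, ← hh, ← ha])
  have h2 := tens_second hv hvu (f := b ∘ h) (by rw [← Ultrafilter.map_map, ← hh, ← hb])
  have g1 := tens_second hu huv (f := a ∘ g) (by rw [← Ultrafilter.map_map, ← hg, ← ha])
  have g2 := tens_first hv hvu (f := b ∘ g) (by rw [← Ultrafilter.map_map, ← hg, ← hb])
  let E : Set ℕ := {z | a z < b z}
  have hE : E ∈ w := by
    rw [hh, Ultrafilter.mem_map]
    filter_upwards [h1, h2, lt_mem_tens (u := u) hv.1] with x hx1 hx2 hx3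
    have e1 : a (h x) = (Nat.unpair x).1 := hx1
    have e2 : b (h x) = (Nat.unpair x).2 := hx2
    show a (h x) < b (h x)
    rw [e1, e2]
    exact hx3
  rw [hg, Ultrafilter.mem_map] at hE
  obtain ⟨x, hx, hx1, hx2, hx3⟩ := Ultrafilter.nonempty_of_mem
    (inter_mem hE (inter_mem g1 (inter_mem g2 (lt_mem_tens (u := v) hu.1))))
  have e1 : a (g x) = (Nat.unpair x).2 := hx1
  have e2 : b (g x) = (Nat.unpair x).1 := hx2
  have e3 : a (g x) < b (g x) := hx
  have e4 : (Nat.unpair x).1 < (Nat.unpair x).2 := hx3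
  omega

/-- There are two Rudin-Keisler incomparable weak P-points. -/
theorem exists_incomparable : ∃ u v : Ultrafilter ℕ, WeakP u ∧ WeakP v ∧ ¬ RK u v ∧ ¬ RK v u := by
  obtain ⟨-, p, hp, -, hinc⟩ := exists_weakP (Λ := Bool)
    (by rw [mk_bool]; exact (natCast_lt_aleph0 (n := 2)).le.trans aleph0_le_continuum)
    (fun _ => cofinite) (fun _ => inferInstance) (fun _ => le_rfl)
  refine ⟨p true, p false, hp _, hp _, ?_, ?_⟩
  · rintro ⟨f, hf⟩
    exact hinc true false (by simp) f hf.symm
  · rintro ⟨f, hf⟩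
    exact hinc false true (by simp) f hf.symm

end Pool.Agent.X199.Kunen
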