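import Mathlib

/-!
# Mrowka-Isbell spaces over maximal almost disjoint families
-/

set_option autoImplicit false

open Set Topology Filter TopologicalSpace
open Cardinal hiding univ

namespace Pool.Agent.X199.PM

/-- Almost disjoint families of infinite sets. -/
structure IsAD {D : Type} (𝒜 : Set (Set D)) : Prop where
  inf : ∀ a ∈ 𝒜, a.Infinite
  ad : ∀ a ∈ 𝒜, ∀ b ∈ 𝒜, a ≠ b → (a ∩ b).Finite

/-- Maximal almost disjoint families of infinite sets. -/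
structure IsMAD {D : Type} (𝒜 : Set (Set D)) : Prop extends IsAD 𝒜 where
  max : ∀ b : Set D, b.Infinite → ∃ a ∈ 𝒜, (a ∩ b).Infinite

theorem exists_mad {D : Type} (ℬ : Set (Set D)) (h : IsAD ℬ) : ∃ 𝒜, ℬ ⊆ 𝒜 ∧ IsMAD 𝒜 := by
  obtain ⟨𝒜, hB, hmax⟩ := zorn_subset_nonempty {𝒞 : Set (Set D) | IsAD 𝒞} (by
    intro c hc hchain hne
    refine ⟨⋃₀ c, ⟨?_, ?_⟩, fun s hs => subset_sUnion_of_mem hs⟩
    · rintro a ⟨𝒞, h𝒞, ha⟩
      exact (hc h𝒞).inf a ha
    · rintro a ⟨𝒞, h𝒞, ha⟩ b ⟨𝒟, h𝒟, hb⟩ hab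
      rcases hchain.total h𝒞 h𝒟 with h1 | h1
      · exact (hc h𝒟).ad a (h1 ha) b hb hab
      · exact (hc h𝒞).ad a ha b (h1 hb) hab) ℬ h
  refine ⟨𝒜, hB, ⟨hmax.prop, ?_⟩⟩
  intro b hb
  by_contra hcon
  push Not at hcon
  have hbA : b ∉ 𝒜 := by
    intro hbA
    have := hcon b hbA
    rw [inter_self] at this
    exact hb this
  have hAD : IsAD (insert b 𝒜) := by
    refine ⟨?_, ?_⟩
    · rintro a (rfl | ha)
      · exact hb
      · exact hmax.prop.inf a ha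
    · rintro a (rfl | ha) c (rfl | hc) hac
      · exact absurd rfl hac
      · rw [inter_comm]
        exact hcon c hc
      · exact hcon a ha
      · exact hmax.prop.ad a ha c hc hac
  have := hmax.le_of_ge hAD (subset_insert b 𝒜)
  exact hbA (this (mem_insert b 𝒜))

/-- The underlying set of the Mrowka-Isbell space. -/
structure Psi {D : Type} (𝒜 : Set (Set D)) where
  val : D ⊕ 𝒜

variable {D : Type} {𝒜 : Set (Set D)}

/-- isolated points. -/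
def Psi.iso (𝒜 : Set (Set D)) (d : D) : Psi 𝒜 := ⟨Sum.inl d⟩

/-- the points given by members of the family. -/
def Psi.pt (a : 𝒜) : Psi 𝒜 := ⟨Sum.inr a⟩

instance : TopologicalSpace (Psi 𝒜) where
  IsOpen U := ∀ a : 𝒜, Psi.pt a ∈ U → {d | d ∈ a.1 ∧ Psi.iso 𝒜 d ∉ U}.Finite
  isOpen_univ := by
    intro a _
    simp
  isOpen_inter := by
    intro U V hU hV a ha
    refine ((hU a ha.1).union (hV a ha.2)).subset ?_
    rintro d ⟨hd, hd2⟩
    by_cases h : Psi.iso 𝒜 d ∈ U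
    · right
      exact ⟨hd, fun h2 => hd2 ⟨h, h2⟩⟩
    · left
      exact ⟨hd, h⟩
  isOpen_sUnion := by
    rintro S hS a ⟨U, hU, ha⟩
    refine (hS U hU a ha).subset ?_
    rintro d ⟨hd, hd2⟩
    exact ⟨hd, fun h => hd2 ⟨U, hU, h⟩⟩

theorem Psi.isOpen_iff {U : Set (Psi 𝒜)} :
    IsOpen U ↔ ∀ a : 𝒜, Psi.pt a ∈ U → {d | d ∈ a.1 ∧ Psi.iso 𝒜 d ∉ U}.Finite := Iff.rfl

theorem Psi.pt_ne_iso (a : 𝒜) (d : D) : Psi.pt a ≠ Psi.iso 𝒜 d := by
  intro h
  have := congrArg Psi.val h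
  simp [Psi.pt, Psi.iso] at this

theorem Psi.pt_inj {a b : 𝒜} (h : Psi.pt a = Psi.pt b) : a = b := by
  have := congrArg Psi.val h
  simpa [Psi.pt] using this

theorem Psi.iso_inj {c d : D} (h : Psi.iso 𝒜 c = Psi.iso 𝒜 d) : c = d := by
  have := congrArg Psi.val h
  simpa [Psi.iso] using this

theorem Psi.cases' (x : Psi 𝒜) : (∃ d, x = Psi.iso 𝒜 d) ∨ (∃ a, x = Psi.pt a) := by
  obtain ⟨d | a⟩ := x
  · exact Or.inl ⟨d, rfl⟩
  · exact Or.inr ⟨a, rfl⟩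

/-- The basic set at `a` with the finite set `F` removed. -/
def Psi.nb (a : 𝒜) (F : Set D) : Set (Psi 𝒜) := {x | x = Psi.pt a ∨ ∃ d ∈ a.1 \ F, x = Psi.iso 𝒜 d}

theorem Psi.iso_mem_nb {a : 𝒜} {F : Set D} {d : D} :
    Psi.iso 𝒜 d ∈ Psi.nb a F ↔ d ∈ a.1 \ F := by
  constructor
  · rintro (h | ⟨e, he, h⟩)
    · exact absurd h.symm (Psi.pt_ne_iso a d)
    · rw [Psi.iso_inj h]
      exact he
  · intro h
    exact Or.inr ⟨d, h, rfl⟩

theorem Psi.pt_mem_nb {a b : 𝒜} {F : Set D} : Psi.pt b ∈ Psi.nb a F ↔ b = a := by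
  constructor
  · rintro (h | ⟨e, he, h⟩)
    · exact Psi.pt_inj h
    · exact absurd h (Psi.pt_ne_iso b e)
  · rintro rfl
    exact Or.inl rfl

theorem Psi.isOpen_singleton_iso (d : D) : IsOpen ({Psi.iso 𝒜 d} : Set (Psi 𝒜)) := by
  rw [Psi.isOpen_iff]
  intro a ha
  exact absurd ha (Psi.pt_ne_iso a d)

theorem Psi.isClopen_singleton_iso (d : D) : IsClopen ({Psi.iso 𝒜 d} : Set (Psi 𝒜)) := by
  refine ⟨?_, Psi.isOpen_singleton_iso d⟩
  rw [← isOpen_compl_iff, Psi.isOpen_iff]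
  intro a _
  refine (finite_singleton d).subset ?_
  rintro e ⟨-, he⟩
  simp only [mem_compl_iff, mem_singleton_iff, not_not] at he
  exact Psi.iso_inj he

theorem Psi.isOpen_nb (a : 𝒜) {F : Set D} (hF : F.Finite) : IsOpen (Psi.nb a F) := by
  rw [Psi.isOpen_iff]
  intro b hb
  rw [Psi.pt_mem_nb] at hb
  subst hb
  refine hF.subset ?_
  rintro d ⟨hd, hd2⟩
  rw [Psi.iso_mem_nb] at hd2
  by_contra hdF
  exact hd2 ⟨hd, hdF⟩

theorem Psi.isClopen_nb (h : IsAD 𝒜) (a : 𝒜) {F : Set D} (hF : F.Finite) :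
    IsClopen (Psi.nb a F) := by
  refine ⟨?_, Psi.isOpen_nb a hF⟩
  rw [← isOpen_compl_iff, Psi.isOpen_iff]
  intro b hb
  rw [mem_compl_iff, Psi.pt_mem_nb] at hb
  refine (h.ad b.1 b.2 a.1 a.2 fun h => hb (Subtype.ext h)).subset ?_
  rintro d ⟨hd, hd2⟩
  rw [mem_compl_iff, not_not, Psi.iso_mem_nb] at hd2
  exact ⟨hd, hd2.1⟩

/-- The basis. -/
def Psi.basis (𝒜 : Set (Set D)) : Set (Set (Psi 𝒜)) :=
  (range fun d : D => ({Psi.iso 𝒜 d} : Set (Psi 𝒜))) ∪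
    (range fun p : 𝒜 × Finset D => Psi.nb p.1 (p.2 : Set D))

theorem Psi.isTopologicalBasis : IsTopologicalBasis (Psi.basis 𝒜) := by
  refine isTopologicalBasis_of_isOpen_of_nhds ?_ ?_
  · rintro u (⟨d, rfl⟩ | ⟨⟨a, F⟩, rfl⟩)
    · exact Psi.isOpen_singleton_iso d
    · exact Psi.isOpen_nb a F.finite_toSet
  · intro x U hx hU
    rcases Psi.cases' x with ⟨d, rfl⟩ | ⟨a, rfl⟩
    · exact ⟨_, Or.inl ⟨d, rfl⟩, rfl, by simpa using hx⟩
    · have ha := hx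
      refine ⟨_, Or.inr ⟨(a, (hU a ha).toFinset), rfl⟩, Or.inl rfl, ?_⟩
      rintro y (rfl | ⟨d, ⟨hd, hd2⟩, rfl⟩)
      · exact ha
      · by_contra hcon
        exact hd2 (by simpa using ⟨hd, hcon⟩)

theorem Psi.basis_clopen (h : IsAD 𝒜) {U : Set (Psi 𝒜)} (hU : U ∈ Psi.basis 𝒜) : IsClopen U := by
  rcases hU with ⟨d, rfl⟩ | ⟨⟨a, F⟩, rfl⟩
  · exact Psi.isClopen_singleton_iso d
  · exact Psi.isClopen_nb h a F.finite_toSet

theorem Psi.t1 (h : IsAD 𝒜) : T1Space (Psi 𝒜) := by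
  refine ⟨fun x => ?_⟩
  rcases Psi.cases' x with ⟨d, rfl⟩ | ⟨a, rfl⟩
  · exact (Psi.isClopen_singleton_iso d).1
  · rw [← isOpen_compl_iff, Psi.isOpen_iff]
    intro b hb
    refine (finite_empty).subset ?_
    rintro d ⟨hd, hd2⟩
    rw [mem_compl_iff, not_not, mem_singleton_iff] at hd2
    exact absurd hd2.symm (Psi.pt_ne_iso a d)

theorem exists_sep {X : Type*} [TopologicalSpace X] {ℬ : Set (Set X)} (hB : IsTopologicalBasis ℬ)
    (hc : ∀ U ∈ ℬ, IsClopen U) : CompletelyRegularSpace X := by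
  refine ⟨fun x K hK hx => ?_⟩
  obtain ⟨U, hU, hxU, hUK⟩ := hB.exists_subset_of_mem_open (show x ∈ Kᶜ from hx) hK.isOpen_compl
  classical
  refine ⟨fun y => if y ∈ U then 0 else 1, ?_, ?_, ?_⟩
  · refine continuous_if ?_ continuousOn_const continuousOn_const
    intro a ha
    have : frontier U = ∅ := (hc U hU).frontier_eq
    rw [show {a | a ∈ U} = U from rfl, this] at ha
    exact absurd ha (notMem_empty a)
  · simp [hxU]
  · intro y hy
    have : y ∉ U := fun h => hUK h hy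
    simp [this]

theorem Psi.completelyRegular (h : IsAD 𝒜) : CompletelyRegularSpace (Psi 𝒜) :=
  exists_sep Psi.isTopologicalBasis fun _ hU => Psi.basis_clopen h hU

theorem Psi.t35 (h : IsAD 𝒜) : T35Space (Psi 𝒜) := by
  have := Psi.completelyRegular h
  have := Psi.t1 h
  exact {}

/-- Along an infinite subset of `a` the isolated points converge to `a`. -/
theorem Psi.tendsto_pt (a : 𝒜) (u : ℕ → D) (hu : Function.Injective u) (ha : ∀ n, u n ∈ a.1) :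
    Tendsto (fun n => Psi.iso 𝒜 (u n)) atTop (𝓝 (Psi.pt a)) := by
  rw [tendsto_nhds]
  intro U hU haU
  have h1 := hU a haU
  have h2 : {n | Psi.iso 𝒜 (u n) ∉ U}.Finite := by
    refine (h1.preimage hu.injOn).subset ?_
    intro n hn
    exact ⟨ha n, hn⟩
  rw [← Nat.cofinite_eq_atTop]
  exact h2

end Pool.Agent.X199.PM
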