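import Mathlib
import Pool.Agent.X199.Kunen5

/-!
# The Rudin-Frolík preorder
-/

open Set Filter Topology

namespace Pool.Agent.X199.Kunen

open Pool.Agent.Results.MP_55c7a7_lc.FreeSemigroup (RK tens mem_tens mem_bind_iff fix_mem
  eq_of_forall map_congr_mem NonPrincipal singleton_not_mem)

/-- The Rudin-Frolík preorder. -/
def RFle (u v : Ultrafilter ℕ) : Prop :=
  ∃ f : ℕ → Ultrafilter ℕ, Function.Injective f ∧ DiscreteTopology (range f) ∧ v = u.bind f

/-- The strict part of the Rudin-Frolík preorder. -/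
def RFlt (u v : Ultrafilter ℕ) : Prop := RFle u v ∧ ¬ RFle v u

/-- A sequence of ultrafilters with pairwise disjoint members. -/
def Disj (f : ℕ → Ultrafilter ℕ) : Prop :=
  ∃ A : ℕ → Set ℕ, (∀ i, A i ∈ f i) ∧ ∀ i j, i ≠ j → Disjoint (A i) (A j)

lemma not_both {u : Ultrafilter ℕ} {A B : Set ℕ} (h : Disjoint A B) (hA : A ∈ u) (hB : B ∈ u) :
    False := by
  obtain ⟨x, hx, hx'⟩ := Ultrafilter.nonempty_of_mem (inter_mem hA hB)
  exact (Set.disjoint_left.1 h) hx hx'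

lemma discrete_of {D : Set (Ultrafilter ℕ)}
    (h : ∀ d ∈ D, ∃ A ∈ d, ∀ d' ∈ D, A ∈ d' → d' = d) : DiscreteTopology D := by
  rw [discreteTopology_iff_isOpen_singleton]
  rintro ⟨d, hd⟩
  obtain ⟨A, hA, hAD⟩ := h d hd
  rw [isOpen_induced_iff]
  refine ⟨{u | A ∈ u}, ultrafilter_isOpen_basic A, ?_⟩
  ext ⟨d', hd'⟩
  simp only [mem_preimage, mem_ofPred_eq, mem_singleton_iff, Subtype.mk.injEq]
  constructor
  · exact hAD d' hd'
  · rintro rfl
    exact hA

lemma exists_of_discrete {D : Set (Ultrafilter ℕ)} (hD : DiscreteTopology D) {d : Ultrafilter ℕ}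
    (hd : d ∈ D) : ∃ A ∈ d, ∀ d' ∈ D, A ∈ d' → d' = d := by
  have h := (discreteTopology_iff_isOpen_singleton.1 hD) ⟨d, hd⟩
  rw [isOpen_induced_iff] at h
  obtain ⟨V, hV, hVd⟩ := h
  have hdV : d ∈ V := by
    have : (⟨d, hd⟩ : D) ∈ Subtype.val ⁻¹' V := by rw [hVd]; rfl
    exact this
  obtain ⟨_, ⟨A, rfl⟩, hA, hAV⟩ := ultrafilterBasis_is_basis.exists_subset_of_mem_open hdV hV
  refine ⟨A, hA, fun d' hd' hAd' => ?_⟩
  have : (⟨d', hd'⟩ : D) ∈ Subtype.val ⁻¹' V := hAV hAd'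
  rw [hVd] at this
  exact congrArg Subtype.val this

lemma mem_closure_iff' {D : Set (Ultrafilter ℕ)} {u : Ultrafilter ℕ} :
    u ∈ closure D ↔ ∀ A ∈ u, ∃ d ∈ D, A ∈ d := by
  rw [ultrafilterBasis_is_basis.mem_closure_iff]
  constructor
  · intro h A hA
    obtain ⟨d, hdA, hd⟩ := h _ ⟨A, rfl⟩ hA
    exact ⟨d, hd, hdA⟩
  · rintro h _ ⟨A, rfl⟩ hA
    obtain ⟨d, hd, hdA⟩ := h A hA
    exact ⟨d, hdA, hd⟩

lemma disj_iff {f : ℕ → Ultrafilter ℕ} :
    (Function.Injective f ∧ DiscreteTopology (range f)) ↔ Disj f := by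
  constructor
  · rintro ⟨hinj, hd⟩
    have h : ∀ i, ∃ B ∈ f i, ∀ j, B ∈ f j → j = i := by
      intro i
      obtain ⟨B, hB, hBf⟩ := exists_of_discrete hd ⟨i, rfl⟩
      exact ⟨B, hB, fun j hj => hinj (hBf _ ⟨j, rfl⟩ hj)⟩
    choose B hB hBf using h
    refine ⟨fun i => B i \ ⋃ j ∈ Iio i, B j, fun i => ?_, ?_⟩
    · have h1 : (⋃ j ∈ Iio i, B j)ᶜ ∈ f i := by
        rw [compl_iUnion₂]
        refine (biInter_mem (finite_Iio i)).2 fun j hj => ?_
        refine Ultrafilter.compl_mem_iff_notMem.2 fun h => ?_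
        have := hBf j i h
        rw [this] at hj
        exact lt_irrefl _ (mem_Iio.1 hj)
      exact inter_mem (hB i) h1
    · have key : ∀ i j, i < j → Disjoint (B i \ ⋃ k ∈ Iio i, B k) (B j \ ⋃ k ∈ Iio j, B k) := by
        intro i j hij
        rw [Set.disjoint_left]
        rintro x ⟨hx, -⟩ ⟨-, hx'⟩
        exact hx' (mem_iUnion₂.2 ⟨i, hij, hx⟩)
      intro i j hij
      rcases lt_or_gt_of_ne hij with h | h
      · exact key i j h
      · exact (key j i h).symm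
  · rintro ⟨A, hA, hdis⟩
    have hinj : ∀ i j, A i ∈ f j → i = j := by
      intro i j h
      by_contra hne
      exact not_both (hdis i j hne) h (hA j)
    refine ⟨fun i j h => hinj i j (by rw [← h]; exact hA i), discrete_of ?_⟩
    rintro _ ⟨i, rfl⟩
    refine ⟨A i, hA i, ?_⟩
    rintro _ ⟨j, rfl⟩ h
    rw [hinj i j h]

lemma rfle_iff {u v : Ultrafilter ℕ} : RFle u v ↔ ∃ f, Disj f ∧ v = u.bind f := by
  unfold RFle
  simp only [← disj_iff, and_assoc]

lemma disj_mem {f : ℕ → Ultrafilter ℕ} {A : ℕ → Set ℕ} (hA : ∀ i, A i ∈ f i)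
    (hdis : ∀ i j, i ≠ j → Disjoint (A i) (A j)) {i j : ℕ} (h : A i ∈ f j) : i = j := by
  by_contra hne
  exact not_both (hdis i j hne) h (hA j)

/-- The index function of a disjoint family. -/
lemma exists_index {A : ℕ → Set ℕ} (hdis : ∀ i j, i ≠ j → Disjoint (A i) (A j)) :
    ∃ h : ℕ → ℕ, ∀ i, ∀ x ∈ A i, h x = i := by
  classical
  refine ⟨fun x => if hx : ∃ i, x ∈ A i then hx.choose else 0, fun i x hx => ?_⟩
  have hex : ∃ i, x ∈ A i := ⟨i, hx⟩
  simp only [dif_pos hex]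
  by_contra hne
  exact (Set.disjoint_left.1 (hdis _ _ hne)) hex.choose_spec hx

lemma map_index {f : ℕ → Ultrafilter ℕ} {A : ℕ → Set ℕ} (hA : ∀ i, A i ∈ f i) {h : ℕ → ℕ}
    (hh : ∀ i, ∀ x ∈ A i, h x = i) (u : Ultrafilter ℕ) : (u.bind f).map h = u := by
  symm
  apply eq_of_forall
  intro s hs
  rw [Ultrafilter.mem_map, mem_bind_iff]
  filter_upwards [hs] with i hi
  filter_upwards [hA i] with x hx
  show h x ∈ s
  rw [hh i x hx]
  exact hi

lemma rk_of_rfle {u v : Ultrafilter ℕ} (h : RFle u v) : RK u v := by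
  obtain ⟨f, ⟨A, hA, hdis⟩, rfl⟩ := rfle_iff.1 h
  obtain ⟨h, hh⟩ := exists_index hdis
  exact ⟨h, (map_index hA hh u).symm⟩

lemma bind_inj {f : ℕ → Ultrafilter ℕ} (hf : Disj f) {u v : Ultrafilter ℕ}
    (h : u.bind f = v.bind f) : u = v := by
  obtain ⟨A, hA, hdis⟩ := hf
  obtain ⟨g, hg⟩ := exists_index hdis
  rw [← map_index hA hg u, ← map_index hA hg v, h]

lemma bind_assoc (u : Ultrafilter ℕ) (x y : ℕ → Ultrafilter ℕ) :
    (u.bind x).bind y = u.bind fun i => (x i).bind y := by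
  apply eq_of_forall
  intro s hs
  rw [mem_bind_iff, mem_bind_iff] at hs
  rw [mem_bind_iff]
  filter_upwards [hs] with i hi
  show s ∈ (x i).bind y
  rw [mem_bind_iff]
  exact hi

lemma disj_bind {f g : ℕ → Ultrafilter ℕ} (hf : Disj f) (hg : Disj g) :
    Disj fun i => (f i).bind g := by
  obtain ⟨A, hA, hdis⟩ := hf
  obtain ⟨B, hB, hdis'⟩ := hg
  refine ⟨fun i => ⋃ j ∈ A i, B j, fun i => ?_, fun i j hij => ?_⟩
  · rw [mem_bind_iff]
    filter_upwards [hA i] with j hj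
    filter_upwards [hB j] with x hx
    exact mem_iUnion₂.2 ⟨j, hj, hx⟩
  · rw [Set.disjoint_left]
    intro x hx hx'
    obtain ⟨k, hk, hxk⟩ := mem_iUnion₂.1 hx
    obtain ⟨l, hl, hxl⟩ := mem_iUnion₂.1 hx'
    have hkl : k ≠ l := by
      rintro rfl
      exact (Set.disjoint_left.1 (hdis i j hij)) hk hl
    exact (Set.disjoint_left.1 (hdis' k l hkl)) hxk hxl

lemma rfle_trans {u v w : Ultrafilter ℕ} (h : RFle u v) (h' : RFle v w) : RFle u w := by
  obtain ⟨f, hf, rfl⟩ := rfle_iff.1 h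
  obtain ⟨g, hg, rfl⟩ := rfle_iff.1 h'
  exact rfle_iff.2 ⟨_, disj_bind hf hg, bind_assoc u f g⟩

lemma disj_pure {e : ℕ → ℕ} (he : Function.Injective e) :
    Disj fun i => (pure (e i) : Ultrafilter ℕ) := by
  refine ⟨fun i => {e i}, fun i => rfl, fun i j hij => ?_⟩
  rw [Set.disjoint_singleton]
  exact fun h => hij (he h)

lemma rfle_map_inj (u : Ultrafilter ℕ) {e : ℕ → ℕ} (he : Function.Injective e) :
    RFle u (u.map e) :=
  rfle_iff.2 ⟨_, disj_pure he, (bind_pure u e).symm⟩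

lemma rfle_refl (u : Ultrafilter ℕ) : RFle u u := by
  have := rfle_map_inj u (e := id) Function.injective_id
  rwa [Ultrafilter.map_id] at this

/-- Extending a partial injection to a permutation. -/
lemma exists_perm {v : Ultrafilter ℕ} (hv : Free v) {f : ℕ → ℕ} {B : Set ℕ} (hB : B ∈ v)
    (hf : InjOn f B) : ∃ e : ℕ ≃ ℕ, v.map f = v.map e := by
  classical
  -- split `B` into two infinite sets
  have hBinf : B.Infinite := by
    intro hfin
    have h1 : Bᶜ ∈ v := hv (by rw [mem_cofinite, compl_compl]; exact hfin)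
    exact not_both disjoint_compl_right hB h1
  obtain ⟨C, hCB, hC, hBC⟩ : ∃ C ⊆ B, C.Infinite ∧ (B \ C).Infinite := by
    let s := hBinf.natEmbedding
    refine ⟨range fun k => (s (2 * k) : ℕ), ?_, ?_, ?_⟩
    · rintro _ ⟨k, rfl⟩
      exact (s (2 * k)).2
    · refine infinite_range_of_injective fun a b h => ?_
      have := s.injective (Subtype.ext h)
      omega
    · refine (infinite_range_of_injective (f := fun k => (s (2 * k + 1) : ℕ)) fun a b h => ?_).mono ?_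
      · have := s.injective (Subtype.ext h)
        omega
      · rintro _ ⟨k, rfl⟩
        refine ⟨(s (2 * k + 1)).2, ?_⟩
        rintro ⟨l, hl⟩
        have := s.injective (Subtype.ext hl)
        omega
  obtain ⟨B1, hB1B, hB1, hrest⟩ : ∃ B1 ⊆ B, B1 ∈ v ∧ (B \ B1).Infinite := by
    rcases Ultrafilter.mem_or_compl_mem v C with h | h
    · exact ⟨C, hCB, h, hBC⟩
    · refine ⟨B \ C, sdiff_subset, inter_mem hB h, ?_⟩
      rwa [sdiff_sdiff_cancel_left hCB]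
  have hc1 : (B1ᶜ).Infinite := hrest.mono fun x hx => hx.2
  have hc2 : ((f '' B1)ᶜ).Infinite := by
    refine (hrest.image (hf.mono sdiff_subset)).mono ?_
    rintro _ ⟨x, hx, rfl⟩ ⟨y, hy, hxy⟩
    have := hf (hB1B hy) hx.1 hxy
    exact hx.2 (this ▸ hy)
  have : Infinite (B1ᶜ : Set ℕ) := hc1.to_subtype
  have : Infinite ((f '' B1)ᶜ : Set ℕ) := hc2.to_subtype
  obtain ⟨e2⟩ : Nonempty ((B1ᶜ : Set ℕ) ≃ ((f '' B1)ᶜ : Set ℕ)) := nonempty_equiv_of_countable
  let e1 : B1 ≃ (f '' B1 : Set ℕ) := Equiv.Set.imageOfInjOn f B1 (hf.mono hB1B)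
  let e : ℕ ≃ ℕ := (Equiv.Set.sumCompl B1).symm.trans ((Equiv.sumCongr e1 e2).trans
    (Equiv.Set.sumCompl (f '' B1)))
  refine ⟨e, map_congr_mem hB1 fun x hx => ?_⟩
  simp only [e, Equiv.trans_apply, Equiv.Set.sumCompl_symm_apply_of_mem hx,
    Equiv.sumCongr_apply, Sum.map_inl, Equiv.Set.sumCompl_apply_inl]
  rfl

lemma rfle_of_injOn {v : Ultrafilter ℕ} (hv : Free v) {f : ℕ → ℕ} {B : Set ℕ} (hB : B ∈ v)
    (hf : InjOn f B) : RFle v (v.map f) ∧ RFle (v.map f) v := by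
  obtain ⟨e, he⟩ := exists_perm hv hB hf
  rw [he]
  refine ⟨rfle_map_inj v e.injective, ?_⟩
  have := rfle_map_inj (v.map e) e.symm.injective
  rwa [map_symm_equiv] at this

/-- The limit of nonprincipal ultrafilters is strictly above in the Rudin-Keisler preorder. -/
lemma not_rk_bind {u : Ultrafilter ℕ} {f : ℕ → Ultrafilter ℕ} (hf : Disj f)
    (hnp : {i | NonPrincipal (f i)} ∈ u) : ¬ RK (u.bind f) u := by
  rintro ⟨k, hk⟩
  obtain ⟨A, hA, hdis⟩ := hf
  obtain ⟨h, hh⟩ := exists_index hdis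
  have h1 : (u.bind f).map (k ∘ h) = u.bind f := by
    rw [← Ultrafilter.map_map, map_index hA hh, ← hk]
  have h2 := fix_mem h1
  rw [mem_bind_iff] at h2
  obtain ⟨i, hi, hi'⟩ := Ultrafilter.nonempty_of_mem (inter_mem h2 hnp)
  apply singleton_not_mem hi' (k i)
  have hi2 : {x | (k ∘ h) x = x} ∈ f i := hi
  filter_upwards [hi2, hA i] with x hx hx'
  have h3 : k (h x) = x := hx
  rw [hh i x hx'] at h3
  exact h3.symm

lemma rflt_bind {u : Ultrafilter ℕ} {f : ℕ → Ultrafilter ℕ} (hf : Disj f)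
    (hnp : {i | NonPrincipal (f i)} ∈ u) : RFlt u (u.bind f) :=
  ⟨rfle_iff.2 ⟨f, hf, rfl⟩, fun h => not_rk_bind hf hnp (rk_of_rfle h)⟩

/-- Separation of countable sets in `βω`. -/
lemma separate {f g : ℕ → Ultrafilter ℕ} {I X : Set ℕ}
    (hf : ∀ i ∈ I, ∃ B ∈ f i, ∀ n ∈ X, B ∉ g n) (hg : ∀ n ∈ X, ∃ C ∈ g n, ∀ i ∈ I, C ∉ f i) :
    ∃ E : Set ℕ, (∀ i ∈ I, E ∈ f i) ∧ ∀ n ∈ X, E ∉ g n := by
  classical
  have hf' : ∀ i, ∃ B : Set ℕ, i ∈ I → B ∈ f i ∧ ∀ n ∈ X, B ∉ g n := by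
    intro i
    by_cases hi : i ∈ I
    · obtain ⟨B, hB, hBg⟩ := hf i hi
      exact ⟨B, fun _ => ⟨hB, hBg⟩⟩
    · exact ⟨∅, fun h => absurd h hi⟩
  have hg' : ∀ n, ∃ C : Set ℕ, n ∈ X → C ∈ g n ∧ ∀ i ∈ I, C ∉ f i := by
    intro n
    by_cases hn : n ∈ X
    · obtain ⟨C, hC, hCf⟩ := hg n hn
      exact ⟨C, fun _ => ⟨hC, hCf⟩⟩
    · exact ⟨∅, fun h => absurd h hn⟩
  choose B hB using hf'
  choose C hC using hg'
  let E : Set ℕ := {x | ∃ i ∈ I, x ∈ B i ∧ ∀ n ∈ X, n ≤ i → x ∉ C n}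
  refine ⟨E, fun i hi => ?_, fun n hn hE => ?_⟩
  · have h1 : {x | ∀ n ∈ X, n ≤ i → x ∉ C n} ∈ f i := by
      have : {x | ∀ n ∈ X, n ≤ i → x ∉ C n} = ⋂ n ∈ X ∩ Iic i, (C n)ᶜ := by
        ext x
        simp only [mem_ofPred_eq, mem_iInter, mem_compl_iff, mem_inter_iff, mem_Iic, and_imp]
      rw [this]
      refine (biInter_mem ((finite_Iic i).subset inter_subset_right)).2 fun n hn => ?_
      exact Ultrafilter.compl_mem_iff_notMem.2 ((hC n hn.1).2 i hi)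
    filter_upwards [(hB i hi).1, h1] with x hx hx'
    exact ⟨i, hi, hx, hx'⟩
  · have h1 : (⋃ i ∈ I ∩ Iio n, B i) ∈ g n := by
      filter_upwards [hE, (hC n hn).1] with x hx hxC
      obtain ⟨i, hi, hxB, hxn⟩ := hx
      have hin : i < n := by
        by_contra hcon
        exact hxn n hn (by omega) hxC
      exact mem_iUnion₂.2 ⟨i, ⟨hi, hin⟩, hxB⟩
    have h2 : (⋃ i ∈ I ∩ Iio n, B i)ᶜ ∈ g n := by
      rw [compl_iUnion₂]
      refine (biInter_mem ((finite_Iio n).subset inter_subset_right)).2 fun i hi => ?_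
      exact Ultrafilter.compl_mem_iff_notMem.2 ((hB i hi.1).2 n hn)
    exact not_both disjoint_compl_right h1 h2

/-- Points of the closure of the range of `f` are limits. -/
lemma exists_lim {f : ℕ → Ultrafilter ℕ} {q : Ultrafilter ℕ} (h : ∀ A ∈ q, ∃ i, A ∈ f i) :
    ∃ v : Ultrafilter ℕ, q = v.bind f := by
  let F : Filter ℕ :=
    { sets := {T | ∃ A ∈ q, ∀ i, A ∈ f i → i ∈ T}
      univ_sets := ⟨Set.univ, univ_mem, fun _ _ => trivial⟩
      sets_of_superset := by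
        rintro S T ⟨A, hA, hS⟩ hST
        exact ⟨A, hA, fun i hi => hST (hS i hi)⟩
      inter_sets := by
        rintro S T ⟨A, hA, hS⟩ ⟨B, hB, hT⟩
        exact ⟨A ∩ B, inter_mem hA hB, fun i hi => ⟨hS i (mem_of_superset hi inter_subset_left),
          hT i (mem_of_superset hi inter_subset_right)⟩⟩ }
  have hF : F.NeBot := by
    rw [← forall_mem_nonempty_iff_neBot]
    rintro T ⟨A, hA, hT⟩
    obtain ⟨i, hi⟩ := h A hA
    exact ⟨i, hT i hi⟩
  refine ⟨Ultrafilter.of F, eq_of_forall fun A hA => ?_⟩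
  rw [mem_bind_iff]
  exact Ultrafilter.of_le F ⟨A, hA, fun i hi => hi⟩

end Pool.Agent.X199.Kunen
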