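import Mathlib
import Pool.Agent.X199.RFrolik

/-!
# Orbits of the space of continuous self-maps of `ω*`
-/

open Set Filter Topology Cardinal

namespace Pool.Agent.X199.Kunen

open Pool.Agent.Results.MP_55c7a7_lc.FreeSemigroup (RK tens mem_tens mem_bind_iff fix_mem
  eq_of_forall map_congr_mem NonPrincipal singleton_not_mem)

/-- The remainder `ω* = βω \ ω`: the space of nonprincipal ultrafilters on `ω`. -/
abbrev Star : Type := {u : Ultrafilter ℕ // ∀ n : ℕ, u ≠ pure n}

/-- Two points of `Y` are in the same orbit if some autohomeomorphism of `Y` maps one to the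
other. -/
def orbitSetoid (Y : Type) [TopologicalSpace Y] : Setoid Y where
  r y z := ∃ h : Y ≃ₜ Y, h y = z
  iseqv :=
    { refl := fun y => ⟨Homeomorph.refl Y, rfl⟩
      symm := by
        rintro y z ⟨h, rfl⟩
        exact ⟨h.symm, by simp⟩
      trans := by
        rintro x y z ⟨h, rfl⟩ ⟨k, rfl⟩
        exact ⟨h.trans k, rfl⟩ }

/-- The set of orbits of `Y`. -/
def Orbits (Y : Type) [TopologicalSpace Y] : Type := Quotient (orbitSetoid Y)

/-- The ultrafilters `u` such that `y` is the `u`-limit of a sequence of other points. -/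
def Sinv {Y : Type} [TopologicalSpace Y] (y : Y) : Set (Ultrafilter ℕ) :=
  {u | ∃ g : ℕ → Y, (∀ n, g n ≠ y) ∧ Tendsto g u (𝓝 y)}

lemma sinv_homeo {Y : Type} [TopologicalSpace Y] (h : Y ≃ₜ Y) (y : Y) : Sinv y ⊆ Sinv (h y) := by
  rintro u ⟨g, hg, hlim⟩
  exact ⟨h ∘ g, fun n hn => hg n (h.injective hn), (h.continuous.tendsto y).comp hlim⟩

lemma sinv_orbit {Y : Type} [TopologicalSpace Y] {y z : Y} (h : (orbitSetoid Y).r y z) :
    Sinv y = Sinv z := by
  obtain ⟨h, rfl⟩ := h
  apply Subset.antisymm (sinv_homeo h y)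
  have := sinv_homeo h.symm (h y)
  simpa using this

lemma sinv_const {X : Type} [TopologicalSpace X] [CompactSpace X] [T2Space X] [Nonempty X] (x : X) :
    Sinv (ContinuousMap.const X x : C(X, X)) = Sinv x := by
  apply Subset.antisymm
  · rintro u ⟨g, hg, hlim⟩
    have h1 : ∀ n, ∃ t, g n t ≠ x := by
      intro n
      by_contra hcon
      push Not at hcon
      exact hg n (ContinuousMap.ext hcon)
    choose t ht using h1
    refine ⟨fun n => g n (t n), ht, ?_⟩
    rw [tendsto_def] at hlim ⊢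
    intro V hV
    obtain ⟨W, hWV, hWo, hxW⟩ := mem_nhds_iff.1 hV
    have h2 : {f : C(X, X) | MapsTo f Set.univ W} ∈ 𝓝 (ContinuousMap.const X x : C(X, X)) :=
      (ContinuousMap.isOpen_setOfPred_mapsTo isCompact_univ hWo).mem_nhds (fun _ _ => hxW)
    filter_upwards [hlim _ h2] with n hn
    exact hWV (hn (mem_univ _))
  · rintro u ⟨y, hy, hlim⟩
    refine ⟨fun n => ContinuousMap.const X (y n), fun n hn => hy n ?_, ?_⟩
    · obtain ⟨t⟩ := ‹Nonempty X›
      exact congrArg (fun f : C(X, X) => f t) hn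
    · exact (ContinuousMap.continuous_const'.tendsto x).comp hlim

lemma isClosed_star : IsClosed {u : Ultrafilter ℕ | ∀ n : ℕ, u ≠ pure n} := by
  have : {u : Ultrafilter ℕ | ∀ n : ℕ, u ≠ pure n} = ⋂ n : ℕ, {u | ({n} : Set ℕ)ᶜ ∈ u} := by
    ext u
    simp only [mem_ofPred_eq, mem_iInter]
    constructor
    · intro h n
      exact Ultrafilter.compl_mem_iff_notMem.2 (singleton_not_mem h n)
    · intro h n hn
      have := h n
      rw [hn] at this
      exact this rfl
  rw [this]
  exact isClosed_iInter fun n => ultrafilter_isClosed_basic _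

instance : CompactSpace Star := isCompact_iff_compactSpace.1 isClosed_star.isCompact

lemma tendsto_star {u : Ultrafilter ℕ} {y : ℕ → Star} {x : Star} :
    Tendsto y u (𝓝 x) ↔ u.bind (fun n => (y n : Ultrafilter ℕ)) = x := by
  rw [nhds_subtype_eq_comap, tendsto_comap_iff]
  constructor
  · intro h
    symm
    apply eq_of_forall
    intro A hA
    rw [mem_bind_iff]
    exact h ((ultrafilter_isOpen_basic A).mem_nhds hA)
  · intro h
    rw [ultrafilterBasis_is_basis.nhds_hasBasis.tendsto_right_iff]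
    rintro _ ⟨⟨A, rfl⟩, hA⟩
    have hA' : A ∈ (x : Ultrafilter ℕ) := hA
    rw [← h, mem_bind_iff] at hA'
    exact hA'

/-- The sequence of weak P-points. -/
lemma exists_seq : ∃ d : ℕ → Ultrafilter ℕ, Disj d ∧ ∀ n, WeakP (d n) := by
  obtain ⟨p, -, hp, -, -, -⟩ := exists_incomparable
  refine ⟨fun i => p.map (Nat.pair i), ⟨fun i => range (Nat.pair i), fun i => ?_, fun i j hij => ?_⟩,
    fun i => ?_⟩
  · rw [Ultrafilter.mem_map]
    exact univ_mem' fun j => ⟨j, rfl⟩
  · rw [Set.disjoint_left]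
    rintro _ ⟨k, rfl⟩ ⟨l, hl⟩
    rw [Nat.pair_eq_pair] at hl
    exact hij hl.1.symm
  · obtain ⟨e', he'⟩ := exists_perm hp.1 (univ_mem : Set.univ ∈ p)
      (f := Nat.pair i) (fun a _ b _ hab => (Nat.pair_eq_pair.1 hab).2)
    show WeakP (p.map (Nat.pair i))
    rw [he']
    exact weakP_map_equiv e' hp

lemma weakP_seq {p : Ultrafilter ℕ} (hp : WeakP p) {y : ℕ → Ultrafilter ℕ} {X : Set ℕ}
    (hy : ∀ n ∈ X, NonPrincipal (y n) ∧ y n ≠ p) : ∃ B ∈ p, ∀ n ∈ X, B ∉ y n := by
  classical
  rcases X.eq_empty_or_nonempty with rfl | ⟨n0, hn0⟩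
  · exact ⟨Set.univ, univ_mem, by simp⟩
  · obtain ⟨A, hA, hAy⟩ := hp.2 (fun n => if n ∈ X then y n else y n0) (by
      intro n
      by_cases hn : n ∈ X
      · simp only [if_pos hn]
        exact ⟨free_iff.2 (hy n hn).1, (hy n hn).2⟩
      · simp only [if_neg hn]
        exact ⟨free_iff.2 (hy n0 hn0).1, (hy n0 hn0).2⟩)
    refine ⟨A, hA, fun n hn h => hAy n ?_⟩
    simpa [if_pos hn] using h

lemma bind_nonprincipal {p : Ultrafilter ℕ} {d : ℕ → Ultrafilter ℕ}
    (hd : ∀ n, NonPrincipal (d n)) : NonPrincipal (p.bind d) := by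
  rw [← free_iff, Free, le_cofinite_iff_compl_singleton_mem]
  intro n
  show {n}ᶜ ∈ p.bind d
  rw [mem_bind_iff]
  exact univ_mem' fun i => Ultrafilter.compl_mem_iff_notMem.2 (singleton_not_mem (hd i) n)

/-- The computation of the invariant. -/
theorem sinv_bind {d : ℕ → Ultrafilter ℕ} (hdisj : Disj d) (hd : ∀ n, WeakP (d n))
    {p : Ultrafilter ℕ} (hp : WeakP p) (x : Star) (hx : (x : Ultrafilter ℕ) = p.bind d) :
    Sinv x = {u | RK p u} := by
  classical
  have hnp : ∀ n, NonPrincipal (d n) := fun n => free_iff.1 (hd n).1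
  have hpn : NonPrincipal p := free_iff.1 hp.1
  obtain ⟨A, hA, hdis⟩ := id hdisj
  apply Subset.antisymm
  · rintro u ⟨y, hy, hlim⟩
    rw [tendsto_star, hx] at hlim
    have hy' : ∀ n, (y n : Ultrafilter ℕ) ≠ p.bind d := fun n h =>
      hy n (Subtype.ext (h.trans hx.symm))
    -- almost all `y n` are limits of the sequence `d`
    have h1 : {n | ∀ S ∈ (y n : Ultrafilter ℕ), ∃ i, S ∈ d i} ∈ u := by
      by_contra hcon
      have hX := Ultrafilter.compl_mem_iff_notMem.2 hcon
      set X : Set ℕ := {n | ∀ S ∈ (y n : Ultrafilter ℕ), ∃ i, S ∈ d i}ᶜ with hXdef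
      obtain ⟨E, hE, hE'⟩ := separate (f := d) (g := fun n => (y n : Ultrafilter ℕ))
        (I := Set.univ) (X := X) (by
          intro i _
          apply weakP_seq (hd i)
          intro n hn
          refine ⟨(y n).2, fun h2 => hn fun S hS => ⟨i, by rw [← h2]; exact hS⟩⟩) (by
          intro n hn
          have h2 : ¬ ∀ S ∈ (y n : Ultrafilter ℕ), ∃ i, S ∈ d i := hn
          push Not at h2
          obtain ⟨S, hS, hSd⟩ := h2
          exact ⟨S, hS, fun i _ => hSd i⟩)
      have h3 : E ∈ p.bind d := by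
        rw [mem_bind_iff]
        exact univ_mem' fun i => hE i trivial
      rw [← hlim, mem_bind_iff] at h3
      obtain ⟨n, hn, hn'⟩ := Ultrafilter.nonempty_of_mem (inter_mem h3 hX)
      exact hE' n hn' hn
    let z : ℕ → Ultrafilter ℕ := fun n =>
      if h : ∀ S ∈ (y n : Ultrafilter ℕ), ∃ i, S ∈ d i then (exists_lim h).choose else pure 0
    have hz : ∀ n, (∀ S ∈ (y n : Ultrafilter ℕ), ∃ i, S ∈ d i) →
        (y n : Ultrafilter ℕ) = (z n).bind d := by
      intro n hn
      simp only [z, dif_pos hn]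
      exact (exists_lim hn).choose_spec
    have h4 : u.bind z = p := by
      apply bind_inj hdisj
      rw [← hlim, bind_assoc]
      exact (bind_congr_mem (by filter_upwards [h1] with n hn using hz n hn)).symm
    have h5 := lim_weakP hp h4
    have h6 : {n | ¬ NonPrincipal (z n)} ∈ u := by
      filter_upwards [h5, h1] with n hn hn'
      rcases hn with hn | hn
      · exact hn
      · exact absurd ((hz n hn').trans (by rw [hn])) (hy' n)
    obtain ⟨c, -, hc⟩ := bind_principal h6
    exact ⟨c, by rw [← hc, h4]⟩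
  · rintro u ⟨π, hπ⟩
    refine ⟨fun n => ⟨d (π n), hnp _⟩, fun n hn => ?_, ?_⟩
    · have h1 : d (π n) = p.bind d := by rw [← hx, ← hn]
      have h2 : A (π n) ∈ p.bind d := by rw [← h1]; exact hA _
      rw [mem_bind_iff] at h2
      apply singleton_not_mem hpn (π n)
      filter_upwards [h2] with m hm
      exact (disj_mem hA hdis hm).symm
    · rw [tendsto_star, hx, hπ]
      symm
      apply eq_of_forall
      intro s hs
      rw [mem_bind_iff] at hs ⊢
      exact hs

/-! ### Cardinalities -/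

lemma mk_setN : #(Set ℕ) = continuum := by
  rw [mk_set, mk_nat, two_power_aleph0]

lemma mk_NN : #(ℕ → ℕ) = continuum := by
  rw [← power_def, mk_nat, aleph0_power_aleph0]

lemma mk_ultrafilter_le : #(Ultrafilter ℕ) ≤ 2 ^ continuum := by
  have : #(Ultrafilter ℕ) ≤ #(Set (Set ℕ)) :=
    mk_le_of_injective (f := fun u : Ultrafilter ℕ => {s | s ∈ u}) fun u v h => by
      apply Ultrafilter.ext
      intro s
      exact Set.ext_iff.1 h s
  rwa [mk_set, mk_setN] at this

lemma le_mk_free : 2 ^ continuum ≤ #{u : Ultrafilter S0 // Free u} := by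
  classical
  have hb := base_good cofinite le_rfl ∅
  let V : (Set ℕ → Bool) → Set ℕ → Set S0 := fun x j =>
    L0.A j (if x j then ∅ else Set.univ) 1
  let F : (Set ℕ → Bool) → Filter S0 := fun x => gen (comap (Sigma.fst : S0 → ℕ) cofinite) (V x)
  have hF : ∀ x, (F x).NeBot := by
    intro x
    rw [← forall_mem_nonempty_iff_neBot]
    rintro T ⟨G, hG, σ, hT⟩
    obtain ⟨s, hsG, hs⟩ := indep_nonempty hb.2 (τ := σ) (by simp)
      (σ := fun j => {if x j then ∅ else Set.univ}) (n := fun _ => 1) (by simp) hG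
    refine ⟨s, hT s hsG fun j hj => ?_⟩
    exact hs j hj _ (Finset.mem_singleton_self _)
  let U : (Set ℕ → Bool) → {u : Ultrafilter S0 // Free u} := fun x =>
    have := hF x
    ⟨Ultrafilter.of (F x), ((Ultrafilter.of_le (F x)).trans (gen_le _ _)).trans hb.1⟩
  have hU : ∀ x j, V x j ∈ (U x : Ultrafilter S0) := fun x j => by
    have := hF x
    exact Ultrafilter.of_le (F x) (mem_gen _ _ j)
  have hinj : Function.Injective U := by
    intro x y h
    by_contra hne
    obtain ⟨j, hj⟩ := Function.ne_iff.1 hne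
    have h1 := hU x j
    have h2 := hU y j
    rw [← h] at h2
    have h3 := L0.fin j 1 {∅, Set.univ} (by
      rw [Finset.card_pair (by simpa using (empty_ne_univ (α := ℕ)))]; norm_num)
    have h4 : {s | ∀ i ∈ ({∅, Set.univ} : Finset (Set ℕ)), s ∈ L0.A j i 1}ᶜ ∈
        (U x : Ultrafilter S0) := (U x).2 (by rw [mem_cofinite, compl_compl]; exact h3)
    obtain ⟨s, hs, hs1, hs2⟩ := Ultrafilter.nonempty_of_mem (inter_mem h4 (inter_mem h1 h2))
    apply hs
    intro i hi
    simp only [V] at hs1 hs2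
    rcases Finset.mem_insert.1 hi with rfl | hi
    · cases hx : x j <;> cases hy : y j <;> simp_all
    · rw [Finset.mem_singleton.1 hi]
      cases hx : x j <;> cases hy : y j <;> simp_all
  have h5 := mk_le_of_injective hinj
  have h6 : #(Set ℕ → Bool) = 2 ^ continuum := by
    rw [← power_def, mk_bool, mk_setN]
  rwa [h6] at h5

lemma le_mk_star : 2 ^ continuum ≤ #Star := by
  have hinf : Infinite S0 := Infinite.of_injective (fun k => (⟨k, fun _ => ∅⟩ : S0))
    (fun a b h => congrArg Sigma.fst h)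
  obtain ⟨e⟩ : Nonempty (S0 ≃ ℕ) := nonempty_equiv_of_countable
  refine le_mk_free.trans (mk_le_of_injective
    (f := fun u : {u : Ultrafilter S0 // Free u} =>
      (⟨u.1.map e, free_iff.1 (free_map_equiv e u.2)⟩ : Star)) ?_)
  intro u v h
  have h1 : u.1.map e = v.1.map e := congrArg Subtype.val h
  apply Subtype.ext
  rw [← map_symm_equiv e u.1, h1, map_symm_equiv]

/-- There are `2 ^ 𝔠` weak P-points. -/
theorem le_mk_weakP : 2 ^ continuum ≤ #{p : Ultrafilter ℕ // WeakP p} := by
  have h : ∀ w : Star, ∃ (f : ℕ → ℕ) (p : Ultrafilter ℕ), WeakP p ∧ p.map f = w := by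
    intro w
    have hw : Free (w : Ultrafilter ℕ) := free_iff.2 w.2
    obtain ⟨f, p, hp, hpf, -⟩ := exists_weakP (Λ := Unit)
      (by rw [mk_unit]; exact one_le_aleph0.trans aleph0_le_continuum)
      (fun _ => (w : Ultrafilter ℕ)) (fun _ => inferInstance) (fun _ => hw)
    exact ⟨f, p (), hp (), Ultrafilter.coe_le_coe.1 (hpf ())⟩
  choose f p hp hpf using h
  have h1 : #Star ≤ #((ℕ → ℕ) × {p : Ultrafilter ℕ // WeakP p}) := by
    refine mk_le_of_injective (f := fun w => (f w, ⟨p w, hp w⟩)) ?_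
    intro w w' h
    simp only [Prod.mk.injEq, Subtype.mk.injEq] at h
    apply Subtype.ext
    rw [← hpf w, ← hpf w', h.1, h.2]
  rw [mk_prod, lift_id, lift_id, mk_NN] at h1
  by_contra hcon
  rw [not_le] at hcon
  have h2 := le_mk_star.trans h1
  exact absurd (mul_lt_of_lt (aleph0_le_continuum.trans (cantor continuum).le)
    (cantor continuum) hcon) (not_lt.2 h2)

theorem le_mk_orbits : 2 ^ continuum ≤ #(Orbits C(Star, Star)) := by
  classical
  obtain ⟨d, hdisj, hd⟩ := exists_seq
  have hnp : ∀ n, NonPrincipal (d n) := fun n => free_iff.1 (hd n).1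
  have hne : Nonempty Star := ⟨⟨d 0, hnp 0⟩⟩
  let W := {p : Ultrafilter ℕ // WeakP p}
  let x : W → Star := fun p => ⟨p.1.bind d, bind_nonprincipal hnp⟩
  let Ψ : W → Orbits C(Star, Star) := fun p =>
    Quotient.mk (orbitSetoid C(Star, Star)) (ContinuousMap.const Star (x p))
  have hΨ : ∀ p q : W, Ψ p = Ψ q → RK q.1 p.1 := by
    intro p q h
    have h1 := sinv_orbit (Quotient.exact h)
    rw [sinv_const, sinv_const, sinv_bind hdisj hd p.2 (x p) rfl,
      sinv_bind hdisj hd q.2 (x q) rfl] at h1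
    have h2 : p.1 ∈ {u | RK p.1 u} := ⟨id, by simp⟩
    rw [h1] at h2
    exact h2
  -- representatives
  let r : Orbits C(Star, Star) → W := fun o =>
    if h : ∃ p, Ψ p = o then h.choose else ⟨d 0, hd 0⟩
  have hr : ∀ p, Ψ (r (Ψ p)) = Ψ p := by
    intro p
    have h : ∃ q, Ψ q = Ψ p := ⟨p, rfl⟩
    simp only [r, dif_pos h]
    exact h.choose_spec
  have h3 : ∀ p : W, ∃ k : ℕ → ℕ, p.1 = (r (Ψ p)).1.map k := fun p => hΨ _ _ (hr p)
  choose k hk using h3
  have h4 : #W ≤ #(Orbits C(Star, Star) × (ℕ → ℕ)) := by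
    refine mk_le_of_injective (f := fun p => (Ψ p, k p)) ?_
    intro p q h
    simp only [Prod.mk.injEq] at h
    apply Subtype.ext
    rw [hk p, hk q, h.1, h.2]
  rw [mk_prod, lift_id, lift_id, mk_NN] at h4
  by_contra hcon
  rw [not_le] at hcon
  exact absurd (mul_lt_of_lt (aleph0_le_continuum.trans (cantor continuum).le) hcon
    (cantor continuum)) (not_lt.2 (le_mk_weakP.trans h4))

theorem mk_maps_le : #C(Star, Star) ≤ 2 ^ continuum := by
  classical
  -- a dense set of size at most continuum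
  have h0 : ∀ A : Set ℕ, ∃ v : Star, A.Infinite → A ∈ (v : Ultrafilter ℕ) := by
    intro A
    by_cases hA : A.Infinite
    · have : (cofinite ⊓ 𝓟 A).NeBot := by
        rw [inf_principal_neBot_iff]
        intro U hU
        rw [mem_cofinite] at hU
        by_contra hcon
        rw [not_nonempty_iff_eq_empty] at hcon
        apply hA
        refine hU.subset fun a ha ha' => ?_
        have : a ∈ U ∩ A := ⟨ha', ha⟩
        rw [hcon] at this
        exact this
      refine ⟨⟨Ultrafilter.of (cofinite ⊓ 𝓟 A), free_iff.1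
        ((Ultrafilter.of_le _).trans inf_le_left)⟩, fun _ => ?_⟩
      exact Ultrafilter.of_le (cofinite ⊓ 𝓟 A) (mem_inf_of_right (mem_principal_self A))
    · obtain ⟨d, -, hd⟩ := exists_seq
      exact ⟨⟨d 0, free_iff.1 (hd 0).1⟩, fun h => absurd h hA⟩
  choose v hv using h0
  have hdense : DenseRange v := by
    intro x
    rw [mem_closure_iff]
    intro V hV hxV
    obtain ⟨V', hV', rfl⟩ := isOpen_induced_iff.1 hV
    obtain ⟨_, ⟨A, rfl⟩, hA, hAV⟩ := ultrafilterBasis_is_basis.exists_subset_of_mem_open hxV hV'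
    have hAinf : A.Infinite := by
      intro hfin
      have h1 : Aᶜ ∈ (x : Ultrafilter ℕ) :=
        (free_iff.2 x.2 : Free (x : Ultrafilter ℕ)) (by rw [mem_cofinite, compl_compl]; exact hfin)
      exact not_both disjoint_compl_right hA h1
    exact ⟨v A, hAV (hv A hAinf), mem_range_self A⟩
  have h1 : #C(Star, Star) ≤ #(Set ℕ → Star) := by
    refine mk_le_of_injective (f := fun g A => g (v A)) ?_
    intro g g' h
    apply ContinuousMap.ext
    intro x
    exact congrFun (hdense.equalizer g.continuous g'.continuous h) x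
  refine h1.trans ?_
  rw [← power_def, mk_setN]
  calc #Star ^ continuum ≤ (2 ^ continuum) ^ continuum :=
        power_le_power_right ((mk_subtype_le _).trans mk_ultrafilter_le)
    _ = 2 ^ continuum := by rw [← power_mul, continuum_mul_self]

theorem mk_orbits : #(Orbits C(Star, Star)) = 2 ^ continuum :=
  le_antisymm ((mk_le_of_surjective (Quotient.mk_surjective)).trans mk_maps_le) le_mk_orbits

end Pool.Agent.X199.Kunen
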