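import Pool.Agent.X199.LinfA

set_option autoImplicit false

open MeasureTheory Measure Filter Topology Set
open scoped ENNReal

namespace Pool.Agent.X199.LinfA

/-- the underlying set of the first measure space -/
inductive K : Type
  | a (i : I) : K
  | b (j : J) : K

/-- the countable-cocountable `σ`-algebra -/
instance : MeasurableSpace K where
  MeasurableSet' s := s.Countable ∨ sᶜ.Countable
  measurableSet_empty := Or.inl countable_empty
  measurableSet_compl s h := by
    rcases h with h | h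
    · right; simpa using h
    · left; exact h
  measurableSet_iUnion f h := by
    by_cases hc : ∀ i, (f i).Countable
    · left; exact countable_iUnion hc
    · right
      push Not at hc
      obtain ⟨i, hi⟩ := hc
      exact ((h i).resolve_left hi).mono (compl_subset_compl.2 (subset_iUnion f i))

theorem measK {x : K → ℝ} (C : Set K) (hC : C.Countable) (c : ℝ) (h : ∀ k ∉ C, x k = c) :
    Measurable x := by
  intro s _
  by_cases hc : c ∈ s
  · right
    refine hC.mono ?_
    intro k hk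
    by_contra hkC
    exact hk (by rw [mem_preimage, h k hkC]; exact hc)
  · left
    refine hC.mono ?_
    intro k hk
    by_contra hkC
    exact hc (by rw [mem_preimage, h k hkC] at hk; exact hk)

theorem constK {x : K → ℝ} (hx : Measurable x) :
    ∃ (C : Set K) (c : ℝ), C.Countable ∧ ∀ k ∉ C, x k = c := by
  classical
  have hA : ∀ q : ℚ, {k | x k < q}.Countable ∨ {k | x k < q}ᶜ.Countable := fun q =>
    hx measurableSet_Iio
  set E : ℚ → Set K := fun q => if {k | x k < q}.Countable then {k | x k < q} else {k | x k < q}ᶜ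
    with hE
  have hEc : (⋃ q, E q).Countable := by
    refine countable_iUnion (fun q => ?_)
    by_cases h : {k | x k < q}.Countable
    · simp only [hE, if_pos h]; exact h
    · simp only [hE, if_neg h]; exact (hA q).resolve_left h
  have key : ∀ k ∉ ⋃ q, E q, ∀ k' ∉ ⋃ q, E q, ¬ x k < x k' := by
    intro k hk k' hk' hlt
    obtain ⟨q, hq1, hq2⟩ := exists_rat_btwn hlt
    have h1 : k ∉ E q := fun h => hk (mem_iUnion.2 ⟨q, h⟩)
    have h2 : k' ∉ E q := fun h => hk' (mem_iUnion.2 ⟨q, h⟩)
    by_cases h : {k | x k < q}.Countable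
    · simp only [hE, if_pos h] at h1
      exact h1 hq1
    · simp only [hE, if_neg h] at h2
      exact h2 (fun h3 => absurd (lt_trans h3 hq2) (lt_irrefl _))
  by_cases hne : (⋃ q, E q)ᶜ.Nonempty
  · obtain ⟨k0, hk0⟩ := hne
    refine ⟨_, x k0, hEc, fun k hk => ?_⟩
    exact le_antisymm (not_lt.1 (key _ hk0 _ hk)) (not_lt.1 (key _ hk _ hk0))
  · rw [not_nonempty_iff_eq_empty] at hne
    exact ⟨_, 0, hEc, fun k hk => absurd (show k ∈ (⋃ q, E q)ᶜ from hk) (by rw [hne]; exact notMem_empty k)⟩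

open Finsupp in
/-- the admissible weights of level `N` -/
def G (N : ℕ) : Set (K →₀ ℝ) :=
  {w | (∃ j, w = single (K.b j) 1) ∨
    (∃ (i : I) (j : J), j ∉ i.1.1 ∧
      w = single (K.a i) (1 - 1 / (N : ℝ)) + single (K.b j) (1 / (N : ℝ))) ∨
    ∃ S : Finset J, S.card = N ∧ w = ∑ j ∈ S, single (K.b j) (1 / (N : ℝ))}

/-- the underlying set of the second measure space: admissible measures with their level -/
structure Gam : Type where
  N : ℕ
  w : K →₀ ℝ
  hw : w ∈ G N

/-- the `σ`-algebra of the sets depending on countably many coordinates and the level -/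
instance : MeasurableSpace Gam where
  MeasurableSet' B := ∃ D : Set K, D.Countable ∧ ∀ p q : Gam, p.N = q.N →
    (∀ k ∈ D, p.w k = q.w k) → (p ∈ B ↔ q ∈ B)
  measurableSet_empty := ⟨∅, countable_empty, by simp⟩
  measurableSet_compl B h := by
    obtain ⟨D, hD, h⟩ := h
    exact ⟨D, hD, fun p q h1 h2 => not_congr (h p q h1 h2)⟩
  measurableSet_iUnion f h := by
    choose D hD h using h
    refine ⟨⋃ n, D n, countable_iUnion hD, fun p q h1 h2 => ?_⟩
    simp only [mem_iUnion]
    exact exists_congr (fun n => h n p q h1 (fun k hk => h2 k (mem_iUnion.2 ⟨n, hk⟩)))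

theorem measG {f : Gam → ℝ} (D : Set K) (hD : D.Countable)
    (h : ∀ p q : Gam, p.N = q.N → (∀ k ∈ D, p.w k = q.w k) → f p = f q) : Measurable f := by
  intro s _
  refine ⟨D, hD, fun p q h1 h2 => ?_⟩
  rw [mem_preimage, mem_preimage, h p q h1 h2]

theorem depG {f : Gam → ℝ} (hf : Measurable f) : ∃ D : Set K, D.Countable ∧
    ∀ p q : Gam, p.N = q.N → (∀ k ∈ D, p.w k = q.w k) → f p = f q := by
  have hA : ∀ r : ℚ, MeasurableSet {p | f p < r} := fun r => hf measurableSet_Iio
  have hA' : ∀ r : ℚ, ∃ D : Set K, D.Countable ∧ ∀ p q : Gam, p.N = q.N →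
    (∀ k ∈ D, p.w k = q.w k) → (p ∈ {p | f p < r} ↔ q ∈ {p | f p < r}) := hA
  choose D hD h using hA'
  refine ⟨⋃ r, D r, countable_iUnion hD, ?_⟩
  have key : ∀ p q : Gam, p.N = q.N → (∀ k ∈ ⋃ r, D r, p.w k = q.w k) → ¬ f p < f q := by
    intro p q h1 h2 hlt
    obtain ⟨r, hr1, hr2⟩ := exists_rat_btwn hlt
    have := (h r p q h1 (fun k hk => h2 k (mem_iUnion.2 ⟨r, hk⟩))).1 hr1
    exact lt_irrefl _ (lt_trans (show f q < r from this) hr2)
  intro p q h1 h2
  exact le_antisymm (not_lt.1 (key q p h1.symm (fun k hk => (h2 k hk).symm)))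
    (not_lt.1 (key p q h1 h2))

/-- integration against a finitely supported measure -/
noncomputable def pair (w : K →₀ ℝ) (x : K → ℝ) : ℝ := w.sum fun k a => a * x k

theorem pair_eq (w : K →₀ ℝ) (x : K → ℝ) : pair w x = Finsupp.linearCombination ℝ x w := by
  rw [Finsupp.linearCombination_apply]; rfl

theorem pair_add_left (w w' : K →₀ ℝ) (x : K → ℝ) : pair (w + w') x = pair w x + pair w' x := by
  simp only [pair_eq, map_add]

theorem pair_sub_left (w w' : K →₀ ℝ) (x : K → ℝ) : pair (w - w') x = pair w x - pair w' x := by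
  simp only [pair_eq, map_sub]

theorem pair_single (k : K) (a : ℝ) (x : K → ℝ) : pair (Finsupp.single k a) x = a * x k := by
  simp [pair_eq]

theorem pair_sum (S : Finset J) (c : ℝ) (x : K → ℝ) :
    pair (∑ j ∈ S, Finsupp.single (K.b j) c) x = ∑ j ∈ S, c * x (K.b j) := by
  rw [pair_eq, _root_.map_sum]
  exact Finset.sum_congr rfl (fun j _ => by simp)

theorem pair_add_right (w : K →₀ ℝ) (x y : K → ℝ) :
    pair w (fun k => x k + y k) = pair w x + pair w y := by
  unfold pair Finsupp.sum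
  rw [← Finset.sum_add_distrib]
  exact Finset.sum_congr rfl (fun k _ => by ring)

theorem pair_smul_right (w : K →₀ ℝ) (c : ℝ) (x : K → ℝ) :
    pair w (fun k => c * x k) = c * pair w x := by
  unfold pair Finsupp.sum
  rw [Finset.mul_sum]
  exact Finset.sum_congr rfl (fun k _ => by ring)

theorem G_nonneg {N : ℕ} (hN : 1 ≤ N) {w : K →₀ ℝ} (hw : w ∈ G N) : ∀ k, 0 ≤ w k := by
  classical
  have h1 : (1 : ℝ) / N ≤ 1 := by
    rw [div_le_one (by positivity)]; exact_mod_cast hN
  have h0 : (0 : ℝ) ≤ 1 / N := by positivity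
  have hs : ∀ (k k' : K) (c : ℝ), 0 ≤ c → 0 ≤ Finsupp.single k c k' := by
    intro k k' c hc
    rw [Finsupp.single_apply]; split_ifs <;> simp [hc]
  intro k
  rcases hw with ⟨j, rfl⟩ | ⟨i, j, _, rfl⟩ | ⟨S, _, rfl⟩
  · exact hs _ _ _ zero_le_one
  · rw [Finsupp.add_apply]
    exact add_nonneg (hs _ _ _ (by linarith)) (hs _ _ _ h0)
  · rw [Finsupp.finset_sum_apply]
    exact Finset.sum_nonneg (fun j _ => hs _ _ _ h0)

theorem G_total {N : ℕ} (hN : 1 ≤ N) {w : K →₀ ℝ} (hw : w ∈ G N) : pair w (fun _ => 1) = 1 := by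
  have h0 : (N : ℝ) ≠ 0 := by positivity
  rcases hw with ⟨j, rfl⟩ | ⟨i, j, _, rfl⟩ | ⟨S, hS, rfl⟩
  · rw [pair_single]; norm_num
  · rw [pair_add_left, pair_single, pair_single]; ring
  · rw [pair_sum]
    simp only [mul_one, Finset.sum_const, hS, nsmul_eq_mul]
    field_simp

theorem pair_abs {N : ℕ} (hN : 1 ≤ N) {w : K →₀ ℝ} (hw : w ∈ G N) (x : K → ℝ) (C : ℝ)
    (hx : ∀ k, |x k| ≤ C) : |pair w x| ≤ C := by
  have h1 : |pair w x| ≤ w.sum fun k a => a * C := by
    unfold pair Finsupp.sum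
    refine (Finset.abs_sum_le_sum_abs _ _).trans (Finset.sum_le_sum (fun k _ => ?_))
    rw [abs_mul, abs_of_nonneg (G_nonneg hN hw k)]
    exact mul_le_mul_of_nonneg_left (hx k) (G_nonneg hN hw k)
  have h2 : (w.sum fun k a => a * C) = C * pair w (fun _ => 1) := by
    unfold pair Finsupp.sum
    rw [Finset.mul_sum]
    exact Finset.sum_congr rfl (fun k _ => by ring)
  rw [h2, G_total hN hw, mul_one] at h1
  exact h1

theorem pair_nonneg {N : ℕ} (hN : 1 ≤ N) {w : K →₀ ℝ} (hw : w ∈ G N) (x : K → ℝ)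
    (hx : ∀ k, 0 ≤ x k) : 0 ≤ pair w x := by
  unfold pair Finsupp.sum
  exact Finset.sum_nonneg (fun k _ => mul_nonneg (G_nonneg hN hw k) (hx k))

/-- the function `T x` -/
noncomputable def Tf (N : ℕ) (x : K → ℝ) (p : Gam) : ℝ := if p.N = N then pair p.w x else 0

theorem Tf_meas {N : ℕ} (hN : 1 ≤ N) {x : K → ℝ} (hx : Measurable x) : Measurable (Tf N x) := by
  obtain ⟨C, c, hC, hc⟩ := constK hx
  refine measG C hC (fun p q h1 h2 => ?_)
  unfold Tf
  by_cases hp : p.N = N
  · have hq : q.N = N := h1 ▸ hp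
    rw [if_pos hp, if_pos hq]
    have e : ∀ r : Gam, r.N = N → pair r.w x = pair r.w (fun k => x k - c) + c := by
      intro r hr
      have h3 := pair_add_right r.w (fun k => x k - c) (fun k => c * (fun _ => (1 : ℝ)) k)
      rw [pair_smul_right, G_total (N := N) hN (hr ▸ r.hw)] at h3
      rw [mul_one] at h3
      rw [← h3]
      congr 1
      funext k
      ring
    rw [e p hp, e q hq]
    have h4 : pair (p.w - q.w) (fun k => x k - c) = 0 := by
      unfold pair Finsupp.sum
      refine Finset.sum_eq_zero (fun k _ => ?_)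
      by_cases hk : k ∈ C
      · rw [Finsupp.sub_apply, h2 k hk]; ring
      · show _ * (x k - c) = 0
        rw [hc k hk]; ring
    rw [pair_sub_left] at h4
    linarith
  · have hq : ¬ q.N = N := h1 ▸ hp
    rw [if_neg hp, if_neg hq]

theorem Tf_abs {N : ℕ} (hN : 1 ≤ N) (x : K → ℝ) (C : ℝ) (hC : 0 ≤ C)
    (hx : ∀ k, |x k| ≤ C) (p : Gam) : |Tf N x p| ≤ C := by
  unfold Tf
  split_ifs with h
  · exact pair_abs (N := N) hN (h ▸ p.hw) x C hx
  · simpa using hC

/-- the operator `T_N` -/
noncomputable def T (N : ℕ) (hN : 1 ≤ N) : Li K →L[ℝ] Li Gam :=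
  LinearMap.mkContinuous
    { toFun := fun x => mk (Tf N x) (Tf_meas hN (meas x)) ‖x‖
        (Tf_abs hN x ‖x‖ (norm_nonneg x) (abs_le x))
      map_add' := fun x y => by
        refine ext_Li _ _ (fun p => ?_)
        rw [coe_add, coe_mk, coe_mk, coe_mk]
        unfold Tf
        split_ifs
        · rw [← pair_add_right]
          congr 1
          funext k
          exact coe_add x y k
        · simp
      map_smul' := fun c x => by
        refine ext_Li _ _ (fun p => ?_)
        rw [RingHom.id_apply, coe_smul, coe_mk, coe_mk]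
        unfold Tf
        split_ifs
        · rw [← pair_smul_right]
          congr 1
          funext k
          exact coe_smul c x k
        · simp }
    1 (fun x => by
      rw [one_mul]
      refine norm_le _ _ (norm_nonneg x) (fun p => ?_)
      change |(mk (Tf N x) (Tf_meas hN (meas x)) ‖x‖
        (Tf_abs hN x ‖x‖ (norm_nonneg x) (abs_le x)) : Gam → ℝ) p| ≤ _
      rw [coe_mk]
      exact Tf_abs hN x ‖x‖ (norm_nonneg x) (abs_le x) p)

theorem T_apply (N : ℕ) (hN : 1 ≤ N) (x : Li K) (p : Gam) : T N hN x p = Tf N x p := by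
  change (mk (Tf N x) (Tf_meas hN (meas x)) ‖x‖
        (Tf_abs hN x ‖x‖ (norm_nonneg x) (abs_le x)) : Gam → ℝ) p = _
  rw [coe_mk]

theorem T_norm (N : ℕ) (hN : 1 ≤ N) : ‖T N hN‖ ≤ 1 :=
  LinearMap.mkContinuous_norm_le _ zero_le_one _

theorem T_pos (N : ℕ) (hN : 1 ≤ N) (x : Li K) (hx : 0 ≤ x) : 0 ≤ T N hN x := by
  rw [nonneg_iff] at hx ⊢
  intro p
  rw [T_apply]
  unfold Tf
  split_ifs with h
  · exact pair_nonneg (N := N) hN (h ▸ p.hw) x hx
  · exact le_rfl

theorem T_lower (N : ℕ) (hN : 1 ≤ N) (x : Li K) : (1 - 2 / (N : ℝ)) * ‖x‖ ≤ ‖T N hN x‖ := by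
  rcases Nat.lt_or_ge N 2 with h2 | h2
  · obtain rfl : N = 1 := by omega
    have : (1 - 2 / ((1 : ℕ) : ℝ)) = -1 := by norm_num
    rw [this]
    nlinarith [norm_nonneg x, norm_nonneg (T 1 hN x)]
  · have hN0 : (0 : ℝ) < N := by positivity
    have hN2 : (2 : ℝ) ≤ N := by exact_mod_cast h2
    have hhalf : (1 : ℝ) / N ≤ 1 / 2 := by
      rw [div_le_div_iff₀ hN0 (by norm_num)]; linarith
    have hpos : (0 : ℝ) < 1 - 1 / N := by linarith
    have key : ∀ k, (1 - 1 / (N : ℝ)) * |x k| ≤ ‖T N hN x‖ + 1 / (N : ℝ) * ‖x‖ := by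
      intro k
      cases k with
      | a i =>
        obtain ⟨j, hj⟩ := i.2
        have h3 := abs_le (T N hN x) ⟨N, _, Or.inr (Or.inl ⟨i, j, hj, rfl⟩)⟩
        rw [T_apply, Tf, if_pos rfl, pair_add_left, pair_single, pair_single] at h3
        have h4 := abs_le x (K.b j)
        have h5 : |(1 - 1 / (N : ℝ)) * x (K.a i)| ≤
            |(1 - 1 / (N : ℝ)) * x (K.a i) + 1 / (N : ℝ) * x (K.b j)| + |1 / (N : ℝ) * x (K.b j)| := by
          have := abs_sub_abs_le_abs_sub ((1 - 1 / (N : ℝ)) * x (K.a i)) (-(1 / (N : ℝ) * x (K.b j)))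
          rw [abs_neg, sub_neg_eq_add] at this
          linarith
        rw [abs_mul, abs_of_pos hpos, abs_mul, abs_of_nonneg (by positivity : (0 : ℝ) ≤ 1 / N)] at h5
        have h6 : 1 / (N : ℝ) * |x (K.b j)| ≤ 1 / (N : ℝ) * ‖x‖ :=
          mul_le_mul_of_nonneg_left h4 (by positivity)
        linarith
      | b j =>
        have h3 := abs_le (T N hN x) ⟨N, _, Or.inl ⟨j, rfl⟩⟩
        rw [T_apply, Tf, if_pos rfl, pair_single, one_mul] at h3
        have h4 : (1 - 1 / (N : ℝ)) * |x (K.b j)| ≤ 1 * |x (K.b j)| :=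
          mul_le_mul_of_nonneg_right (by have : (0:ℝ) ≤ 1 / N := by positivity
                                         linarith) (abs_nonneg _)
        have h5 : 0 ≤ 1 / (N : ℝ) * ‖x‖ := by positivity
        linarith
    have h7 : ‖x‖ ≤ (‖T N hN x‖ + 1 / (N : ℝ) * ‖x‖) / (1 - 1 / (N : ℝ)) := by
      refine norm_le x _ (by positivity) (fun k => ?_)
      rw [le_div_iff₀ hpos, mul_comm]
      exact key k
    rw [le_div_iff₀ hpos] at h7
    have : (1 - 2 / (N : ℝ)) * ‖x‖ = ‖x‖ * (1 - 1 / (N : ℝ)) - 1 / (N : ℝ) * ‖x‖ := by ring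
    rw [this]
    linarith

/-- indicator of a point -/
noncomputable def e (k : K) : Li K := by
  classical
  exact mk (fun k' => if k' = k then 1 else 0)
    (measK {k} (countable_singleton k) 0 (fun k' hk' => if_neg hk')) 1
    (fun k' => by split_ifs <;> simp)

open Classical in
theorem e_apply (k k' : K) : e k k' = if k' = k then 1 else 0 := by
  unfold e
  rw [coe_mk]

theorem norm_e (k : K) : ‖e k‖ = 1 := by
  refine le_antisymm (norm_le _ _ zero_le_one (fun k' => ?_)) ?_
  · rw [e_apply]; split_ifs <;> simp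
  · have := abs_le (e k) k
    rw [e_apply, if_pos rfl, abs_one] at this
    exact this

theorem main (N : ℕ) (hN : 1 ≤ N) (V : Li K →L[ℝ] Li Gam) (hV : ∀ x, ‖V x‖ = ‖x‖) :
    1 ≤ ‖T N hN - V‖ := by
  classical
  by_contra hlt
  push Not at hlt
  set δ := ‖T N hN - V‖ with hδ
  have hδ0 : 0 ≤ δ := norm_nonneg _
  have hN0 : (0 : ℝ) < N := by positivity
  have near : ∀ x p, |T N hN x p - V x p| ≤ δ * ‖x‖ := by
    intro x p
    have h1 := abs_le ((T N hN - V) x) p
    have h2 := (T N hN - V).le_opNorm x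
    have h3 : ((T N hN - V) x) p = T N hN x p - V x p := by
      rw [ContinuousLinearMap.sub_apply]; exact coe_sub _ _ _
    rw [h3] at h1
    exact h1.trans h2
  -- dependence
  have hdep : ∀ k : K, ∃ D : Set K, D.Countable ∧
      ∀ p q : Gam, p.N = q.N → (∀ k ∈ D, p.w k = q.w k) → V (e k) p = V (e k) q :=
    fun k => depG (meas (V (e k)))
  choose D hD hdep using hdep
  set β : ℝ := (1 - δ) / N with hβ
  have hβ0 : 0 < β := div_pos (by linarith) hN0
  set P : J → Prop := fun j => ∀ p : Gam, p.N = N → p.w (K.b j) = 1 / N →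
    (∀ k ∈ D (K.b j), k ≠ K.b j → p.w k = 0) → β ≤ V (e (K.b j)) p with hP
  -- step 1
  have step1 : {j | ¬ P j}ᶜ.Nonempty := by
    obtain ⟨S, hS, -, hfree, -⟩ := exists_free (fun j => {j' | K.b j' ∈ D (K.b j)})
      (fun j => (hD (K.b j)).preimage (fun a b h => by injection h)) N 0
    set ρ : Gam := ⟨N, _, Or.inr (Or.inr ⟨S, hS, rfl⟩)⟩ with hρ
    have hρw : ∀ j ∈ S, ρ.w (K.b j) = 1 / N := by
      intro j hj
      change (∑ j ∈ S, Finsupp.single (K.b j) (1 / (N : ℝ))) (K.b j) = 1 / N
      rw [Finsupp.finset_sum_apply, Finset.sum_eq_single j]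
      · simp
      · intro j' _ hne
        rw [Finsupp.single_apply, if_neg]
        intro h; injection h with h; exact hne h
      · intro h; exact absurd hj h
    have hρ0 : ∀ k : K, (∀ j ∈ S, k ≠ K.b j) → ρ.w k = 0 := by
      intro k hk
      change (∑ j ∈ S, Finsupp.single (K.b j) (1 / (N : ℝ))) k = 0
      rw [Finsupp.finset_sum_apply]
      refine Finset.sum_eq_zero (fun j hj => ?_)
      rw [Finsupp.single_apply, if_neg (fun h => hk j hj h.symm)]
    set x : Li K := ∑ j ∈ S, e (K.b j) with hx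
    have hxv : ∀ k, x k = if ∃ j ∈ S, k = K.b j then 1 else 0 := by
      intro k
      rw [hx, coe_sum]
      simp only [e_apply]
      by_cases h : ∃ j ∈ S, k = K.b j
      · obtain ⟨j, hj, rfl⟩ := h
        rw [if_pos ⟨j, hj, rfl⟩, Finset.sum_eq_single j]
        · simp
        · intro j' _ hne
          rw [if_neg]
          intro h; injection h with h; exact hne h.symm
        · intro h; exact absurd hj h
      · rw [if_neg h]
        refine Finset.sum_eq_zero (fun j hj => ?_)
        rw [if_neg (fun h' => h ⟨j, hj, h'⟩)]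
    have hxn : ‖x‖ ≤ 1 := by
      refine norm_le _ _ zero_le_one (fun k => ?_)
      rw [hxv]; split_ifs <;> simp
    have hT : T N hN x ρ = 1 := by
      rw [T_apply, Tf, if_pos rfl]
      change pair (∑ j ∈ S, Finsupp.single (K.b j) (1 / (N : ℝ))) x = 1
      rw [pair_sum, Finset.sum_congr rfl (g := fun _ => 1 / (N : ℝ))
        (fun j hj => by rw [hxv, if_pos ⟨j, hj, rfl⟩, mul_one])]
      simp only [Finset.sum_const, hS, nsmul_eq_mul]
      field_simp
    have hVx : 1 - δ ≤ V x ρ := by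
      have h1 := near x ρ
      rw [hT] at h1
      have h2 := (_root_.abs_le.1 (h1.trans (by nlinarith : δ * ‖x‖ ≤ δ))).2
      linarith
    have hVx' : V x ρ = ∑ j ∈ S, V (e (K.b j)) ρ := by
      rw [hx, _root_.map_sum, coe_sum]
    have hex : ∃ j ∈ S, β ≤ V (e (K.b j)) ρ := by
      by_contra hcon
      push Not at hcon
      have hne : S.Nonempty := Finset.card_pos.1 (by omega)
      have h1 : ∑ j ∈ S, V (e (K.b j)) ρ < ∑ _j ∈ S, β := Finset.sum_lt_sum_of_nonempty hne hcon
      rw [Finset.sum_const, hS, nsmul_eq_mul, ← hVx', hβ, mul_div_cancel₀ _ hN0.ne'] at h1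
      linarith
    obtain ⟨j, hj, hjβ⟩ := hex
    refine ⟨j, ?_⟩
    simp only [mem_compl_iff, mem_setOf_eq, not_not]
    intro p hpN hpj hp0
    rw [hdep (K.b j) p ρ hpN]
    · exact hjβ
    · intro k hk
      by_cases hkj : k = K.b j
      · rw [hkj, hpj, hρw j hj]
      · rw [hp0 k hk hkj, hρ0]
        intro j' hj' hkj'
        have hne : j' ≠ j := fun h => hkj (by rw [hkj', h])
        exact hfree j' hj' j hj hne (by rw [mem_setOf_eq, ← hkj']; exact hk)
  -- step 2
  obtain ⟨i, hi, hiD⟩ := exists_i {j | ¬ P j} step1 (fun j => {i | K.a i ∈ D (K.b j)})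
    (fun j => (hD (K.b j)).preimage (fun a b h => by injection h))
  -- step 3
  set η : ℝ := min (β / 2) ((1 - δ) / 2) with hη
  have hη0 : 0 < η := lt_min (by linarith) (by linarith)
  obtain ⟨p, hp⟩ : ∃ p, 1 - η < |V (e (K.a i)) p| := by
    by_contra hcon
    push Not at hcon
    have hη1 : η ≤ 1 := (min_le_right _ _).trans (by linarith)
    have := norm_le (V (e (K.a i))) (1 - η) (by linarith) hcon
    rw [hV, norm_e] at this
    linarith
  have hnear := near (e (K.a i)) p
  rw [norm_e, mul_one, T_apply] at hnear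
  have hη2 : η ≤ (1 - δ) / 2 := min_le_right _ _
  have hTpos : 0 < |Tf N (e (K.a i)) p| := by
    have h1 := abs_sub_abs_le_abs_sub (V (e (K.a i)) p) (Tf N (e (K.a i)) p)
    rw [abs_sub_comm] at h1
    linarith
  have hpN : p.N = N := by
    by_contra h
    rw [Tf, if_neg h, abs_zero] at hTpos
    exact lt_irrefl _ hTpos
  rw [Tf, if_pos hpN] at hTpos
  obtain ⟨N', w, hw⟩ := p
  simp only at hpN
  subst hpN
  simp only at hTpos
  -- the shape of `w`
  obtain ⟨j, hj, rfl⟩ : ∃ j, j ∉ i.1.1 ∧ w = Finsupp.single (K.a i) (1 - 1 / (N' : ℝ)) +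
      Finsupp.single (K.b j) (1 / (N' : ℝ)) := by
    rcases id hw with ⟨j, rfl⟩ | ⟨i', j, hj, rfl⟩ | ⟨S, _, rfl⟩
    · exfalso
      rw [pair_single, e_apply, if_neg (by intro h; injection h)] at hTpos
      simp at hTpos
    · by_cases hii : i' = i
      · subst hii
        exact ⟨j, hj, rfl⟩
      · exfalso
        rw [pair_add_left, pair_single, pair_single, e_apply, e_apply,
          if_neg (by intro h; injection h with h; exact hii h), if_neg (by intro h; injection h)] at hTpos
        simp at hTpos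
    · exfalso
      rw [pair_sum, Finset.sum_eq_zero] at hTpos
      · simp at hTpos
      · intro j _
        rw [e_apply, if_neg (by intro h; injection h), mul_zero]
  rw [hi] at hj
  simp only [mem_setOf_eq, not_not] at hj
  set p : Gam := ⟨N', _, hw⟩ with hpdef
  have hβp : β ≤ V (e (K.b j)) p := by
    refine hj p rfl ?_ ?_
    · change (Finsupp.single (K.a i) (1 - 1 / (N' : ℝ)) +
        Finsupp.single (K.b j) (1 / (N' : ℝ))) (K.b j) = _
      rw [Finsupp.add_apply, Finsupp.single_apply, if_neg (by intro h; injection h),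
        Finsupp.single_apply, if_pos rfl, zero_add]
    · intro k hk hkj
      change (Finsupp.single (K.a i) (1 - 1 / (N' : ℝ)) +
        Finsupp.single (K.b j) (1 / (N' : ℝ))) k = _
      have hki : K.a i ≠ k := fun h => hiD j (by rw [mem_setOf_eq, h]; exact hk)
      rw [Finsupp.add_apply, Finsupp.single_apply, if_neg hki, Finsupp.single_apply,
        if_neg (fun h => hkj h.symm), zero_add]
  -- step 4
  set σ : ℝ := if 0 ≤ V (e (K.a i)) p then 1 else -1 with hσ
  have hσ1 : |σ| = 1 := by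
    rw [hσ]; split_ifs <;> simp
  have hσ2 : σ * V (e (K.a i)) p = |V (e (K.a i)) p| := by
    rw [hσ]
    split_ifs with h
    · rw [one_mul, abs_of_nonneg h]
    · rw [abs_of_neg (not_le.1 h)]; ring
  have hn : ‖σ • e (K.a i) + e (K.b j)‖ ≤ 1 := by
    refine norm_le _ _ zero_le_one (fun k => ?_)
    rw [coe_add, coe_smul, e_apply, e_apply]
    cases k with
    | a i' =>
      rw [if_neg (show ¬ (K.a i' = K.b j) by intro h; injection h), add_zero]
      split_ifs
      · rw [mul_one, hσ1]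
      · simp
    | b j' =>
      rw [if_neg (show ¬ (K.b j' = K.a i) by intro h; injection h), mul_zero, zero_add]
      split_ifs <;> simp
  have h5 := abs_le (V (σ • e (K.a i) + e (K.b j))) p
  rw [hV, map_add, map_smul, coe_add, coe_smul, hσ2] at h5
  have h6 := (le_abs_self _).trans (h5.trans hn)
  have hη3 : η ≤ β / 2 := min_le_left _ _
  linarith

end Pool.Agent.X199.LinfA
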