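import Mathlib
import Pool.Agent.H63Fed.Kuhn

set_option autoImplicit false

/-! Nagata dimension of subsets of `ℝⁿ`: upper bound by shrunken cubes, lower bound by Kuhn's
lemma. -/

namespace Pool.Agent.X199.Nagata

open Set

noncomputable section

/-- `X` has (Assouad–)Nagata dimension at most `d`: there is `c > 0` such that for every `s > 0`
the set `X` has a cover by subsets of diameter at most `c s` such that every subset of `X` of
diameter at most `s` meets at most `d + 1` members of the cover. -/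
def NagataDimLE {E : Type*} [PseudoMetricSpace E] (X : Set E) (d : ℕ) : Prop :=
  ∃ c : ℝ, 0 < c ∧ ∀ s : ℝ, 0 < s → ∃ 𝒰 : Set (Set E), (∀ V ∈ 𝒰, V ⊆ X) ∧ X ⊆ ⋃₀ 𝒰 ∧
    (∀ V ∈ 𝒰, ∀ x ∈ V, ∀ y ∈ V, dist x y ≤ c * s) ∧
    ∀ A ⊆ X, (∀ x ∈ A, ∀ y ∈ A, dist x y ≤ s) → {V ∈ 𝒰 | (V ∩ A).Nonempty}.encard ≤ d + 1

/-- The Nagata dimension of `X` is exactly `d`: `d` is the least integer with the property. -/
def NagataDimEq {E : Type*} [PseudoMetricSpace E] (X : Set E) (d : ℕ) : Prop :=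
  NagataDimLE X d ∧ ∀ e : ℕ, NagataDimLE X e → d ≤ e

theorem NagataDimLE.mono {E : Type*} [PseudoMetricSpace E] {X : Set E} {d e : ℕ} (h : d ≤ e)
    (hd : NagataDimLE X d) : NagataDimLE X e := by
  obtain ⟨c, hc, H⟩ := hd
  refine ⟨c, hc, fun s hs => ?_⟩
  obtain ⟨𝒰, h0, h1, h2, h3⟩ := H s hs
  refine ⟨𝒰, h0, h1, h2, fun A hA hAs => (h3 A hA hAs).trans ?_⟩
  have : (d : ℕ∞) ≤ e := by exact_mod_cast h
  gcongr

theorem coord_le {n : ℕ} (x : EuclideanSpace ℝ (Fin n)) (i : Fin n) : |x i| ≤ ‖x‖ := by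
  have := PiLp.norm_apply_le (p := 2) x i
  simpa using this

theorem norm_le_of_coord {n : ℕ} (x : EuclideanSpace ℝ (Fin n)) {t : ℝ} (ht : 0 ≤ t)
    (h : ∀ i, |x i| ≤ t) : ‖x‖ ≤ n * t := by
  rw [EuclideanSpace.norm_eq, Real.sqrt_le_left (by positivity)]
  have h1 : ∑ i, ‖x i‖ ^ 2 ≤ ∑ _i : Fin n, t ^ 2 := by
    apply Finset.sum_le_sum
    intro i _
    rw [Real.norm_eq_abs]
    exact pow_le_pow_left₀ (abs_nonneg _) (h i) 2
  rw [Finset.sum_const, Finset.card_univ, Fintype.card_fin, nsmul_eq_mul] at h1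
  refine h1.trans ?_
  rcases Nat.eq_zero_or_pos n with rfl | hn
  · simp
  · have h2 : (1 : ℝ) ≤ n := by exact_mod_cast hn
    have h3 : 0 ≤ t ^ 2 := sq_nonneg t
    have h4 := mul_nonneg (mul_nonneg (by linarith : (0 : ℝ) ≤ n) (by linarith : (0 : ℝ) ≤ n - 1)) h3
    rw [mul_pow]
    nlinarith

/-- upper bound for sets that vary only in the coordinates from `I` -/
theorem upper {n : ℕ} (I : Finset (Fin n)) (X : Set (EuclideanSpace ℝ (Fin n)))
    (hX : ∀ x ∈ X, ∀ y ∈ X, ∀ i, i ∉ I → x i = y i) : NagataDimLE X I.card := by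
  obtain ⟨d, hd⟩ : ∃ d, d = I.card := ⟨_, rfl⟩
  rw [← hd]
  refine ⟨n * (2 * (d + 1)) + 1, by positivity, fun s hs => ?_⟩
  obtain ⟨L, hL⟩ : ∃ L : ℝ, L = 2 * (d + 1) * s := ⟨_, rfl⟩
  have hL0 : 0 < L := by rw [hL]; positivity
  let V : ℕ → (Fin n → ℤ) → Set (EuclideanSpace ℝ (Fin n)) := fun k a =>
    {x ∈ X | ∀ i ∈ I, a i * L + 2 * k * s + s ≤ x i ∧ x i ≤ (a i + 1) * L + 2 * k * s - s}
  refine ⟨{W | ∃ k : ℕ, k ≤ d ∧ ∃ a, W = V k a}, ?_, ?_, ?_, ?_⟩
  · rintro W ⟨k, -, a, rfl⟩ x hx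
    exact hx.1
  · intro x hx
    -- bad indices
    have hgood : ∃ k : ℕ, k ≤ d ∧ ∀ i ∈ I, ∀ a : ℤ, ¬ |x i - a * L - 2 * k * s| < s := by
      by_contra hcon
      push Not at hcon
      have hcon' : ∀ k : Fin (d + 1), ∃ i ∈ I, ∃ a : ℤ, |x i - a * L - 2 * (k : ℕ) * s| < s :=
        fun k => hcon k (by omega)
      choose bi hbi ba hba using hcon'
      have hcard : I.card < (Finset.univ : Finset (Fin (d + 1))).card := by
        rw [Finset.card_univ, Fintype.card_fin, ← hd]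
        exact Nat.lt_succ_self d
      obtain ⟨k, -, k', -, hne, heq⟩ := Finset.exists_ne_map_eq_of_card_lt_of_maps_to hcard
        (f := bi) (fun k _ => hbi k)
      have hk := k.2
      have hk' := k'.2
      have hne' : (k : ℕ) ≠ k' := fun h => hne (Fin.ext h)
      have h1 := hba k
      have h2 := hba k'
      rw [← heq] at h2
      have h3 : |((ba k' - ba k : ℤ) : ℝ) * L + 2 * (((k' : ℕ) : ℝ) - (k : ℕ)) * s| < 2 * s := by
        have e : ((ba k' - ba k : ℤ) : ℝ) * L + 2 * (((k' : ℕ) : ℝ) - (k : ℕ)) * s =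
            (x (bi k) - ba k * L - 2 * (k : ℕ) * s) - (x (bi k) - ba k' * L - 2 * (k' : ℕ) * s) := by
          push_cast; ring
        rw [e]
        refine (abs_sub _ _).trans_lt ?_
        linarith
      rw [hL] at h3
      have h4 : ((ba k' - ba k : ℤ) : ℝ) * (2 * (d + 1) * s) + 2 * (((k' : ℕ) : ℝ) - (k : ℕ)) * s =
          (((ba k' - ba k) * (d + 1) + (((k' : ℕ) : ℤ) - (k : ℕ)) : ℤ) : ℝ) * (2 * s) := by
        push_cast; ring
      rw [h4, abs_mul, abs_of_pos (by positivity : 0 < 2 * s)] at h3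
      have h5 : |(((ba k' - ba k) * (d + 1) + (((k' : ℕ) : ℤ) - (k : ℕ)) : ℤ) : ℝ)| < 1 := by
        by_contra hcon
        push Not at hcon
        nlinarith
      have h6 : |((ba k' - ba k) * (d + 1) + (((k' : ℕ) : ℤ) - (k : ℕ)) : ℤ)| < 1 := by
        exact_mod_cast h5
      rw [Int.abs_lt_one_iff] at h6
      have h7 : ((d : ℤ) + 1) ∣ (((k' : ℕ) : ℤ) - (k : ℕ)) := ⟨-(ba k' - ba k), by linarith⟩
      have h8 : ((k' : ℕ) : ℤ) - (k : ℕ) = 0 := by
        apply Int.eq_zero_of_abs_lt_dvd h7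
        rw [abs_lt]
        omega
      omega
    obtain ⟨k, hk, hk2⟩ := hgood
    refine ⟨V k (fun i => ⌊(x i - 2 * k * s) / L⌋), ⟨k, hk, _, rfl⟩, hx, ?_⟩
    intro i hi
    obtain ⟨a, ha⟩ : ∃ a : ℤ, a = ⌊(x i - 2 * k * s) / L⌋ := ⟨_, rfl⟩
    simp only
    rw [← ha]
    have h1 : (a : ℝ) * L ≤ x i - 2 * k * s := by
      have := Int.floor_le ((x i - 2 * k * s) / L)
      rw [← ha, le_div_iff₀ hL0] at this
      exact this
    have h2 : x i - 2 * k * s < (a + 1) * L := by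
      have := Int.lt_floor_add_one ((x i - 2 * k * s) / L)
      rw [← ha, div_lt_iff₀ hL0] at this
      exact this
    have h3 := hk2 i hi a
    have h4 := hk2 i hi (a + 1)
    push Not at h3 h4
    rw [abs_of_nonneg (by linarith)] at h3
    push_cast at h4
    rw [abs_of_neg (by linarith)] at h4
    constructor <;> linarith
  · rintro W ⟨k, -, a, rfl⟩ x hx y hy
    rw [dist_eq_norm]
    have h1 : ∀ i, |(x - y) i| ≤ L := by
      intro i
      rw [PiLp.sub_apply]
      by_cases hi : i ∈ I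
      · have h2 := hx.2 i hi
        have h3 := hy.2 i hi
        rw [abs_le]
        constructor <;> nlinarith [h2.1, h2.2, h3.1, h3.2]
      · rw [hX x hx.1 y hy.1 i hi, sub_self, abs_zero]
        exact hL0.le
    refine (norm_le_of_coord _ hL0.le h1).trans ?_
    rw [hL]
    nlinarith
  · intro A hA hAs
    classical
    let g : Fin (d + 1) → Set (EuclideanSpace ℝ (Fin n)) := fun k =>
      if h : ∃ a, (V k a ∩ A).Nonempty then V k h.choose else ∅
    have hsub : {W ∈ {W | ∃ k : ℕ, k ≤ d ∧ ∃ a, W = V k a} | (W ∩ A).Nonempty} ⊆ range g := by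
      rintro W ⟨⟨k, hk, a, rfl⟩, x, hx, hxA⟩
      refine ⟨⟨k, by omega⟩, ?_⟩
      have hex : ∃ a, (V k a ∩ A).Nonempty := ⟨a, x, hx, hxA⟩
      have hg : g ⟨k, by omega⟩ = V k hex.choose := dif_pos hex
      rw [hg]
      obtain ⟨y, hy, hyA⟩ := hex.choose_spec
      obtain ⟨b, hb⟩ : ∃ b, b = hex.choose := ⟨_, rfl⟩
      rw [← hb] at hy ⊢
      have hab : ∀ i ∈ I, a i = b i := by
        intro i hi
        have h1 := hx.2 i hi
        have h2 := hy.2 i hi
        have h3 : |x i - y i| ≤ s := by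
          have := coord_le (x - y) i
          rw [PiLp.sub_apply] at this
          rw [← dist_eq_norm] at this
          exact this.trans (hAs x hxA y hyA)
        rw [abs_le] at h3
        rcases lt_trichotomy (a i) (b i) with h | h | h
        · exfalso
          have h4 : (a i : ℝ) + 1 ≤ b i := by exact_mod_cast h
          nlinarith [h1.1, h1.2, h2.1, h2.2, h3.1, h3.2]
        · exact h
        · exfalso
          have h4 : (b i : ℝ) + 1 ≤ a i := by exact_mod_cast h
          nlinarith [h1.1, h1.2, h2.1, h2.2, h3.1, h3.2]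
      ext z
      simp only [V, mem_ofPred_eq]
      constructor
      · rintro ⟨hz1, hz2⟩
        refine ⟨hz1, fun i hi => ?_⟩
        rw [hab i hi]
        exact hz2 i hi
      · rintro ⟨hz1, hz2⟩
        refine ⟨hz1, fun i hi => ?_⟩
        rw [← hab i hi]
        exact hz2 i hi
    refine (encard_le_encard hsub).trans ?_
    rw [← image_univ]
    refine (encard_image_le g univ).trans ?_
    rw [encard_univ]
    simp

/-- lower bound: a set which is coarsely dense near an octant has Nagata dimension at least `n` -/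
theorem lower {n : ℕ} (hn : 1 ≤ n) (X : Set (EuclideanSpace ℝ (Fin n))) (C R : ℝ) (hC : 0 ≤ C)
    (hX : ∀ y : EuclideanSpace ℝ (Fin n), (∀ i, R ≤ y i) → ∃ x ∈ X, dist x y ≤ C) :
    ¬ NagataDimLE X (n - 1) := by
  classical
  rintro ⟨c, hc, H⟩
  obtain ⟨s, hs⟩ : ∃ s : ℝ, s = n + 2 * C + 1 := ⟨_, rfl⟩
  have hs0 : 0 < s := by rw [hs]; positivity
  obtain ⟨𝒰, -, h1, h2, h3⟩ := H s hs0
  obtain ⟨m, hm⟩ := exists_nat_gt (c * s + 2 * C)
  let G : (ℕ → ℕ) → EuclideanSpace ℝ (Fin n) := fun x => WithLp.toLp 2 (fun i => R + (x i : ℝ))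
  have hG : ∀ x i, G x i = R + (x i : ℝ) := fun x i => rfl
  have hex : ∀ x, ∃ p ∈ X, dist p (G x) ≤ C := fun x => hX (G x) (fun i => by
    rw [hG]
    have : (0 : ℝ) ≤ (x i : ℕ) := Nat.cast_nonneg _
    linarith)
  choose p hpX hp using hex
  have hexW : ∀ x, ∃ W ∈ 𝒰, p x ∈ W := fun x => h1 (hpX x)
  choose W hWU hW using hexW
  -- the label
  let Far : ℕ → Set (EuclideanSpace ℝ (Fin n)) → Prop := fun i V =>
    ∃ y : ℕ → ℕ, (∀ j, y j ≤ m) ∧ W y = V ∧ y i = m
  let lamV : Set (EuclideanSpace ℝ (Fin n)) → ℕ := fun V =>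
    if h : ∃ i, i < n ∧ Far i V then Nat.find h else n
  have hlam1 : ∀ V, lamV V ≤ n := by
    intro V
    simp only [lamV]
    split_ifs with h
    · exact (Nat.find_spec h).1.le
    · exact le_rfl
  have hlam2 : ∀ V i, i < n → lamV V = i → Far i V := by
    intro V i hi hV
    simp only [lamV] at hV
    split_ifs at hV with h
    · rw [← hV]
      exact (Nat.find_spec h).2
    · omega
  have hlam3 : ∀ V i, i < n → Far i V → lamV V ≤ i := by
    intro V i hi hV
    have h : ∃ i, i < n ∧ Far i V := ⟨i, hi, hV⟩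
    simp only [lamV]
    rw [dif_pos h]
    exact Nat.find_min' h ⟨hi, hV⟩
  obtain ⟨x, hx, hy⟩ := H63Fed.Kuhn.kuhn n m (fun x => lamV (W x)) (fun x _ => hlam1 _)
    (by
      intro i hi x hxm hx0 hcon
      obtain ⟨y, hy1, hy2, hy3⟩ := hlam2 _ i hi hcon
      have d1 : dist (p x) (p y) ≤ c * s := h2 (W x) (hWU x) _ (hW x) _ (by
        rw [← hy2]; exact hW y)
      have d2 : dist (G x) (G y) ≤ c * s + 2 * C := by
        have t1 := dist_triangle (G x) (p x) (G y)
        have t2 := dist_triangle (p x) (p y) (G y)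
        have t3 := hp x
        rw [dist_comm] at t3
        have t4 := hp y
        linarith
      have d3 := coord_le (G x - G y) ⟨i, hi⟩
      rw [← dist_eq_norm, PiLp.sub_apply, hG, hG] at d3
      simp only [hx0, hy3, Nat.cast_zero, add_zero] at d3
      rw [show R - (R + (m : ℝ)) = -(m : ℝ) by ring, abs_neg, abs_of_nonneg (Nat.cast_nonneg m)] at d3
      linarith)
    (fun i hi x hxm hxi => hlam3 _ i hi ⟨x, hxm, rfl, hxi⟩)
  choose! y hy1 hy2 hy3 using hy
  -- the small set meeting too many members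
  obtain ⟨A, hA⟩ : ∃ A : Set (EuclideanSpace ℝ (Fin n)), A = {q | ∃ j, j ≤ n ∧ q = p (y j)} :=
    ⟨_, rfl⟩
  have hAX : A ⊆ X := by
    rw [hA]
    rintro q ⟨j, -, rfl⟩
    exact hpX _
  have hAs : ∀ q ∈ A, ∀ q' ∈ A, dist q q' ≤ s := by
    rw [hA]
    rintro q ⟨j, hj, rfl⟩ q' ⟨j', hj', rfl⟩
    have d1 : dist (G (y j)) (G (y j')) ≤ n * 1 := by
      rw [dist_eq_norm]
      apply norm_le_of_coord _ zero_le_one
      intro i
      rw [PiLp.sub_apply, hG, hG]
      have e1 := hy1 j hj i i.2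
      have e2 := hy1 j' hj' i i.2
      rw [abs_le]
      rcases e1 with e1 | e1 <;> rcases e2 with e2 | e2 <;> rw [e1, e2] <;> push_cast <;>
        constructor <;> linarith
    have t1 := dist_triangle (p (y j)) (G (y j)) (p (y j'))
    have t2 := dist_triangle (G (y j)) (G (y j')) (p (y j'))
    have t3 := hp (y j)
    have t4 := hp (y j')
    rw [dist_comm] at t4
    rw [hs]
    linarith
  have hcount := h3 A hAX hAs
  have hinj : Function.Injective (fun j : Fin (n + 1) => W (y j)) := by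
    intro j j' hjj
    have e1 := hy3 j (by omega)
    have e2 := hy3 j' (by omega)
    simp only at hjj e1 e2
    rw [hjj] at e1
    apply Fin.ext
    omega
  have hrange : range (fun j : Fin (n + 1) => W (y j)) ⊆ {V ∈ 𝒰 | (V ∩ A).Nonempty} := by
    rintro _ ⟨j, rfl⟩
    refine ⟨hWU _, p (y j), hW _, ?_⟩
    rw [hA]
    exact ⟨j, by omega, rfl⟩
  have h5 := encard_le_encard hrange
  rw [← image_univ, hinj.encard_image, encard_univ] at h5
  have h6 := h5.trans hcount
  simp only [ENat.card_eq_coe_fintype_card, Fintype.card_fin] at h6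
  have h7 : n + 1 ≤ (n - 1) + 1 := by exact_mod_cast h6
  omega

end

end Pool.Agent.X199.Nagata
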