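import Mathlib
import Pool.Agent.X199.Nagata

set_option autoImplicit false

/-! The spiral strip map. -/

namespace Pool.Agent.X199.Spiral

open Set Filter Topology Pool.Agent.X199.Nagata

noncomputable section

/-- `(u, v) ↦ (√(2u) + v) e^{i √(2u)}` -/
def Fs (u v : ℝ) : ℂ := ((Real.sqrt (2 * u) + v : ℝ) : ℂ) * Complex.exp ((Real.sqrt (2 * u) : ℝ) * Complex.I)

theorem polar_diff (r r' θ θ' : ℝ) :
    ‖(r : ℂ) * Complex.exp (θ * Complex.I) - (r' : ℂ) * Complex.exp (θ' * Complex.I)‖ ^ 2 =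
      (r - r') ^ 2 + 2 * (r * r') * (1 - Real.cos (θ - θ')) := by
  rw [Complex.sq_norm, Complex.normSq_apply]
  simp only [Complex.sub_re, Complex.sub_im, Complex.re_ofReal_mul, Complex.im_ofReal_mul,
    Complex.exp_ofReal_mul_I_re, Complex.exp_ofReal_mul_I_im]
  rw [Real.cos_sub]
  have h1 := Real.sin_sq_add_cos_sq θ
  have h2 := Real.sin_sq_add_cos_sq θ'
  have e : (r * Real.cos θ - r' * Real.cos θ') * (r * Real.cos θ - r' * Real.cos θ') +
      (r * Real.sin θ - r' * Real.sin θ') * (r * Real.sin θ - r' * Real.sin θ') =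
      r ^ 2 * (Real.sin θ ^ 2 + Real.cos θ ^ 2) + r' ^ 2 * (Real.sin θ' ^ 2 + Real.cos θ' ^ 2) -
      2 * (r * r') * (Real.cos θ * Real.cos θ' + Real.sin θ * Real.sin θ') := by ring
  rw [e, h1, h2]
  ring

theorem loc {u v u' v' : ℝ} (hu : 1 / 2 < u) (hu' : 1 / 2 < u') (hv : 0 < v) (hv1 : v < 1)
    (hv' : 0 < v') (hv1' : v' < 1) (hd : |u - u'| ≤ 1 / 2) :
    ‖Fs u v - Fs u' v'‖ ^ 2 ≤ 16 * ((u - u') ^ 2 + (v - v') ^ 2) ∧
    (u - u') ^ 2 + (v - v') ^ 2 ≤ 16 * ‖Fs u v - Fs u' v'‖ ^ 2 := by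
  unfold Fs
  rw [polar_diff]
  obtain ⟨θ, hθ⟩ : ∃ θ, θ = Real.sqrt (2 * u) := ⟨_, rfl⟩
  obtain ⟨θ', hθ'⟩ : ∃ θ, θ = Real.sqrt (2 * u') := ⟨_, rfl⟩
  rw [← hθ, ← hθ']
  have q1 : θ ^ 2 = 2 * u := by rw [hθ, Real.sq_sqrt (by linarith)]
  have q2 : θ' ^ 2 = 2 * u' := by rw [hθ', Real.sq_sqrt (by linarith)]
  have p1 : 1 < θ := by
    rw [hθ, Real.lt_sqrt (by norm_num)]
    linarith
  have p2 : 1 < θ' := by
    rw [hθ', Real.lt_sqrt (by norm_num)]
    linarith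
  have hΔ : (θ + θ') * (θ - θ') = 2 * (u - u') := by nlinarith
  obtain ⟨D, hD⟩ : ∃ D, D = θ - θ' := ⟨_, rfl⟩
  rw [← hD] at hΔ ⊢
  have hDle : D ^ 2 ≤ (u - u') ^ 2 := by
    have h1 : (θ + θ') ^ 2 * D ^ 2 = 4 * (u - u') ^ 2 := by
      rw [← mul_pow, hΔ]; ring
    have h2 : 4 ≤ (θ + θ') ^ 2 := by nlinarith
    nlinarith [sq_nonneg D]
  have hDabs : |D| ≤ 1 / 2 := (sq_le_sq.mp hDle).trans hd
  have hD1 := (abs_le.mp hDabs).1
  have hD2 := (abs_le.mp hDabs).2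
  have c1 : 1 - Real.cos D ≤ D ^ 2 / 2 := by
    have := Real.one_sub_sq_div_two_le_cos (x := D)
    linarith
  have c2 : D ^ 2 / 5 ≤ 1 - Real.cos D := by
    have h1 := Real.cos_le_one_sub_mul_cos_sq (x := D) (hDabs.trans (by
      have := Real.pi_gt_three
      linarith))
    have h2 : 1 / 5 ≤ 2 / Real.pi ^ 2 := by
      rw [div_le_div_iff₀ (by norm_num) (by positivity)]
      have h3 := Real.pi_lt_d2
      have h4 := Real.pi_pos
      nlinarith
    nlinarith [sq_nonneg D]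
  have hprod : (θ + θ') ^ 2 * D ^ 2 = 4 * (u - u') ^ 2 := by
    rw [← mul_pow, hΔ]; ring
  have r1 : θ * θ' ≤ (θ + v) * (θ' + v') := by nlinarith
  have r2 : (θ + v) * (θ' + v') ≤ 4 * (θ * θ') := by
    have a1 : θ + v ≤ 2 * θ := by linarith
    have a2 : θ' + v' ≤ 2 * θ' := by linarith
    have := mul_le_mul a1 a2 (by linarith) (by linarith)
    linarith
  have hθθ : 0 < θ * θ' := by positivity
  have e1 : θ + v - (θ' + v') = D + (v - v') := by rw [hD]; ring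
  rw [e1]
  have hcos0 : 0 ≤ 1 - Real.cos D := by linarith [Real.cos_le_one D]
  constructor
  · have s1 : 2 * ((θ + v) * (θ' + v')) * (1 - Real.cos D) ≤ 2 * (4 * (θ * θ')) * (D ^ 2 / 2) := by
      apply mul_le_mul _ c1 hcos0 (by positivity)
      linarith
    have s2 : 4 * (θ * θ') * D ^ 2 ≤ 4 * (u - u') ^ 2 := by
      rw [← hprod]
      apply mul_le_mul_of_nonneg_right _ (sq_nonneg D)
      nlinarith [sq_nonneg (θ - θ')]
    have t1 : (D + (v - v')) ^ 2 ≤ 2 * D ^ 2 + 2 * (v - v') ^ 2 := by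
      nlinarith only [sq_nonneg (D - (v - v'))]
    have t2 := sq_nonneg (v - v')
    have t3 := sq_nonneg (u - u')
    linarith
  · obtain ⟨S, hS⟩ : ∃ S, S = (D + (v - v')) ^ 2 +
        2 * ((θ + v) * (θ' + v')) * (1 - Real.cos D) := ⟨_, rfl⟩
    rw [← hS]
    have s1 : 2 * (θ * θ') * (D ^ 2 / 5) ≤ 2 * ((θ + v) * (θ' + v')) * (1 - Real.cos D) := by
      apply mul_le_mul _ c2 (by positivity) (by linarith)
      linarith
    have s2 : 2 * (θ + θ') ^ 2 ≤ 9 * (θ * θ') := by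
      have b1 : θ ≤ 2 * θ' := by linarith
      have b2 : θ' ≤ 2 * θ := by linarith
      have b3 := mul_nonneg (by linarith : 0 ≤ 2 * θ' - θ) (by linarith : 0 ≤ 2 * θ - θ')
      nlinarith only [b3]
    have s3 : (u - u') ^ 2 ≤ 3 * S := by
      have s4 : 2 * ((θ + θ') ^ 2 * D ^ 2) ≤ 9 * (θ * θ') * D ^ 2 := by
        have := mul_le_mul_of_nonneg_right s2 (sq_nonneg D)
        linarith
      rw [hprod] at s4
      have s5 := sq_nonneg (D + (v - v'))
      nlinarith only [s4, s5, s1, hS]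
    have s5 : (D + (v - v')) ^ 2 ≤ S := by
      rw [hS]
      have : 0 ≤ 2 * ((θ + v) * (θ' + v')) * (1 - Real.cos D) :=
        mul_nonneg (by linarith) hcos0
      linarith
    have s6 : (v - v') ^ 2 ≤ 2 * (D + (v - v')) ^ 2 + 2 * D ^ 2 := by
      nlinarith only [sq_nonneg (D + (v - v') + D)]
    have s7 : 0 ≤ S := le_trans (sq_nonneg _) s5
    linarith

theorem Fs_inj {u v u' v' : ℝ} (hu : 1 / 2 < u) (hu' : 1 / 2 < u') (hv : 0 < v) (hv1 : v < 1)
    (hv' : 0 < v') (hv1' : v' < 1) (h : Fs u v = Fs u' v') : u = u' ∧ v = v' := by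
  have h0 : ‖Fs u v - Fs u' v'‖ ^ 2 = 0 := by rw [h]; simp
  unfold Fs at h0
  rw [polar_diff] at h0
  obtain ⟨θ, hθ⟩ : ∃ θ, θ = Real.sqrt (2 * u) := ⟨_, rfl⟩
  obtain ⟨θ', hθ'⟩ : ∃ θ, θ = Real.sqrt (2 * u') := ⟨_, rfl⟩
  rw [← hθ, ← hθ'] at h0
  have q1 : θ ^ 2 = 2 * u := by rw [hθ, Real.sq_sqrt (by linarith)]
  have q2 : θ' ^ 2 = 2 * u' := by rw [hθ', Real.sq_sqrt (by linarith)]
  have p1 : 1 < θ := by
    rw [hθ, Real.lt_sqrt (by norm_num)]
    linarith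
  have p2 : 1 < θ' := by
    rw [hθ', Real.lt_sqrt (by norm_num)]
    linarith
  have hc : 0 ≤ 1 - Real.cos (θ - θ') := by linarith [Real.cos_le_one (θ - θ')]
  have hpos : 0 < 2 * ((θ + v) * (θ' + v')) := by
    have : 0 < (θ + v) * (θ' + v') := mul_pos (by linarith) (by linarith)
    linarith
  have h1 : (θ + v - (θ' + v')) ^ 2 = 0 := by
    nlinarith [mul_nonneg hpos.le hc, sq_nonneg (θ + v - (θ' + v'))]
  have h2 : 2 * ((θ + v) * (θ' + v')) * (1 - Real.cos (θ - θ')) = 0 := by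
    linarith
  have h3 : Real.cos (θ - θ') = 1 := by
    rcases mul_eq_zero.mp h2 with h | h
    · linarith
    · linarith
  have h4 : θ + v - (θ' + v') = 0 := by
    exact pow_eq_zero_iff (two_ne_zero) |>.mp h1
  have h5 : θ - θ' = 0 := by
    rwa [Real.cos_eq_one_iff_of_lt_of_lt (by have := Real.pi_gt_three; linarith)
      (by have := Real.pi_gt_three; linarith)] at h3
  have h6 : θ = θ' := by linarith
  constructor
  · rw [h6] at q1
    linarith
  · linarith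

/-- continuous local inverses -/
theorem Fs_local_inv {u v : ℝ} (hu : 1 / 2 < u) (hv : 0 < v) :
    ∃ G : ℂ → ℝ × ℝ, ContinuousAt G (Fs u v) ∧ G (Fs u v) = (u, v) ∧
      ∀ᶠ z in 𝓝 (Fs u v), Fs (G z).1 (G z).2 = z := by
  obtain ⟨z₀, hz₀⟩ : ∃ z₀, z₀ = Fs u v := ⟨_, rfl⟩
  obtain ⟨θ, hθ⟩ : ∃ θ, θ = Real.sqrt (2 * u) := ⟨_, rfl⟩
  have q1 : θ ^ 2 = 2 * u := by rw [hθ, Real.sq_sqrt (by linarith)]
  have p1 : 1 < θ := by
    rw [hθ, Real.lt_sqrt (by norm_num)]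
    linarith
  have hz : z₀ = ((θ + v : ℝ) : ℂ) * Complex.exp ((θ : ℝ) * Complex.I) := by
    rw [hz₀, hθ]; rfl
  have hn : ‖z₀‖ = θ + v := by
    rw [hz, norm_mul, Complex.norm_exp_ofReal_mul_I, mul_one, Complex.norm_real, Real.norm_eq_abs,
      abs_of_pos (by linarith)]
  have hz0 : z₀ ≠ 0 := by
    rw [← norm_pos_iff, hn]
    linarith
  rw [← hz₀]
  let th : ℂ → ℝ := fun z => θ + (z / z₀).arg
  have hth : ContinuousAt th z₀ := by
    apply ContinuousAt.add continuousAt_const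
    have h1 : ContinuousAt (fun z : ℂ => z / z₀) z₀ := continuousAt_id.div_const z₀
    have h2 : ContinuousAt Complex.arg (z₀ / z₀) := by
      rw [div_self hz0]
      exact Complex.continuousAt_arg (by simp)
    exact ContinuousAt.comp (f := fun z : ℂ => z / z₀) (g := Complex.arg) h2 h1
  have hth0 : th z₀ = θ := by
    simp only [th, div_self hz0, Complex.arg_one, add_zero]
  refine ⟨fun z => ((th z) ^ 2 / 2, ‖z‖ - th z), ?_, ?_, ?_⟩
  · exact ((hth.pow 2).div_const 2).prodMk (continuous_norm.continuousAt.sub hth)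
  · simp only [hth0, hn, q1]
    exact Prod.ext (by show 2 * u / 2 = u; ring) (by show θ + v - θ = v; ring)
  · have e1 : ∀ᶠ z in 𝓝 z₀, 0 < th z := by
      have : 0 < th z₀ := by rw [hth0]; linarith
      exact hth.eventually_const_lt this
    have e2 : ∀ᶠ z in 𝓝 z₀, z ≠ 0 := continuousAt_id.eventually_ne hz0
    filter_upwards [e1, e2] with z h1 h2
    unfold Fs
    rw [show 2 * (th z ^ 2 / 2) = th z ^ 2 by ring, Real.sqrt_sq h1.le,
      show th z + (‖z‖ - th z) = ‖z‖ by ring]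
    have h3 : z / z₀ = (‖z / z₀‖ : ℂ) * Complex.exp ((z / z₀).arg * Complex.I) :=
      (Complex.norm_mul_exp_arg_mul_I _).symm
    have h4 : z = z₀ * (z / z₀) := by field_simp
    have h5 : (‖z / z₀‖ : ℂ) = (‖z‖ : ℂ) / ((θ + v : ℝ) : ℂ) := by
      rw [norm_div, hn]
      push_cast
      rfl
    have h6 : ((θ + v : ℝ) : ℂ) ≠ 0 := by
      have : θ + v ≠ 0 := by linarith
      exact_mod_cast this
    conv_rhs => rw [h4, h3, h5, hz]
    have h7 : ((th z : ℝ) : ℂ) * Complex.I = (θ : ℝ) * Complex.I + ((z / z₀).arg : ℝ) * Complex.I := by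
      simp only [th]
      push_cast
      ring
    rw [h7, Complex.exp_add, ← hz]
    field_simp
    rw [hz]
    ring

end

end Pool.Agent.X199.Spiral
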