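import Mathlib

set_option autoImplicit false

/-! A polyhedral norm on `ℝ × c₀` whose unit ball has uncountably many extreme points. -/

namespace Pool.Agent.X199.PolyExt

open Filter Topology Set
open scoped ZeroAtInfty

noncomputable section

def p (k : ℕ) : ℝ := (1 / 4) * (1 / 2) ^ k
def c (k : ℕ) : ℝ := (1 / 2) ^ k
def ep (j : ℕ) : ℝ := (1 / 2) ^ (j + 1)

theorem p_pos (k : ℕ) : 0 < p k := by unfold p; positivity
theorem c_pos (k : ℕ) : 0 < c k := by unfold c; positivity
theorem ep_pos (k : ℕ) : 0 < ep k := by unfold ep; positivity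
theorem p_hasSum : HasSum p (1 / 2) := by
  unfold p
  have := (hasSum_geometric_two).mul_left (1 / 4 : ℝ)
  norm_num at this
  convert this using 1
theorem p_summable : Summable p := p_hasSum.summable
theorem p_sum_le (s : Finset ℕ) : ∑ k ∈ s, p k ≤ 1 / 2 :=
  sum_le_hasSum s (fun k _ => (p_pos k).le) p_hasSum
theorem c_le (k : ℕ) : c k ≤ 1 := by unfold c; exact pow_le_one₀ (by norm_num) (by norm_num)
theorem ep_le (k : ℕ) : ep k ≤ 1 / 2 := by
  unfold ep; rw [pow_succ]
  have : (1 / 2 : ℝ) ^ k ≤ 1 := pow_le_one₀ (by norm_num) (by norm_num)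
  linarith
theorem p_le (k : ℕ) : p k ≤ 1 / 4 := by
  unfold p
  have : (1 / 2 : ℝ) ^ k ≤ 1 := pow_le_one₀ (by norm_num) (by norm_num)
  linarith
theorem ep_tendsto : Tendsto ep atTop (𝓝 0) := by
  unfold ep
  exact (tendsto_pow_atTop_nhds_zero_of_lt_one (by norm_num) (by norm_num)).comp (tendsto_add_atTop_nat 1)
theorem c_tendsto : Tendsto c atTop (𝓝 0) := by
  unfold c
  exact tendsto_pow_atTop_nhds_zero_of_lt_one (by norm_num) (by norm_num)

def SS (x : ℕ → ℝ) (j : ℕ) : ℝ := ∑ k ∈ Finset.range j, p k * |x k|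
def A (x : ℕ → ℝ) (j : ℕ) : ℝ := |x j| + SS x j

theorem SS_nonneg (x : ℕ → ℝ) (j : ℕ) : 0 ≤ SS x j :=
  Finset.sum_nonneg fun k _ => mul_nonneg (p_pos k).le (abs_nonneg _)
theorem A_nonneg (x : ℕ → ℝ) (j : ℕ) : 0 ≤ A x j := add_nonneg (abs_nonneg _) (SS_nonneg x j)

theorem SS_le {x : ℕ → ℝ} {B : ℝ} (hB : ∀ k, |x k| ≤ B) (j : ℕ) : SS x j ≤ 1 / 2 * B := by
  have hB0 : 0 ≤ B := (abs_nonneg _).trans (hB 0)
  calc SS x j ≤ ∑ k ∈ Finset.range j, p k * B :=
        Finset.sum_le_sum fun k _ => mul_le_mul_of_nonneg_left (hB k) (p_pos k).le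
    _ = (∑ k ∈ Finset.range j, p k) * B := by rw [Finset.sum_mul]
    _ ≤ 1 / 2 * B := mul_le_mul_of_nonneg_right (p_sum_le _) hB0

theorem A_le {x : ℕ → ℝ} {B : ℝ} (hB : ∀ k, |x k| ≤ B) (j : ℕ) : A x j ≤ 3 / 2 * B := by
  have := SS_le hB j
  have := hB j
  unfold A
  linarith

theorem A_add (x y : ℕ → ℝ) (j : ℕ) : A (fun k => x k + y k) j ≤ A x j + A y j := by
  unfold A SS
  have h1 : ∑ k ∈ Finset.range j, p k * |x k + y k| ≤
      ∑ k ∈ Finset.range j, p k * |x k| + ∑ k ∈ Finset.range j, p k * |y k| := by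
    rw [← Finset.sum_add_distrib]
    apply Finset.sum_le_sum
    intro k _
    rw [← mul_add]
    exact mul_le_mul_of_nonneg_left (abs_add_le _ _) (p_pos k).le
  have := abs_add_le (x j) (y j)
  simp only
  linarith

theorem A_smul (r : ℝ) (x : ℕ → ℝ) (j : ℕ) : A (fun k => r * x k) j = |r| * A x j := by
  unfold A SS
  simp only [abs_mul, mul_add, Finset.mul_sum]
  congr 1
  apply Finset.sum_congr rfl
  intro k _
  ring

theorem Ac_le (j : ℕ) : ep j * A c j ≤ 3 / 4 := by
  have h1 := A_le (x := c) (B := 1) (fun k => by rw [abs_of_pos (c_pos k)]; exact c_le k) j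
  have h2 := ep_le j
  have h3 := ep_pos j
  have h4 := A_nonneg c j
  nlinarith

/-- the underlying space `ℝ × c₀` -/
def Y : Type := ℝ × C₀(ℕ, ℝ)

/-- first coordinate -/
def fs (u : Y) : ℝ := Prod.fst (show ℝ × C₀(ℕ, ℝ) from u)
/-- second coordinate -/
def sn (u : Y) : C₀(ℕ, ℝ) := Prod.snd (show ℝ × C₀(ℕ, ℝ) from u)

instance : AddCommGroup Y := inferInstanceAs (AddCommGroup (ℝ × C₀(ℕ, ℝ)))
instance : Module ℝ Y := inferInstanceAs (Module ℝ (ℝ × C₀(ℕ, ℝ)))

theorem add_fst (u v : Y) : (fs (u + v)) = fs u + fs v := rfl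
theorem add_snd (u v : Y) (k : ℕ) : (sn (u + v)) k = sn u k + sn v k := rfl
theorem sub_fst (u v : Y) : (fs (u - v)) = fs u - fs v := rfl
theorem sub_snd (u v : Y) (k : ℕ) : (sn (u - v)) k = sn u k - sn v k := rfl
theorem smul_fst (r : ℝ) (u : Y) : (fs (r • u)) = r * fs u := rfl
theorem smul_snd (r : ℝ) (u : Y) (k : ℕ) : (sn (r • u)) k = r * sn u k := rfl

theorem coe_le (x : C₀(ℕ, ℝ)) (k : ℕ) : |x k| ≤ ‖x‖ := by
  rw [← ZeroAtInftyContinuousMap.norm_toBCF_eq_norm]
  exact x.toBCF.norm_coe_le_norm k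

theorem norm_le_of (x : C₀(ℕ, ℝ)) {C : ℝ} (hC : 0 ≤ C) (h : ∀ k, |x k| ≤ C) : ‖x‖ ≤ C := by
  rw [← ZeroAtInftyContinuousMap.norm_toBCF_eq_norm, BoundedContinuousFunction.norm_le hC]
  exact h

def T (j : ℕ) (u : Y) : ℝ := (1 - ep j * A c j) * |fs u| + ep j * A (fun k => sn u k) j

theorem T_eq (j : ℕ) (u : Y) : T j u = |fs u| + ep j * (A (fun k => sn u k) j - A c j * |fs u|) := by
  unfold T; ring

theorem T_nonneg (j : ℕ) (u : Y) : 0 ≤ T j u := by
  unfold T
  have := Ac_le j
  exact add_nonneg (mul_nonneg (by linarith) (abs_nonneg _))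
    (mul_nonneg (ep_pos j).le (A_nonneg _ _))

theorem T_le (j : ℕ) (u : Y) : T j u ≤ |fs u| + ep j * (3 / 2 * ‖sn u‖) := by
  rw [T_eq]
  have h1 := A_le (x := fun k => sn u k) (fun k => coe_le (sn u) k) j
  have h2 := mul_nonneg (A_nonneg c j) (abs_nonneg (fs u))
  have h3 := ep_pos j
  have : ep j * (A (fun k => sn u k) j - A c j * |fs u|) ≤ ep j * (3 / 2 * ‖sn u‖) :=
    mul_le_mul_of_nonneg_left (by linarith) h3.le
  linarith

theorem T_le' (j : ℕ) (u : Y) : T j u ≤ |fs u| + ‖sn u‖ := by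
  have h1 := T_le j u
  have h2 := ep_le j
  have h3 := norm_nonneg (sn u)
  nlinarith

theorem T_bdd (u : Y) : BddAbove (range fun j => T j u) :=
  ⟨|fs u| + ‖sn u‖, by rintro _ ⟨j, rfl⟩; exact T_le' j u⟩

theorem T_add (j : ℕ) (u v : Y) : T j (u + v) ≤ T j u + T j v := by
  unfold T
  have h1 := A_add (fun k => sn u k) (fun k => sn v k) j
  have h2 := abs_add_le (fs u) (fs v)
  have h3 := Ac_le j
  have h4 : (1 - ep j * A c j) * |fs u + fs v| ≤ (1 - ep j * A c j) * (|fs u| + |fs v|) :=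
    mul_le_mul_of_nonneg_left h2 (by linarith)
  have h5 := mul_le_mul_of_nonneg_left h1 (ep_pos j).le
  simp only [add_fst, add_snd]
  nlinarith

theorem T_smul (j : ℕ) (r : ℝ) (u : Y) : T j (r • u) = |r| * T j u := by
  unfold T
  simp only [smul_fst, smul_snd]
  rw [A_smul, abs_mul]
  ring

instance : Norm Y := ⟨fun u => max (max |fs u| (‖sn u‖ / 2)) (⨆ j, T j u)⟩

theorem norm_def (u : Y) : ‖u‖ = max (max |fs u| (‖sn u‖ / 2)) (⨆ j, T j u) := rfl

theorem fst_le (u : Y) : |fs u| ≤ ‖u‖ := (le_max_left _ _).trans (le_max_left _ _)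
theorem snd_le (u : Y) : ‖sn u‖ ≤ 2 * ‖u‖ := by
  have : ‖sn u‖ / 2 ≤ ‖u‖ := (le_max_right _ _).trans (le_max_left _ _)
  linarith
theorem coord_le (u : Y) (k : ℕ) : |sn u k| ≤ 2 * ‖u‖ := (coe_le (sn u) k).trans (snd_le u)
theorem T_le_norm (j : ℕ) (u : Y) : T j u ≤ ‖u‖ := (le_ciSup (T_bdd u) j).trans (le_max_right _ _)
theorem norm_nonneg' (u : Y) : 0 ≤ ‖u‖ := (abs_nonneg _).trans (fst_le u)

theorem norm_le' (u : Y) {C : ℝ} (h1 : |fs u| ≤ C) (h2 : ∀ k, |sn u k| / 2 ≤ C)
    (h3 : ∀ j, T j u ≤ C) : ‖u‖ ≤ C := by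
  have hC : 0 ≤ C := (abs_nonneg _).trans h1
  refine max_le (max_le h1 ?_) (ciSup_le h3)
  have := norm_le_of (sn u) (C := 2 * C) (by linarith) (fun k => by have := h2 k; linarith)
  linarith

theorem norm_le_sum (u : Y) : ‖u‖ ≤ |fs u| + ‖sn u‖ := by
  have := norm_nonneg (sn u)
  have := abs_nonneg (fs u)
  apply norm_le'
  · linarith
  · intro k; have := coe_le (sn u) k; linarith
  · exact fun j => T_le' j u

theorem core : NormedSpace.Core ℝ Y where
  norm_nonneg := norm_nonneg'
  norm_smul r u := by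
    rw [norm_def, norm_def, Real.norm_eq_abs, mul_max_of_nonneg _ _ (abs_nonneg r),
      mul_max_of_nonneg _ _ (abs_nonneg r), Real.mul_iSup_of_nonneg (abs_nonneg r)]
    congr 2
    · rw [smul_fst, abs_mul]
    · have : (sn (r • u)) = r • sn u := rfl
      rw [this, norm_smul, Real.norm_eq_abs]
      ring
    · funext j
      exact T_smul j r u
  norm_triangle u v := by
    apply norm_le'
    · rw [add_fst]
      exact (abs_add_le _ _).trans (add_le_add (fst_le u) (fst_le v))
    · intro k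
      rw [add_snd]
      have := abs_add_le (sn u k) (sn v k)
      have := coord_le u k
      have := coord_le v k
      linarith
    · intro j
      exact (T_add j u v).trans (add_le_add (T_le_norm j u) (T_le_norm j v))
  norm_eq_zero_iff u := by
    constructor
    · intro h
      have h1 : fs u = 0 := abs_eq_zero.mp (le_antisymm (h ▸ fst_le u) (abs_nonneg _))
      have h2 : sn u = 0 := by
        have := snd_le u
        rw [h, mul_zero] at this
        exact norm_le_zero_iff.mp this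
      exact Prod.ext h1 h2
    · rintro rfl
      apply le_antisymm _ (norm_nonneg' _)
      have := norm_le_sum (0 : Y)
      have h1 : ((fs (0 : Y)) : ℝ) = 0 := rfl
      have h2 : ((sn (0 : Y)) : C₀(ℕ, ℝ)) = 0 := rfl
      rw [h1, h2] at this
      simpa using this

instance : NormedAddCommGroup Y := NormedAddCommGroup.ofCore core
instance : NormedSpace ℝ Y := NormedSpace.ofCore core

/-- identity map from the product space -/
def toProd : (ℝ × C₀(ℕ, ℝ)) ≃ₗ[ℝ] Y := LinearEquiv.refl ℝ _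

instance : CompleteSpace Y := by
  let e : (ℝ × C₀(ℕ, ℝ)) ≃L[ℝ] Y := toProd.toContinuousLinearEquivOfBounds 2 2 (by
      intro x
      have h := norm_le_sum (toProd x)
      have h1 : |(fs (toProd x))| ≤ ‖x‖ := norm_fst_le x
      have h2 : ‖(sn (toProd x))‖ ≤ ‖x‖ := norm_snd_le x
      linarith) (by
      intro u
      have h1 := fst_le u
      have h2 := snd_le u
      have h0 := norm_nonneg' u
      exact max_le (by rw [Real.norm_eq_abs]; exact h1.trans (by linarith)) h2)
  exact (completeSpace_congr (e := e.toEquiv) e.isUniformEmbedding).mp inferInstance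


/-! ### finitely many seminorms determine the norm locally -/

/-- the norm of `u` is determined by the first `J` constraints -/
def Det (J : ℕ) (u : Y) : Prop :=
  ∀ R : ℝ, |fs u| ≤ R → (∀ k < J, |sn u k| / 2 ≤ R) → (∀ j < J, T j u ≤ R) → ‖u‖ ≤ R

theorem Det.mono {J J' : ℕ} (h : J ≤ J') {u : Y} (hu : Det J u) : Det J' u :=
  fun R h1 h2 h3 => hu R h1 (fun k hk => h2 k (by omega)) (fun j hj => h3 j (by omega))

theorem Det.smul {J : ℕ} {u : Y} (hu : Det J u) {r : ℝ} (hr : 0 < r) : Det J (r • u) := by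
  intro R h1 h2 h3
  have h := hu (R / r) (by
    rw [le_div_iff₀ hr]
    rw [smul_fst, abs_mul, abs_of_pos hr] at h1
    linarith) (by
    intro k hk
    have := h2 k hk
    rw [smul_snd, abs_mul, abs_of_pos hr] at this
    rw [le_div_iff₀ hr]
    linarith) (by
    intro j hj
    have := h3 j hj
    rw [T_smul, abs_of_pos hr] at this
    rw [le_div_iff₀ hr]
    linarith)
  rw [norm_smul, Real.norm_eq_abs, abs_of_pos hr]
  rw [le_div_iff₀ hr] at h
  linarith

theorem det_of {J : ℕ} {u : Y} {ρ : ℝ} (h0 : ρ < ‖u‖) (h2 : ∀ k, J ≤ k → |sn u k| / 2 ≤ ρ)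
    (h3 : ∀ R, |fs u| ≤ R → (∀ j < J, T j u ≤ R) → ∀ j, J ≤ j → T j u ≤ max R ρ) :
    Det J u := by
  intro R hR1 hR2 hR3
  have : ‖u‖ ≤ max R ρ := by
    apply norm_le'
    · exact hR1.trans (le_max_left _ _)
    · intro k
      by_cases hk : k < J
      · exact (hR2 k hk).trans (le_max_left _ _)
      · exact (h2 k (by omega)).trans (le_max_right _ _)
    · intro j
      by_cases hj : j < J
      · exact (hR3 j hj).trans (le_max_left _ _)
      · exact h3 R hR1 hR3 j (by omega)
  rcases le_max_iff.mp this with h | h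
  · exact h
  · linarith

theorem coord_tendsto (u : Y) : Tendsto (fun k => sn u k) atTop (𝓝 0) := by
  have := (sn u).zero_at_infty'
  rwa [cocompact_eq_cofinite, Nat.cofinite_eq_atTop] at this

theorem exists_small (u : Y) {δ : ℝ} (hδ : 0 < δ) : ∃ J, ∀ k, J ≤ k → |sn u k| ≤ δ := by
  have := (coord_tendsto u).abs
  rw [abs_zero] at this
  obtain ⟨J, hJ⟩ := eventually_atTop.mp (this.eventually (ge_mem_nhds hδ))
  exact ⟨J, hJ⟩

theorem exists_ep {δ : ℝ} (hδ : 0 < δ) : ∃ J, ∀ k, J ≤ k → ep k ≤ δ := by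
  obtain ⟨J, hJ⟩ := eventually_atTop.mp (ep_tendsto.eventually (ge_mem_nhds hδ))
  exact ⟨J, hJ⟩

theorem fst_close (u q : Y) : |fs u - fs q| ≤ ‖u - q‖ := fst_le (u - q)
theorem coord_close (u q : Y) (k : ℕ) : |sn u k - sn q k| ≤ 2 * ‖u - q‖ := coord_le (u - q) k

theorem norm_close (u q : Y) : ‖q‖ - ‖u - q‖ ≤ ‖u‖ := by
  have := norm_sub_norm_le q u
  rw [norm_sub_rev] at this
  linarith
theorem norm_close' (u q : Y) : ‖u‖ ≤ ‖q‖ + ‖u - q‖ := by
  have := norm_sub_norm_le u q
  linarith

theorem coord_tail {q : Y} {J : ℕ} (hJ : ∀ k, J ≤ k → |sn q k| ≤ 1 / 4) {u : Y}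
    (hu : ‖u - q‖ ≤ 1 / 8) (k : ℕ) (hk : J ≤ k) : |sn u k| / 2 ≤ 1 / 4 := by
  have h1 := coord_close u q k
  have h2 := hJ k hk
  have : |sn u k| ≤ |sn u k - sn q k| + |sn q k| := by
    calc |sn u k| = |(sn u k - sn q k) + sn q k| := by ring_nf
      _ ≤ _ := abs_add_le _ _
  linarith

theorem local_one {q : Y} (hq : ‖q‖ = 1) (ha : |fs q| < 1) :
    ∃ (J : ℕ) (δ : ℝ), 0 < δ ∧ ∀ u : Y, ‖u - q‖ < δ → Det J u := by
  obtain ⟨J1, hJ1⟩ := exists_small q (show (0 : ℝ) < 1 / 4 by norm_num)
  set g : ℝ := 1 - |fs q| with hg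
  have hg0 : 0 < g := by linarith
  have hg1 : g ≤ 1 := by have := abs_nonneg (fs q); linarith
  obtain ⟨J2, hJ2⟩ := exists_ep (show (0 : ℝ) < g / 40 by linarith)
  refine ⟨max J1 J2, g / 8, by linarith, fun u hu => ?_⟩
  have hn := norm_close u q
  have hn' := norm_close' u q
  apply det_of (ρ := 1 - g / 4)
  · linarith
  · intro k hk
    have := coord_tail hJ1 (u := u) (by linarith) k (le_trans (le_max_left _ _) hk)
    linarith
  · intro R _ _ j hj
    refine le_trans ?_ (le_max_right _ _)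
    have h1 := T_le j u
    have h2 := fst_close u q
    have h3 : |fs u| ≤ |fs u - fs q| + |fs q| := by
      calc |fs u| = |(fs u - fs q) + fs q| := by ring_nf
        _ ≤ _ := abs_add_le _ _
    have h4 := hJ2 j (le_trans (le_max_right _ _) hj)
    have h5 := snd_le u
    have h6 : ep j * (3 / 2 * ‖sn u‖) ≤ g / 40 * (3 / 2 * 3) := by
      apply mul_le_mul h4 _ (mul_nonneg (by norm_num) (norm_nonneg _)) (by linarith)
      linarith
    linarith

theorem local_two {q : Y} (hq : ‖q‖ = 1) (ha : |fs q| = 1)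
    (hD : ∑' k, p k * |sn q k| < ∑' k, p k * |c k|) :
    ∃ (J : ℕ) (δ : ℝ), 0 < δ ∧ ∀ u : Y, ‖u - q‖ < δ → Det J u := by
  have hsum : ∀ x : ℕ → ℝ, (∃ B, ∀ k, |x k| ≤ B) → Summable fun k => p k * |x k| := by
    rintro x ⟨B, hB⟩
    exact Summable.of_nonneg_of_le (fun k => mul_nonneg (p_pos k).le (abs_nonneg _))
      (fun k => mul_le_mul_of_nonneg_left (hB k) (p_pos k).le) (p_summable.mul_right B)
  have hs1 := hsum (fun k => sn q k) ⟨_, coe_le (sn q)⟩
  have hs2 := hsum c ⟨1, fun k => by rw [abs_of_pos (c_pos k)]; exact c_le k⟩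
  set D : ℝ := ∑' k, p k * |c k| - ∑' k, p k * |sn q k| with hDdef
  have hD0 : 0 < D := by linarith
  have hD1 : D ≤ 1 := by
    have h1 : ∑' k, p k * |c k| ≤ ∑' k, p k := by
      apply Summable.tsum_le_tsum _ hs2 p_summable
      intro k
      have := c_le k
      rw [abs_of_pos (c_pos k)]
      nlinarith [p_pos k]
    rw [p_hasSum.tsum_eq] at h1
    have h2 : 0 ≤ ∑' k, p k * |sn q k| := tsum_nonneg fun k => mul_nonneg (p_pos k).le (abs_nonneg _)
    linarith
  obtain ⟨J1, hJ1⟩ := exists_small q (show (0 : ℝ) < 1 / 4 by norm_num)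
  obtain ⟨J2, hJ2⟩ := exists_small q (show (0 : ℝ) < D / 8 by linarith)
  have hSc : Tendsto (fun j => SS c j) atTop (𝓝 (∑' k, p k * |c k|)) := hs2.hasSum.tendsto_sum_nat
  obtain ⟨J3, hJ3⟩ := eventually_atTop.mp (hSc.eventually
    (lt_mem_nhds (show ∑' k, p k * |c k| - D / 8 < ∑' k, p k * |c k| by linarith)))
  refine ⟨max J1 (max J2 J3), D / 16, by linarith, fun u hu => ?_⟩
  have hn := norm_close u q
  apply det_of (ρ := 3 / 4)
  · linarith
  · intro k hk
    have := coord_tail hJ1 (u := u) (by linarith) k (le_trans (le_max_left _ _) hk)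
    linarith
  · intro R hR _ j hj
    refine le_trans ?_ (le_max_left _ _)
    refine le_trans ?_ hR
    rw [T_eq]
    have hj2 : J2 ≤ j := le_trans (le_trans (le_max_left _ _) (le_max_right _ _)) hj
    have hj3 : J3 ≤ j := le_trans (le_trans (le_max_right _ _) (le_max_right _ _)) hj
    have h1 := hJ3 j hj3
    have h2 := hJ2 j hj2
    have h3 : A (fun k => sn u k) j ≤ A (fun k => sn q k) j + 3 * (D / 16) := by
      have e : (fun k => sn u k) = fun k => sn q k + (sn u k - sn q k) := by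
        funext k; ring
      rw [e]
      have h4 := A_add (fun k => sn q k) (fun k => sn u k - sn q k) j
      have h5 := A_le (x := fun k => sn u k - sn q k) (B := 2 * (D / 16))
        (fun k => (coord_close u q k).trans (by linarith)) j
      linarith
    have h4 : A (fun k => sn q k) j ≤ D / 8 + ∑' k, p k * |sn q k| := by
      unfold A SS
      have := hs1.sum_le_tsum (Finset.range j) (fun k _ => mul_nonneg (p_pos k).le (abs_nonneg _))
      simp only
      linarith
    have h5 : SS c j ≤ A c j := by unfold A; linarith [abs_nonneg (c j)]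
    have h6 : SS c j ≤ 1 / 2 := by
      have := SS_le (x := c) (B := 1) (fun k => by rw [abs_of_pos (c_pos k)]; exact c_le k) j
      linarith
    have h7 : 1 - D / 16 ≤ |fs u| := by
      have h := fst_close u q
      have : |fs q| ≤ |fs q - fs u| + |fs u| := by
        calc |fs q| = |(fs q - fs u) + fs u| := by ring_nf
          _ ≤ _ := abs_add_le _ _
      rw [abs_sub_comm] at this
      linarith
    have h8 : SS c j - D / 16 ≤ A c j * |fs u| := by
      have h9 : A c j * (1 - D / 16) ≤ A c j * |fs u| :=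
        mul_le_mul_of_nonneg_left h7 (A_nonneg c j)
      have h10 : SS c j * (1 - D / 16) ≤ A c j * (1 - D / 16) :=
        mul_le_mul_of_nonneg_right h5 (by linarith)
      nlinarith [SS_nonneg c j]
    have h9 := ep_pos j
    nlinarith


/-- linearisation of the `i`-th constraint -/
def eta (w : ℕ → ℝ) (i : ℕ) (z : Y) : ℝ :=
  w i * sn z i + ∑ k ∈ Finset.range i, p k * (w k * sn z k)

theorem zeta_neg {w : ℕ → ℝ} (hw : ∀ k, |w k| = 1) {z : Y} (hz : fs z = 0) (hz0 : z ≠ 0)
    (h : ∀ i, eta w i z ≤ 0) : ∑' k, p k * (w k * sn z k) < 0 := by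
  have hne : ∃ k, sn z k ≠ 0 := by
    by_contra hno
    push Not at hno
    apply hz0
    apply norm_le_zero_iff.mp
    have h1 := norm_le_sum z
    have h2 := norm_le_of (sn z) (le_refl (0 : ℝ)) (fun k => by rw [hno k, abs_zero])
    rw [hz, abs_zero] at h1
    linarith
  classical
  set m := Nat.find hne with hm
  have hm1 : sn z m ≠ 0 := Nat.find_spec hne
  have hm2 : ∀ k < m, sn z k = 0 := fun k hk => by
    by_contra hh
    exact Nat.find_min hne hk hh
  let r : ℕ → ℝ := fun j => -∑ k ∈ Finset.range j, p k * (w k * sn z k)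
  have hrs : ∀ j, r (j + 1) = r j - p j * (w j * sn z j) := by
    intro j
    simp only [r, Finset.sum_range_succ]
    ring
  have hrm : r m = 0 := by
    simp only [r]
    rw [Finset.sum_eq_zero, neg_zero]
    intro k hk
    rw [hm2 k (Finset.mem_range.mp hk)]
    ring
  have heta : ∀ j, w j * sn z j ≤ r j := by
    intro j
    have := h j
    unfold eta at this
    simp only [r]
    linarith
  have hwz : w m * sn z m < 0 := by
    have h1 := heta m
    rw [hrm] at h1
    apply lt_of_le_of_ne h1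
    intro h0
    rcases mul_eq_zero.mp h0 with h2 | h2
    · have := hw m
      rw [h2, abs_zero] at this
      norm_num at this
    · exact hm1 h2
  set r0 : ℝ := r (m + 1) with hr0
  have hr0pos : 0 < r0 := by
    rw [hr0, hrs, hrm]
    have := p_pos m
    nlinarith
  have key : ∀ n, r0 * (1 - ∑ k ∈ Finset.Ico (m + 1) (m + 1 + n), p k) ≤ r (m + 1 + n) := by
    intro n
    induction n with
    | zero => simp [hr0]
    | succ n ih =>
      have h1 : ∑ k ∈ Finset.Ico (m + 1) (m + 1 + (n + 1)), p k =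
          ∑ k ∈ Finset.Ico (m + 1) (m + 1 + n), p k + p (m + 1 + n) := by
        rw [← add_assoc, Finset.sum_Ico_succ_top (by omega)]
      rw [h1, ← add_assoc, hrs]
      have h2 := heta (m + 1 + n)
      have h3 := p_pos (m + 1 + n)
      have h4 := p_le (m + 1 + n)
      have h5 : 0 ≤ ∑ k ∈ Finset.Ico (m + 1) (m + 1 + n), p k :=
        Finset.sum_nonneg fun k _ => (p_pos k).le
      have h6 : p (m + 1 + n) * (w (m + 1 + n) * sn z (m + 1 + n)) ≤
          p (m + 1 + n) * r (m + 1 + n) := mul_le_mul_of_nonneg_left h2 h3.le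
      have h7 : r0 * (1 - ∑ k ∈ Finset.Ico (m + 1) (m + 1 + n), p k) * (1 - p (m + 1 + n)) ≤
          r (m + 1 + n) * (1 - p (m + 1 + n)) := mul_le_mul_of_nonneg_right ih (by linarith)
      have h8 : 0 ≤ r0 * (∑ k ∈ Finset.Ico (m + 1) (m + 1 + n), p k) * p (m + 1 + n) := by
        positivity
      nlinarith
  have key2 : ∀ n, r0 / 2 ≤ r (m + 1 + n) := by
    intro n
    have h1 := key n
    have h2 := p_sum_le (Finset.Ico (m + 1) (m + 1 + n))
    nlinarith
  have hs : Summable fun k => p k * (w k * sn z k) := by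
    apply Summable.of_norm_bounded (p_summable.mul_right ‖sn z‖)
    intro k
    rw [Real.norm_eq_abs, abs_mul, abs_mul, hw k, abs_of_pos (p_pos k), one_mul]
    exact mul_le_mul_of_nonneg_left (coe_le _ k) (p_pos k).le
  have hlim : Tendsto r atTop (𝓝 (-∑' k, p k * (w k * sn z k))) := hs.hasSum.tendsto_sum_nat.neg
  have : r0 / 2 ≤ -∑' k, p k * (w k * sn z k) := by
    apply ge_of_tendsto hlim
    filter_upwards [eventually_ge_atTop (m + 1)] with n hn
    have := key2 (n - (m + 1))
    rwa [show m + 1 + (n - (m + 1)) = n by omega] at this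
  linarith

theorem T_shift {q : Y} (hq : |fs q| = 1) {z : Y} (hz : fs z = 0) (t : ℝ) (j : ℕ) :
    T j (q + t • z) = 1 + ep j * ((|sn q j + t * sn z j| - c j) +
      ∑ k ∈ Finset.range j, p k * (|sn q k + t * sn z k| - c k)) := by
  rw [T_eq]
  have h1 : fs (q + t • z) = fs q := by rw [add_fst, smul_fst, hz]; ring
  rw [h1, hq, mul_one]
  unfold A SS
  simp only [add_snd, smul_snd]
  have h2 : ∑ k ∈ Finset.range j, p k * (|sn q k + t * sn z k| - c k) =
      ∑ k ∈ Finset.range j, p k * |sn q k + t * sn z k| - ∑ k ∈ Finset.range j, p k * |c k| := by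
    rw [← Finset.sum_sub_distrib]
    apply Finset.sum_congr rfl
    intro k _
    rw [abs_of_pos (c_pos k)]
    ring
  rw [h2, abs_of_pos (c_pos j)]
  ring

theorem abs_ge {w x : ℝ} (hw : |w| = 1) : w * x ≤ |x| := by
  calc w * x ≤ |w * x| := le_abs_self _
    _ = |x| := by rw [abs_mul, hw, one_mul]

theorem sq_one {w : ℝ} (hw : |w| = 1) : w * w = 1 := by
  rw [← abs_mul_abs_self, hw]; norm_num

theorem dir_one {q : Y} (hq : |fs q| = 1) {w : ℕ → ℝ} (hw : ∀ k, |w k| = 1)
    (hqw : ∀ k, sn q k = w k * c k) {z0 : Y} (hn0 : ‖z0‖ = 1) {i : ℕ} (hi : 0 < eta w i z0) :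
    ∃ (J : ℕ) (r δ : ℝ), 0 < r ∧ 0 < δ ∧ ∀ z, fs z = 0 → ‖z - z0‖ < δ → ∀ t, 0 ≤ t → t ≤ r →
      ∀ j, J ≤ j → ∀ R, 1 ≤ R → (∀ i < J, T i (q + t • z) ≤ R) → T j (q + t • z) ≤ R := by
  set h := ep i * eta w i z0 with hh
  have hh0 : 0 < h := mul_pos (ep_pos i) hi
  obtain ⟨J1, hJ1⟩ := exists_ep (show (0 : ℝ) < h / 12 by linarith)
  refine ⟨max J1 (i + 1), 1, min 1 (eta w i z0 / 6), one_pos, lt_min one_pos (by linarith), ?_⟩
  intro z hz hzz t ht _ j hj R hR hT
  have hz1 : ‖z - z0‖ < 1 := lt_of_lt_of_le hzz (min_le_left _ _)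
  have hz2 : ‖z - z0‖ < eta w i z0 / 6 := lt_of_lt_of_le hzz (min_le_right _ _)
  have hnz : ‖z‖ ≤ 2 := by have := norm_close' z z0; linarith
  -- lower bound for `T i`
  have e1 : eta w i z0 / 2 ≤ eta w i z := by
    have h1 : eta w i z0 - eta w i z = w i * (sn z0 i - sn z i) +
        ∑ k ∈ Finset.range i, p k * (w k * (sn z0 k - sn z k)) := by
      unfold eta
      have : ∑ k ∈ Finset.range i, p k * (w k * (sn z0 k - sn z k)) =
          ∑ k ∈ Finset.range i, p k * (w k * sn z0 k) -
            ∑ k ∈ Finset.range i, p k * (w k * sn z k) := by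
        rw [← Finset.sum_sub_distrib]
        exact Finset.sum_congr rfl fun k _ => by ring
      rw [this]; ring
    have h2 : ∀ k, w k * (sn z0 k - sn z k) ≤ 2 * ‖z - z0‖ := by
      intro k
      refine (abs_ge (hw k)).trans ?_
      rw [abs_sub_comm]
      exact coord_close z z0 k
    have h3 : ∑ k ∈ Finset.range i, p k * (w k * (sn z0 k - sn z k)) ≤ 1 / 2 * (2 * ‖z - z0‖) := by
      calc _ ≤ ∑ k ∈ Finset.range i, p k * (2 * ‖z - z0‖) :=
            Finset.sum_le_sum fun k _ => mul_le_mul_of_nonneg_left (h2 k) (p_pos k).le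
        _ = (∑ k ∈ Finset.range i, p k) * (2 * ‖z - z0‖) := by rw [Finset.sum_mul]
        _ ≤ _ := mul_le_mul_of_nonneg_right (p_sum_le _) (by positivity)
    have h4 := h2 i
    linarith
  have e2 : 1 + t * (h / 2) ≤ T i (q + t • z) := by
    rw [T_shift hq hz]
    have h1 : ∀ k, t * (w k * sn z k) ≤ |sn q k + t * sn z k| - c k := by
      intro k
      have := abs_ge (x := sn q k + t * sn z k) (hw k)
      have h2 : w k * (sn q k + t * sn z k) = c k + t * (w k * sn z k) := by
        rw [hqw k]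
        have := sq_one (hw k)
        linear_combination (c k) * this
      linarith
    have h2 : t * eta w i z ≤ (|sn q i + t * sn z i| - c i) +
        ∑ k ∈ Finset.range i, p k * (|sn q k + t * sn z k| - c k) := by
      unfold eta
      rw [mul_add, Finset.mul_sum]
      apply add_le_add (h1 i)
      apply Finset.sum_le_sum
      intro k _
      have := mul_le_mul_of_nonneg_left (h1 k) (p_pos k).le
      linarith
    have h3 : t * (eta w i z0 / 2) ≤ t * eta w i z := mul_le_mul_of_nonneg_left e1 ht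
    have h4 := mul_le_mul_of_nonneg_left (h3.trans h2) (ep_pos i).le
    have h5 : ep i * (t * (eta w i z0 / 2)) = t * (h / 2) := by rw [hh]; ring
    linarith
  have e3 : T j (q + t • z) ≤ 1 + t * (h / 2) := by
    rw [T_shift hq hz]
    have h1 : ∀ k, |sn q k + t * sn z k| - c k ≤ t * 4 := by
      intro k
      have h2 := abs_add_le (sn q k) (t * sn z k)
      rw [abs_mul, abs_of_nonneg ht] at h2
      have h3 : |sn q k| = c k := by rw [hqw k, abs_mul, hw k, one_mul, abs_of_pos (c_pos k)]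
      have h4 : t * |sn z k| ≤ t * 4 := mul_le_mul_of_nonneg_left (by have := coord_le z k; linarith) ht
      linarith
    have h2 : ∑ k ∈ Finset.range j, p k * (|sn q k + t * sn z k| - c k) ≤ 1 / 2 * (t * 4) := by
      calc _ ≤ ∑ k ∈ Finset.range j, p k * (t * 4) :=
            Finset.sum_le_sum fun k _ => mul_le_mul_of_nonneg_left (h1 k) (p_pos k).le
        _ = (∑ k ∈ Finset.range j, p k) * (t * 4) := by rw [Finset.sum_mul]
        _ ≤ _ := mul_le_mul_of_nonneg_right (p_sum_le _) (by positivity)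
    have h3 := h1 j
    have h4 : (|sn q j + t * sn z j| - c j) +
        ∑ k ∈ Finset.range j, p k * (|sn q k + t * sn z k| - c k) ≤ 6 * t := by linarith
    have h5 := hJ1 j (le_trans (le_max_left _ _) hj)
    have h6 := mul_le_mul_of_nonneg_left h4 (ep_pos j).le
    have h7 : ep j * (6 * t) ≤ h / 12 * (6 * t) := mul_le_mul_of_nonneg_right h5 (by positivity)
    linarith
  exact e3.trans (e2.trans (hT i (lt_of_lt_of_le (Nat.lt_succ_self i) (le_max_right _ _))))

theorem dir_two {q : Y} (hq : |fs q| = 1) {w : ℕ → ℝ} (hw : ∀ k, |w k| = 1)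
    (hqw : ∀ k, sn q k = w k * c k) {z0 : Y} (hz0 : fs z0 = 0) (hn0 : ‖z0‖ = 1)
    (hi : ∀ i, eta w i z0 ≤ 0) :
    ∃ (J : ℕ) (r δ : ℝ), 0 < r ∧ 0 < δ ∧ ∀ z, fs z = 0 → ‖z - z0‖ < δ → ∀ t, 0 ≤ t → t ≤ r →
      ∀ j, J ≤ j → ∀ R, 1 ≤ R → (∀ i < J, T i (q + t • z) ≤ R) → T j (q + t • z) ≤ R := by
  have hζ := zeta_neg hw hz0 (by rintro rfl; simp at hn0) hi
  set m : ℝ := -∑' k, p k * (w k * sn z0 k) with hm
  have hm0 : 0 < m := by linarith
  have hm1 : m ≤ 1 := by
    have h1 : |∑' k, p k * (w k * sn z0 k)| ≤ 1 / 2 * 2 := by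
      rw [← Real.norm_eq_abs, ← p_hasSum.tsum_eq, ← tsum_mul_right]
      apply tsum_of_norm_bounded (p_summable.mul_right 2).hasSum
      intro k
      rw [Real.norm_eq_abs, abs_mul, abs_mul, hw k, abs_of_pos (p_pos k), one_mul]
      have := coord_le z0 k
      exact mul_le_mul_of_nonneg_left (by linarith) (p_pos k).le
    have := abs_le.mp h1
    linarith [this.1]
  have hs : ∀ z : Y, Summable fun k => p k * (w k * sn z k) := by
    intro z
    apply Summable.of_norm_bounded (p_summable.mul_right ‖sn z‖)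
    intro k
    rw [Real.norm_eq_abs, abs_mul, abs_mul, hw k, abs_of_pos (p_pos k), one_mul]
    exact mul_le_mul_of_nonneg_left (coe_le _ k) (p_pos k).le
  -- tails of `p`
  obtain ⟨K, hK⟩ : ∃ K, ∀ j, K ≤ j → ∑ k ∈ Finset.Ico K j, p k ≤ m / 32 := by
    have h1 : Tendsto (fun n => ∑ k ∈ Finset.range n, p k) atTop (𝓝 (1 / 2)) :=
      p_hasSum.tendsto_sum_nat
    obtain ⟨K, hK⟩ := eventually_atTop.mp (h1.eventually
      (lt_mem_nhds (show 1 / 2 - m / 32 < 1 / 2 by linarith)))
    refine ⟨K, fun j hj => ?_⟩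
    have h2 := hK K le_rfl
    have h3 := Finset.sum_range_add_sum_Ico (f := p) hj
    have h4 := p_sum_le (Finset.range j)
    linarith
  obtain ⟨K2, hK2⟩ : ∃ K2, ∀ j, K2 ≤ j →
      ∑ k ∈ Finset.range j, p k * (w k * sn z0 k) ≤ -m + m / 8 := by
    obtain ⟨K2, hK2⟩ := eventually_atTop.mp ((hs z0).hasSum.tendsto_sum_nat.eventually
      (gt_mem_nhds (show ∑' k, p k * (w k * sn z0 k) < -m + m / 8 by rw [hm]; linarith)))
    exact ⟨K2, fun j hj => (hK2 j hj).le⟩
  obtain ⟨J1, hJ1⟩ := exists_small z0 (show (0 : ℝ) < m / 8 by linarith)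
  set L := max K K2 with hL
  refine ⟨max L J1, c L / 4, m / 16, by have := c_pos L; linarith, by linarith, ?_⟩
  intro z hz hzz t ht htr j hj R hR _
  refine le_trans ?_ hR
  have hnz : ‖z‖ ≤ 2 := by have := norm_close' z z0; linarith
  have hjL : L ≤ j := le_trans (le_max_left _ _) hj
  rw [T_shift hq hz]
  have hcm : ∀ k, k ≤ L → c L ≤ c k := fun k hk => by
    unfold c
    exact pow_le_pow_of_le_one (by norm_num) (by norm_num) hk
  have habs : ∀ k, |sn q k| = c k := fun k => by
    rw [hqw k, abs_mul, hw k, one_mul, abs_of_pos (c_pos k)]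
  have hup : ∀ k, |sn q k + t * sn z k| - c k ≤ t * |sn z k| := by
    intro k
    have h2 := abs_add_le (sn q k) (t * sn z k)
    rw [abs_mul, abs_of_nonneg ht, habs k] at h2
    linarith
  have hlow : ∀ k < L, |sn q k + t * sn z k| - c k = t * (w k * sn z k) := by
    intro k hk
    have h2 : w k * (sn q k + t * sn z k) = c k + t * (w k * sn z k) := by
      rw [hqw k]
      have := sq_one (hw k)
      linear_combination (c k) * this
    have h3 : |sn q k + t * sn z k| = |w k * (sn q k + t * sn z k)| := by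
      rw [abs_mul, hw k, one_mul]
    rw [h3, h2, abs_of_nonneg]
    · ring
    · have h4 : |t * (w k * sn z k)| ≤ c k := by
        rw [abs_mul, abs_mul, hw k, one_mul, abs_of_nonneg ht]
        have h5 := coord_le z k
        have h6 := hcm k hk.le
        have h7 : t * |sn z k| ≤ c L / 4 * 4 := mul_le_mul htr (by linarith) (abs_nonneg _)
          (by have := c_pos L; linarith)
        linarith
      have := (abs_le.mp h4).1
      linarith
  have h1 : ∑ k ∈ Finset.range j, p k * (|sn q k + t * sn z k| - c k) ≤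
      t * (∑ k ∈ Finset.range L, p k * (w k * sn z k)) + t * (4 * ∑ k ∈ Finset.Ico L j, p k) := by
    rw [← Finset.sum_range_add_sum_Ico _ hjL]
    apply add_le_add
    · rw [Finset.mul_sum]
      apply le_of_eq
      apply Finset.sum_congr rfl
      intro k hk
      rw [hlow k (Finset.mem_range.mp hk)]
      ring
    · rw [Finset.mul_sum, Finset.mul_sum]
      apply Finset.sum_le_sum
      intro k _
      have h2 := hup k
      have h3 := coord_le z k
      have h4 : t * |sn z k| ≤ t * 4 := mul_le_mul_of_nonneg_left (by linarith) ht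
      have := mul_le_mul_of_nonneg_left (h2.trans h4) (p_pos k).le
      linarith
  have h2 : ∑ k ∈ Finset.Ico L j, p k ≤ m / 32 := by
    refine le_trans ?_ (hK j (le_trans (le_max_left _ _) hjL))
    apply Finset.sum_le_sum_of_subset_of_nonneg
    · exact Finset.Ico_subset_Ico_left (le_max_left _ _)
    · intro k _ _
      exact (p_pos k).le
  have h3 : ∑ k ∈ Finset.range L, p k * (w k * sn z k) ≤ -m + m / 8 + m / 16 := by
    have h4 := hK2 L (le_max_right _ _)
    have h5 : ∑ k ∈ Finset.range L, p k * (w k * sn z k) =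
        ∑ k ∈ Finset.range L, p k * (w k * sn z0 k) +
          ∑ k ∈ Finset.range L, p k * (w k * (sn z k - sn z0 k)) := by
      rw [← Finset.sum_add_distrib]
      exact Finset.sum_congr rfl fun k _ => by ring
    have h6 : ∑ k ∈ Finset.range L, p k * (w k * (sn z k - sn z0 k)) ≤ 1 / 2 * (2 * ‖z - z0‖) := by
      calc _ ≤ ∑ k ∈ Finset.range L, p k * (2 * ‖z - z0‖) :=
            Finset.sum_le_sum fun k _ => mul_le_mul_of_nonneg_left
              ((abs_ge (hw k)).trans (coord_close z z0 k)) (p_pos k).le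
        _ = (∑ k ∈ Finset.range L, p k) * (2 * ‖z - z0‖) := by rw [Finset.sum_mul]
        _ ≤ _ := mul_le_mul_of_nonneg_right (p_sum_le _) (by positivity)
    linarith
  have h4 : |sn z j| ≤ m / 8 + m / 8 := by
    have h5 := hJ1 j (le_trans (le_max_right _ _) hj)
    have h6 := coord_close z z0 j
    have : |sn z j| ≤ |sn z j - sn z0 j| + |sn z0 j| := by
      calc |sn z j| = |(sn z j - sn z0 j) + sn z0 j| := by ring_nf
        _ ≤ _ := abs_add_le _ _
    linarith
  have h5 := hup j
  have h6 : t * |sn z j| ≤ t * (m / 4) := mul_le_mul_of_nonneg_left (by linarith) ht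
  have h7 : t * (∑ k ∈ Finset.range L, p k * (w k * sn z k)) ≤ t * (-m + m / 8 + m / 16) :=
    mul_le_mul_of_nonneg_left h3 ht
  have h8 : t * (4 * ∑ k ∈ Finset.Ico L j, p k) ≤ t * (4 * (m / 32)) :=
    mul_le_mul_of_nonneg_left (by linarith) ht
  have h9 : (|sn q j + t * sn z j| - c j) +
      ∑ k ∈ Finset.range j, p k * (|sn q k + t * sn z k| - c k) ≤ 0 := by
    have : 0 ≤ t * m := by positivity
    nlinarith
  have := mul_nonpos_of_nonneg_of_nonpos (ep_pos j).le h9
  linarith


theorem growth {r : ℕ → ℝ} {m : ℕ} (h0 : 0 < r m) (h : ∀ j, m ≤ j → r j * (1 - p j) ≤ r (j + 1)) :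
    ∀ j, m ≤ j → r m / 2 ≤ r j := by
  have key : ∀ n, r m * (1 - ∑ k ∈ Finset.Ico m (m + n), p k) ≤ r (m + n) := by
    intro n
    induction n with
    | zero => simp
    | succ n ih =>
      have h1 : ∑ k ∈ Finset.Ico m (m + (n + 1)), p k =
          ∑ k ∈ Finset.Ico m (m + n), p k + p (m + n) := by
        rw [← add_assoc, Finset.sum_Ico_succ_top (by omega)]
      rw [h1, ← add_assoc]
      have h2 := h (m + n) (by omega)
      have h3 := p_pos (m + n)
      have h4 := p_le (m + n)
      have h5 : 0 ≤ ∑ k ∈ Finset.Ico m (m + n), p k :=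
        Finset.sum_nonneg fun k _ => (p_pos k).le
      have h7 : r m * (1 - ∑ k ∈ Finset.Ico m (m + n), p k) * (1 - p (m + n)) ≤
          r (m + n) * (1 - p (m + n)) := mul_le_mul_of_nonneg_right ih (by linarith)
      have h8 : 0 ≤ r m * (∑ k ∈ Finset.Ico m (m + n), p k) * p (m + n) := by
        positivity
      nlinarith
  intro j hj
  have h1 := key (j - m)
  rw [show m + (j - m) = j by omega] at h1
  have h2 := p_sum_le (Finset.Ico m j)
  nlinarith

theorem deficit_pos {x : ℕ → ℝ} {B : ℝ} (hB : ∀ k, |x k| ≤ B) (hA : ∀ j, A x j ≤ A c j)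
    (hne : ∃ k, |x k| ≠ c k) : ∑' k, p k * |x k| < ∑' k, p k * |c k| := by
  have hs1 : Summable fun k => p k * |x k| :=
    Summable.of_nonneg_of_le (fun k => mul_nonneg (p_pos k).le (abs_nonneg _))
      (fun k => mul_le_mul_of_nonneg_left (hB k) (p_pos k).le) (p_summable.mul_right B)
  have hs2 : Summable fun k => p k * |c k| :=
    Summable.of_nonneg_of_le (fun k => mul_nonneg (p_pos k).le (abs_nonneg _))
      (fun k => mul_le_mul_of_nonneg_left (by rw [abs_of_pos (c_pos k)]; exact c_le k) (p_pos k).le)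
      (p_summable.mul_right 1)
  classical
  set m := Nat.find hne with hm
  have hm1 : |x m| ≠ c m := Nat.find_spec hne
  have hm2 : ∀ k < m, |x k| = c k := fun k hk => by
    by_contra hh
    exact Nat.find_min hne hk hh
  let r : ℕ → ℝ := fun j => SS c j - SS x j
  have hrs : ∀ j, r (j + 1) = r j + p j * (c j - |x j|) := by
    intro j
    simp only [r, SS, Finset.sum_range_succ, abs_of_pos (c_pos _)]
    ring
  have hrm : r m = 0 := by
    simp only [r, SS]
    rw [← Finset.sum_sub_distrib]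
    apply Finset.sum_eq_zero
    intro k hk
    rw [hm2 k (Finset.mem_range.mp hk), abs_of_pos (c_pos k)]
    ring
  have hr : ∀ j, |x j| - c j ≤ r j := by
    intro j
    have := hA j
    unfold A at this
    rw [abs_of_pos (c_pos j)] at this
    simp only [r]
    linarith
  have h0 : 0 < r (m + 1) := by
    rw [hrs, hrm]
    have h1 := hr m
    rw [hrm] at h1
    have h2 : |x m| < c m := lt_of_le_of_ne (by linarith) hm1
    have := p_pos m
    nlinarith
  have hg := growth h0 (fun j _ => by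
    rw [hrs]
    have h1 := hr j
    have h2 := mul_le_mul_of_nonneg_left h1 (p_pos j).le
    nlinarith)
  have hlim : Tendsto r atTop (𝓝 (∑' k, p k * |c k| - ∑' k, p k * |x k|)) :=
    hs2.hasSum.tendsto_sum_nat.sub hs1.hasSum.tendsto_sum_nat
  have : r (m + 1) / 2 ≤ ∑' k, p k * |c k| - ∑' k, p k * |x k| := by
    apply ge_of_tendsto hlim
    filter_upwards [eventually_ge_atTop (m + 1)] with n hn
    exact hg n hn
  linarith

theorem fs_continuous : Continuous fs := by
  rw [Metric.continuous_iff]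
  intro q ε hε
  refine ⟨ε, hε, fun u hu => ?_⟩
  rw [dist_eq_norm] at hu
  rw [Real.dist_eq]
  exact (fst_close u q).trans_lt hu

theorem local_three {q : Y} (hq : ‖q‖ = 1) (ha : |fs q| = 1) (hc : ∀ k, |sn q k| = c k)
    {E : Submodule ℝ Y} [FiniteDimensional ℝ E] (hqE : q ∈ E) :
    ∃ (J : ℕ) (δ : ℝ), 0 < δ ∧ ∀ u ∈ E, ‖u - q‖ < δ → Det J u := by
  -- signs
  let w : ℕ → ℝ := fun k => sn q k / c k
  have hw : ∀ k, |w k| = 1 := fun k => by
    simp only [w]
    rw [abs_div, hc k, abs_of_pos (c_pos k), div_self (c_pos k).ne']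
  have hqw : ∀ k, sn q k = w k * c k := fun k => by
    simp only [w]
    rw [div_mul_cancel₀ _ (c_pos k).ne']
  -- compactness of the sphere
  let K : Set E := {z | fs (z : Y) = 0 ∧ ‖z‖ = 1}
  have hK : IsCompact K := by
    apply Metric.isCompact_of_isClosed_isBounded
    · apply IsClosed.inter
      · exact isClosed_singleton.preimage (fs_continuous.comp continuous_subtype_val)
      · exact isClosed_singleton.preimage continuous_norm
    · apply (Metric.isBounded_closedBall (x := (0 : E)) (r := 1)).subset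
      intro z hz
      rw [mem_closedBall_zero_iff]
      exact hz.2.le
  have hcomp : ∃ (J : ℕ) (r : ℝ), 0 < r ∧ ∀ z : E, z ∈ K → ∀ t, 0 ≤ t → t ≤ r →
      ∀ j, J ≤ j → ∀ R, 1 ≤ R → (∀ i < J, T i (q + t • (z : Y)) ≤ R) →
        T j (q + t • (z : Y)) ≤ R := by
    refine hK.induction_on (p := fun S => ∃ (J : ℕ) (r : ℝ), 0 < r ∧ ∀ z : E, z ∈ S →
      ∀ t, 0 ≤ t → t ≤ r → ∀ j, J ≤ j → ∀ R, 1 ≤ R →
        (∀ i < J, T i (q + t • (z : Y)) ≤ R) → T j (q + t • (z : Y)) ≤ R) ?_ ?_ ?_ ?_
    · exact ⟨0, 1, one_pos, fun z hz => absurd hz (notMem_empty z)⟩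
    · rintro s t hst ⟨J, r, hr, h⟩
      exact ⟨J, r, hr, fun z hz => h z (hst hz)⟩
    · rintro s t ⟨J, r, hr, h⟩ ⟨J', r', hr', h'⟩
      refine ⟨max J J', min r r', lt_min hr hr', fun z hz t ht htr j hj R hR hT => ?_⟩
      rcases hz with hz | hz
      · exact h z hz t ht (htr.trans (min_le_left _ _)) j (le_trans (le_max_left _ _) hj) R hR
          (fun i hi => hT i (lt_of_lt_of_le hi (le_max_left _ _)))
      · exact h' z hz t ht (htr.trans (min_le_right _ _)) j (le_trans (le_max_right _ _) hj) R hR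
          (fun i hi => hT i (lt_of_lt_of_le hi (le_max_right _ _)))
    · rintro z0 ⟨hz0, hn0⟩
      have hn0' : ‖(z0 : Y)‖ = 1 := hn0
      obtain ⟨J, r, δ, hr, hδ, h⟩ : ∃ (J : ℕ) (r δ : ℝ), 0 < r ∧ 0 < δ ∧ ∀ z, fs z = 0 →
          ‖z - (z0 : Y)‖ < δ → ∀ t, 0 ≤ t → t ≤ r → ∀ j, J ≤ j → ∀ R, 1 ≤ R →
            (∀ i < J, T i (q + t • z) ≤ R) → T j (q + t • z) ≤ R := by
        by_cases hi : ∃ i, 0 < eta w i z0
        · obtain ⟨i, hi⟩ := hi
          exact dir_one ha hw hqw hn0' hi
        · push Not at hi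
          exact dir_two ha hw hqw hz0 hn0' hi
      refine ⟨Metric.ball z0 δ ∩ K, ?_, J, r, hr, ?_⟩
      · rw [inter_comm]
        exact inter_mem_nhdsWithin K (Metric.ball_mem_nhds z0 hδ)
      · rintro z ⟨hz1, hz2⟩
        apply h z hz2.1
        rw [Metric.mem_ball, dist_eq_norm] at hz1
        exact hz1
  obtain ⟨J, r, hr, hJ⟩ := hcomp
  obtain ⟨J1, hJ1⟩ := exists_small q (show (0 : ℝ) < 1 / 4 by norm_num)
  refine ⟨max J J1, min (r / 5) (1 / 40), lt_min (by linarith) (by norm_num), fun u hu huq => ?_⟩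
  have hu1 : ‖u - q‖ < r / 5 := lt_of_lt_of_le huq (min_le_left _ _)
  have hu2 : ‖u - q‖ < 1 / 40 := lt_of_lt_of_le huq (min_le_right _ _)
  set b : ℝ := fs u * fs q with hb
  have hqq : fs q * fs q = 1 := sq_one ha
  have hb1 : |b - 1| ≤ ‖u - q‖ := by
    have : b - 1 = (fs u - fs q) * fs q := by rw [hb]; linear_combination hqq
    rw [this, abs_mul, ha, mul_one]
    exact fst_close u q
  have hb2 : 1 / 2 < b := by have := (abs_le.mp hb1).1; linarith
  have hb0 : 0 < b := by linarith
  set z : Y := b⁻¹ • u - q with hz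
  have hzE : z ∈ E := E.sub_mem (E.smul_mem _ hu) hqE
  have hzf : fs z = 0 := by
    rw [hz, sub_fst, smul_fst]
    have : b⁻¹ * fs u = fs q := by
      rw [inv_mul_eq_iff_eq_mul₀ hb0.ne', hb, mul_assoc, hqq, mul_one]
    rw [this, sub_self]
  have hzn : ‖z‖ ≤ 5 * ‖u - q‖ := by
    have e : z = (b⁻¹ - 1) • u + (u - q) := by rw [hz, sub_smul, one_smul]; abel
    have h1 : |b⁻¹ - 1| ≤ 2 * ‖u - q‖ := by
      have : b⁻¹ - 1 = (1 - b) * b⁻¹ := by field_simp
      rw [this, abs_mul, abs_sub_comm, abs_of_pos (inv_pos.mpr hb0)]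
      have h2 : b⁻¹ ≤ 2 := by
        rw [inv_le_comm₀ hb0 (by norm_num)]
        linarith
      have := mul_le_mul hb1 h2 (inv_pos.mpr hb0).le (norm_nonneg _)
      linarith
    have h2 : ‖u‖ ≤ 2 := by have := norm_close' u q; linarith
    rw [e]
    calc _ ≤ ‖(b⁻¹ - 1) • u‖ + ‖u - q‖ := norm_add_le _ _
      _ = |b⁻¹ - 1| * ‖u‖ + ‖u - q‖ := by rw [norm_smul, Real.norm_eq_abs]
      _ ≤ 2 * ‖u - q‖ * 2 + ‖u - q‖ := by
        have := mul_le_mul h1 h2 (norm_nonneg _) (by positivity)
        linarith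
      _ = _ := by ring
  have hmain : ∀ j, max J J1 ≤ j → ∀ R, 1 ≤ R → (∀ i < max J J1, T i (q + z) ≤ R) →
      T j (q + z) ≤ R := by
    intro j hj R hR hT
    by_cases hz0 : z = 0
    · have := T_shift ha (z := 0) (by rfl) 0 j
      rw [hz0, add_zero]
      rw [smul_zero, add_zero] at this
      rw [this]
      have h1 : ∀ k, |sn q k + 0 * sn (0 : Y) k| - c k = 0 := fun k => by
        rw [zero_mul, add_zero, hc k, sub_self]
      simp only [h1, mul_zero, Finset.sum_const_zero, add_zero]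
      exact hR
    · have hzn0 : ‖z‖ ≠ 0 := norm_ne_zero_iff.mpr hz0
      have h1 := hJ ⟨‖z‖⁻¹ • z, E.smul_mem _ hzE⟩ ⟨by
        show fs (‖z‖⁻¹ • z) = 0
        rw [smul_fst, hzf, mul_zero], by
        show ‖‖z‖⁻¹ • z‖ = 1
        rw [norm_smul, norm_inv, norm_norm, inv_mul_cancel₀ hzn0]⟩ ‖z‖ (norm_nonneg _)
        (by linarith) j (le_trans (le_max_left _ _) hj) R hR
      have e : q + ‖z‖ • (‖z‖⁻¹ • z) = q + z := by
        rw [smul_smul, mul_inv_cancel₀ hzn0, one_smul]
      simp only [e] at h1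
      exact h1 (fun i hi => hT i (lt_of_lt_of_le hi (le_max_left _ _)))
  have hqz : ‖(q + z) - q‖ ≤ 1 / 8 := by
    rw [add_sub_cancel_left]; linarith
  have hdet : Det (max J J1) (q + z) := by
    apply det_of (ρ := 3 / 4)
    · have := norm_close (q + z) q
      linarith
    · intro k hk
      have := coord_tail hJ1 hqz k (le_trans (le_max_right _ _) hk)
      linarith
    · intro R hR hT j hj
      refine le_trans (hmain j hj R ?_ hT) (le_max_left _ _)
      have : |fs (q + z)| = 1 := by rw [add_fst, hzf, add_zero, ha]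
      linarith
  have := hdet.smul hb0
  have e : b • (q + z) = u := by
    rw [hz, add_sub_cancel, smul_smul, mul_inv_cancel₀ hb0.ne', one_smul]
  rwa [e] at this

theorem local_all {q : Y} (hq : ‖q‖ = 1)
    {E : Submodule ℝ Y} [FiniteDimensional ℝ E] (hqE : q ∈ E) :
    ∃ (J : ℕ) (δ : ℝ), 0 < δ ∧ ∀ u ∈ E, ‖u - q‖ < δ → Det J u := by
  rcases lt_or_eq_of_le (hq ▸ fst_le q) with ha | ha
  · obtain ⟨J, δ, hδ, h⟩ := local_one hq ha
    exact ⟨J, δ, hδ, fun u _ => h u⟩
  · by_cases hc : ∀ k, |sn q k| = c k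
    · exact local_three hq ha hc hqE
    · push Not at hc
      have hA : ∀ j, A (fun k => sn q k) j ≤ A c j := by
        intro j
        have h1 := T_le_norm j q
        rw [hq, T_eq, ha, mul_one] at h1
        have := ep_pos j
        nlinarith
      obtain ⟨J, δ, hδ, h⟩ := local_two hq ha (deficit_pos (coe_le (sn q)) hA hc)
      exact ⟨J, δ, hδ, fun u _ => h u⟩

/-- on a finite-dimensional subspace finitely many constraints determine the norm -/
theorem exists_det (E : Submodule ℝ Y) [FiniteDimensional ℝ E] : ∃ J : ℕ, ∀ u ∈ E, Det J u := by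
  have hS : IsCompact (Metric.sphere (0 : E) 1) := isCompact_sphere _ _
  have h1 : ∃ J : ℕ, ∀ u : E, u ∈ Metric.sphere (0 : E) 1 → Det J (u : Y) := by
    refine hS.induction_on (p := fun S => ∃ J : ℕ, ∀ u : E, u ∈ S → Det J (u : Y)) ?_ ?_ ?_ ?_
    · exact ⟨0, fun u hu => absurd hu (notMem_empty u)⟩
    · rintro s t hst ⟨J, h⟩
      exact ⟨J, fun u hu => h u (hst hu)⟩
    · rintro s t ⟨J, h⟩ ⟨J', h'⟩
      refine ⟨max J J', fun u hu => ?_⟩
      rcases hu with hu | hu
      · exact (h u hu).mono (le_max_left _ _)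
      · exact (h' u hu).mono (le_max_right _ _)
    · intro q hq
      rw [mem_sphere_zero_iff_norm] at hq
      have hq' : ‖(q : Y)‖ = 1 := hq
      obtain ⟨J, δ, hδ, h⟩ := local_all hq' q.2
      refine ⟨Metric.ball q δ, mem_nhdsWithin_of_mem_nhds (Metric.ball_mem_nhds q hδ), J,
        fun u hu => ?_⟩
      apply h u u.2
      rw [Metric.mem_ball, dist_eq_norm] at hu
      exact hu
  obtain ⟨J, hJ⟩ := h1
  refine ⟨J, fun u hu => ?_⟩
  by_cases hu0 : u = 0
  · intro R h1 _ _
    rw [hu0, norm_zero]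
    exact (abs_nonneg _).trans h1
  · have hn : ‖u‖ ≠ 0 := norm_ne_zero_iff.mpr hu0
    have h2 := hJ ⟨‖u‖⁻¹ • u, E.smul_mem _ hu⟩ (by
      rw [mem_sphere_zero_iff_norm]
      show ‖‖u‖⁻¹ • u‖ = 1
      rw [norm_smul, norm_inv, norm_norm, inv_mul_cancel₀ hn])
    have h3 := h2.smul (norm_pos_iff.mpr hu0)
    simp only [smul_smul, mul_inv_cancel₀ hn, one_smul] at h3
    exact h3


/-! ### polytopes -/

theorem polytope {E ι : Type} [NormedAddCommGroup E] [NormedSpace ℝ E] [FiniteDimensional ℝ E]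
    [Finite ι] (f : ι → E →ₗ[ℝ] ℝ) {P : Set E} (hP : P = {u | ∀ i, f i u ≤ 1})
    (hb : Bornology.IsBounded P) : ∃ F : Finset E, P = convexHull ℝ (F : Set E) := by
  classical
  have hcont : ∀ i, Continuous (f i) := fun i => LinearMap.continuous_of_finiteDimensional _
  have hconv : Convex ℝ P := by
    rw [hP]
    intro x hx y hy a b ha hb hab i
    have h1 := hx i
    have h2 := hy i
    rw [map_add, map_smul, map_smul, smul_eq_mul, smul_eq_mul]
    nlinarith
  have hclosed : IsClosed P := by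
    rw [hP, Set.ofPred_forall]
    exact isClosed_iInter fun i => isClosed_le (hcont i) continuous_const
  have hcomp : IsCompact P := Metric.isCompact_of_isClosed_isBounded hclosed hb
  have hfin : (P.extremePoints ℝ).Finite := by
    apply Set.Finite.of_finite_image (f := fun x => {i | f i x = 1}) (Set.toFinite _)
    intro x hx y hy hxy
    simp only at hxy
    have hact : ∀ i, f i x = 1 ↔ f i y = 1 := fun i => by
      constructor
      · intro h
        have : i ∈ {i | f i x = 1} := h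
        rw [hxy] at this
        exact this
      · intro h
        have : i ∈ {i | f i y = 1} := h
        rw [← hxy] at this
        exact this
    have hxP : ∀ i, f i x ≤ 1 := by
      have := hx.1
      rw [hP] at this
      exact this
    have hev : ∀ σ : ℝ, ∀ᶠ t in 𝓝[>] (0 : ℝ), x + (t * σ) • (x - y) ∈ P := by
      intro σ
      have h1 : ∀ i, ∀ᶠ t in 𝓝[>] (0 : ℝ), f i (x + (t * σ) • (x - y)) ≤ 1 := by
        intro i
        rcases lt_or_eq_of_le (hxP i) with h | h
        · have hc : Continuous fun t : ℝ => f i (x + (t * σ) • (x - y)) := by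
            have := hcont i
            fun_prop
          have h2 : f i (x + ((0 : ℝ) * σ) • (x - y)) < 1 := by simpa using h
          exact ((hc.tendsto 0).eventually (gt_mem_nhds h2)).filter_mono nhdsWithin_le_nhds |>.mono
            fun t ht => ht.le
        · apply Eventually.of_forall
          intro t
          rw [map_add, map_smul, map_sub, h, (hact i).mp h, sub_self, smul_zero, add_zero]
      filter_upwards [eventually_all.mpr h1] with t ht
      rw [hP]
      exact ht
    obtain ⟨t, ⟨ht1, ht2⟩, ht0⟩ := (((hev 1).and (hev (-1))).and self_mem_nhdsWithin).exists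
    have ht0' : 0 < t := ht0
    have hseg : x ∈ openSegment ℝ (x + (t * 1) • (x - y)) (x + (t * -1) • (x - y)) := by
      refine ⟨1 / 2, 1 / 2, by norm_num, by norm_num, by norm_num, ?_⟩
      module
    have := mem_extremePoints.mp hx
    have h3 := (this.2 _ ht1 _ ht2 hseg)
    have h4 : x + (t * 1) • (x - y) = x := by
      exact h3.1
    have h5 : (t * 1) • (x - y) = 0 := by
      have := congrArg (fun v => v - x) h4
      simpa using this
    rcases smul_eq_zero.mp h5 with h6 | h6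
    · exfalso; linarith
    · exact sub_eq_zero.mp h6
  refine ⟨hfin.toFinset, ?_⟩
  rw [Set.Finite.coe_toFinset]
  have h1 := closure_convexHull_extremePoints hcomp hconv
  rw [(hfin.isClosed_convexHull ℝ).closure_eq] at h1
  exact h1.symm

/-- sign of a boolean -/
def sg (b : Bool) : ℝ := if b then 1 else -1

theorem sg_mul_le (b : Bool) (x : ℝ) : sg b * x ≤ |x| := by
  unfold sg
  cases b
  · simp; exact neg_le_abs x
  · simp; exact le_abs_self x

/-- extension of a sign vector -/
def ex {m : ℕ} (s : Fin m → Bool) (k : ℕ) : Bool := if h : k < m then s ⟨k, h⟩ else true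

theorem polytope_abs {E ι : Type} [NormedAddCommGroup E] [NormedSpace ℝ E] [FiniteDimensional ℝ E]
    [Finite ι] (l : ℕ → E →ₗ[ℝ] ℝ) (α : ι → ℕ → ℝ) (hα : ∀ i k, 0 ≤ α i k) (S : ι → Finset ℕ)
    (m : ℕ) (hS : ∀ i, ∀ k ∈ S i, k < m) {P : Set E}
    (hP : P = {u | ∀ i, ∑ k ∈ S i, α i k * |l k u| ≤ 1})
    (hb : Bornology.IsBounded P) : ∃ F : Finset E, P = convexHull ℝ (F : Set E) := by
  classical
  apply polytope (ι := ι × (Fin m → Bool))
    (fun q => ∑ k ∈ S q.1, (α q.1 k * sg (ex q.2 k)) • l k) _ hb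
  rw [hP]
  ext u
  simp only [mem_ofPred_eq, LinearMap.sum_apply, LinearMap.smul_apply, smul_eq_mul]
  constructor
  · rintro h ⟨i, s⟩
    refine le_trans (Finset.sum_le_sum fun k _ => ?_) (h i)
    rw [mul_assoc]
    exact mul_le_mul_of_nonneg_left (sg_mul_le _ _) (hα i k)
  · intro h i
    have h1 := h (i, fun k => decide (0 ≤ l k u))
    refine le_trans (le_of_eq (Finset.sum_congr rfl fun k hk => ?_)) h1
    have hk' := hS i k hk
    simp only
    rw [mul_assoc]
    congr 1
    unfold ex sg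
    rw [dif_pos hk']
    by_cases h0 : 0 ≤ l k u
    · simp [h0, abs_of_nonneg h0]
    · simp [h0, abs_of_neg (not_le.mp h0)]

/-- the coordinate functionals -/
def coordL : ℕ → Y →ₗ[ℝ] ℝ
  | 0 => { toFun := fs, map_add' := add_fst, map_smul' := smul_fst }
  | k + 1 => { toFun := fun u => sn u k, map_add' := fun u v => add_snd u v k,
               map_smul' := fun r u => smul_snd r u k }

/-- the closed unit ball of every finite-dimensional subspace of `Y` is a polytope -/
theorem polyhedral (E : Submodule ℝ Y) [FiniteDimensional ℝ E] :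
    ∃ F : Finset E, Metric.closedBall (0 : E) 1 = convexHull ℝ (F : Set E) := by
  obtain ⟨J, hJ⟩ := exists_det E
  let α : Option (Fin J ⊕ Fin J) → ℕ → ℝ := fun i k =>
    match i with
    | none => 1
    | some (Sum.inl _) => 1 / 2
    | some (Sum.inr j) => if k = 0 then 1 - ep j * A c j else
        if k = j + 1 then ep j else ep j * p (k - 1)
  let S : Option (Fin J ⊕ Fin J) → Finset ℕ := fun i =>
    match i with
    | none => {0}
    | some (Sum.inl k) => {(k : ℕ) + 1}
    | some (Sum.inr j) => Finset.range (j + 2)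
  apply polytope_abs (fun k => (coordL k).comp E.subtype) α ?_ S (J + 1) ?_ ?_
    Metric.isBounded_closedBall
  · rintro (_ | (i | j)) k
    · exact zero_le_one
    · show (0 : ℝ) ≤ 1 / 2
      norm_num
    · show (0 : ℝ) ≤ if k = 0 then 1 - ep j * A c j else if k = j + 1 then ep j else ep j * p (k - 1)
      have h1 := Ac_le j
      have h2 := ep_pos j
      have h3 := p_pos (k - 1)
      split_ifs
      · linarith
      · exact h2.le
      · positivity
  · rintro (_ | (i | j)) k hk
    · have : k = 0 := by simpa [S] using hk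
      omega
    · have : k = i + 1 := by simpa [S] using hk
      have := i.2
      omega
    · have : k < j + 2 := by simpa [S] using hk
      have := j.2
      omega
  · ext u
    rw [mem_closedBall_zero_iff, mem_ofPred_eq]
    have hT : ∀ j : Fin J, ∑ k ∈ S (some (Sum.inr j)), α (some (Sum.inr j)) k *
        |((coordL k).comp E.subtype) u| = T j (u : Y) := by
      intro j
      show ∑ k ∈ Finset.range (j + 2), (if k = 0 then 1 - ep j * A c j else
        if k = j + 1 then ep j else ep j * p (k - 1)) * |coordL k (u : Y)| = T j (u : Y)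
      rw [Finset.sum_range_succ', Finset.sum_range_succ]
      have h1 : ∑ k ∈ Finset.range (j : ℕ), (if k + 1 = 0 then 1 - ep j * A c j else
          if k + 1 = j + 1 then ep j else ep j * p (k + 1 - 1)) * |coordL (k + 1) (u : Y)| =
          ep j * SS (fun k => sn (u : Y) k) j := by
        unfold SS
        rw [Finset.mul_sum]
        apply Finset.sum_congr rfl
        intro k hk
        have hk' := Finset.mem_range.mp hk
        rw [if_neg (by omega), if_neg (by omega), Nat.add_sub_cancel]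
        show ep j * p k * |sn (u : Y) k| = _
        ring
      rw [h1, if_neg (by omega), if_pos rfl, if_pos rfl]
      show ep j * SS (fun k => sn (u : Y) k) j + ep j * |sn (u : Y) j| +
        (1 - ep j * A c j) * |fs (u : Y)| = T j (u : Y)
      unfold T
      have : A (fun k => sn (u : Y) k) (j : ℕ) = |sn (u : Y) j| + SS (fun k => sn (u : Y) k) j := rfl
      rw [this]
      ring
    have h0 : ∑ k ∈ S none, α none k * |((coordL k).comp E.subtype) u| = |fs (u : Y)| := by
      show ∑ k ∈ ({0} : Finset ℕ), 1 * |((coordL k).comp E.subtype) u| = _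
      rw [Finset.sum_singleton, one_mul]
      rfl
    have h1 : ∀ k : Fin J, ∑ k ∈ S (some (Sum.inl k)), α (some (Sum.inl ‹_›)) k *
        |((coordL k).comp E.subtype) u| = |sn (u : Y) k| / 2 := by
      intro k
      show ∑ i ∈ ({(k : ℕ) + 1} : Finset ℕ), 1 / 2 * |((coordL i).comp E.subtype) u| = _
      rw [Finset.sum_singleton]
      show 1 / 2 * |sn (u : Y) k| = _
      ring
    constructor
    · rintro hu (_ | (k | j))
      · rw [h0]; exact (fst_le _).trans hu
      · refine le_trans (le_of_eq (h1 k)) ?_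
        have := coord_le (u : Y) k
        have hu' : ‖(u : Y)‖ ≤ 1 := hu
        linarith
      · rw [hT]; exact (T_le_norm _ _).trans hu
    · intro h
      have : ‖(u : Y)‖ ≤ 1 := hJ u u.2 1 (by rw [← h0]; exact h none)
        (fun k hk => by
          have := h (some (Sum.inl ⟨k, hk⟩))
          exact le_trans (le_of_eq (h1 ⟨k, hk⟩).symm) this)
        (fun j hj => by
          have := h (some (Sum.inr ⟨j, hj⟩))
          rw [hT] at this
          exact this)
      exact this


/-! ### extreme points -/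

/-- the `c₀` part of the extreme points -/
def xx (ω : ℕ → Bool) : C₀(ℕ, ℝ) where
  toFun k := sg (ω k) * c k
  continuous_toFun := continuous_of_discreteTopology
  zero_at_infty' := by
    rw [cocompact_eq_cofinite, Nat.cofinite_eq_atTop]
    apply squeeze_zero_norm _ c_tendsto
    intro k
    rw [Real.norm_eq_abs, abs_mul, abs_of_pos (c_pos k)]
    have : |sg (ω k)| = 1 := by unfold sg; split_ifs <;> simp
    rw [this, one_mul]

/-- the extreme points -/
def vv (ω : ℕ → Bool) : Y := toProd (1, xx ω)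

theorem fs_vv (ω : ℕ → Bool) : fs (vv ω) = 1 := rfl
theorem sn_vv (ω : ℕ → Bool) (k : ℕ) : sn (vv ω) k = sg (ω k) * c k := rfl
theorem abs_sg (b : Bool) : |sg b| = 1 := by unfold sg; split_ifs <;> simp
theorem abs_sn_vv (ω : ℕ → Bool) (k : ℕ) : |sn (vv ω) k| = c k := by
  rw [sn_vv, abs_mul, abs_sg, one_mul, abs_of_pos (c_pos k)]

theorem T_vv (ω : ℕ → Bool) (j : ℕ) : T j (vv ω) = 1 := by
  have h := T_shift (q := vv ω) (by rw [fs_vv, abs_one]) (z := 0) rfl 0 j
  rw [smul_zero, add_zero] at h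
  rw [h]
  have h1 : ∀ k, |sn (vv ω) k + 0 * sn (0 : Y) k| - c k = 0 := fun k => by
    rw [zero_mul, add_zero, abs_sn_vv, sub_self]
  simp only [h1, mul_zero, Finset.sum_const_zero, add_zero]

theorem norm_vv (ω : ℕ → Bool) : ‖vv ω‖ = 1 := by
  apply le_antisymm
  · apply norm_le'
    · rw [fs_vv, abs_one]
    · intro k
      rw [abs_sn_vv]
      have := c_le k
      linarith
    · intro j
      rw [T_vv]
  · have := fst_le (vv ω)
    rwa [fs_vv, abs_one] at this

theorem vv_ext (ω : ℕ → Bool) (z : Y) (h1 : ‖vv ω + z‖ ≤ 1) (h2 : ‖vv ω - z‖ ≤ 1) : z = 0 := by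
  have hz : fs z = 0 := by
    have e1 := (fst_le (vv ω + z)).trans h1
    have e2 := (fst_le (vv ω - z)).trans h2
    rw [add_fst, fs_vv, abs_le] at e1
    rw [sub_fst, fs_vv, abs_le] at e2
    linarith [e1.2, e2.2]
  have hk : ∀ j, ∀ k < j, sn z k = 0 := by
    intro j
    induction j with
    | zero => intro k hk; omega
    | succ j ih =>
      intro k hk
      rcases Nat.lt_succ_iff_lt_or_eq.mp hk with hk | rfl
      · exact ih k hk
      have hs : ∀ t : ℝ, T k (vv ω + t • z) ≤ 1 → |sn (vv ω) k + t * sn z k| ≤ c k := by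
        intro t ht
        rw [T_shift (by rw [fs_vv, abs_one]) hz] at ht
        have h0 : ∑ i ∈ Finset.range k, p i * (|sn (vv ω) i + t * sn z i| - c i) = 0 := by
          apply Finset.sum_eq_zero
          intro i hi
          rw [ih i (Finset.mem_range.mp hi), mul_zero, add_zero, abs_sn_vv, sub_self, mul_zero]
        rw [h0, add_zero] at ht
        have := ep_pos k
        nlinarith
      have e1 := hs 1 (by rw [one_smul]; exact (T_le_norm _ _).trans h1)
      have e2 := hs (-1) (by rw [neg_one_smul, ← sub_eq_add_neg]; exact (T_le_norm _ _).trans h2)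
      rw [sn_vv] at e1 e2
      have hc := c_pos k
      unfold sg at e1 e2
      rw [abs_le] at e1 e2
      split_ifs at e1 e2 <;> linarith [e1.1, e1.2, e2.1, e2.2]
  apply norm_le_zero_iff.mp
  have h3 := norm_le_sum z
  have h4 := norm_le_of (sn z) (le_refl (0 : ℝ)) (fun k => by rw [hk (k + 1) k (by omega), abs_zero])
  rw [hz, abs_zero] at h3
  linarith

theorem vv_injective : Function.Injective vv := by
  intro ω ω' h
  funext k
  have h1 : sn (vv ω) k = sn (vv ω') k := by rw [h]
  rw [sn_vv, sn_vv] at h1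
  have h2 := mul_right_cancel₀ (c_pos k).ne' h1
  revert h2
  cases ω k <;> cases ω' k <;> simp [sg] <;> norm_num

theorem vv_continuous : Continuous vv := by
  rw [continuous_iff_continuousAt]
  intro ω
  rw [ContinuousAt, Metric.tendsto_nhds]
  intro ε hε
  obtain ⟨K, hK⟩ := eventually_atTop.mp (c_tendsto.eventually
    (gt_mem_nhds (show (0 : ℝ) < ε / 4 by linarith)))
  have h1 : ∀ᶠ ω' in 𝓝 ω, ∀ k ∈ Finset.range K, ω' k = ω k := by
    rw [Finset.eventually_all]
    intro k _
    have : Tendsto (fun ω' : ℕ → Bool => ω' k) (𝓝 ω) (𝓝 (ω k)) := (continuous_apply k).tendsto ω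
    exact this.eventually (show ∀ᶠ b in 𝓝 (ω k), b = ω k by rw [nhds_discrete]; simp)
  filter_upwards [h1] with ω' hω'
  rw [dist_eq_norm]
  have h2 := norm_le_sum (vv ω' - vv ω)
  rw [sub_fst, fs_vv, fs_vv, sub_self, abs_zero, zero_add] at h2
  refine lt_of_le_of_lt h2 (lt_of_le_of_lt (norm_le_of _ (C := ε / 2) (by linarith) ?_)
    (by linarith))
  intro k
  rw [sub_snd]
  by_cases hk : k < K
  · rw [sn_vv, sn_vv, hω' k (Finset.mem_range.mpr hk), sub_self, abs_zero]
    linarith
  · have h3 := hK k (not_lt.mp hk)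
    calc |sn (vv ω') k - sn (vv ω) k| ≤ |sn (vv ω') k| + |sn (vv ω) k| := abs_sub _ _
      _ ≤ ε / 2 := by rw [abs_sn_vv, abs_sn_vv]; linarith

/-- a vector with the extremality property is one of the summands of an optimal representation -/
theorem pick {a : ℕ → ℝ} {y : ℕ → Y} {v : Y} (hv : ∀ z : Y, ‖v + z‖ ≤ 1 → ‖v - z‖ ≤ 1 → z = 0)
    (hv1 : ‖v‖ = 1) (hs : HasSum (fun i => a i • y i) v)
    (hn : HasSum (fun i => |a i| * ‖y i‖) 1) :
    ∃ i, v = ‖y i‖⁻¹ • y i ∨ v = -(‖y i‖⁻¹ • y i) := by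
  obtain ⟨i, hi⟩ : ∃ i, |a i| * ‖y i‖ ≠ 0 := by
    by_contra hno
    push Not at hno
    have : HasSum (fun i => |a i| * ‖y i‖) 0 := by
      simp only [hno]
      exact hasSum_zero
    exact one_ne_zero (hn.unique this)
  set l : ℝ := |a i| * ‖y i‖ with hl
  have hl0 : 0 < l := lt_of_le_of_ne (by positivity) (Ne.symm hi)
  have hy : ‖y i‖ ≠ 0 := fun h => hi (by rw [hl, h, mul_zero])
  have ha : a i ≠ 0 := fun h => hi (by rw [hl, h, abs_zero, zero_mul])
  have hl1 : l ≤ 1 := le_hasSum hn i (fun j _ => by positivity)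
  obtain ⟨σ, hσ, hσa⟩ : ∃ σ : ℝ, (σ = 1 ∨ σ = -1) ∧ a i = σ * |a i| := by
    rcases le_total 0 (a i) with h | h
    · exact ⟨1, Or.inl rfl, by rw [abs_of_nonneg h, one_mul]⟩
    · exact ⟨-1, Or.inr rfl, by rw [abs_of_nonpos h]; ring⟩
  obtain ⟨u, hu⟩ : ∃ u : Y, u = σ • (‖y i‖⁻¹ • y i) := ⟨_, rfl⟩
  have hu1 : ‖u‖ = 1 := by
    rw [hu, norm_smul, norm_smul, norm_inv, norm_norm, inv_mul_cancel₀ hy, mul_one]
    rcases hσ with h | h <;> rw [h] <;> simp
  have hau : a i • y i = l • u := by
    rw [hu, smul_smul, smul_smul]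
    congr 1
    calc a i = σ * |a i| * (‖y i‖ * ‖y i‖⁻¹) := by rw [mul_inv_cancel₀ hy, mul_one]; exact hσa
      _ = l * σ * ‖y i‖⁻¹ := by rw [hl]; ring
  have hr : ‖v - l • u‖ ≤ 1 - l := by
    have h1 := hasSum_ite_sub_hasSum hs i
    have h2 := hasSum_ite_sub_hasSum hn i
    rw [hau] at h1
    apply h1.norm_le_of_bounded h2
    intro k
    split_ifs
    · simp
    · rw [norm_smul, Real.norm_eq_abs]
  have hz := hv ((l / 2) • (v - u)) (by
    have e : v + (l / 2) • (v - u) = ((1 + l / 2) * l - l / 2) • u + (1 + l / 2) • (v - l • u) := by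
      module
    rw [e]
    refine (norm_add_le _ _).trans ?_
    rw [norm_smul, norm_smul, hu1, Real.norm_eq_abs, Real.norm_eq_abs, mul_one,
      abs_of_nonneg (show (0 : ℝ) ≤ (1 + l / 2) * l - l / 2 by nlinarith),
      abs_of_nonneg (show (0 : ℝ) ≤ 1 + l / 2 by linarith)]
    have := mul_le_mul_of_nonneg_left hr (show (0 : ℝ) ≤ 1 + l / 2 by linarith)
    linarith) (by
    have e : v - (l / 2) • (v - u) = (1 - l / 2) • v + (l / 2) • u := by module
    rw [e]
    refine (norm_add_le _ _).trans ?_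
    rw [norm_smul, norm_smul, hu1, hv1, Real.norm_eq_abs, Real.norm_eq_abs,
      abs_of_nonneg (show (0 : ℝ) ≤ 1 - l / 2 by linarith),
      abs_of_nonneg (show (0 : ℝ) ≤ l / 2 by linarith)]
    linarith)
  have hvu : v = u := by
    rcases smul_eq_zero.mp hz with h | h
    · exfalso; linarith
    · exact sub_eq_zero.mp h
  refine ⟨i, ?_⟩
  rcases hσ with h | h
  · left; rw [hvu, hu, h, one_smul]
  · right; rw [hvu, hu, h, neg_one_smul]

end

end Pool.Agent.X199.PolyExt
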