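import Mathlib

/-!
# Functions of the first functional Lebesgue class
-/

set_option autoImplicit false

open Set Topology

namespace Pool.Agent.X199.K1

variable {X : Type*} [TopologicalSpace X]

/-- Functionally closed sets: zero sets of continuous functions into `[0, 1]`. -/
def FunClosed (A : Set X) : Prop :=
  ∃ f : X → ℝ, Continuous f ∧ (∀ x, 0 ≤ f x ∧ f x ≤ 1) ∧ A = {x | f x = 0}

/-- Sets of the first functionally additive class: countable unions of functionally closed sets. -/
def FunAdd (A : Set X) : Prop := ∃ F : ℕ → Set X, (∀ n, FunClosed (F n)) ∧ A = ⋃ n, F n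

/-- Functions of the first functional Lebesgue class. -/
def IsK1 (f : X → ℝ) : Prop := ∀ V : Set ℝ, IsOpen V → FunAdd (f ⁻¹' V)

/-- `E` is `K₁`-embedded in `X`. -/
def K1Embedded (E : Set X) : Prop :=
  ∀ f : E → ℝ, IsK1 f → ∃ g : X → ℝ, IsK1 g ∧ ∀ x : E, g x = f x

/-- `E` is `K₁*`-embedded in `X`. -/
def K1StarEmbedded (E : Set X) : Prop :=
  ∀ f : E → ℝ, IsK1 f → (∃ C : ℝ, ∀ x, |f x| ≤ C) →
    ∃ g : X → ℝ, IsK1 g ∧ (∃ C : ℝ, ∀ x, |g x| ≤ C) ∧ ∀ x : E, g x = f x

theorem FunClosed.isClosed {A : Set X} (h : FunClosed A) : IsClosed A := by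
  obtain ⟨f, hf, -, rfl⟩ := h
  exact isClosed_eq hf continuous_const

theorem FunClosed.preimage {Y : Type*} [TopologicalSpace Y] {A : Set X} (h : FunClosed A)
    {g : Y → X} (hg : Continuous g) : FunClosed (g ⁻¹' A) := by
  obtain ⟨f, hf, h1, rfl⟩ := h
  exact ⟨f ∘ g, hf.comp hg, fun y => h1 (g y), rfl⟩

theorem FunClosed.of_isClopen {A : Set X} (h : IsClopen A) : FunClosed A := by
  classical
  refine ⟨fun x => if x ∈ A then 0 else 1, ?_, fun x => ?_, ?_⟩
  · refine (IsLocallyConstant.continuous (f := fun x => if x ∈ A then (0 : ℝ) else 1) ?_)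
    rw [IsLocallyConstant.iff_exists_open]
    intro x
    by_cases hx : x ∈ A
    · exact ⟨A, h.2, hx, fun y hy => by simp [hx, hy]⟩
    · exact ⟨Aᶜ, h.1.isOpen_compl, hx, fun y hy => by
        have : y ∉ A := hy
        simp [hx, this]⟩
  · by_cases hx : x ∈ A <;> simp [hx]
  · ext x
    by_cases hx : x ∈ A <;> simp [hx]

theorem FunClosed.iInter_nat {F : ℕ → Set X} (h : ∀ n, FunClosed (F n)) :
    FunClosed (⋂ n, F n) := by
  choose f hf h1 h2 using h
  have hb : ∀ n x, 0 ≤ (1 / 2 : ℝ) ^ (n + 1) * f n x ∧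
      (1 / 2 : ℝ) ^ (n + 1) * f n x ≤ (1 / 2) ^ (n + 1) := by
    intro n x
    exact ⟨mul_nonneg (by positivity) (h1 n x).1,
      mul_le_of_le_one_right (by positivity) (h1 n x).2⟩
  have hs0 : Summable fun n : ℕ => (1 / 2 : ℝ) ^ (n + 1) :=
    (summable_nat_add_iff 1).2 (summable_geometric_of_lt_one (by norm_num) (by norm_num))
  have hs : ∀ x, Summable fun n => (1 / 2 : ℝ) ^ (n + 1) * f n x := fun x =>
    Summable.of_nonneg_of_le (fun n => (hb n x).1) (fun n => (hb n x).2) hs0
  refine ⟨fun x => ∑' n, (1 / 2 : ℝ) ^ (n + 1) * f n x, ?_, fun x => ⟨?_, ?_⟩, ?_⟩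
  · refine continuous_tsum (fun n => continuous_const.mul (hf n)) hs0 fun n x => ?_
    rw [Real.norm_of_nonneg (hb n x).1]
    exact (hb n x).2
  · exact tsum_nonneg fun n => (hb n x).1
  · refine ((hs x).tsum_le_tsum (fun n => (hb n x).2) hs0).trans ?_
    have : ∑' n : ℕ, (1 / 2 : ℝ) ^ (n + 1) = 1 := by
      have h3 := tsum_geometric_of_lt_one (r := (1 / 2 : ℝ)) (by norm_num) (by norm_num)
      simp_rw [pow_succ]
      rw [tsum_mul_right, h3]
      norm_num
    rw [this]
  · ext x
    rw [mem_iInter, mem_ofPred_eq]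
    constructor
    · intro hx
      have : ∀ n, (1 / 2 : ℝ) ^ (n + 1) * f n x = 0 := by
        intro n
        have h3 := hx n
        rw [h2 n] at h3
        have h4 : f n x = 0 := h3
        rw [h4, mul_zero]
      change ∑' n, (1 / 2 : ℝ) ^ (n + 1) * f n x = 0
      simp_rw [this]
      exact tsum_zero
    · intro hx n
      have hx' : ∑' n, (1 / 2 : ℝ) ^ (n + 1) * f n x = 0 := hx
      have h3 := (hasSum_zero_iff_of_nonneg (fun n => (hb n x).1)).1 (by
        have := (hs x).hasSum
        rwa [hx'] at this)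
      have h4 := congrFun h3 n
      rw [h2 n]
      have h5 : (1 / 2 : ℝ) ^ (n + 1) * f n x = 0 := h4
      rcases mul_eq_zero.1 h5 with h6 | h6
      · exact absurd h6 (by positivity)
      · exact h6

theorem FunClosed.univ : FunClosed (univ : Set X) := FunClosed.of_isClopen isClopen_univ

theorem FunClosed.empty : FunClosed (∅ : Set X) := FunClosed.of_isClopen isClopen_empty

theorem FunClosed.iInter {ι : Type*} [Countable ι] {F : ι → Set X} (h : ∀ i, FunClosed (F i)) :
    FunClosed (⋂ i, F i) := by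
  rcases isEmpty_or_nonempty ι with hι | hι
  · rw [iInter_of_empty]
    exact FunClosed.univ
  · obtain ⟨e, he⟩ := exists_surjective_nat ι
    rw [← he.iInter_comp]
    exact FunClosed.iInter_nat fun n => h (e n)

theorem FunClosed.inter {A B : Set X} (hA : FunClosed A) (hB : FunClosed B) :
    FunClosed (A ∩ B) := by
  rw [inter_eq_iInter]
  exact FunClosed.iInter fun b => by
    cases b <;> assumption

theorem FunClosed.funAdd {A : Set X} (h : FunClosed A) : FunAdd A :=
  ⟨fun _ => A, fun _ => h, (iUnion_const A).symm⟩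

theorem FunAdd.iUnion_nat {A : ℕ → Set X} (h : ∀ n, FunAdd (A n)) : FunAdd (⋃ n, A n) := by
  choose F h1 h2 using h
  refine ⟨fun k => F (Nat.unpair k).1 (Nat.unpair k).2, fun k => h1 _ _, ?_⟩
  ext x
  constructor
  · intro hx
    obtain ⟨n, hn⟩ := mem_iUnion.1 hx
    rw [h2 n] at hn
    obtain ⟨m, hm⟩ := mem_iUnion.1 hn
    exact mem_iUnion.2 ⟨Nat.pair n m, by simpa using hm⟩
  · intro hx
    obtain ⟨k, hk⟩ := mem_iUnion.1 hx
    refine mem_iUnion.2 ⟨(Nat.unpair k).1, ?_⟩
    rw [h2]
    exact mem_iUnion.2 ⟨_, hk⟩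

theorem FunAdd.empty : FunAdd (∅ : Set X) := FunClosed.empty.funAdd

theorem FunAdd.iUnion {ι : Type*} [Countable ι] {A : ι → Set X} (h : ∀ i, FunAdd (A i)) :
    FunAdd (⋃ i, A i) := by
  rcases isEmpty_or_nonempty ι with hι | hι
  · rw [iUnion_of_empty]
    exact FunAdd.empty
  · obtain ⟨e, he⟩ := exists_surjective_nat ι
    rw [← he.iUnion_comp]
    exact FunAdd.iUnion_nat fun n => h (e n)

theorem FunAdd.union {A B : Set X} (hA : FunAdd A) (hB : FunAdd B) : FunAdd (A ∪ B) := by
  rw [union_eq_iUnion]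
  exact FunAdd.iUnion fun b => by
    cases b <;> assumption

theorem FunAdd.inter {A B : Set X} (hA : FunAdd A) (hB : FunAdd B) : FunAdd (A ∩ B) := by
  obtain ⟨F, h1, rfl⟩ := hA
  obtain ⟨G, h2, rfl⟩ := hB
  rw [iUnion_inter_iUnion]
  exact FunAdd.iUnion fun n => FunAdd.iUnion fun m => ((h1 n).inter (h2 m)).funAdd

/-- Sets that are of both first functional classes. -/
def Amb (A : Set X) : Prop := FunAdd A ∧ FunAdd Aᶜ

theorem Amb.compl {A : Set X} (h : Amb A) : Amb Aᶜ := ⟨h.2, by rw [compl_compl]; exact h.1⟩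

theorem Amb.inter {A B : Set X} (hA : Amb A) (hB : Amb B) : Amb (A ∩ B) :=
  ⟨hA.1.inter hB.1, by rw [compl_inter]; exact hA.2.union hB.2⟩

theorem Amb.union {A B : Set X} (hA : Amb A) (hB : Amb B) : Amb (A ∪ B) :=
  ⟨hA.1.union hB.1, by rw [compl_union]; exact hA.2.inter hB.2⟩

theorem Amb.of_isClopen {A : Set X} (h : IsClopen A) : Amb A :=
  ⟨(FunClosed.of_isClopen h).funAdd, (FunClosed.of_isClopen h.compl).funAdd⟩

theorem Amb.const (P : Prop) : Amb {_x : X | P} := by
  by_cases h : P
  · have : {_x : X | P} = Set.univ := by ext; simp [h]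
    rw [this]
    exact Amb.of_isClopen isClopen_univ
  · have : {_x : X | P} = ∅ := by ext; simp [h]
    rw [this]
    exact Amb.of_isClopen isClopen_empty

section Extension

open Classical in
/-- The partial sums of a series of multiples of indicator functions. -/
noncomputable def psum (T : ℕ → Set X) (n : ℕ) (x : X) : ℝ :=
  ∑ k ∈ Finset.range n, if x ∈ T k then (1 / 2 : ℝ) ^ (k + 1) else 0

theorem Amb.psum {T : ℕ → Set X} (hT : ∀ k, Amb (T k)) (n : ℕ) :
    ∀ P : ℝ → Prop, Amb {x | P (psum T n x)} := by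
  classical
  induction n with
  | zero =>
    intro P
    have : {x | P (K1.psum T 0 x)} = {_x : X | P 0} := by
      ext x
      simp [K1.psum]
    rw [this]
    exact Amb.const _
  | succ n ih =>
    intro P
    have : {x | P (K1.psum T (n + 1) x)} =
        (T n ∩ {x | P (K1.psum T n x + (1 / 2 : ℝ) ^ (n + 1))}) ∪
          ((T n)ᶜ ∩ {x | P (K1.psum T n x)}) := by
      ext x
      by_cases hx : x ∈ T n
      · simp [K1.psum, Finset.sum_range_succ, hx]
      · simp [K1.psum, Finset.sum_range_succ, hx]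
    rw [this]
    exact ((hT n).inter (ih fun t => P (t + (1 / 2 : ℝ) ^ (n + 1)))).union
      ((hT n).compl.inter (ih P))

open Classical in
/-- The residuals of the greedy binary expansion. -/
noncomputable def resid {E : Set X} (h : E → ℝ) : ℕ → E → ℝ
  | 0 => h
  | k + 1 => fun x => resid h k x -
      if (1 / 2 : ℝ) ^ (k + 1) ≤ resid h k x then (1 / 2 : ℝ) ^ (k + 1) else 0

open Classical in
/-- Every function on `E` with values in `[0, 1]` extends to a `K₁` function with values in
`[0, 1]`, if every subset of `E` is the trace of a set of both classes. -/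
theorem exists_ext01 {E : Set X} (hE : ∀ S : Set X, S ⊆ E → ∃ T, Amb T ∧ T ∩ E = S)
    (h : E → ℝ) (h01 : ∀ x, 0 ≤ h x ∧ h x ≤ 1) :
    ∃ g : X → ℝ, IsK1 g ∧ (∀ x, 0 ≤ g x ∧ g x ≤ 1) ∧ ∀ x : E, g x = h x := by
  let r : ℕ → E → ℝ := resid h
  have hr0 : r 0 = h := rfl
  have hrs : ∀ k x, r (k + 1) x = r k x - if (1 / 2 : ℝ) ^ (k + 1) ≤ r k x then
      (1 / 2 : ℝ) ^ (k + 1) else 0 := fun _ _ => rfl
  have hrb : ∀ k x, 0 ≤ r k x ∧ r k x ≤ (1 / 2) ^ k := by
    intro k
    induction k with
    | zero => simpa [hr0] using h01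
    | succ k ih =>
      intro x
      rw [hrs]
      have h1 : (1 / 2 : ℝ) ^ k = 2 * (1 / 2) ^ (k + 1) := by rw [pow_succ]; ring
      have h2 := ih x
      rw [h1] at h2
      by_cases hx : (1 / 2 : ℝ) ^ (k + 1) ≤ r k x
      · rw [if_pos hx]
        constructor <;> linarith
      · rw [if_neg hx]
        rw [not_le] at hx
        constructor <;> linarith
  let S : ℕ → Set X := fun k => Subtype.val '' {x : E | (1 / 2 : ℝ) ^ (k + 1) ≤ r k x}
  have h1 : ∀ k, ∃ T, Amb T ∧ T ∩ E = S k := fun k => hE (S k) (by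
    rintro _ ⟨x, -, rfl⟩
    exact x.2)
  choose T hT1 hT2 using h1
  have hTE : ∀ k (x : E), x.1 ∈ T k ↔ (1 / 2 : ℝ) ^ (k + 1) ≤ r k x := by
    intro k x
    constructor
    · intro hx
      have : x.1 ∈ S k := hT2 k ▸ ⟨hx, x.2⟩
      obtain ⟨y, hy, hyx⟩ := this
      rw [← Subtype.ext hyx]
      exact hy
    · intro hx
      have : x.1 ∈ T k ∩ E := by
        rw [hT2 k]
        exact ⟨x, hx, rfl⟩
      exact this.1
  have hs0 : Summable fun n : ℕ => (1 / 2 : ℝ) ^ (n + 1) :=
    (summable_nat_add_iff 1).2 (summable_geometric_of_lt_one (by norm_num) (by norm_num))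
  have hgeo : ∑' n : ℕ, (1 / 2 : ℝ) ^ (n + 1) = 1 := by
    have h3 := tsum_geometric_of_lt_one (r := (1 / 2 : ℝ)) (by norm_num) (by norm_num)
    simp_rw [pow_succ]
    rw [tsum_mul_right, h3]
    norm_num
  let a : X → ℕ → ℝ := fun x k => if x ∈ T k then (1 / 2 : ℝ) ^ (k + 1) else 0
  have ha : ∀ x k, 0 ≤ a x k ∧ a x k ≤ (1 / 2) ^ (k + 1) := by
    intro x k
    by_cases hx : x ∈ T k
    · simp only [a, if_pos hx]
      exact ⟨by positivity, le_rfl⟩
    · simp only [a, if_neg hx]
      exact ⟨le_rfl, by positivity⟩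
  have has : ∀ x, Summable (a x) := fun x =>
    Summable.of_nonneg_of_le (fun n => (ha x n).1) (fun n => (ha x n).2) hs0
  let g : X → ℝ := fun x => ∑' k, a x k
  have hgp : ∀ x n, |g x - psum T n x| ≤ (1 / 2) ^ n := by
    intro x n
    have h2 : g x = psum T n x + ∑' k, a x (k + n) := ((has x).sum_add_tsum_nat_add n).symm
    have h3 : 0 ≤ ∑' k, a x (k + n) := tsum_nonneg fun k => (ha x _).1
    have h4 : ∑' k, a x (k + n) ≤ (1 / 2) ^ n := by
      have h5 : Summable fun k => a x (k + n) := (summable_nat_add_iff n).2 (has x)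
      have h6 : ∑' k : ℕ, (1 / 2 : ℝ) ^ (k + n + 1) = (1 / 2) ^ n := by
        have : ∀ k : ℕ, (1 / 2 : ℝ) ^ (k + n + 1) = (1 / 2) ^ n * (1 / 2) ^ (k + 1) := by
          intro k
          rw [← pow_add]
          congr 1
          omega
        simp_rw [this]
        rw [tsum_mul_left, hgeo, mul_one]
      rw [← h6]
      exact h5.tsum_le_tsum (fun k => (ha x _).2) (by
        have := (summable_nat_add_iff n).2 hs0
        exact this)
    rw [h2, add_sub_cancel_left, abs_of_nonneg h3]
    exact h4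
  refine ⟨g, ?_, fun x => ⟨tsum_nonneg fun k => (ha x k).1, ?_⟩, fun x => ?_⟩
  · intro V hV
    have : g ⁻¹' V = ⋃ n : ℕ, {x | Metric.closedBall (psum T n x) ((1 / 2) ^ n) ⊆ V} := by
      ext x
      constructor
      · intro hx
        obtain ⟨ε, hε, hball⟩ := Metric.isOpen_iff.1 hV (g x) hx
        obtain ⟨n, hn⟩ := exists_pow_lt_of_lt_one (half_pos hε) (by norm_num : (1 / 2 : ℝ) < 1)
        refine mem_iUnion.2 ⟨n, fun t ht => hball ?_⟩
        rw [Metric.mem_closedBall, Real.dist_eq] at ht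
        rw [Metric.mem_ball, Real.dist_eq]
        have h2 := hgp x n
        calc |t - g x| = |(t - psum T n x) - (g x - psum T n x)| := by ring_nf
          _ ≤ |t - psum T n x| + |g x - psum T n x| := abs_sub _ _
          _ < ε := by linarith
      · intro hx
        obtain ⟨n, hn⟩ := mem_iUnion.1 hx
        refine hn ?_
        rw [Metric.mem_closedBall, Real.dist_eq]
        exact hgp x n
    rw [this]
    exact FunAdd.iUnion_nat fun n =>
      (Amb.psum hT1 n fun t => Metric.closedBall t ((1 / 2) ^ n) ⊆ V).1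
  · refine ((has x).tsum_le_tsum (fun k => (ha x k).2) hs0).trans hgeo.le
  · -- on `E` the expansion is correct
    have hpr : ∀ n, psum T n x + r n x = h x := by
      intro n
      induction n with
      | zero => simp [psum, hr0]
      | succ n ih =>
        rw [hrs]
        have h2 : psum T (n + 1) x.1 = psum T n x.1 +
            if (1 / 2 : ℝ) ^ (n + 1) ≤ r n x then (1 / 2 : ℝ) ^ (n + 1) else 0 := by
          simp only [psum, Finset.sum_range_succ, hTE n x]
        rw [h2]
        linarith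
    have hle : ∀ n, |g x - h x| ≤ 2 * (1 / 2 : ℝ) ^ n := by
      intro n
      have h2 := hgp x.1 n
      have h3 := hrb n x
      have h4 := hpr n
      calc |g x - h x| = |(g x - psum T n x) - r n x| := by rw [← h4]; ring_nf
        _ ≤ |g x - psum T n x| + |r n x| := abs_sub _ _
        _ ≤ _ := by rw [abs_of_nonneg h3.1]; linarith
    have hz : |g x - h x| ≤ 0 := by
      refine le_of_forall_pos_le_add fun ε hε => ?_
      obtain ⟨n, hn⟩ := exists_pow_lt_of_lt_one (half_pos hε) (by norm_num : (1 / 2 : ℝ) < 1)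
      have := hle n
      linarith
    have := abs_nonpos_iff.1 hz
    linarith

theorem k1StarEmbedded_of_trace {E : Set X}
    (hE : ∀ S : Set X, S ⊆ E → ∃ T, Amb T ∧ T ∩ E = S) : K1StarEmbedded E := by
  intro f _ hC
  obtain ⟨C, hC⟩ := hC
  let M : ℝ := |C| + 1
  have hM : 0 < M := by positivity
  have hfM : ∀ x, |f x| ≤ M := fun x => (hC x).trans ((le_abs_self C).trans (by simp [M]))
  obtain ⟨g, hg1, hg2, hg3⟩ := exists_ext01 hE (fun x => (f x + M) / (2 * M)) (by
    intro x
    have := abs_le.1 (hfM x)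
    constructor
    · apply div_nonneg <;> linarith
    · rw [div_le_one (by linarith)]
      linarith)
  refine ⟨fun x => 2 * M * g x - M, ?_, ⟨M, fun x => ?_⟩, fun x => ?_⟩
  · intro V hV
    have := hg1 ((fun t => 2 * M * t - M) ⁻¹' V) (hV.preimage (by fun_prop))
    exact this
  · rw [abs_le]
    have := hg2 x
    constructor <;> nlinarith
  · change 2 * M * g x.1 - M = f x
    rw [hg3 x]
    field_simp
    ring

end Extension

end Pool.Agent.X199.K1
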