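import Mathlib

set_option autoImplicit false

/-! Milman's partial converse of the Krein–Milman theorem. -/

namespace Pool.Agent.X199.Milman

open Set Topology Filter

variable {E : Type*} [AddCommGroup E] [Module ℝ E] [TopologicalSpace E]
  [IsTopologicalAddGroup E] [ContinuousSMul ℝ E]

theorem isCompact_join {A B : Set E} (hA : IsCompact A) (hB : IsCompact B) :
    IsCompact (convexJoin ℝ A B) := by
  have h1 : IsCompact (A ×ˢ (B ×ˢ (Icc (0 : ℝ) 1))) := hA.prod (hB.prod isCompact_Icc)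
  have h2 : convexJoin ℝ A B = (fun q : E × E × ℝ => (1 - q.2.2) • q.1 + q.2.2 • q.2.1) ''
      (A ×ˢ (B ×ˢ (Icc (0 : ℝ) 1))) := by
    ext x
    rw [mem_convexJoin]
    constructor
    · rintro ⟨a, ha, b, hb, s, t, hs, ht, hst, rfl⟩
      refine ⟨(a, b, t), ⟨ha, hb, ht, by linarith⟩, ?_⟩
      simp only
      rw [show 1 - t = s by linarith]
    · rintro ⟨⟨a, b, t⟩, ⟨ha, hb, ht0, ht1⟩, rfl⟩
      exact ⟨a, ha, b, hb, 1 - t, t, by simpa using ht1, ht0, by ring, rfl⟩
  rw [h2]
  exact h1.image (by fun_prop)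

theorem isCompact_union {S T : Set E} (hS : IsCompact (convexHull ℝ S))
    (hT : IsCompact (convexHull ℝ T)) : IsCompact (convexHull ℝ (S ∪ T)) := by
  rcases S.eq_empty_or_nonempty with rfl | hS0
  · simpa using hT
  rcases T.eq_empty_or_nonempty with rfl | hT0
  · simpa using hS
  rw [convexHull_union hS0 hT0]
  exact isCompact_join hS hT

theorem milman [LocallyConvexSpace ℝ E] [T2Space E] {K A : Set E} (hK : IsCompact K)
    (hKc : Convex ℝ K) (hA : IsClosed A) (hAK : A ⊆ K) (h : K ⊆ closure (convexHull ℝ A)) :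
    K.extremePoints ℝ ⊆ A := by
  intro x hx
  by_contra hxA
  have hAc : IsCompact A := hK.of_isClosed_subset hA hAK
  have key : ∃ T : Set E, A ⊆ T ∧ T ⊆ K ∧ x ∉ T ∧ IsCompact (convexHull ℝ T) := by
    refine hAc.induction_on (p := fun S => ∃ T : Set E, S ⊆ T ∧ T ⊆ K ∧ x ∉ T ∧
      IsCompact (convexHull ℝ T)) ?_ ?_ ?_ ?_
    · exact ⟨∅, Subset.rfl, empty_subset _, by simp, by simp⟩
    · rintro s t hst ⟨T, h1, h2⟩
      exact ⟨T, hst.trans h1, h2⟩
    · rintro s t ⟨T, h1, h2, h3, h4⟩ ⟨T', h1', h2', h3', h4'⟩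
      refine ⟨T ∪ T', union_subset_union h1 h1', union_subset h2 h2', ?_, isCompact_union h4 h4'⟩
      rintro (h | h)
      · exact h3 h
      · exact h3' h
    · intro a ha
      have hne : a ≠ x := by
        rintro rfl
        exact hxA ha
      have h1 : ({x}ᶜ : Set E) ∈ 𝓝 a := isOpen_compl_singleton.mem_nhds hne
      obtain ⟨W, hW1, hW2, hW3⟩ := exists_mem_nhds_isClosed_subset h1
      obtain ⟨V, ⟨hV1, hV2⟩, hV3⟩ := (LocallyConvexSpace.convex_basis (𝕜 := ℝ) a).mem_iff.mp hW1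
      have hVW : closure V ⊆ W := closure_minimal hV3 hW2
      refine ⟨closure V ∩ A, ?_, closure V ∩ K, ?_, inter_subset_right, ?_, ?_⟩
      · exact inter_mem (mem_nhdsWithin_of_mem_nhds (mem_of_superset hV1 subset_closure))
          self_mem_nhdsWithin
      · exact inter_subset_inter_right _ hAK
      · rintro ⟨h2, -⟩
        exact hW3 (hVW h2) rfl
      · rw [(hV2.closure.inter hKc).convexHull_eq]
        exact hK.inter_left isClosed_closure
  obtain ⟨T, h1, h2, h3, h4⟩ := key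
  have h5 : K = convexHull ℝ T := by
    apply Subset.antisymm
    · exact h.trans (closure_minimal (convexHull_mono h1) h4.isClosed)
    · exact convexHull_min h2 hKc
  rw [h5] at hx
  exact h3 (extremePoints_convexHull_subset hx)

/-- convex combinations of at most `n + 1` points of `A` -/
def cN (A : Set E) : ℕ → Set E
  | 0 => A
  | n + 1 => {m | ∃ p ∈ A, ∃ q ∈ cN A n, ∃ a b : ℝ, 0 ≤ a ∧ 0 ≤ b ∧ a + b = 1 ∧ m = a • p + b • q}

omit [TopologicalSpace E] [IsTopologicalAddGroup E] [ContinuousSMul ℝ E] in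
theorem subset_cN (A : Set E) (n : ℕ) : A ⊆ cN A n := by
  induction n with
  | zero => exact Subset.rfl
  | succ n ih =>
    intro p hp
    exact ⟨p, hp, p, ih hp, 1, 0, by norm_num, le_rfl, by norm_num, by simp⟩

omit [TopologicalSpace E] [IsTopologicalAddGroup E] [ContinuousSMul ℝ E] in
theorem cN_nonempty (A : Set E) (n : ℕ) (h : (cN A n).Nonempty) : A.Nonempty := by
  induction n with
  | zero => exact h
  | succ n ih =>
    obtain ⟨m, p, hp, -⟩ := h
    exact ⟨p, hp⟩

omit [TopologicalSpace E] [IsTopologicalAddGroup E] [ContinuousSMul ℝ E] in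
theorem cN_succ (A : Set E) (n : ℕ) : cN A n ⊆ cN A (n + 1) := by
  intro m hm
  obtain ⟨p, hp⟩ := cN_nonempty A n ⟨m, hm⟩
  exact ⟨p, hp, m, hm, 0, 1, le_rfl, by norm_num, by norm_num, by simp⟩

omit [TopologicalSpace E] [IsTopologicalAddGroup E] [ContinuousSMul ℝ E] in
theorem cN_mono {A : Set E} {m n : ℕ} (h : m ≤ n) : cN A m ⊆ cN A n :=
  monotone_nat_of_le_succ (cN_succ A) h

omit [TopologicalSpace E] [IsTopologicalAddGroup E] [ContinuousSMul ℝ E] in
theorem cN_subset_hull (A : Set E) (n : ℕ) : cN A n ⊆ convexHull ℝ A := by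
  induction n with
  | zero => exact subset_convexHull ℝ A
  | succ n ih =>
    rintro m ⟨p, hp, q, hq, a, b, ha, hb, hab, rfl⟩
    exact convex_convexHull ℝ A (subset_convexHull ℝ A hp) (ih hq) ha hb hab

omit [TopologicalSpace E] [IsTopologicalAddGroup E] [ContinuousSMul ℝ E] in
theorem cN_combo (A : Set E) (n k : ℕ) {x y : E} (hx : x ∈ cN A n) (hy : y ∈ cN A k) {a b : ℝ}
    (ha : 0 ≤ a) (hb : 0 ≤ b) (hab : a + b = 1) : ∃ l, a • x + b • y ∈ cN A l := by
  induction n generalizing x a b with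
  | zero => exact ⟨k + 1, x, hx, y, hy, a, b, ha, hb, hab, rfl⟩
  | succ n ih =>
    obtain ⟨p, hp, q, hq, s, t, hs, ht, hst, rfl⟩ := hx
    rcases (by positivity : 0 ≤ a * t + b).eq_or_lt with hc | hc
    · have hb0 : b = 0 := by nlinarith [mul_nonneg ha ht]
      have hat : a * t = 0 := by nlinarith [mul_nonneg ha ht]
      have ha1 : a = 1 := by linarith
      have ht0 : t = 0 := by rw [ha1] at hat; linarith
      have hs1 : s = 1 := by linarith
      refine ⟨0, ?_⟩
      rw [hb0, ha1, ht0, hs1]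
      simpa [cN] using hp
    · obtain ⟨l, hl⟩ := ih hq (a := a * t / (a * t + b)) (b := b / (a * t + b)) (by positivity)
        (by positivity) (by field_simp)
      refine ⟨l + 1, p, hp, _, hl, a * s, a * t + b, by positivity, hc.le, ?_, ?_⟩
      · calc a * s + (a * t + b) = a * (s + t) + b := by ring
          _ = 1 := by rw [hst, mul_one, hab]
      · rw [smul_add, smul_add (a * t + b), smul_smul, smul_smul, smul_smul, smul_smul,
          mul_div_cancel₀ _ hc.ne', mul_div_cancel₀ _ hc.ne', add_assoc]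

omit [TopologicalSpace E] [IsTopologicalAddGroup E] [ContinuousSMul ℝ E] in
theorem mem_hull_iff (A : Set E) (m : E) : m ∈ convexHull ℝ A ↔ ∃ n, m ∈ cN A n := by
  constructor
  · intro hm
    have h1 : Convex ℝ {m | ∃ n, m ∈ cN A n} := by
      rintro x ⟨n, hn⟩ y ⟨k, hk⟩ a b ha hb hab
      exact cN_combo A n k hn hk ha hb hab
    have h2 : A ⊆ {m | ∃ n, m ∈ cN A n} := fun x hx => ⟨0, hx⟩
    exact convexHull_min h2 h1 hm
  · rintro ⟨n, hn⟩
    exact cN_subset_hull A n hn

/-- the relation `m ∈ cN (X ∩ π⁻¹ y) n` is compact -/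
theorem isCompact_rel [T2Space E] {F : Type*} [TopologicalSpace F] [T2Space F] {X : Set E}
    (hX : IsCompact X) {π : E → F} (hπ : ContinuousOn π X) (n : ℕ) :
    IsCompact {q : F × E | q.2 ∈ cN (X ∩ π ⁻¹' {q.1}) n} := by
  induction n with
  | zero =>
    have : {q : F × E | q.2 ∈ cN (X ∩ π ⁻¹' {q.1}) 0} = (fun p => (π p, p)) '' X := by
      ext ⟨y, p⟩
      simp only [cN, mem_ofPred_eq, mem_inter_iff, mem_preimage, mem_singleton_iff, mem_image,
        Prod.mk.injEq]
      constructor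
      · rintro ⟨h1, h2⟩
        exact ⟨p, h1, h2, rfl⟩
      · rintro ⟨p', h1, h2, rfl⟩
        exact ⟨h1, h2⟩
    rw [this]
    exact hX.image_of_continuousOn (hπ.prodMk continuousOn_id)
  | succ n ih =>
    obtain ⟨W, hW⟩ : ∃ W, W = {q : F × E | q.2 ∈ cN (X ∩ π ⁻¹' {q.1}) n} := ⟨_, rfl⟩
    rw [← hW] at ih
    have hZ : IsCompact (X ×ˢ (W ×ˢ (Icc (0 : ℝ) 1))) := hX.prod (ih.prod isCompact_Icc)
    have hc : ContinuousOn (fun z : E × (F × E) × ℝ => (π z.1, z.2.1.1))
        (X ×ˢ (W ×ˢ (Icc (0 : ℝ) 1))) := by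
      apply ContinuousOn.prodMk
      · exact hπ.comp continuousOn_fst (fun z hz => hz.1)
      · exact (continuous_fst.comp (continuous_fst.comp continuous_snd)).continuousOn
    have hcl : IsClosed ((X ×ˢ (W ×ˢ (Icc (0 : ℝ) 1))) ∩
        (fun z : E × (F × E) × ℝ => (π z.1, z.2.1.1)) ⁻¹' (diagonal F)) :=
      hc.preimage_isClosed_of_isClosed hZ.isClosed isClosed_diagonal
    have hcomp := hZ.of_isClosed_subset hcl inter_subset_left
    have himg := hcomp.image (f := fun z : E × (F × E) × ℝ =>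
      ((z.2.1.1, (1 - z.2.2) • z.1 + z.2.2 • z.2.1.2) : F × E)) (by fun_prop)
    convert! himg using 1
    ext ⟨y, m⟩
    simp only [mem_ofPred_eq, mem_image]
    constructor
    · rintro ⟨p, ⟨hp1, hp2⟩, q, hq, a, b, ha, hb, hab, rfl⟩
      refine ⟨(p, (y, q), b), ⟨⟨hp1, by rw [hW]; exact hq, hb, by linarith⟩, hp2⟩, ?_⟩
      simp only
      rw [show 1 - b = a by linarith]
    · rintro ⟨⟨p, ⟨y', q⟩, b⟩, ⟨⟨hp1, hq, hb0, hb1⟩, hd⟩, heq⟩
      simp only [mem_preimage, mem_diagonal_iff] at hd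
      simp only [Prod.mk.injEq] at heq
      obtain ⟨rfl, rfl⟩ := heq
      rw [hW] at hq
      exact ⟨p, ⟨hp1, hd⟩, q, hq, 1 - b, b, by simpa using hb1, hb0, by ring, rfl⟩

end Pool.Agent.X199.Milman
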