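import Mathlib
import Pool.Agent.X199.RFrolik

/-!
# Ranks in the Rudin-Frolík preorder
-/

open Set Filter Topology

namespace Pool.Agent.X199.Kunen

open Pool.Agent.Results.MP_55c7a7_lc.FreeSemigroup (RK tens mem_tens mem_bind_iff fix_mem
  eq_of_forall map_congr_mem NonPrincipal singleton_not_mem)

/-- The well-founded part of the Rudin-Frolík preorder: the ultrafilters which admit no infinite
strictly decreasing sequence. -/
def WF : Set (Ultrafilter ℕ) :=
  {u | ¬ ∃ x : ℕ → Ultrafilter ℕ, x 0 = u ∧ ∀ n, RFlt (x (n + 1)) (x n)}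

lemma mem_WF_iff {u : Ultrafilter ℕ} : u ∈ WF ↔ Acc RFlt u := by
  rw [acc_iff_isEmpty_descending_chain]
  constructor
  · intro h
    exact ⟨fun x => h ⟨x.1, x.2.1, x.2.2⟩⟩
  · rintro h ⟨x, hx, hx'⟩
    exact h.false ⟨x, hx, hx'⟩

/-- The rank in the well-founded part. -/
noncomputable def rho (u : Ultrafilter ℕ) (hu : u ∈ WF) : Ordinal.{0} := (mem_WF_iff.1 hu).rank

/-- The recursive description of the rank: `rho u` is the supremum of `rho v + 1` over the
ultrafilters `v` strictly below `u` (which all are in the well-founded part). -/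
theorem rho_eq (u : Ultrafilter ℕ) (hu : u ∈ WF) :
    rho u hu = ⨆ v : {v : Ultrafilter ℕ // RFlt v u},
      Order.succ (rho v (mem_WF_iff.2 ((mem_WF_iff.1 hu).inv v.2))) :=
  Acc.rank_eq _

/-- The elements of rank `a` of the well-founded part. -/
def level (a : Ordinal.{0}) : Set (Ultrafilter ℕ) := {u | ∃ hu : u ∈ WF, rho u hu = a}

/-- `u` is a discretely weak P-point. -/
def DWP (u : Ultrafilter ℕ) : Prop :=
  NonPrincipal u ∧ ∀ D : Set (Ultrafilter ℕ), D.Countable → DiscreteTopology D →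
    (∀ d ∈ D, NonPrincipal d ∧ d ≠ u) → u ∉ closure D

lemma rho_lt {u v : Ultrafilter ℕ} (h : RFlt v u) (hu : u ∈ WF) (hv : v ∈ WF) :
    rho v hv < rho u hu :=
  Acc.rank_lt_of_rel (mem_WF_iff.1 hu) h

lemma mem_WF_of_lt {u v : Ultrafilter ℕ} (h : RFlt v u) (hu : u ∈ WF) : v ∈ WF :=
  mem_WF_iff.2 ((mem_WF_iff.1 hu).inv h)

lemma level_of_pred {u : Ultrafilter ℕ} (a : Ordinal.{0})
    (h : ∀ v, RFlt v u → ∃ hv : v ∈ WF, rho v hv ≤ a) (h' : ∃ v, RFlt v u ∧ v ∈ level a) :
    u ∈ level (Order.succ a) := by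
  have hu : u ∈ WF := mem_WF_iff.2 (Acc.intro u fun v hv => mem_WF_iff.1 (h v hv).1)
  refine ⟨hu, le_antisymm ?_ ?_⟩
  · rw [rho_eq]
    apply Ordinal.iSup_le
    rintro ⟨v, hv⟩
    exact Order.succ_le_succ (h v hv).2
  · obtain ⟨v, hv, hvW, hva⟩ := h'
    rw [← hva]
    exact Order.succ_le_of_lt (rho_lt hv hu hvW)

lemma level_zero {u : Ultrafilter ℕ} (h : ∀ v, ¬ RFlt v u) : u ∈ level 0 := by
  have hu : u ∈ WF := mem_WF_iff.2 (Acc.intro u fun v hv => absurd hv (h v))
  refine ⟨hu, ?_⟩
  rw [rho_eq]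
  apply le_antisymm
  · apply Ordinal.iSup_le
    rintro ⟨v, hv⟩
    exact absurd hv (h v)
  · exact zero_le

lemma rk_pure {u : Ultrafilter ℕ} {n : ℕ} (h : RK u (pure n)) : ∃ m, u = pure m := by
  obtain ⟨f, rfl⟩ := h
  exact ⟨f n, by simp⟩

lemma rfle_pure (m n : ℕ) : RFle (pure m) (pure n : Ultrafilter ℕ) := by
  have := rfle_map_inj (pure m) (Equiv.swap m n).injective
  simpa using this

lemma pure_level (n : ℕ) : (pure n : Ultrafilter ℕ) ∈ level 0 := by
  apply level_zero
  rintro v ⟨hv, hv'⟩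
  obtain ⟨m, rfl⟩ := rk_pure (rk_of_rfle hv)
  exact hv' (rfle_pure n m)

lemma not_rfle_pure {u : Ultrafilter ℕ} (hu : NonPrincipal u) (n : ℕ) : ¬ RFle u (pure n) := by
  intro h
  obtain ⟨m, hm⟩ := rk_pure (rk_of_rfle h)
  exact hu m hm

/-- Every nonprincipal ultrafilter is above the principal ones. -/
lemma pure_rfle {u : Ultrafilter ℕ} (hu : NonPrincipal u) (n : ℕ) : RFlt (pure n) u := by
  classical
  refine ⟨?_, not_rfle_pure hu n⟩
  -- a member of `u` with infinite complement
  obtain ⟨A, hA, hAinf⟩ : ∃ A ∈ u, (Aᶜ).Infinite := by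
    rcases Ultrafilter.mem_or_compl_mem u {k | Even k} with h | h
    · refine ⟨_, h, ?_⟩
      refine (infinite_range_of_injective (f := fun k : ℕ => 2 * k + 1) fun a b h => ?_).mono ?_
      · simp only at h; omega
      · rintro _ ⟨k, rfl⟩ hk
        have hk' : Even (2 * k + 1) := hk
        rw [Nat.even_iff] at hk'
        omega
    · refine ⟨_, h, ?_⟩
      rw [compl_compl]
      refine (infinite_range_of_injective (f := fun k : ℕ => 2 * k) fun a b h => ?_).mono ?_
      · simp only at h; omega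
      · rintro _ ⟨k, rfl⟩
        exact even_two_mul k
  let s := hAinf.natEmbedding
  refine rfle_iff.2 ⟨fun i => if i = n then u else pure (s i : ℕ),
    ⟨fun i => if i = n then A else {(s i : ℕ)}, ?_, ?_⟩, ?_⟩
  · intro i
    by_cases hi : i = n
    · simp only [if_pos hi]
      exact hA
    · simp only [if_neg hi]
      exact rfl
  · have hs : ∀ i, ((s i : ℕ)) ∉ A := fun i => (s i).2
    intro i j hij
    by_cases hi : i = n
    · have hj : j ≠ n := fun h => hij (hi.trans h.symm)
      simp only [if_pos hi, if_neg hj, Set.disjoint_singleton_right]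
      exact hs j
    · by_cases hj : j = n
      · simp only [if_neg hi, if_pos hj, Set.disjoint_singleton_left]
        exact hs i
      · simp only [if_neg hi, if_neg hj, Set.disjoint_singleton]
        intro h
        exact hij (s.injective (Subtype.ext h))
  · apply eq_of_forall
    intro S hS
    rw [mem_bind_iff]
    show n ∈ {i | S ∈ if i = n then u else pure (s i : ℕ)}
    simpa using hS

/-- If `x` is the limit of principal ultrafilters along `x`, then `x` is isomorphic to it. -/
lemma rfle_of_principal {x : Ultrafilter ℕ} (hx : NonPrincipal x) {g : ℕ → Ultrafilter ℕ}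
    (hg : Disj g) (h : {n | ¬ NonPrincipal (g n)} ∈ x) : RFle (x.bind g) x := by
  obtain ⟨c, hc, hcx⟩ := bind_principal h
  rw [hcx]
  refine (rfle_of_injOn (free_iff.2 hx) hc ?_).2
  intro i hi j hj hij
  have h1 : g i = g j := by
    have hi' : g i = pure (c i) := hi
    have hj' : g j = pure (c j) := hj
    rw [hi', hj', hij]
  exact (disj_iff.2 hg).1 h1

/-- Discretely weak P-points are minimal. -/
lemma principal_of_rflt {p : Ultrafilter ℕ} (hp : DWP p) {v : Ultrafilter ℕ} (h : RFlt v p) :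
    ¬ NonPrincipal v := by
  intro hv
  obtain ⟨h1, h2⟩ := h
  obtain ⟨g, hg, hpg⟩ := rfle_iff.1 h1
  by_cases hprin : {n | ¬ NonPrincipal (g n)} ∈ v
  · apply h2
    rw [hpg]
    exact rfle_of_principal hv hg hprin
  · have hnp : {n | NonPrincipal (g n)} ∈ v := by
      have := Ultrafilter.compl_mem_iff_notMem.2 hprin
      filter_upwards [this] with n hn
      by_contra hcon
      exact hn hcon
    obtain ⟨A, hA, hdis⟩ := hg
    have hne : ∀ n, g n ≠ p := by
      intro n hn
      have h3 : A n ∈ v.bind g := by rw [← hpg, ← hn]; exact hA n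
      rw [mem_bind_iff] at h3
      apply singleton_not_mem hv n
      filter_upwards [h3] with m hm
      exact (disj_mem hA hdis hm).symm
    refine hp.2 {d | ∃ n, NonPrincipal (g n) ∧ d = g n} ?_ ?_ ?_ ?_
    · refine (countable_range g).mono ?_
      rintro _ ⟨n, -, rfl⟩
      exact ⟨n, rfl⟩
    · apply discrete_of
      rintro _ ⟨n, -, rfl⟩
      refine ⟨A n, hA n, ?_⟩
      rintro _ ⟨m, -, rfl⟩ h4
      rw [disj_mem hA hdis h4]
    · rintro _ ⟨n, hn, rfl⟩
      exact ⟨hn, hne n⟩
    · rw [mem_closure_iff']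
      intro B hB
      rw [hpg, mem_bind_iff] at hB
      obtain ⟨n, hn, hn'⟩ := Ultrafilter.nonempty_of_mem (inter_mem hB hnp)
      exact ⟨g n, ⟨n, hn', rfl⟩, hn⟩

lemma level_one {p : Ultrafilter ℕ} (hp : NonPrincipal p)
    (h : ∀ v, RFlt v p → ¬ NonPrincipal v) : p ∈ level 1 := by
  have h1 := level_of_pred (u := p) 0 (fun v hv => ?_) ⟨pure 0, pure_rfle hp 0, pure_level 0⟩
  · simpa using h1
  · obtain ⟨m, rfl⟩ := principal_of_not (h v hv)
    obtain ⟨hW, hr⟩ := pure_level m
    exact ⟨hW, hr.le⟩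

/-- The limit of discretely weak P-points along a discretely weak P-point has rank two. -/
theorem level_two {u : Ultrafilter ℕ} {f : ℕ → Ultrafilter ℕ} (hf : Disj f) (hu : DWP u)
    (hfi : ∀ i, DWP (f i)) : u.bind f ∈ level 2 := by
  classical
  have h2 : (2 : Ordinal.{0}) = Order.succ 1 := by
    rw [Order.succ_eq_add_one]; norm_num
  rw [h2]
  refine level_of_pred 1 ?_ ⟨u, rflt_bind hf (univ_mem' fun i => (hfi i).1),
    level_one hu.1 fun v hv => principal_of_rflt hu hv⟩
  intro x hx
  by_cases hxp : NonPrincipal x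
  swap
  · obtain ⟨m, rfl⟩ := principal_of_not hxp
    obtain ⟨hW, hr⟩ := pure_level m
    exact ⟨hW, by rw [hr]; exact zero_le⟩
  -- it is enough to show that `x` is isomorphic to `u`
  suffices hiso : ∃ π : ℕ → ℕ, u = x.map π ∧ ∃ B ∈ x, InjOn π B by
    obtain ⟨π, hπ, B, hB, hinj⟩ := hiso
    have h3 := rfle_of_injOn (free_iff.2 hxp) hB hinj
    rw [← hπ] at h3
    obtain ⟨hW, hr⟩ := level_one hxp fun v hv => principal_of_rflt hu
      ⟨rfle_trans hv.1 h3.1, fun h4 => hv.2 (rfle_trans h3.1 h4)⟩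
    exact ⟨hW, hr.le⟩
  obtain ⟨hx1, hx2⟩ := hx
  obtain ⟨g, hg, hw⟩ := rfle_iff.1 hx1
  have hnp : {n | NonPrincipal (g n)} ∈ x := by
    by_contra hcon
    apply hx2
    rw [hw]
    apply rfle_of_principal hxp hg
    have := Ultrafilter.compl_mem_iff_notMem.2 hcon
    filter_upwards [this] with n hn
    exact hn
  obtain ⟨A, hA, hAdis⟩ := hf
  obtain ⟨B, hB, hBdis⟩ := hg
  by_cases h0 : {n | ∃ i, g n = f i} ∈ x
  · -- `g n` is one of the `f i`
    let π : ℕ → ℕ := fun n => if h : ∃ i, g n = f i then h.choose else 0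
    have hπ : ∀ n, (∃ i, g n = f i) → g n = f (π n) := by
      intro n hn
      simp only [π, dif_pos hn]
      exact hn.choose_spec
    refine ⟨π, ?_, _, h0, ?_⟩
    · apply bind_inj ⟨A, hA, hAdis⟩
      rw [hw, ← bind_pure, bind_assoc]
      apply bind_congr_mem
      filter_upwards [h0] with n hn
      show g n = (pure (π n) : Ultrafilter ℕ).bind f
      rw [hπ n hn]
      apply eq_of_forall
      intro s hs
      rw [mem_bind_iff]
      exact hs
    · intro n hn m hm hnm
      have : g n = g m := by rw [hπ n hn, hπ m hm, hnm]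
      have h5 : B n ∈ g m := by rw [← this]; exact hB n
      exact disj_mem hB hBdis h5
  exfalso
  by_cases h1 : {n | ∀ S ∈ g n, ∃ i, S ∈ f i} ∈ x
  · -- `g n` is a limit of the `f i`
    let y : ℕ → Ultrafilter ℕ := fun n =>
      if h : ∀ S ∈ g n, ∃ i, S ∈ f i then (exists_lim h).choose else pure 0
    have hy : ∀ n, (∀ S ∈ g n, ∃ i, S ∈ f i) → g n = (y n).bind f := by
      intro n hn
      simp only [y, dif_pos hn]
      exact (exists_lim hn).choose_spec
    have hux : u = x.bind y := by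
      apply bind_inj ⟨A, hA, hAdis⟩
      rw [hw, bind_assoc]
      exact bind_congr_mem (by filter_upwards [h1] with n hn using hy n hn)
    let N : Set ℕ := {n | (∀ S ∈ g n, ∃ i, S ∈ f i) ∧ ¬ ∃ i, g n = f i}
    have hN : N ∈ x := inter_mem h1 (Ultrafilter.compl_mem_iff_notMem.2 h0)
    let A' : ℕ → Set ℕ := fun n => {i | B n ∈ f i}
    have hA' : ∀ n ∈ N, ∀ m ∈ N, A' n ∈ y m ↔ n = m := by
      intro n hn m hm
      have : A' n ∈ y m ↔ B n ∈ g m := by
        rw [hy m hm.1, mem_bind_iff]
      rw [this]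
      constructor
      · exact disj_mem hB hBdis
      · rintro rfl
        exact hB n
    refine hu.2 {d | ∃ n ∈ N, d = y n} ?_ ?_ ?_ ?_
    · refine (countable_range y).mono ?_
      rintro _ ⟨n, -, rfl⟩
      exact ⟨n, rfl⟩
    · apply discrete_of
      rintro _ ⟨n, hn, rfl⟩
      refine ⟨A' n, (hA' n hn n hn).2 rfl, ?_⟩
      rintro _ ⟨m, hm, rfl⟩ h4
      rw [(hA' n hn m hm).1 h4]
    · rintro _ ⟨n, hn, rfl⟩
      constructor
      · intro i hi
        apply hn.2
        refine ⟨i, ?_⟩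
        rw [hy n hn.1, hi]
        symm
        apply eq_of_forall
        intro s hs
        rw [mem_bind_iff]
        exact hs
      · intro hyu
        have h5 : A' n ∈ x.bind y := by
          rw [← hux, ← hyu]
          exact (hA' n hn n hn).2 rfl
        rw [mem_bind_iff] at h5
        apply singleton_not_mem hxp n
        filter_upwards [h5, hN] with m hm hmN
        exact ((hA' n hn m hmN).1 hm).symm
    · rw [mem_closure_iff']
      intro S hS
      rw [hux, mem_bind_iff] at hS
      obtain ⟨n, hn, hn'⟩ := Ultrafilter.nonempty_of_mem (inter_mem hS hN)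
      exact ⟨y n, ⟨n, hn', rfl⟩, hn⟩
  · -- `g n` is not in the closure of the range of `f`
    let X : Set ℕ := {n | NonPrincipal (g n) ∧ ¬ ∀ S ∈ g n, ∃ i, S ∈ f i}
    have hX : X ∈ x := inter_mem hnp (Ultrafilter.compl_mem_iff_notMem.2 h1)
    obtain ⟨E, hE, hE'⟩ := separate (f := f) (g := g) (I := Set.univ) (X := X) (by
        intro i _
        have h6 := (hfi i).2 {d | ∃ n ∈ X, d = g n} ((countable_range g).mono (by
            rintro _ ⟨n, -, rfl⟩
            exact ⟨n, rfl⟩)) (by
            apply discrete_of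
            rintro _ ⟨n, hn, rfl⟩
            refine ⟨B n, hB n, ?_⟩
            rintro _ ⟨m, hm, rfl⟩ h4
            rw [disj_mem hB hBdis h4]) (by
            rintro _ ⟨n, hn, rfl⟩
            refine ⟨hn.1, fun h7 => hn.2 fun S hS => ⟨i, by rw [← h7]; exact hS⟩⟩)
        rw [mem_closure_iff'] at h6
        push Not at h6
        obtain ⟨S, hS, hSg⟩ := h6
        exact ⟨S, hS, fun n hn h8 => hSg _ ⟨n, hn, rfl⟩ h8⟩) (by
        intro n hn
        have := hn.2
        push Not at this
        obtain ⟨S, hS, hSf⟩ := this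
        exact ⟨S, hS, fun i _ => hSf i⟩)
    have h9 : E ∈ x.bind g := by
      rw [← hw, mem_bind_iff]
      exact univ_mem' fun i => hE i trivial
    rw [mem_bind_iff] at h9
    obtain ⟨n, hn, hn'⟩ := Ultrafilter.nonempty_of_mem (inter_mem h9 hX)
    exact hE' n hn' hn

end Pool.Agent.X199.Kunen
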