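import Mathlib
import Pool.Agent.W179.Erdos

set_option autoImplicit false

/-! A uniformly discrete unbounded metric space built from graphs of large girth and large
chromatic number. -/

namespace Pool.Agent.X199.GirthMetric

open Pool.Agent.W179.Erdos SimpleGraph

theorem exists_graph : ∃ (M : Type) (G : SimpleGraph M) (ℓ : M → ℕ),
    (∀ x, 1 ≤ ℓ x) ∧ (∀ x y, G.Adj x y → ℓ x = ℓ y) ∧
    (∀ n, ∃ x, ℓ x = n + 1) ∧
    (∀ (n : ℕ) (C : Type) [Fintype C] (c : M → C), Fintype.card C ≤ n →
      ∃ a b, G.Adj a b ∧ ℓ a = n + 1 ∧ c a = c b) ∧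
    (∀ n l f, FCyc G l f → ℓ (f 0) = n + 1 → n < l) := by
  classical
  choose V hV H hcol hcyc using fun n => erdos n n
  have hne : ∀ n, Nonempty (V n) := by
    intro n
    by_contra h
    rw [not_nonempty_iff] at h
    exact hcol n (Colorable.of_isEmpty n)
  let G : SimpleGraph (Σ n, V n) :=
    { Adj := fun x y => ∃ (k : ℕ) (u v : V k), x = ⟨k, u⟩ ∧ y = ⟨k, v⟩ ∧ (H k).Adj u v
      symm := ⟨by
        rintro _ _ ⟨k, u, v, rfl, rfl, h⟩
        exact ⟨k, v, u, rfl, rfl, h.symm⟩⟩
      loopless := ⟨by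
        rintro _ ⟨k, u, v, rfl, h1, h⟩
        cases h1
        exact h.ne rfl⟩ }
  have hG : ∀ n (u v : V n), G.Adj ⟨n, u⟩ ⟨n, v⟩ → (H n).Adj u v := by
    rintro n u v ⟨k, u', v', h1, h2, h⟩
    cases h1
    cases h2
    exact h
  refine ⟨Σ n, V n, G, fun x => x.1 + 1, fun x => Nat.le_add_left _ _, ?_, ?_, ?_, ?_⟩
  · rintro _ _ ⟨k, u, v, rfl, rfl, h⟩
    rfl
  · intro n
    obtain ⟨u⟩ := hne n
    exact ⟨⟨n, u⟩, rfl⟩
  · intro n C _ c hC
    by_contra hno
    push Not at hno
    apply hcol n
    have : (H n).Coloring C := Coloring.mk (fun u => c ⟨n, u⟩) (by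
      intro u v huv
      exact hno ⟨n, u⟩ ⟨n, v⟩ ⟨n, u, v, rfl, rfl, huv⟩ rfl)
    exact this.colorable.mono hC
  · intro n l f hf h0
    have h0' : (f 0).1 = n := by simpa using h0
    have hl : ∀ i, i < l → (f i).1 = n := by
      intro i
      induction i with
      | zero => intro _; exact h0'
      | succ i ih =>
        intro hi
        obtain ⟨k, u, v, h1, h2, h⟩ := hf.adj i hi
        have := ih (by omega)
        rw [h1] at this
        rw [h2]
        exact this
    obtain ⟨u0⟩ := hne n
    have : ∀ i, ∃ u : V n, i < l → f i = ⟨n, u⟩ := by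
      intro i
      by_cases hi : i < l
      · have := hl i hi
        rcases h : f i with ⟨m, u⟩
        rw [h] at this
        simp only at this
        subst this
        exact ⟨u, fun _ => rfl⟩
      · exact ⟨u0, fun h => absurd h hi⟩
    choose g hg using this
    refine hcyc n l g ⟨hf.three, ?_, ?_, ?_⟩
    · intro i hi j hj hij
      apply hf.inj i hi j hj
      rw [hg i hi, hg j hj, hij]
    · intro i hi
      have := hf.adj i hi
      rw [hg i (by omega), hg (i + 1) hi] at this
      exact hG _ _ _ this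
    · have h3 := hf.three
      have := hf.close
      rw [hg (l - 1) (by omega), hg 0 (by omega)] at this
      exact hG _ _ _ this

section metric

variable {M : Type} (G : SimpleGraph M) (ℓ : M → ℕ)

/-- the path distance, replaced by the maximum of the levels when this is smaller -/
noncomputable def dd (x y : M) : ℕ := (min (G.edist x y) ((max (ℓ x) (ℓ y) : ℕ) : ℕ∞)).toNat

theorem coe_dd (x y : M) :
    ((dd G ℓ x y : ℕ) : ℕ∞) = min (G.edist x y) ((max (ℓ x) (ℓ y) : ℕ) : ℕ∞) := by
  unfold dd
  apply ENat.natCast_toNat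
  apply ne_top_of_le_ne_top (ENat.natCast_ne_top _) (min_le_right _ _)

theorem dd_self (x : M) : dd G ℓ x x = 0 := by
  unfold dd
  simp

theorem dd_comm (x y : M) : dd G ℓ x y = dd G ℓ y x := by
  unfold dd
  rw [G.edist_comm, max_comm]

theorem dd_cases (hℓ : ∀ x y, G.Adj x y → ℓ x = ℓ y) (x y : M) :
    (∃ p : G.Walk x y, p.length = dd G ℓ x y ∧ ℓ x = ℓ y) ∨ dd G ℓ x y = max (ℓ x) (ℓ y) := by
  rcases le_total (G.edist x y) ((max (ℓ x) (ℓ y) : ℕ) : ℕ∞) with h | h
  · left
    have h1 := coe_dd G ℓ x y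
    rw [min_eq_left h] at h1
    obtain ⟨p, hp⟩ := exists_walk_of_edist_eq_coe h1.symm
    refine ⟨p, hp, ?_⟩
    have key : ∀ {a b : M} (q : G.Walk a b), ℓ a = ℓ b := by
      intro a b q
      induction q with
      | nil => rfl
      | cons h _ ih => rw [hℓ _ _ h, ih]
    exact key p
  · right
    have h1 := coe_dd G ℓ x y
    rw [min_eq_right h] at h1
    exact_mod_cast h1

theorem dd_le_walk {x y : M} (p : G.Walk x y) : dd G ℓ x y ≤ p.length := by
  have h1 := coe_dd G ℓ x y
  have h2 : G.edist x y ≤ p.length := edist_le p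
  have : ((dd G ℓ x y : ℕ) : ℕ∞) ≤ p.length := by
    rw [h1]; exact (min_le_left _ _).trans h2
  exact_mod_cast this

theorem dd_le_max (x y : M) : dd G ℓ x y ≤ max (ℓ x) (ℓ y) := by
  have h1 := coe_dd G ℓ x y
  have : ((dd G ℓ x y : ℕ) : ℕ∞) ≤ ((max (ℓ x) (ℓ y) : ℕ) : ℕ∞) := by
    rw [h1]; exact min_le_right _ _
  exact_mod_cast this

theorem dd_triangle (hℓ : ∀ x y, G.Adj x y → ℓ x = ℓ y) (x y z : M) :
    dd G ℓ x z ≤ dd G ℓ x y + dd G ℓ y z := by
  have hm := dd_le_max G ℓ x z
  rcases dd_cases G ℓ hℓ x y with ⟨p, hp, h1⟩ | h1 <;>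
    rcases dd_cases G ℓ hℓ y z with ⟨q, hq, h2⟩ | h2
  · have := dd_le_walk G ℓ (p.append q)
    rw [Walk.length_append] at this
    omega
  · rw [h1] at hm
    omega
  · rw [← h2] at hm
    omega
  · omega

theorem dd_pos (h1 : ∀ x, 1 ≤ ℓ x) {x y : M} (hxy : x ≠ y) : 1 ≤ dd G ℓ x y := by
  by_contra h
  have h0 : dd G ℓ x y = 0 := by omega
  have h2 := coe_dd G ℓ x y
  rw [h0] at h2
  have h3 : (0 : ℕ∞) < G.edist x y := edist_pos_of_ne hxy
  have h4 : (0 : ℕ∞) < ((max (ℓ x) (ℓ y) : ℕ) : ℕ∞) := by
    have := h1 x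
    have : 0 < max (ℓ x) (ℓ y) := by omega
    exact_mod_cast this
  have h5 := lt_min h3 h4
  rw [← h2] at h5
  simp at h5

/-- the metric space -/
@[reducible] noncomputable def metric (h1 : ∀ x, 1 ≤ ℓ x)
    (hℓ : ∀ x y, G.Adj x y → ℓ x = ℓ y) : MetricSpace M where
  dist x y := (dd G ℓ x y : ℝ)
  dist_self x := by rw [dd_self]; simp
  dist_comm x y := by rw [dd_comm]
  dist_triangle x y z := by exact_mod_cast dd_triangle G ℓ hℓ x y z
  eq_of_dist_eq_zero := by
    intro x y h
    by_contra hxy
    have := dd_pos G ℓ h1 hxy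
    have h0 : dd G ℓ x y = 0 := by exact_mod_cast h
    omega

end metric

/-- the cut function of an edge lying on no short cycle -/
theorem exists_cut {M : Type} (G : SimpleGraph M) {a b : M} (hab : G.Adj a b) {n : ℕ}
    (hn : ∀ l f, FCyc G l f → f 0 = a → n < l) {ε : ℝ} (hε : 0 < ε) (hne : 1 ≤ ε * n) :
    ∃ h : M → ℝ, (∀ x, 0 ≤ h x ∧ h x ≤ 1) ∧ h a = 0 ∧ h b = 1 ∧
      (∀ x y, G.Adj x y → s(x, y) ≠ s(a, b) → |h x - h y| ≤ ε) ∧
      (∀ x, h x ≠ 1 → G.Reachable a x) := by
  classical
  let G' := G.deleteEdges {s(a, b)}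
  let h : M → ℝ := fun x => if G'.Reachable a x then min 1 (ε * G'.dist a x) else 1
  have hle : G' ≤ G := deleteEdges_le _
  refine ⟨h, ?_, ?_, ?_, ?_, ?_⟩
  · intro x
    by_cases hx : G'.Reachable a x
    · simp only [h, hx, if_true]
      exact ⟨le_min zero_le_one (by positivity), min_le_left _ _⟩
    · simp only [h, hx, if_false]
      norm_num
  · have : G'.Reachable a a := Reachable.refl _
    simp only [h, this, if_true]
    simp
  · by_cases hx : G'.Reachable a b
    · simp only [h, hx, if_true]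
      apply min_eq_left
      obtain ⟨p, hp, hlen⟩ := hx.exists_path_of_dist
      rw [← hlen]
      have hl2 : 2 ≤ p.length := by
        by_contra hlt
        have h1 : p.length = 0 ∨ p.length = 1 := by omega
        rcases h1 with h1 | h1
        · exact hab.ne (Walk.eq_of_length_eq_zero h1)
        · have := Walk.adj_of_length_eq_one h1
          rw [deleteEdges_adj] at this
          exact this.2 rfl
      have hcyc : FCyc G (p.length + 1) p.getVert := by
        refine ⟨by omega, ?_, ?_, ?_⟩
        · intro i hi j hj hij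
          exact hp.getVert_injOn (by simp; omega) (by simp; omega) hij
        · intro i hi
          exact hle (p.adj_getVert_succ (by omega))
        · rw [Nat.add_sub_cancel, Walk.getVert_length, Walk.getVert_zero]
          exact hab.symm
      have := hn _ _ hcyc (Walk.getVert_zero _)
      have h3 : (n : ℝ) ≤ p.length := by
        have : n ≤ p.length := by omega
        exact_mod_cast this
      nlinarith
    · simp only [h, hx, if_false]
  · intro x y hxy hne'
    have hadj : G'.Adj x y := by
      rw [deleteEdges_adj]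
      exact ⟨hxy, hne'⟩
    by_cases hx : G'.Reachable a x
    · have hy : G'.Reachable a y := hx.trans hadj.reachable
      simp only [h, hx, hy, if_true]
      have h1 : G'.dist a y ≤ G'.dist a x + 1 := by
        have := Reachable.dist_triangle_left hx y
        rw [SimpleGraph.dist_eq_one_iff_adj.mpr hadj] at this
        exact this
      have h2 : G'.dist a x ≤ G'.dist a y + 1 := by
        have := Reachable.dist_triangle_left hy x
        rw [SimpleGraph.dist_eq_one_iff_adj.mpr hadj.symm] at this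
        exact this
      have h1' : (G'.dist a y : ℝ) ≤ G'.dist a x + 1 := by exact_mod_cast h1
      have h2' : (G'.dist a x : ℝ) ≤ G'.dist a y + 1 := by exact_mod_cast h2
      have h3 : |ε * G'.dist a x - ε * G'.dist a y| ≤ ε := by
        rw [abs_le]
        constructor <;> nlinarith
      calc |min 1 (ε * (G'.dist a x : ℝ)) - min 1 (ε * (G'.dist a y : ℝ))|
          ≤ max |(1 : ℝ) - 1| |ε * G'.dist a x - ε * G'.dist a y| := abs_min_sub_min_le_max _ _ _ _
        _ ≤ ε := by
          rw [sub_self, abs_zero]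
          exact max_le hε.le h3
    · have hy : ¬ G'.Reachable a y := fun hy => hx (hy.trans hadj.symm.reachable)
      simp only [h, hx, hy, if_false]
      simp [hε.le]
  · intro x hx
    by_contra hno
    apply hx
    have : ¬ G'.Reachable a x := fun hh => hno (hh.mono hle)
    simp only [h, this, if_false]

end Pool.Agent.X199.GirthMetric
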