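import Mathlib
import Pool.Agent.Helper639.AL

set_option autoImplicit false

open Set Topology Filter

namespace Pool.Agent.X199.Ebl

open Pool.Agent.Helper639.Ebl (sq_continuous sq_le_one sq_inj)

theorem closure_approx {Y : Type} (B : Set (Y → ℝ)) (g : Y → ℝ) (hg : g ∈ closure B)
    (F : Finset Y) (ε : ℝ) (hε : 0 < ε) : ∃ f ∈ B, ∀ y ∈ F, |f y - g y| < ε := by
  have hU : IsOpen {h : Y → ℝ | ∀ t ∈ F, |h t - g t| < ε} := by
    have : {h : Y → ℝ | ∀ t ∈ F, |h t - g t| < ε} = ⋂ t ∈ F, {h : Y → ℝ | |h t - g t| < ε} := by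
      ext; simp
    rw [this]
    refine isOpen_biInter_finset fun t _ => ?_
    exact isOpen_lt ((continuous_apply t).sub continuous_const).abs continuous_const
  obtain ⟨h, hh, hB⟩ := mem_closure_iff.1 hg _ hU (by intro t _; simpa using hε)
  exact ⟨h, hB, hh⟩

/-- a double limit argument -/
theorem dl {S Y : Type} [TopologicalSpace Y] (φ : S → Y → ℝ) (hφ : ∀ s, Continuous (φ s))
    (hY : ∀ y : ℕ → Y, ∃ a, MapClusterPt a atTop y)
    (hS : ∀ (s : ℕ → S) (z : ℕ → Y), ∃ b : Y → ℝ, Continuous b ∧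
      ∀ (N : ℕ) (ε : ℝ), 0 < ε → ∃ᶠ n in atTop, ∀ i ≤ N, |φ (s n) (z i) - b (z i)| < ε)
    (g : Y → ℝ) (hg : g ∈ closure (range φ)) : Continuous g := by
  classical
  rw [continuous_iff_continuousAt]
  intro y0
  rw [ContinuousAt, Metric.tendsto_nhds]
  by_contra hcon
  push Not at hcon
  obtain ⟨ε, hε, hfr⟩ := hcon
  have hfr' : ∀ U ∈ 𝓝 y0, ∃ y ∈ U, ε ≤ |g y - g y0| := by
    intro U hU
    obtain ⟨y, hy1, hy2⟩ := (hfr.and_eventually hU).exists
    exact ⟨y, hy2, by rw [← Real.dist_eq]; exact hy1⟩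
  let P : ℕ × S × Y → Prop := fun p => |φ p.2.1 y0 - g y0| < 1 / ((p.1 : ℝ) + 1) ∧
    ε ≤ |g p.2.2 - g y0|
  let R : ℕ × S × Y → ℕ × S × Y → Prop := fun p q => p.1 < q.1 ∧
    |φ q.2.1 p.2.2 - g p.2.2| < 1 / ((q.1 : ℝ) + 1) ∧
    |φ p.2.1 q.2.2 - φ p.2.1 y0| < 1 / ((q.1 : ℝ) + 1)
  obtain ⟨f, hf1, hf2⟩ := exists_seq_of_forall_finset_exists P R (by
    intro F _
    let k : ℕ := F.sup (fun p => p.1) + 1
    have hk : (0 : ℝ) < 1 / ((k : ℝ) + 1) := by positivity
    obtain ⟨h, ⟨s, rfl⟩, hs⟩ := closure_approx _ g hg (insert y0 (F.image fun p => p.2.2)) _ hk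
    have hU : {y | ∀ p ∈ F, |φ p.2.1 y - φ p.2.1 y0| < 1 / ((k : ℝ) + 1)} ∈ 𝓝 y0 := by
      have h1 : ∀ p ∈ F, ∀ᶠ y in 𝓝 y0, |φ p.2.1 y - φ p.2.1 y0| < 1 / ((k : ℝ) + 1) := by
        intro p _
        have := Metric.tendsto_nhds.1 ((hφ p.2.1).tendsto y0) _ hk
        simpa [Real.dist_eq] using this
      exact (Filter.eventually_all_finset F).2 h1
    obtain ⟨y, hy1, hy2⟩ := hfr' _ hU
    refine ⟨(k, s, y), ⟨hs y0 (Finset.mem_insert_self _ _), hy2⟩, fun p hp => ⟨?_, ?_, ?_⟩⟩
    · have : p.1 ≤ F.sup (fun p => p.1) := Finset.le_sup (f := fun p : ℕ × S × Y => p.1) hp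
      show p.1 < F.sup (fun p => p.1) + 1
      omega
    · exact hs _ (Finset.mem_insert_of_mem (Finset.mem_image_of_mem _ hp))
    · exact hy1 p hp)
  have hk : ∀ n, n ≤ (f n).1 := by
    have hm : StrictMono (fun n => (f n).1) := strictMono_nat_of_lt_succ fun n =>
      (hf2 n (n + 1) (Nat.lt_succ_self n)).1
    exact hm.id_le
  have hk' : ∀ n, 1 / (((f n).1 : ℝ) + 1) ≤ 1 / ((n : ℝ) + 1) := by
    intro n
    have : (n : ℝ) ≤ (f n).1 := by exact_mod_cast hk n
    exact one_div_le_one_div_of_le (by positivity) (by linarith)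
  have hlim : Tendsto (fun n : ℕ => 1 / ((n : ℝ) + 1)) atTop (𝓝 0) :=
    tendsto_one_div_add_atTop_nhds_zero_nat
  have hlim' : ∀ (u : ℕ → ℝ) (c : ℝ), (∀ᶠ n in atTop, |u n - c| < 1 / (((f n).1 : ℝ) + 1)) →
      Tendsto u atTop (𝓝 c) := by
    intro u c h
    rw [Metric.tendsto_nhds]
    intro δ hδ
    filter_upwards [h, hlim.eventually (gt_mem_nhds hδ)] with n h1 h2
    rw [Real.dist_eq]
    exact (h1.trans_le (hk' n)).trans h2
  -- the limits
  have h1 : ∀ i, Tendsto (fun n => φ (f n).2.1 (f i).2.2) atTop (𝓝 (g (f i).2.2)) := by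
    intro i
    refine hlim' _ _ ?_
    filter_upwards [eventually_gt_atTop i] with n hn
    exact (hf2 i n hn).2.1
  have h2 : Tendsto (fun n => φ (f n).2.1 y0) atTop (𝓝 (g y0)) := by
    refine hlim' _ _ ?_
    exact Eventually.of_forall fun n => (hf1 n).1
  have h3 : ∀ i, Tendsto (fun n => φ (f i).2.1 (f n).2.2) atTop (𝓝 (φ (f i).2.1 y0)) := by
    intro i
    refine hlim' _ _ ?_
    filter_upwards [eventually_gt_atTop i] with n hn
    exact (hf2 i n hn).2.2
  have huniq : ∀ (u : ℕ → ℝ) (a c : ℝ), MapClusterPt a atTop u → Tendsto u atTop (𝓝 c) → a = c := by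
    intro u a c ha hc
    have h : ClusterPt a (𝓝 c) := ClusterPt.mono ha hc
    exact eq_of_nhds_neBot h
  obtain ⟨a, ha⟩ := hY (fun n => (f n).2.2)
  have h4 : ∀ i, φ (f i).2.1 a = φ (f i).2.1 y0 := by
    intro i
    exact huniq _ _ _ (ha.continuousAt_comp (hφ _).continuousAt) (h3 i)
  let z : ℕ → Y := fun n => if n = 0 then y0 else if n = 1 then a else (f (n - 2)).2.2
  obtain ⟨b, hb, hbs⟩ := hS (fun n => (f n).2.1) z
  have hb0 : ∀ i, ∀ c : ℝ, Tendsto (fun n => φ (f n).2.1 (z i)) atTop (𝓝 c) → b (z i) = c := by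
    intro i c hc
    by_contra hne
    have hd : 0 < |b (z i) - c| / 2 := by
      have := abs_pos.2 (sub_ne_zero.2 hne)
      linarith
    have h5 : ∀ᶠ n in atTop, |φ (f n).2.1 (z i) - c| < |b (z i) - c| / 2 := by
      have := Metric.tendsto_nhds.1 hc _ hd
      simpa [Real.dist_eq] using this
    obtain ⟨n, hn1, hn2⟩ := ((hbs i _ hd).and_eventually h5).exists
    have h6 := hn1 i le_rfl
    have h7 : |b (z i) - c| ≤ |φ (f n).2.1 (z i) - b (z i)| + |φ (f n).2.1 (z i) - c| := by
      have := abs_sub_le (b (z i)) (φ (f n).2.1 (z i)) c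
      rw [abs_sub_comm (b (z i)) (φ (f n).2.1 (z i))] at this
      exact this
    linarith
  have hz0 : z 0 = y0 := by simp [z]
  have hz1 : z 1 = a := by simp [z]
  have hz2 : ∀ i, z (i + 2) = (f i).2.2 := by intro i; simp [z]
  have hby0 : b y0 = g y0 := by
    have := hb0 0 (g y0) (by rw [hz0]; exact h2)
    rwa [hz0] at this
  have hbyi : ∀ i, b (f i).2.2 = g (f i).2.2 := by
    intro i
    have := hb0 (i + 2) (g (f i).2.2) (by rw [hz2]; exact h1 i)
    rwa [hz2] at this
  have hba : b a = g y0 := by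
    have := hb0 1 (g y0) (by
      rw [hz1]
      have h8 : (fun n => φ (f n).2.1 a) = fun n => φ (f n).2.1 y0 := funext h4
      rw [h8]; exact h2)
    rwa [hz1] at this
  have h9 : MapClusterPt (b a) atTop (fun n => b (f n).2.2) :=
    ha.continuousAt_comp hb.continuousAt
  have h10 := h9.frequently (Metric.ball_mem_nhds (b a) hε)
  obtain ⟨n, hn⟩ := h10.exists
  have h11 : |b (f n).2.2 - b a| < ε := by rw [← Real.dist_eq]; exact hn
  rw [hbyi, hba] at h11
  exact absurd (hf1 n).2 (not_le.2 h11)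

/-- bounded sets and sequences of functions -/
theorem mb {X : Type} [TopologicalSpace X] (A : Set X)
    (hA : ∀ f : X → ℝ, Continuous f → ∃ C : ℝ, ∀ x ∈ A, |f x| ≤ C)
    (f : ℕ → X → ℝ) (hf : ∀ k, Continuous (f k)) (x : ℕ → X) (hx : ∀ n, x n ∈ A) :
    ∃ p : X, MapClusterPt (fun k => f k p) atTop (fun n k => f k (x n)) := by
  choose C hC using fun k => hA (f k) (hf k)
  have hcomp : IsCompact (Set.pi univ fun k => Icc (-(C k)) (C k)) :=
    isCompact_univ_pi fun k => isCompact_Icc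
  obtain ⟨z, -, hz⟩ := (isCountablyCompact_iff_seq_clusterPt.1 hcomp.isCountablyCompact)
    (fun n k => f k (x n)) (Eventually.of_forall fun n k _ => abs_le.1 (hC k _ (hx n)))
  by_cases hp : ∃ p : X, (fun k => f k p) = z
  · obtain ⟨p, hp⟩ := hp
    exact ⟨p, by rw [hp]; exact hz⟩
  · exfalso
    push Not at hp
    let _ := TopologicalSpace.metrizableSpaceMetric (ℕ → ℝ)
    have hcont : Continuous (fun p : X => (fun k => f k p : ℕ → ℝ)) := continuous_pi hf
    have hpos : ∀ p, 0 < dist (fun k => f k p : ℕ → ℝ) z := fun p => dist_pos.2 (hp p)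
    obtain ⟨M, hM⟩ := hA (fun p => 1 / dist (fun k => f k p : ℕ → ℝ) z)
      (continuous_const.div (hcont.dist continuous_const) fun p => (hpos p).ne')
    have hM1 : 0 < |M| + 1 := by positivity
    have h1 := hz.frequently (Metric.ball_mem_nhds z (one_div_pos.2 hM1))
    obtain ⟨n, hn⟩ := h1.exists
    have h2 : dist (fun k => f k (x n) : ℕ → ℝ) z < 1 / (|M| + 1) := hn
    have h3 := hM (x n) (hx n)
    rw [abs_of_pos (one_div_pos.2 (hpos _))] at h3
    have h4 : |M| + 1 < 1 / dist (fun k => f k (x n) : ℕ → ℝ) z := by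
      rw [lt_div_iff₀ (hpos _)]
      rw [lt_div_iff₀ hM1] at h2
      linarith [mul_comm (|M| + 1) (dist (fun k => f k (x n) : ℕ → ℝ) z)]
    have h5 := le_abs_self M
    linarith

theorem main (X : Type) [TopologicalSpace X] (A : ℕ → Set X)
    (hA : ∀ n, ∀ f : X → ℝ, Continuous f → ∃ C : ℝ, ∀ x ∈ A n, |f x| ≤ C)
    (hD : Dense (⋃ n, A n)) (K : Set (X → ℝ)) (hK : ∀ f ∈ K, Continuous f)
    (hcc : IsCountablyCompact K) :
    IsCompact K ∧
      ∃ (Γ : Type) (e : K → (Γ → ℝ)), Topology.IsEmbedding e ∧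
        ∀ k : K, ∀ ε : ℝ, 0 < ε → {γ : Γ | ε ≤ |e k γ|}.Finite := by
  classical
  have hY : ∀ y : ℕ → K, ∃ a, MapClusterPt a atTop y := by
    have h := isCountablyCompact_iff_isCountablyCompact_univ.1 hcc
    intro y
    obtain ⟨a, -, ha⟩ := isCountablyCompact_iff_seq_clusterPt.1 h y
      (Eventually.of_forall fun n => mem_univ _)
    exact ⟨a, ha⟩
  let φ : (Σ n, A n) → K → ℝ := fun s y => Helper639.Ebl.sq (y.1 s.2.1) / ((s.1 : ℝ) + 1)
  have hev : ∀ x : X, Continuous (fun y : K => y.1 x) := fun x =>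
    (continuous_apply x).comp continuous_subtype_val
  have hφ : ∀ s, Continuous (φ s) := fun s => (sq_continuous.comp (hev _)).div_const _
  have hφb : ∀ s y, |φ s y| ≤ 1 / ((s.1 : ℝ) + 1) := by
    intro s y
    have h0 : (0 : ℝ) < (s.1 : ℝ) + 1 := by positivity
    show |Helper639.Ebl.sq (y.1 s.2.1) / ((s.1 : ℝ) + 1)| ≤ _
    rw [abs_div, abs_of_pos h0]
    exact div_le_div_of_nonneg_right (sq_le_one _) h0.le
  have hφ1 : ∀ s y, |φ s y| ≤ 1 := by
    intro s y
    refine (hφb s y).trans ?_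
    rw [div_le_one (by positivity)]
    have : (0 : ℝ) ≤ s.1 := Nat.cast_nonneg _
    linarith
  have hS : ∀ (s : ℕ → Σ n, A n) (z : ℕ → K), ∃ b : K → ℝ, Continuous b ∧
      ∀ (N : ℕ) (ε : ℝ), 0 < ε → ∃ᶠ n in atTop, ∀ i ≤ N, |φ (s n) (z i) - b (z i)| < ε := by
    intro s z
    by_cases hub : ∀ M : ℕ, ∃ᶠ n in atTop, M ≤ (s n).1
    · refine ⟨fun _ => 0, continuous_const, fun N ε hε => ?_⟩
      obtain ⟨M, hM⟩ := exists_nat_one_div_lt hε
      refine (hub M).mono fun n hn i _ => ?_
      rw [sub_zero]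
      refine ((hφb _ _).trans ?_).trans_lt hM
      have : (M : ℝ) ≤ (s n).1 := by exact_mod_cast hn
      exact one_div_le_one_div_of_le (by positivity) (by linarith)
    · push Not at hub
      obtain ⟨M, hM⟩ := hub
      obtain ⟨m, hm⟩ : ∃ m, ∃ᶠ n in atTop, (s n).1 = m := by
        by_contra hcon
        push Not at hcon
        have h1 : ∀ᶠ n in atTop, ∀ m ∈ Finset.range M, (s n).1 ≠ m :=
          (Filter.eventually_all_finset _).2 fun m _ => hcon m
        obtain ⟨n, hn1, hn2⟩ := (hM.and h1).exists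
        exact hn2 _ (Finset.mem_range.2 hn1) rfl
      obtain ⟨ψ, hψ, hψm⟩ := Filter.extraction_of_frequently_atTop hm
      have hxA : ∀ n, (s (ψ n)).2.1 ∈ A m := by
        intro n
        have h : ∀ k : ℕ, (s (ψ n)).1 = k → ((s (ψ n)).2.1 : X) ∈ A k := by
          rintro _ rfl
          exact (s (ψ n)).2.2
        exact h m (hψm n)
      obtain ⟨p, hp⟩ := mb (A m) (hA m) (fun k => (z k).1) (fun k => hK _ (z k).2)
        (fun n => (s (ψ n)).2.1) hxA
      refine ⟨fun y => Helper639.Ebl.sq (y.1 p) / ((m : ℝ) + 1), (sq_continuous.comp (hev p)).div_const _,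
        fun N ε hε => ?_⟩
      have hU : {w : ℕ → ℝ | ∀ i ≤ N, |Helper639.Ebl.sq (w i) / ((m : ℝ) + 1) -
          Helper639.Ebl.sq ((z i).1 p) / ((m : ℝ) + 1)| < ε} ∈ 𝓝 (fun k => (z k).1 p : ℕ → ℝ) := by
        have h1 : ∀ i ∈ Finset.range (N + 1), ∀ᶠ w : ℕ → ℝ in 𝓝 (fun k => (z k).1 p : ℕ → ℝ),
            |Helper639.Ebl.sq (w i) / ((m : ℝ) + 1) - Helper639.Ebl.sq ((z i).1 p) / ((m : ℝ) + 1)| < ε := by
          intro i _
          have hc : Continuous (fun w : ℕ → ℝ => Helper639.Ebl.sq (w i) / ((m : ℝ) + 1)) :=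
            (sq_continuous.comp (continuous_apply i)).div_const _
          have := Metric.tendsto_nhds.1 (hc.tendsto (fun k => (z k).1 p : ℕ → ℝ)) ε hε
          simpa [Real.dist_eq] using this
        have h2 := (Filter.eventually_all_finset _).2 h1
        filter_upwards [h2] with w hw i hi
        exact hw i (Finset.mem_range.2 (by omega))
      have h3 := hp.frequently hU
      have h4 : ∃ᶠ n in atTop, ∀ i ≤ N, |φ (s (ψ n)) (z i) -
          Helper639.Ebl.sq ((z i).1 p) / ((m : ℝ) + 1)| < ε := by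
        refine h3.mono fun n hn i hi => ?_
        have h5 := hn i hi
        have h6 : (((s (ψ n)).1 : ℕ) : ℝ) = (m : ℝ) := by exact_mod_cast hψm n
        have h7 : φ (s (ψ n)) (z i) = Helper639.Ebl.sq ((z i).1 (s (ψ n)).2.1) / ((m : ℝ) + 1) := by
          rw [← h6]
        rw [h7]
        exact h5
      exact hψ.tendsto_atTop.frequently h4
  let T : Set (K → ℝ) := closure (range φ)
  have hT : ∀ t ∈ T, Continuous t := fun t ht => dl φ hφ hY hS t ht
  have hTb : ∀ t ∈ T, ∀ y, |t y| ≤ 1 := by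
    intro t ht y
    have hcl : IsClosed {h : K → ℝ | |h y| ≤ 1} :=
      isClosed_le (continuous_apply y).abs continuous_const
    exact closure_minimal (by rintro _ ⟨s, rfl⟩; exact hφ1 s y) hcl ht
  have hTc : IsCompact T := by
    have h1 : IsCompact (Set.pi univ fun _ : K => Icc (-1 : ℝ) 1) :=
      isCompact_univ_pi fun _ => isCompact_Icc
    exact h1.of_isClosed_subset isClosed_closure fun t ht y _ => abs_le.1 (hTb t ht y)
  haveI : CompactSpace T := isCompact_iff_compactSpace.1 hTc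
  have hTev : ∀ y : K, Continuous (fun t : T => t.1 y) := fun y =>
    (continuous_apply y).comp continuous_subtype_val
  let r : K → T → ℝ := fun y t => t.1 y
  have hr : Continuous r := continuous_pi fun t => hT t.1 t.2
  have huniq : ∀ (u : ℕ → ℝ) (a c : ℝ), MapClusterPt a atTop u → Tendsto u atTop (𝓝 c) → a = c := by
    intro u a c ha hc
    have h : ClusterPt a (𝓝 c) := ClusterPt.mono ha hc
    exact eq_of_nhds_neBot h
  -- main lemma
  have L : ∀ C : Set K, IsClosed C → ∀ g ∈ closure (r '' C), ∃ y ∈ C, r y = g := by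
    intro C hC g hg
    have hCcl : ∀ (c : ℕ → K), (∀ n, c n ∈ C) → ∀ a, MapClusterPt a atTop c → a ∈ C := by
      intro c hc a ha
      rw [← hC.closure_eq, mem_closure_iff_clusterPt]
      refine ClusterPt.mono ha ?_
      exact tendsto_principal.2 (Eventually.of_forall hc)
    -- continuity of `g`
    have hgc : Continuous g := by
      refine dl (S := C) (fun c t => t.1 c.1) (fun c => hTev c.1) ?_ ?_ g ?_
      · intro t
        obtain ⟨a, -, ha⟩ := isCountablyCompact_iff_seq_clusterPt.1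
          (isCompact_univ (X := T)).isCountablyCompact t (Eventually.of_forall fun n => mem_univ _)
        exact ⟨a, ha⟩
      · intro s z
        obtain ⟨a, ha⟩ := hY (fun n => (s n).1)
        refine ⟨fun t => t.1 a, hTev a, fun N ε hε => ?_⟩
        have hU : {y : K | ∀ i ≤ N, |(z i).1 y - (z i).1 a| < ε} ∈ 𝓝 a := by
          have h1 : ∀ i ∈ Finset.range (N + 1), ∀ᶠ y in 𝓝 a, |(z i).1 y - (z i).1 a| < ε := by
            intro i _
            have := Metric.tendsto_nhds.1 ((hT (z i).1 (z i).2).tendsto a) ε hε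
            simpa [Real.dist_eq] using this
          have h2 := (Filter.eventually_all_finset _).2 h1
          filter_upwards [h2] with w hw i hi
          exact hw i (Finset.mem_range.2 (by omega))
        exact ha.frequently hU
      · have : range (fun (c : C) (t : T) => t.1 c.1) = r '' C := by
          ext h
          constructor
          · rintro ⟨c, rfl⟩; exact ⟨c.1, c.2, rfl⟩
          · rintro ⟨c, hc, rfl⟩; exact ⟨⟨c, hc⟩, rfl⟩
        rw [this]; exact hg
    -- countable tightness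
    have hB : ∀ n m : ℕ, ∃ B : Finset K, (∀ y ∈ B, y ∈ C) ∧ ∀ x : Fin n → T, ∃ y ∈ B,
        ∀ i, |(x i).1 y - g (x i)| < 1 / ((m : ℝ) + 1) := by
      intro n m
      have hpos : (0 : ℝ) < 1 / ((m : ℝ) + 1) := by positivity
      obtain ⟨b, hb⟩ := (isCompact_univ (X := Fin n → T)).elim_finite_subcover
        (fun c : C => {x : Fin n → T | ∀ i, |(x i).1 c.1 - g (x i)| < 1 / ((m : ℝ) + 1)})
        (fun c => by
          have : {x : Fin n → T | ∀ i, |(x i).1 c.1 - g (x i)| < 1 / ((m : ℝ) + 1)} =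
            ⋂ i, {x : Fin n → T | |(x i).1 c.1 - g (x i)| < 1 / ((m : ℝ) + 1)} := by
              ext; simp
          rw [this]
          refine isOpen_iInter_of_finite fun i => ?_
          exact isOpen_lt (((hTev c.1).comp (continuous_apply i)).sub
            (hgc.comp (continuous_apply i))).abs continuous_const)
        (fun x _ => by
          obtain ⟨_, ⟨c, hc, rfl⟩, hcx⟩ := closure_approx _ g hg (Finset.univ.image x) _ hpos
          exact mem_iUnion.2 ⟨⟨c, hc⟩, fun i =>
            hcx (x i) (Finset.mem_image_of_mem _ (Finset.mem_univ _))⟩)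
      refine ⟨b.image Subtype.val, ?_, fun x => ?_⟩
      · intro y hy
        obtain ⟨c, _, rfl⟩ := Finset.mem_image.1 hy
        exact c.2
      · obtain ⟨c, hcb, hc⟩ := mem_iUnion₂.1 (hb (mem_univ x))
        exact ⟨c.1, Finset.mem_image_of_mem _ hcb, hc⟩
    choose B hBC hB using hB
    let C0 : Set K := ⋃ n, ⋃ m, (B n m : Set K)
    have hC0c : C0.Countable := countable_iUnion fun n => countable_iUnion fun m =>
      (B n m).countable_toSet
    have hC0C : C0 ⊆ C := iUnion_subset fun n => iUnion_subset fun m => fun y hy =>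
      hBC n m y hy
    have hgC0 : g ∈ closure (r '' C0) := by
      rw [mem_closure_iff_nhds]
      intro U hU
      rw [nhds_pi, Filter.mem_pi] at hU
      obtain ⟨I, hI, t, ht, htU⟩ := hU
      choose! δ hδ hδt using fun i => Metric.mem_nhds_iff.1 (ht i)
      obtain ⟨n, x, hx⟩ : ∃ (n : ℕ) (x : Fin n → T), range x = I := by
        obtain ⟨n, x, -, hx⟩ := hI.fin_param
        exact ⟨n, x, hx⟩
      obtain ⟨d, hd, hdδ⟩ : ∃ d > 0, ∀ i : Fin n, d ≤ δ (x i) := by
        rcases isEmpty_or_nonempty (Fin n) with hE | hE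
        · exact ⟨1, one_pos, fun i => (hE.false i).elim⟩
        · obtain ⟨i0, hi0⟩ := Finite.exists_min (fun i : Fin n => δ (x i))
          exact ⟨δ (x i0), hδ _, hi0⟩
      obtain ⟨m, hm⟩ := exists_nat_one_div_lt hd
      obtain ⟨y, hyB, hy⟩ := hB n m x
      refine ⟨r y, htU fun i hi => hδt i ?_, ⟨y, mem_iUnion.2 ⟨n, mem_iUnion.2 ⟨m, hyB⟩⟩, rfl⟩⟩
      rw [← hx] at hi
      obtain ⟨j, rfl⟩ := hi
      rw [Metric.mem_ball, Real.dist_eq]
      exact ((hy j).trans hm).trans_le (hdδ j)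
    -- a countable set of points
    obtain ⟨Q, hQc, hQ⟩ := Helper639.Ebl.hp_step (K := T) (F := K) (φ := fun t y => t.1 y)
      (fun y => hTev y) C0
    have hQc' : Q.Countable := by
      rw [← Cardinal.le_aleph0_iff_set_countable]
      refine hQc.trans (max_le ?_ le_rfl)
      exact Cardinal.le_aleph0_iff_set_countable.2 hC0c
    haveI : Countable Q := hQc'.to_subtype
    -- an approximating sequence
    have h1 : (fun q : Q => g q.1) ∈ closure ((fun y (q : Q) => r y q.1) '' C0) := by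
      have hc : Continuous (fun (h : T → ℝ) (q : Q) => h q.1) :=
        continuous_pi fun q => continuous_apply q.1
      have h2 := image_closure_subset_closure_image hc (mem_image_of_mem _ hgC0)
      rw [image_image] at h2
      exact h2
    obtain ⟨u, hu1, hu2⟩ := mem_closure_iff_seq_limit.1 h1
    choose c hc1 hc2 using hu1
    obtain ⟨y, hy⟩ := hY c
    refine ⟨y, hCcl c (fun n => hC0C (hc1 n)) y hy, ?_⟩
    have hyQ : ∀ q ∈ Q, q.1 y = g q := by
      intro q hq
      have h3 : MapClusterPt (q.1 y) atTop (fun n => q.1 (c n)) :=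
        hy.continuousAt_comp (hT q.1 q.2).continuousAt
      refine huniq _ _ _ h3 ?_
      have h4 := (tendsto_pi_nhds.1 hu2) ⟨q, hq⟩
      refine h4.congr fun n => ?_
      rw [← hc2 n]
    funext t
    obtain ⟨t', ht'Q, ht'⟩ := hQ t
    have e1 : g t = g t' := by
      have hcl : IsClosed {h : T → ℝ | h t = h t'} :=
        isClosed_eq (continuous_apply t) (continuous_apply t')
      have := closure_minimal (s := r '' C0) (by
        rintro _ ⟨c, hc, rfl⟩
        exact (ht' c hc).symm) hcl hgC0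
      exact this
    have e2 : t.1 y = t'.1 y := by
      have hcl : IsClosed {y : K | t.1 y = t'.1 y} := isClosed_eq (hT t.1 t.2) (hT t'.1 t'.2)
      have hyc : y ∈ closure C0 := by
        rw [mem_closure_iff_clusterPt]
        refine ClusterPt.mono hy ?_
        exact tendsto_principal.2 (Eventually.of_forall hc1)
      exact closure_minimal (fun c hc => (ht' c hc).symm) hcl hyc
    have e3 : t'.1 y = g t' := by
      have hcl : IsClosed {t : T | t.1 y = g t} := isClosed_eq (hTev y) hgc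
      exact closure_minimal (fun q hq => hyQ q hq) hcl ht'Q
    show t.1 y = g t
    rw [e2, e3, e1]
  have hinj : Function.Injective r := by
    intro y y' hyy
    apply Subtype.ext
    refine Continuous.ext_on hD (hK _ y.2) (hK _ y'.2) ?_
    intro x hx
    obtain ⟨n, hn⟩ := mem_iUnion.1 hx
    have h1 : φ ⟨n, x, hn⟩ y = φ ⟨n, x, hn⟩ y' :=
      congrFun hyy ⟨φ ⟨n, x, hn⟩, subset_closure (mem_range_self _)⟩
    have h2 : Helper639.Ebl.sq (y.1 x) / ((n : ℝ) + 1) = Helper639.Ebl.sq (y'.1 x) / ((n : ℝ) + 1) := h1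
    have h3 : ((n : ℝ) + 1) ≠ 0 := by positivity
    exact sq_inj ((div_left_inj' h3).1 h2)
  have hclosed : IsClosedMap r := by
    intro C hC
    rw [← closure_subset_iff_isClosed]
    intro g hg
    obtain ⟨y, hyC, rfl⟩ := L C hC g hg
    exact mem_image_of_mem _ hyC
  have hemb : IsClosedEmbedding r := IsClosedEmbedding.of_continuous_injective_isClosedMap hr hinj hclosed
  have hcomp : IsCompact (Set.pi univ fun _ : T => Icc (-1 : ℝ) 1) :=
    isCompact_univ_pi fun _ => isCompact_Icc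
  haveI : CompactSpace K := by
    refine ⟨?_⟩
    have h1 := hemb.isCompact_preimage hcomp
    refine h1.of_isClosed_subset isClosed_univ fun y _ t _ => abs_le.1 (hTb t.1 t.2 y)
  refine ⟨isCompact_iff_compactSpace.2 inferInstance, ?_⟩
  obtain ⟨Γ, h, hh, hhinj⟩ := Helper639.Ebl.al (K := K) (F := T) (fun y t => t.1 y)
    (fun t => hT t.1 t.2) (fun y => hTev y) (fun x y hxy => hinj (funext hxy))
  refine ⟨Γ, h, ?_, hh.fin⟩
  exact ((continuous_pi hh.cont).isClosedEmbedding hhinj).isEmbedding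

end Pool.Agent.X199.Ebl
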