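import Mathlib

open MeasureTheory Filter Topology BoundedContinuousFunction

namespace Pool.Agent.X199.Choq

abbrev V (Γ : Type) [TopologicalSpace Γ] := (Γ →ᵇ ℝ) →ₗ[ℝ] ℝ

section
variable {Γ : Type} [AddCommGroup Γ] [TopologicalSpace Γ] [DiscreteTopology Γ]

/-- translation -/
def tr (γ : Γ) (f : Γ →ᵇ ℝ) : Γ →ᵇ ℝ :=
  f.compContinuous ⟨fun x => x - γ, continuous_of_discreteTopology⟩

@[simp] lemma tr_apply (γ : Γ) (f : Γ →ᵇ ℝ) (x : Γ) : tr γ f x = f (x - γ) := rfl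

/-- indicator function of a set -/
noncomputable def ind (C : Set Γ) : Γ →ᵇ ℝ :=
  BoundedContinuousFunction.ofNormedAddCommGroupDiscrete (C.indicator (fun _ => (1:ℝ))) 1 (by
    intro x
    by_cases h : x ∈ C <;> simp [h])

@[simp] lemma ind_apply (C : Set Γ) (x : Γ) : ind C x = C.indicator (fun _ => (1:ℝ)) x := rfl

/-- the invariant means -/
def IM (Γ : Type) [AddCommGroup Γ] [TopologicalSpace Γ] [DiscreteTopology Γ] : Set (V Γ) :=
  {m | (∀ f, (∀ x, 0 ≤ f x) → 0 ≤ m f) ∧ m 1 = 1 ∧ ∀ γ f, m (tr γ f) = m f}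

/-- the extreme invariant means -/
def EM (Γ : Type) [AddCommGroup Γ] [TopologicalSpace Γ] [DiscreteTopology Γ] : Set (V Γ) :=
  (IM Γ).extremePoints ℝ

lemma IM_mono {ν : V Γ} (h : ν ∈ IM Γ) {f g : Γ →ᵇ ℝ} (hfg : ∀ x, f x ≤ g x) : ν f ≤ ν g := by
  have := h.1 (g - f) (fun x => by simpa using hfg x)
  rw [map_sub] at this
  linarith

lemma IM_abs {ν : V Γ} (h : ν ∈ IM Γ) (f : Γ →ᵇ ℝ) : |ν f| ≤ ‖f‖ := by
  have h1 : ν f ≤ ν (‖f‖ • (1 : Γ →ᵇ ℝ)) := IM_mono h (fun x => by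
    simpa using le_trans (le_abs_self _) (f.norm_coe_le_norm x))
  have h2 : ν (-(‖f‖ • (1 : Γ →ᵇ ℝ))) ≤ ν f := IM_mono h (fun x => by
    simpa using neg_le_of_abs_le (f.norm_coe_le_norm x))
  rw [map_neg] at h2
  rw [map_smul, h.2.1] at h1 h2
  rw [abs_le]
  simp at h1 h2
  constructor <;> linarith

/-- the weak limit lemma -/
lemma weak_lim {ν : V Γ} (h : ν ∈ EM Γ) (c : ℝ) (b : ℕ → (Γ →ᵇ ℝ)) (hb0 : ∀ l x, 0 ≤ b l x)
    (hb1 : ∀ l x, b l x ≤ 1) (hbν : ∀ l, ν (b l) = c)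
    (hinv : ∀ γ, Tendsto (fun l => ‖tr γ (b l) - b l‖) atTop (𝓝 0)) (g : Γ →ᵇ ℝ) :
    Tendsto (fun l => ν (g * b l)) atTop (𝓝 (c * ν g)) := by
  have hI : ν ∈ IM Γ := h.1
  rw [tendsto_iff_ultrafilter]
  intro U hU
  have hex : ∀ g : Γ →ᵇ ℝ, ∃ t : ℝ, Tendsto (fun l => ν (g * b l)) U (𝓝 t) := by
    intro g
    have hc : IsCompact (Metric.closedBall (0:ℝ) ‖g‖) := isCompact_closedBall _ _
    have hmem : ∀ l, ν (g * b l) ∈ Metric.closedBall (0:ℝ) ‖g‖ := by
      intro l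
      rw [mem_closedBall_zero_iff, Real.norm_eq_abs]
      refine (IM_abs hI _).trans ?_
      refine (norm_mul_le _ _).trans ?_
      have : ‖b l‖ ≤ 1 := by
        refine (BoundedContinuousFunction.norm_le (by norm_num)).2 (fun x => ?_)
        rw [Real.norm_eq_abs, abs_of_nonneg (hb0 l x)]
        exact hb1 l x
      nlinarith [norm_nonneg g, norm_nonneg (b l)]
    obtain ⟨t, -, ht⟩ := hc.ultrafilter_le_nhds (U.map (fun l => ν (g * b l))) (by
      rw [le_principal_iff, Ultrafilter.coe_map, Filter.mem_map]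
      exact Filter.univ_mem' hmem)
    exact ⟨t, ht⟩
  choose N hN using hex
  let ν' : V Γ :=
    { toFun := N
      map_add' := by
        intro f g
        refine tendsto_nhds_unique (hN (f+g)) ?_
        have := (hN f).add (hN g)
        refine this.congr (fun l => ?_)
        rw [add_mul, map_add]
      map_smul' := by
        intro r f
        refine tendsto_nhds_unique (hN (r • f)) ?_
        have := (hN f).const_mul r
        refine this.congr (fun l => ?_)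
        rw [smul_mul_assoc, map_smul]; rfl }
  have hν' : ∀ f, Tendsto (fun l => ν (f * b l)) U (𝓝 (ν' f)) := hN
  have hpos : ∀ f : Γ →ᵇ ℝ, (∀ x, 0 ≤ f x) → 0 ≤ ν' f := by
    intro f hf
    refine ge_of_tendsto' (hν' f) (fun l => hI.1 _ (fun x => ?_))
    simpa using mul_nonneg (hf x) (hb0 l x)
  have hle : ∀ f : Γ →ᵇ ℝ, (∀ x, 0 ≤ f x) → ν' f ≤ ν f := by
    intro f hf
    refine le_of_tendsto' (hν' f) (fun l => IM_mono hI (fun x => ?_))
    have := mul_le_mul_of_nonneg_left (hb1 l x) (hf x)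
    simpa using this
  have hone : ν' 1 = c := by
    refine tendsto_nhds_unique (hν' 1) ?_
    simp only [one_mul, hbν]
    exact tendsto_const_nhds
  have hinv' : ∀ γ f, ν' (tr γ f) = ν' f := by
    intro γ f
    refine tendsto_nhds_unique (hν' (tr γ f)) ?_
    have e1 : ∀ l, ν (tr γ f * b l) = ν (f * b l) - ν (tr γ f * (tr γ (b l) - b l)) := by
      intro l
      rw [mul_sub, map_sub]
      have : tr γ f * tr γ (b l) = tr γ (f * b l) := by ext x; simp
      rw [this, hI.2.2]; ring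
    have e2 : Tendsto (fun l => ν (tr γ f * (tr γ (b l) - b l))) U (𝓝 0) := by
      refine squeeze_zero_norm (a := fun l => ‖tr γ f‖ * ‖tr γ (b l) - b l‖) (fun l => ?_) ?_
      · rw [Real.norm_eq_abs]
        exact (IM_abs hI _).trans (norm_mul_le _ _)
      · have := ((hinv γ).mono_left hU).const_mul ‖tr γ f‖
        simpa using this
    have := (hν' f).sub e2
    rw [sub_zero] at this
    exact this.congr (fun l => (e1 l).symm)
  have hc0 : 0 ≤ c := by rw [← hone]; exact hpos 1 (fun x => by simp)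
  have hc1 : c ≤ 1 := by
    rw [← hone, ← hI.2.1]; exact hle 1 (fun x => by simp)
  let ν1 : V Γ := (1 - c/2) • ν + (1/2 : ℝ) • ν'
  let ν2 : V Γ := (1 + c/2) • ν - (1/2 : ℝ) • ν'
  have h1 : ν1 ∈ IM Γ := by
    refine ⟨fun f hf => ?_, ?_, fun γ f => ?_⟩
    · have a := hpos f hf
      have b' := hI.1 f hf
      simp only [ν1, LinearMap.add_apply, LinearMap.smul_apply, smul_eq_mul]
      nlinarith
    · simp only [ν1, LinearMap.add_apply, LinearMap.smul_apply, smul_eq_mul, hone, hI.2.1]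
      ring
    · simp only [ν1, LinearMap.add_apply, LinearMap.smul_apply, smul_eq_mul, hinv', hI.2.2]
  have h2 : ν2 ∈ IM Γ := by
    refine ⟨fun f hf => ?_, ?_, fun γ f => ?_⟩
    · have a := hle f hf
      have b' := hI.1 f hf
      simp only [ν2, LinearMap.sub_apply, LinearMap.smul_apply, smul_eq_mul]
      nlinarith
    · simp only [ν2, LinearMap.sub_apply, LinearMap.smul_apply, smul_eq_mul, hone, hI.2.1]
      ring
    · simp only [ν2, LinearMap.sub_apply, LinearMap.smul_apply, smul_eq_mul, hinv', hI.2.2]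
  have hmid : ν ∈ openSegment ℝ ν1 ν2 := by
    refine ⟨1/2, 1/2, by norm_num, by norm_num, by norm_num, ?_⟩
    ext f
    simp only [ν1, ν2, LinearMap.add_apply, LinearMap.sub_apply, LinearMap.smul_apply, smul_eq_mul]
    ring
  have h3 : ν1 = ν := h.2 h1 h2 hmid
  have h4 : ν' g = c * ν g := by
    have := congrArg (fun k : V Γ => k g) h3
    simp only [ν1, LinearMap.add_apply, LinearMap.smul_apply, smul_eq_mul] at this
    linarith
  rw [← h4]
  exact hν' g

/-- averaging operators with their adjoints -/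
structure Av (T S : (Γ →ᵇ ℝ) →ₗ[ℝ] (Γ →ᵇ ℝ)) : Prop where
  pos : ∀ f, (∀ x, 0 ≤ f x) → ∀ x, 0 ≤ T f x
  posS : ∀ f, (∀ x, 0 ≤ f x) → ∀ x, 0 ≤ S f x
  one : T 1 = 1
  oneS : S 1 = 1
  comm : ∀ γ f, T (tr γ f) = tr γ (T f)
  commS : ∀ γ f, S (tr γ f) = tr γ (S f)
  adj : ∀ ν ∈ IM Γ, ∀ f g, ν (T f * g) = ν (f * S g)

lemma op_norm {T : (Γ →ᵇ ℝ) →ₗ[ℝ] (Γ →ᵇ ℝ)} (pos : ∀ f, (∀ x, 0 ≤ f x) → ∀ x, 0 ≤ T f x)
    (one : T 1 = 1) (f : Γ →ᵇ ℝ) : ‖T f‖ ≤ ‖f‖ := by
  refine (BoundedContinuousFunction.norm_le (norm_nonneg f)).2 (fun x => ?_)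
  have h1 := pos (‖f‖ • (1 : Γ →ᵇ ℝ) - f) (fun y => by
    simpa using le_trans (le_abs_self _) (f.norm_coe_le_norm y)) x
  have h2 := pos (‖f‖ • (1 : Γ →ᵇ ℝ) + f) (fun y => by
    have := neg_le_of_abs_le (f.norm_coe_le_norm y)
    simp; linarith) x
  rw [map_sub, map_smul, one] at h1
  rw [map_add, map_smul, one] at h2
  simp at h1 h2
  rw [Real.norm_eq_abs, abs_le]
  constructor <;> linarith

/-- cyclic average -/
noncomputable def avg (n : ℕ) (γ : Γ) : (Γ →ᵇ ℝ) →ₗ[ℝ] (Γ →ᵇ ℝ) where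
  toFun f := (1/((n:ℝ)+1)) • ∑ j ∈ Finset.range (n+1), tr (j • γ) f
  map_add' f g := by
    rw [← smul_add, ← Finset.sum_add_distrib]; rfl
  map_smul' r f := by
    ext x
    simp only [RingHom.id_apply, BoundedContinuousFunction.coe_smul, BoundedContinuousFunction.coe_sum, Finset.sum_apply, tr_apply, smul_eq_mul, Pi.smul_apply, ← Finset.mul_sum]
    ring

lemma avg_apply (n : ℕ) (γ : Γ) (f : Γ →ᵇ ℝ) :
    avg n γ f = (1/((n:ℝ)+1)) • ∑ j ∈ Finset.range (n+1), tr (j • γ) f := rfl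

lemma avg_apply' (n : ℕ) (γ : Γ) (f : Γ →ᵇ ℝ) (x : Γ) :
    avg n γ f x = (1/((n:ℝ)+1)) * ∑ j ∈ Finset.range (n+1), f (x - j • γ) := by
  rw [avg_apply]
  simp [BoundedContinuousFunction.coe_sum]

lemma avg_pos (n : ℕ) (γ : Γ) (f : Γ →ᵇ ℝ) (hf : ∀ x, 0 ≤ f x) (x : Γ) : 0 ≤ avg n γ f x := by
  rw [avg_apply']
  exact mul_nonneg (by positivity) (Finset.sum_nonneg (fun j _ => hf _))

lemma avg_one (n : ℕ) (γ : Γ) : avg n γ (1 : Γ →ᵇ ℝ) = 1 := by
  ext x
  rw [avg_apply']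
  simp
  field_simp

lemma avg_comm (n : ℕ) (γ δ : Γ) (f : Γ →ᵇ ℝ) : avg n γ (tr δ f) = tr δ (avg n γ f) := by
  ext x
  rw [tr_apply, avg_apply', avg_apply']
  congr 1
  refine Finset.sum_congr rfl (fun j _ => ?_)
  rw [tr_apply]
  congr 1
  abel

lemma avg_adj (n : ℕ) (γ : Γ) {ν : V Γ} (hν : ν ∈ IM Γ) (f g : Γ →ᵇ ℝ) :
    ν (avg n γ f * g) = ν (f * avg n (-γ) g) := by
  rw [avg_apply, avg_apply, smul_mul_assoc, mul_smul_comm, map_smul, map_smul, Finset.sum_mul,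
    Finset.mul_sum, map_sum, map_sum]
  congr 1
  refine Finset.sum_congr rfl (fun j _ => ?_)
  have : tr (j • γ) f * g = tr (j • γ) (f * tr (j • (-γ)) g) := by
    ext x
    simp
  rw [this, hν.2.2]

lemma avg_Av (n : ℕ) (γ : Γ) : Av (avg n γ) (avg n (-γ)) where
  pos := avg_pos n γ
  posS := avg_pos n (-γ)
  one := avg_one n γ
  oneS := avg_one n (-γ)
  comm := avg_comm n γ
  commS := avg_comm n (-γ)
  adj := fun _ hν f g => avg_adj n γ hν f g

lemma avg_inv (n : ℕ) (γ : Γ) (f : Γ →ᵇ ℝ) :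
    ‖tr γ (avg n γ f) - avg n γ f‖ ≤ 2/((n:ℝ)+1) * ‖f‖ := by
  refine (BoundedContinuousFunction.norm_le (by positivity)).2 (fun x => ?_)
  rw [BoundedContinuousFunction.coe_sub, Pi.sub_apply, tr_apply, avg_apply', avg_apply', ← mul_sub]
  have : ∑ j ∈ Finset.range (n+1), f (x - γ - j • γ) - ∑ j ∈ Finset.range (n+1), f (x - j • γ)
      = f (x - (n+1) • γ) - f x := by
    have e : ∀ j, f (x - γ - j • γ) = f (x - (j+1) • γ) := by
      intro j; congr 1; rw [add_smul, one_smul]; abel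
    simp_rw [e]
    rw [← Finset.sum_sub_distrib, Finset.sum_range_sub (fun j => f (x - j • γ))]
    simp
  rw [this, norm_mul, Real.norm_eq_abs, abs_of_nonneg (by positivity : (0:ℝ) ≤ 1/((n:ℝ)+1))]
  have h1 := f.norm_coe_le_norm (x - (n+1) • γ)
  have h2 := f.norm_coe_le_norm x
  have h3 : ‖f (x - (n+1) • γ) - f x‖ ≤ 2 * ‖f‖ := (norm_sub_le _ _).trans (by linarith)
  calc 1/((n:ℝ)+1) * ‖f (x - (n+1) • γ) - f x‖ ≤ 1/((n:ℝ)+1) * (2 * ‖f‖) :=
        mul_le_mul_of_nonneg_left h3 (by positivity)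
    _ = 2/((n:ℝ)+1) * ‖f‖ := by ring

lemma exists_Av (e : ℕ → Γ) (n l : ℕ) : ∃ T S : (Γ →ᵇ ℝ) →ₗ[ℝ] (Γ →ᵇ ℝ), Av T S ∧
    ∀ i < l, ∀ f, ‖tr (e i) (T f) - T f‖ ≤ 2/((n:ℝ)+1) * ‖f‖ := by
  induction l with
  | zero =>
    refine ⟨LinearMap.id, LinearMap.id, ⟨?_, ?_, rfl, rfl, ?_, ?_, ?_⟩, by simp⟩
    · intro f hf; exact hf
    · intro f hf; exact hf
    · intro γ f; rfl
    · intro γ f; rfl
    · intro ν _ f g; rfl
  | succ l ih =>
    obtain ⟨T, S, hA, hT⟩ := ih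
    have hB := avg_Av n (e l)
    refine ⟨T.comp (avg n (e l)), (avg n (-(e l))).comp S, ⟨?_, ?_, ?_, ?_, ?_, ?_, ?_⟩, ?_⟩
    · intro f hf; exact hA.pos _ (hB.pos _ hf)
    · intro f hf; exact hB.posS _ (hA.posS _ hf)
    · simp [hB.one, hA.one]
    · simp [hB.oneS, hA.oneS]
    · intro γ f; simp [hB.comm, hA.comm]
    · intro γ f; simp [hB.commS, hA.commS]
    · intro ν hν f g
      simp only [LinearMap.comp_apply]
      rw [hA.adj ν hν, hB.adj ν hν]
    · intro i hi f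
      rcases Nat.lt_succ_iff_lt_or_eq.1 hi with h | h
      · refine (hT i h _).trans ?_
        exact mul_le_mul_of_nonneg_left (op_norm hB.pos hB.one f) (by positivity)
      · subst h
        simp only [LinearMap.comp_apply]
        rw [← hA.comm, ← map_sub]
        exact (op_norm hA.pos hA.one _).trans (avg_inv n (e i) f)

/-- the mean ergodic theorem for extreme invariant means -/
lemma ergodic [Countable Γ] (f : Γ →ᵇ ℝ) (hf0 : ∀ x, 0 ≤ f x) (hf1 : ∀ x, f x ≤ 1) :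
    ∃ a : ℕ → (Γ →ᵇ ℝ), (∀ l x, 0 ≤ a l x ∧ a l x ≤ 1) ∧ (∀ ν ∈ IM Γ, ∀ l, ν (a l) = ν f) ∧
      ∀ ν ∈ EM Γ, Tendsto (fun l => ν (a l * a l)) atTop (𝓝 (ν f * ν f)) := by
  obtain ⟨e, he⟩ := exists_surjective_nat Γ
  choose T S hA hT using fun l => exists_Av e l l
  have hT1 : ∀ l x, T l f x ≤ 1 := by
    intro l x
    have := (hA l).pos (1 - f) (fun y => by simpa using hf1 y) x
    rw [map_sub, (hA l).one] at this
    simpa using this
  refine ⟨fun l => T l f, fun l x => ⟨(hA l).pos f hf0 x, hT1 l x⟩, fun ν hν l => ?_, fun ν hν => ?_⟩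
  · have := (hA l).adj ν hν f 1
    rwa [(hA l).oneS, mul_one, mul_one] at this
  · have hI : ν ∈ IM Γ := hν.1
    have key := weak_lim hν (ν f) (fun l => S l (T l f))
      (fun l x => (hA l).posS _ ((hA l).pos f hf0) x)
      (fun l x => by
        have := (hA l).posS (1 - T l f) (fun y => by simpa using hT1 l y) x
        rw [map_sub, (hA l).oneS] at this
        simpa using this)
      (fun l => by
        have h1 := (hA l).adj ν hI 1 (T l f)
        rw [(hA l).one, one_mul, one_mul] at h1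
        rw [← h1]
        have := (hA l).adj ν hI f 1
        rwa [(hA l).oneS, mul_one, mul_one] at this)
      (fun γ => by
        obtain ⟨i, rfl⟩ := he γ
        have hz : Tendsto (fun l : ℕ => 2/((l:ℝ)+1) * ‖f‖) atTop (𝓝 0) := by
          have h0 : Tendsto (fun l : ℕ => 1/((l:ℝ)+1)) atTop (𝓝 0) := tendsto_one_div_add_atTop_nhds_zero_nat
          have := (h0.const_mul 2).mul_const ‖f‖
          simpa [div_eq_mul_inv] using this
        refine squeeze_zero_norm' ?_ hz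
        filter_upwards [eventually_gt_atTop i] with l hl
        rw [norm_norm, ← (hA l).commS, ← map_sub]
        exact (op_norm (hA l).posS (hA l).oneS _).trans (hT l i hl f))
      f
    refine key.congr (fun l => ?_)
    exact ((hA l).adj ν hI f (T l f)).symm

end

end Pool.Agent.X199.Choq
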