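import Pool.Agent.X199.ChoqA

open MeasureTheory Filter Topology BoundedContinuousFunction

namespace Pool.Agent.X199.Choq

section
variable {Γ : Type} [AddCommGroup Γ] [TopologicalSpace Γ] [DiscreteTopology Γ]

/-- The sigma-algebra generated by the set of extreme means and by the evaluations. -/
instance instMS : MeasurableSpace (V Γ) :=
  MeasurableSpace.generateFrom ({EM Γ} ∪ {S | ∃ (f : Γ →ᵇ ℝ) (c : ℝ), S = {ν : V Γ | c < ν f}})

lemma meas_EM : MeasurableSet (EM Γ) := MeasurableSpace.measurableSet_generateFrom (Or.inl rfl)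

lemma meas_eval (f : Γ →ᵇ ℝ) : Measurable (fun ν : V Γ => ν f) :=
  measurable_of_Ioi (fun c => MeasurableSpace.measurableSet_generateFrom (Or.inr ⟨f, c, rfl⟩))

/-- distance of C to E -/
noncomputable def D (σ : Measure (V Γ)) (C : Set Γ) (E : Set (V Γ)) : ℝ :=
  ∫ ν, |ν (ind C) - E.indicator (fun _ => (1:ℝ)) ν| ∂σ

variable {σ : Measure (V Γ)} [IsProbabilityMeasure σ]

lemma integ {g : V Γ → ℝ} (hg : Measurable g) (K : ℝ) (hσ : σ (EM Γ)ᶜ = 0)
    (hb : ∀ ν ∈ EM Γ, |g ν| ≤ K) : Integrable g σ := by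
  refine Integrable.of_bound hg.aestronglyMeasurable K ?_
  have : ∀ᵐ ν ∂σ, ν ∈ EM Γ := by rw [ae_iff]; exact hσ
  filter_upwards [this] with ν hν
  exact hb ν hν

lemma ae_EM (hσ : σ (EM Γ)ᶜ = 0) : ∀ᵐ ν ∂σ, ν ∈ EM Γ := by rw [ae_iff]; exact hσ

lemma ind_nonneg (C : Set Γ) (x : Γ) : 0 ≤ ind C x := by
  rw [ind_apply]; exact Set.indicator_nonneg (fun _ _ => zero_le_one) _

lemma ind_le_one (C : Set Γ) (x : Γ) : ind C x ≤ 1 := by
  rw [ind_apply]; by_cases h : x ∈ C <;> simp [h]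

lemma nu_ind_nonneg {ν : V Γ} (h : ν ∈ IM Γ) (C : Set Γ) : 0 ≤ ν (ind C) :=
  h.1 _ (ind_nonneg C)

lemma nu_ind_le_one {ν : V Γ} (h : ν ∈ IM Γ) (C : Set Γ) : ν (ind C) ≤ 1 := by
  rw [← h.2.1]; exact IM_mono h (fun x => by simpa using ind_le_one C x)

lemma meas_D (C : Set Γ) {E : Set (V Γ)} (hE : MeasurableSet E) :
    Measurable (fun ν : V Γ => |ν (ind C) - E.indicator (fun _ => (1:ℝ)) ν|) :=
  ((meas_eval _).sub (measurable_const.indicator hE)).abs

lemma bound_D (C : Set Γ) (E : Set (V Γ)) : ∀ ν ∈ EM Γ,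
    |(|ν (ind C) - E.indicator (fun _ => (1:ℝ)) ν|)| ≤ 1 := by
  intro ν hν
  have h0 := nu_ind_nonneg hν.1 C
  have h1 := nu_ind_le_one hν.1 C
  rw [abs_abs, abs_le]
  by_cases h : ν ∈ E
  · simp only [Set.indicator_of_mem h]; constructor <;> linarith
  · simp only [Set.indicator_of_notMem h]; constructor <;> linarith

lemma D_int (hσ : σ (EM Γ)ᶜ = 0) (C : Set Γ) {E : Set (V Γ)} (hE : MeasurableSet E) :
    Integrable (fun ν : V Γ => |ν (ind C) - E.indicator (fun _ => (1:ℝ)) ν|) σ :=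
  integ (meas_D C hE) 1 hσ (bound_D C E)

def Good (σ : Measure (V Γ)) (E : Set (V Γ)) : Prop := ∀ ε > 0, ∃ C : Set Γ, D σ C E ≤ ε

lemma good_compl (hσ : σ (EM Γ)ᶜ = 0) {E : Set (V Γ)} (h : Good σ E) : Good σ Eᶜ := by
  intro ε hε
  obtain ⟨C, hC⟩ := h ε hε
  refine ⟨Cᶜ, le_of_eq_of_le ?_ hC⟩
  refine integral_congr_ae ?_
  filter_upwards [ae_EM hσ] with ν hν
  have e : ind Cᶜ = 1 - ind C := by
    ext x; by_cases hx : x ∈ C <;> simp [hx]
  rw [e, map_sub, hν.1.2.1]
  by_cases hE : ν ∈ E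
  · have : ν ∉ Eᶜ := fun h => h hE
    rw [Set.indicator_of_mem hE, Set.indicator_of_notMem this, abs_sub_comm (ν (ind C))]
    simp
  · have : ν ∈ Eᶜ := hE
    rw [Set.indicator_of_notMem hE, Set.indicator_of_mem this]
    rw [← abs_neg]; congr 1; ring

lemma good_union (hσ : σ (EM Γ)ᶜ = 0) {E F : Set (V Γ)} (mE : MeasurableSet E)
    (mF : MeasurableSet F) (hE : Good σ E) (hF : Good σ F) : Good σ (E ∪ F) := by
  intro ε hε
  obtain ⟨C1, h1⟩ := hE (ε/2) (by linarith)
  obtain ⟨C2, h2⟩ := hF (ε/2) (by linarith)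
  refine ⟨C1 ∪ C2, ?_⟩
  have : D σ (C1 ∪ C2) (E ∪ F) ≤ D σ C1 E + D σ C2 F := by
    rw [D, D, D, ← integral_add (D_int hσ C1 mE) (D_int hσ C2 mF)]
    refine integral_mono_ae (D_int hσ _ (mE.union mF)) ((D_int hσ C1 mE).add (D_int hσ C2 mF)) ?_
    filter_upwards [ae_EM hσ] with ν hν
    have a1 := nu_ind_nonneg hν.1 C1
    have a2 := nu_ind_nonneg hν.1 C2
    have a3 := nu_ind_le_one hν.1 C1
    have a4 := nu_ind_le_one hν.1 C2
    have a5 := nu_ind_le_one hν.1 (C1 ∪ C2)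
    have a0 := nu_ind_nonneg hν.1 (C1 ∪ C2)
    have a6 : ν (ind C1) ≤ ν (ind (C1 ∪ C2)) := IM_mono hν.1 (fun x => by
      by_cases hx : x ∈ C1 <;> by_cases hy : x ∈ C2 <;> simp [hx, hy])
    have a7 : ν (ind C2) ≤ ν (ind (C1 ∪ C2)) := IM_mono hν.1 (fun x => by
      by_cases hx : x ∈ C1 <;> by_cases hy : x ∈ C2 <;> simp [hx, hy])
    have a8 : ν (ind (C1 ∪ C2)) ≤ ν (ind C1) + ν (ind C2) := by
      rw [← map_add]
      exact IM_mono hν.1 (fun x => by
        by_cases hx : x ∈ C1 <;> by_cases hy : x ∈ C2 <;> simp [hx, hy])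
    by_cases hE' : ν ∈ E
    · have hu : ν ∈ E ∪ F := Or.inl hE'
      rw [Set.indicator_of_mem hE', Set.indicator_of_mem hu, abs_of_nonpos (by linarith),
        abs_of_nonpos (by linarith : ν (ind C1) - 1 ≤ 0)]
      have := abs_nonneg (ν (ind C2) - F.indicator (fun _ => (1:ℝ)) ν)
      linarith
    · by_cases hF' : ν ∈ F
      · have hu : ν ∈ E ∪ F := Or.inr hF'
        rw [Set.indicator_of_mem hF', Set.indicator_of_mem hu, abs_of_nonpos (by linarith),
          abs_of_nonpos (by linarith : ν (ind C2) - 1 ≤ 0)]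
        have := abs_nonneg (ν (ind C1) - E.indicator (fun _ => (1:ℝ)) ν)
        linarith
      · have hu : ν ∉ E ∪ F := by rintro (h | h) <;> contradiction
        rw [Set.indicator_of_notMem hE', Set.indicator_of_notMem hu,
          Set.indicator_of_notMem hF', sub_zero, sub_zero, sub_zero, abs_of_nonneg a0,
          abs_of_nonneg a1, abs_of_nonneg a2]
        exact a8
  linarith

/-- If E differs from a good set F by little then fine. -/
lemma D_change (hσ : σ (EM Γ)ᶜ = 0) {E F : Set (V Γ)} (mE : MeasurableSet E)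
    (mF : MeasurableSet F) (hFE : F ⊆ E) (C : Set Γ) :
    D σ C E ≤ D σ C F + σ.real (E \ F) := by
  have mI : Integrable ((E \ F).indicator (fun _ => (1:ℝ))) σ :=
    (integrable_const (1:ℝ)).indicator (mE.diff mF)
  have e : σ.real (E \ F) = ∫ ν, (E \ F).indicator (fun _ => (1:ℝ)) ν ∂σ := by
    rw [integral_indicator (mE.diff mF)]; simp
  rw [e, D, D, ← integral_add (D_int hσ C mF) mI]
  refine integral_mono (D_int hσ _ mE) ((D_int hσ C mF).add mI) (fun ν => ?_)
  simp only [Pi.add_apply]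
  by_cases h1 : ν ∈ F
  · have h2 := hFE h1
    have h3 : ν ∉ E \ F := fun h => h.2 h1
    rw [Set.indicator_of_mem h1, Set.indicator_of_mem h2, Set.indicator_of_notMem h3]; simp
  · by_cases h2 : ν ∈ E
    · have h3 : ν ∈ E \ F := ⟨h2, h1⟩
      rw [Set.indicator_of_notMem h1, Set.indicator_of_mem h2, Set.indicator_of_mem h3, sub_zero]
      have := abs_sub (ν (ind C)) 1
      simpa using this
    · have h3 : ν ∉ E \ F := fun h => h2 h.1
      rw [Set.indicator_of_notMem h1, Set.indicator_of_notMem h2, Set.indicator_of_notMem h3]; simp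

lemma good_iUnion (hσ : σ (EM Γ)ᶜ = 0) (s : ℕ → Set (V Γ)) (ms : ∀ n, MeasurableSet (s n))
    (hs : ∀ n, Good σ (s n)) : Good σ (⋃ n, s n) := by
  have mp : ∀ n, MeasurableSet (Set.accumulate s n) := fun n => by
    rw [Set.accumulate_def]
    exact MeasurableSet.biUnion (Set.to_countable {k | k ≤ n}) (fun k _ => ms k)
  have hp : ∀ n, Good σ (Set.accumulate s n) := by
    intro n
    induction n with
    | zero => rw [Set.accumulate_zero_nat]; exact hs 0
    | succ n ih =>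
      rw [Set.accumulate_succ]
      exact good_union hσ (mp n) (ms _) ih (hs _)
  have mU : MeasurableSet (⋃ n, s n) := MeasurableSet.iUnion ms
  intro ε hε
  have ht : Tendsto (fun n => σ.real (Set.accumulate s n)) atTop (𝓝 (σ.real (⋃ n, s n))) := by
    have := tendsto_measure_iUnion_accumulate (μ := σ) (f := s)
    exact (ENNReal.tendsto_toReal (measure_ne_top _ _)).comp this
  obtain ⟨n, hn⟩ := (ht.eventually (lt_mem_nhds (show σ.real (⋃ n, s n) - ε/2 < _ by linarith))).exists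
  obtain ⟨C, hC⟩ := hp n (ε/2) (by linarith)
  refine ⟨C, ?_⟩
  have hsub : Set.accumulate s n ⊆ ⋃ n, s n := Set.accumulate_subset_iUnion n
  have h1 := D_change hσ mU (mp n) hsub C
  rw [measureReal_sdiff hsub (mp n)] at h1
  linarith

end

end Pool.Agent.X199.Choq
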