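import Pool.Agent.X199.ChoqB

open MeasureTheory Filter Topology BoundedContinuousFunction

namespace Pool.Agent.X199.Choq

section
variable {Γ : Type} [AddCommGroup Γ] [TopologicalSpace Γ] [DiscreteTopology Γ]
variable {σ : Measure (V Γ)} [IsProbabilityMeasure σ]

lemma good_unit [Countable Γ] (hσ : σ (EM Γ)ᶜ = 0) (f : Γ →ᵇ ℝ) (hf0 : ∀ x, 0 ≤ f x)
    (hf1 : ∀ x, f x ≤ 1) (c : ℝ) : Good σ {ν : V Γ | c < ν f} := by
  obtain ⟨a, ha, haI, haE⟩ := ergodic f hf0 hf1
  intro ε hε
  have mF := meas_eval (Γ := Γ) f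
  -- choose δ
  have ht : Tendsto (fun k : ℕ => σ.real {ν : V Γ | c < ν f ∧ ν f ≤ c + 2 * (1/((k:ℝ)+1))}) atTop (𝓝 0) := by
    have hanti : Antitone (fun k : ℕ => {ν : V Γ | c < ν f ∧ ν f ≤ c + 2 * (1/((k:ℝ)+1))}) := by
      intro k l hkl ν hν
      refine ⟨hν.1, hν.2.trans ?_⟩
      have : 1/((l:ℝ)+1) ≤ 1/((k:ℝ)+1) := Nat.one_div_le_one_div hkl
      linarith
    have hm : ∀ k : ℕ, NullMeasurableSet {ν : V Γ | c < ν f ∧ ν f ≤ c + 2 * (1/((k:ℝ)+1))} σ :=
      fun k => ((measurableSet_lt measurable_const mF).inter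
        (measurableSet_le mF measurable_const)).nullMeasurableSet
    have := tendsto_measure_iInter_atTop (μ := σ) hm hanti ⟨0, measure_ne_top _ _⟩
    have hempty : ⋂ k : ℕ, {ν : V Γ | c < ν f ∧ ν f ≤ c + 2 * (1/((k:ℝ)+1))} = ∅ := by
      ext ν
      simp only [Set.mem_iInter, Set.mem_setOf_eq, Set.mem_empty_iff_false, iff_false]
      intro h
      obtain ⟨k, hk⟩ := exists_nat_one_div_lt (show 0 < (ν f - c)/2 by linarith [(h 0).1])
      have := (h k).2
      linarith
    rw [hempty, measure_empty] at this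
    exact (ENNReal.tendsto_toReal ENNReal.zero_ne_top).comp this
  obtain ⟨k, hk⟩ := (ht.eventually (gt_mem_nhds (show (0:ℝ) < ε/2 by linarith))).exists
  set δ : ℝ := 1/((k:ℝ)+1) with hδ
  have hδ0 : 0 < δ := by positivity
  set W : Set (V Γ) := {ν : V Γ | c < ν f ∧ ν f ≤ c + 2 * δ} with hW
  have mW : MeasurableSet W := (measurableSet_lt measurable_const mF).inter
        (measurableSet_le mF measurable_const)
  -- ergodic limit
  have hlim : Tendsto (fun l => ∫ ν, (ν (a l * a l) - ν f * ν f) ∂σ) atTop (𝓝 0) := by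
    have h0 : (0:ℝ) = ∫ ν : V Γ, (0:ℝ) ∂σ := by simp
    rw [h0]
    refine tendsto_integral_of_dominated_convergence (fun _ => (2:ℝ)) ?_ (integrable_const _) ?_ ?_
    · intro l
      exact ((meas_eval _).sub (mF.mul mF)).aestronglyMeasurable
    · intro l
      filter_upwards [ae_EM hσ] with ν hν
      have b1 : 0 ≤ ν f := hν.1.1 f hf0
      have b2 : ν f ≤ 1 := by rw [← hν.1.2.1]; exact IM_mono hν.1 (fun x => by simpa using hf1 x)
      have b3 : 0 ≤ ν (a l * a l) := hν.1.1 _ (fun x => by simpa using mul_self_nonneg _)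
      have b4 : ν (a l * a l) ≤ 1 := by
        rw [← hν.1.2.1]
        refine IM_mono hν.1 (fun x => ?_)
        have := ha l x
        simp only [BoundedContinuousFunction.coe_mul, Pi.mul_apply, BoundedContinuousFunction.coe_one, Pi.one_apply]
        nlinarith
      rw [Real.norm_eq_abs, abs_le]
      constructor <;> nlinarith
    · filter_upwards [ae_EM hσ] with ν hν
      have := (haE ν hν).sub_const (ν f * ν f)
      simpa using this
  obtain ⟨l, hl⟩ := (hlim.eventually (gt_mem_nhds (show (0:ℝ) < ε/2 * δ^2 by positivity))).exists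
  refine ⟨{x | c + δ < a l x}, ?_⟩
  set C : Set Γ := {x | c + δ < a l x} with hC
  have mE : MeasurableSet {ν : V Γ | c < ν f} := measurableSet_lt measurable_const mF
  have iW : Integrable (W.indicator (fun _ => (1:ℝ))) σ := (integrable_const (1:ℝ)).indicator mW
  have iQ : Integrable (fun ν : V Γ => (ν (a l * a l) - ν f * ν f)) σ := by
    refine integ ((meas_eval _).sub (mF.mul mF)) 2 hσ (fun ν hν => ?_)
    have b1 : 0 ≤ ν f := hν.1.1 f hf0
    have b2 : ν f ≤ 1 := by rw [← hν.1.2.1]; exact IM_mono hν.1 (fun x => by simpa using hf1 x)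
    have b3 : 0 ≤ ν (a l * a l) := hν.1.1 _ (fun x => by simpa using mul_self_nonneg _)
    have b4 : ν (a l * a l) ≤ 1 := by
      rw [← hν.1.2.1]
      refine IM_mono hν.1 (fun x => ?_)
      have := ha l x
      simp only [BoundedContinuousFunction.coe_mul, Pi.mul_apply, BoundedContinuousFunction.coe_one, Pi.one_apply]
      nlinarith
    rw [abs_le]
    constructor <;> nlinarith
  have main : D σ C {ν : V Γ | c < ν f} ≤ σ.real W + (1/δ^2) * ∫ ν, (ν (a l * a l) - ν f * ν f) ∂σ := by
    have e : σ.real W = ∫ ν, W.indicator (fun _ => (1:ℝ)) ν ∂σ := by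
      rw [integral_indicator mW]; simp
    rw [e, ← integral_const_mul, D, ← integral_add iW (iQ.const_mul _)]
    refine integral_mono_ae (D_int hσ _ mE) (iW.add (iQ.const_mul _)) ?_
    filter_upwards [ae_EM hσ] with ν hν
    have hI := hν.1
    set t := ν f with htt
    have a0 := nu_ind_nonneg hI C
    have a1 := nu_ind_le_one hI C
    have q : ν ((a l - t • 1) * (a l - t • 1)) = ν (a l * a l) - t * t := by
      have e1 : (a l - t • (1 : Γ →ᵇ ℝ)) * (a l - t • 1) = a l * a l - (2*t) • a l + (t*t) • 1 := by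
        ext x; simp; ring
      rw [e1, map_add, map_sub, map_smul, map_smul, hI.2.1, haI ν hI l, ← htt]
      simp; ring
    have q0 : 0 ≤ ν (a l * a l) - t * t := by
      rw [← q]; exact hI.1 _ (fun x => by simpa using mul_self_nonneg _)
    have q1 : 0 ≤ (1/δ^2) * (ν (a l * a l) - t * t) := by positivity
    by_cases hc : c < t
    · rw [Set.indicator_of_mem (show ν ∈ {ν : V Γ | c < ν f} from hc)]
      by_cases hc2 : t ≤ c + 2 * δ
      · rw [Set.indicator_of_mem (show ν ∈ W from ⟨hc, hc2⟩), abs_of_nonpos (by linarith)]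
        linarith
      · rw [Set.indicator_of_notMem (show ν ∉ W from fun h => hc2 h.2), abs_of_nonpos (by linarith)]
        have : ν (1 - ind C) ≤ (1/δ^2) * (ν (a l * a l) - t * t) := by
          rw [← q, ← smul_eq_mul, ← map_smul]
          refine IM_mono hI (fun x => ?_)
          simp only [BoundedContinuousFunction.coe_sub, Pi.sub_apply, BoundedContinuousFunction.coe_one, Pi.one_apply,
            BoundedContinuousFunction.coe_smul, BoundedContinuousFunction.coe_mul, Pi.mul_apply, smul_eq_mul, mul_one, Pi.smul_apply]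
          by_cases hx : x ∈ C
          · rw [ind_apply, Set.indicator_of_mem hx, sub_self]
            exact mul_nonneg (by positivity) (mul_self_nonneg _)
          · rw [ind_apply, Set.indicator_of_notMem hx, sub_zero, one_div, ← div_eq_inv_mul, le_div_iff₀ (by positivity)]
            have hx' : a l x ≤ c + δ := not_lt.1 hx
            nlinarith
        rw [map_sub, hI.2.1] at this
        linarith
    · rw [Set.indicator_of_notMem (show ν ∉ {ν : V Γ | c < ν f} from hc),
        Set.indicator_of_notMem (show ν ∉ W from fun h => hc h.1), sub_zero, abs_of_nonneg a0, zero_add]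
      rw [← q, ← smul_eq_mul, ← map_smul]
      refine IM_mono hI (fun x => ?_)
      simp only [BoundedContinuousFunction.coe_sub, Pi.sub_apply, BoundedContinuousFunction.coe_one, Pi.one_apply,
        BoundedContinuousFunction.coe_smul, BoundedContinuousFunction.coe_mul, Pi.mul_apply, smul_eq_mul, mul_one, Pi.smul_apply]
      by_cases hx : x ∈ C
      · rw [ind_apply, Set.indicator_of_mem hx, one_div, ← div_eq_inv_mul, le_div_iff₀ (by positivity)]
        have hx' : c + δ < a l x := hx
        push_neg at hc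
        nlinarith
      · rw [ind_apply, Set.indicator_of_notMem hx]
        exact mul_nonneg (by positivity) (mul_self_nonneg _)
  refine main.trans ?_
  have : (1/δ^2) * ∫ ν, (ν (a l * a l) - ν f * ν f) ∂σ ≤ ε/2 := by
    rw [one_div, ← div_eq_inv_mul, div_le_iff₀ (by positivity)]
    exact hl.le
  linarith

lemma good_congr (hσ : σ (EM Γ)ᶜ = 0) {E F : Set (V Γ)} (h : ∀ ν ∈ EM Γ, (ν ∈ E ↔ ν ∈ F))
    (hE : Good σ E) : Good σ F := by
  intro ε hε
  obtain ⟨C, hC⟩ := hE ε hε
  refine ⟨C, le_of_eq_of_le ?_ hC⟩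
  refine integral_congr_ae ?_
  filter_upwards [ae_EM hσ] with ν hν
  by_cases h1 : ν ∈ E
  · rw [Set.indicator_of_mem h1, Set.indicator_of_mem ((h ν hν).1 h1)]
  · rw [Set.indicator_of_notMem h1, Set.indicator_of_notMem (fun h2 => h1 ((h ν hν).2 h2))]

lemma good_gen [Countable Γ] (hσ : σ (EM Γ)ᶜ = 0) (f : Γ →ᵇ ℝ) (c : ℝ) :
    Good σ {ν : V Γ | c < ν f} := by
  set K : ℝ := ‖f‖ + 1 with hK
  have hK0 : 0 < K := by positivity
  set g : Γ →ᵇ ℝ := (1/(2*K)) • (f + K • 1) with hg
  have hfx : ∀ x, |f x| ≤ ‖f‖ := fun x => f.norm_coe_le_norm x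
  have g0 : ∀ x, 0 ≤ g x := by
    intro x
    have := abs_le.1 (hfx x)
    simp only [hg, BoundedContinuousFunction.coe_smul, BoundedContinuousFunction.coe_add, Pi.add_apply,
      BoundedContinuousFunction.coe_one, Pi.one_apply, smul_eq_mul, mul_one, Pi.smul_apply]
    exact mul_nonneg (by positivity) (by linarith)
  have g1 : ∀ x, g x ≤ 1 := by
    intro x
    have := abs_le.1 (hfx x)
    simp only [hg, BoundedContinuousFunction.coe_smul, BoundedContinuousFunction.coe_add, Pi.add_apply,
      BoundedContinuousFunction.coe_one, Pi.one_apply, smul_eq_mul, mul_one, Pi.smul_apply]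
    rw [one_div, ← div_eq_inv_mul, div_le_one (by positivity)]
    linarith
  refine good_congr hσ (fun ν hν => ?_) (good_unit hσ g g0 g1 ((1/(2*K)) * (c + K)))
  simp only [Set.mem_setOf_eq, hg, map_smul, map_add, hν.1.2.1, smul_eq_mul, mul_one]
  rw [mul_lt_mul_iff_right₀ (by positivity)]
  constructor <;> intro h <;> linarith

lemma good_all [Countable Γ] (hσ : σ (EM Γ)ᶜ = 0) (E : Set (V Γ)) (hE : MeasurableSet E) :
    Good σ E := by
  have huniv : Good σ Set.univ := by
    intro ε hε
    refine ⟨Set.univ, ?_⟩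
    have : D σ (Set.univ : Set Γ) Set.univ = 0 := by
      rw [D]
      have h0 : (0:ℝ) = ∫ ν : V Γ, (0:ℝ) ∂σ := by simp
      rw [h0]
      refine integral_congr_ae ?_
      filter_upwards [ae_EM hσ] with ν hν
      have e : ind (Set.univ : Set Γ) = 1 := by ext x; simp
      rw [e, hν.1.2.1]; simp
    rw [this]; exact hε.le
  refine MeasurableSpace.generateFrom_induction _ (fun s _ => Good σ s) ?_ ?_ ?_ ?_ E hE
  · intro t ht _
    rcases ht with ht | ⟨f, c, rfl⟩
    · rw [Set.mem_singleton_iff] at ht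
      subst ht
      exact good_congr hσ (fun ν hν => by simp [hν]) huniv
    · exact good_gen hσ f c
  · have := good_compl hσ huniv
    rwa [Set.compl_univ] at this
  · intro t ht h
    exact good_compl hσ h
  · intro s hs h
    exact good_iUnion hσ s hs h

/-- Main theorem. -/
theorem main [Countable Γ] (m : V Γ) (hσ : σ (EM Γ)ᶜ = 0)
    (hdec : ∀ f, m f = ∫ ν, ν f ∂σ) (E : Set (V Γ)) (hE : MeasurableSet E) :
    ∃ C : ℕ → Set Γ,
      (∀ ε > 0, ∃ N, ∀ i ≥ N, ∀ j ≥ N, m ((ind (C i) - ind (C j)) * (ind (C i) - ind (C j))) < ε) ∧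
      (∀ γ, Tendsto (fun n => m ((tr γ (ind (C n)) - ind (C n)) * (tr γ (ind (C n)) - ind (C n)))) atTop (𝓝 0)) ∧
      ∀ f, Tendsto (fun n => m (f * ind (C n))) atTop (𝓝 (∫ ν in E, ν f ∂σ)) := by
  choose C hC using fun n : ℕ => good_all hσ E hE (1/((n:ℝ)+1)) (by positivity)
  have hz : Tendsto (fun n : ℕ => 1/((n:ℝ)+1)) atTop (𝓝 0) := tendsto_one_div_add_atTop_nhds_zero_nat
  have bd : ∀ g : Γ →ᵇ ℝ, Integrable (fun ν : V Γ => ν g) σ := fun g =>
    integ (meas_eval g) ‖g‖ hσ (fun ν hν => IM_abs hν.1 g)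
  have pw : ∀ (A B : Set Γ), ∀ ν ∈ EM Γ, ν ((ind A - ind B) * (ind A - ind B)) ≤
      |ν (ind A) - E.indicator (fun _ => (1:ℝ)) ν| + |ν (ind B) - E.indicator (fun _ => (1:ℝ)) ν| := by
    intro A B ν hν
    have a0 := nu_ind_nonneg hν.1 A
    have a1 := nu_ind_le_one hν.1 A
    have b0 := nu_ind_nonneg hν.1 B
    have b1 := nu_ind_le_one hν.1 B
    by_cases h : ν ∈ E
    · rw [Set.indicator_of_mem h, abs_of_nonpos (by linarith), abs_of_nonpos (by linarith)]
      have : ν ((ind A - ind B) * (ind A - ind B)) ≤ ν ((1 - ind A) + (1 - ind B)) :=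
        IM_mono hν.1 (fun x => by
          by_cases hx : x ∈ A <;> by_cases hy : x ∈ B <;> simp [hx, hy])
      rw [map_add, map_sub, map_sub, hν.1.2.1] at this
      linarith
    · rw [Set.indicator_of_notMem h, sub_zero, sub_zero, abs_of_nonneg a0, abs_of_nonneg b0]
      rw [← map_add]
      exact IM_mono hν.1 (fun x => by
          by_cases hx : x ∈ A <;> by_cases hy : x ∈ B <;> simp [hx, hy])
  have cau : ∀ A B : Set Γ, m ((ind A - ind B) * (ind A - ind B)) ≤ D σ A E + D σ B E := by
    intro A B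
    rw [hdec, D, D, ← integral_add (D_int hσ A hE) (D_int hσ B hE)]
    refine integral_mono_ae (bd _) ((D_int hσ A hE).add (D_int hσ B hE)) ?_
    filter_upwards [ae_EM hσ] with ν hν
    exact pw A B ν hν
  have trC : ∀ (γ : Γ) (A : Set Γ), tr γ (ind A) = ind {x | x - γ ∈ A} := by
    intro γ A; ext x
    by_cases hx : x - γ ∈ A
    · have : x ∈ {x | x - γ ∈ A} := hx
      simp [hx]
    · have : x ∉ {x | x - γ ∈ A} := hx
      simp [hx]
  have DT : ∀ (γ : Γ) (A : Set Γ), D σ {x | x - γ ∈ A} E = D σ A E := by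
    intro γ A
    refine integral_congr_ae ?_
    filter_upwards [ae_EM hσ] with ν hν
    rw [← trC, hν.1.2.2]
  have mnn : ∀ g : Γ →ᵇ ℝ, 0 ≤ m (g * g) := by
    intro g
    rw [hdec]
    refine integral_nonneg_of_ae ?_
    filter_upwards [ae_EM hσ] with ν hν
    exact hν.1.1 _ (fun x => by simpa using mul_self_nonneg _)
  refine ⟨C, ?_, ?_, ?_⟩
  · intro ε hε
    obtain ⟨N, hN⟩ := (Filter.eventually_atTop.1 (hz.eventually (gt_mem_nhds (show (0:ℝ) < ε/2 by linarith))))
    refine ⟨N, fun i hi j hj => ?_⟩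
    have := cau (C i) (C j)
    linarith [hC i, hC j, hN i hi, hN j hj]
  · intro γ
    have h2 : Tendsto (fun n : ℕ => 2 * (1/((n:ℝ)+1))) atTop (𝓝 0) := by
      simpa using hz.const_mul 2
    refine squeeze_zero (fun n => mnn _) (fun n => ?_) h2
    rw [trC]
    have := cau {x | x - γ ∈ C n} (C n)
    rw [DT] at this
    linarith [hC n]
  · intro f
    rw [tendsto_iff_dist_tendsto_zero]
    have h2 : Tendsto (fun n : ℕ => ‖f‖ * (1/((n:ℝ)+1))) atTop (𝓝 0) := by
      simpa using hz.const_mul ‖f‖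
    refine squeeze_zero (fun n => dist_nonneg) (fun n => ?_) h2
    rw [Real.dist_eq, hdec, ← integral_indicator hE, ← integral_sub (bd _) ((bd f).indicator hE)]
    refine (abs_integral_le_integral_abs).trans ?_
    refine le_trans ?_ (mul_le_mul_of_nonneg_left (hC n) (norm_nonneg f))
    rw [D, ← integral_const_mul]
    refine integral_mono_ae (((bd _).sub ((bd f).indicator hE)).abs) ((D_int hσ _ hE).const_mul _) ?_
    filter_upwards [ae_EM hσ] with ν hν
    have a0 := nu_ind_nonneg hν.1 (C n)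
    have a1 := nu_ind_le_one hν.1 (C n)
    have key : ∀ g : Γ →ᵇ ℝ, (∀ x, 0 ≤ g x) → |ν (f * g)| ≤ ‖f‖ * ν g := by
      intro g hg
      have hfx : ∀ x, |f x| ≤ ‖f‖ := fun x => f.norm_coe_le_norm x
      rw [show ‖f‖ * ν g = ν (‖f‖ • g) by rw [map_smul, smul_eq_mul], abs_le, ← map_neg]
      constructor
      · refine IM_mono hν.1 (fun x => ?_)
        have := abs_le.1 (hfx x)
        simp only [BoundedContinuousFunction.coe_neg, Pi.neg_apply, BoundedContinuousFunction.coe_smul,
          BoundedContinuousFunction.coe_mul, Pi.mul_apply, smul_eq_mul, Pi.smul_apply]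
        nlinarith [hg x]
      · refine IM_mono hν.1 (fun x => ?_)
        have := abs_le.1 (hfx x)
        simp only [BoundedContinuousFunction.coe_smul,
          BoundedContinuousFunction.coe_mul, Pi.mul_apply, smul_eq_mul, Pi.smul_apply]
        nlinarith [hg x]
    by_cases h : ν ∈ E
    · rw [Set.indicator_of_mem h, Set.indicator_of_mem h, abs_of_nonpos (by linarith : ν (ind (C n)) - 1 ≤ 0)]
      have := key (1 - ind (C n)) (fun x => by simpa using ind_le_one (C n) x)
      rw [mul_sub, mul_one, map_sub, map_sub, hν.1.2.1, abs_sub_comm] at this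
      calc |ν (f * ind (C n)) - ν f| ≤ _ := this
        _ = _ := by ring
    · rw [Set.indicator_of_notMem h, Set.indicator_of_notMem h, sub_zero, sub_zero, abs_of_nonneg a0]
      exact key _ (ind_nonneg _)

end

end Pool.Agent.X199.Choq
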