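import Mathlib

/-!
# Korovin orbits are not submetacompact
-/

set_option autoImplicit false

open Set Topology

universe u v

namespace Pool.Agent.X199

variable {G : Type u} {X : Type v} [CommGroup G]

/-- The orbit `G_f = {g f : g ∈ G}` of `f : G → X`, where `(g f) x = f (x g)`. It carries the
subspace topology of the product topology of `G → X`. -/
def KOrbit (f : G → X) : Set (G → X) := range fun (g : G) (x : G) => f (x * g)

/-- `f` is a Korovin mapping: for every countable `M ⊆ G` the projection of the orbit of `f` to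
`X ^ M` is onto. -/
def IsKorovin (f : G → X) : Prop :=
  ∀ M : Set G, M.Countable → ∀ z : M → X, ∃ y ∈ KOrbit f, ∀ x : M, y x = z x

/-- A space is submetacompact (θ-refinable) if every open cover has a sequence of open refinements
such that every point lies in only finitely many members of one of them. -/
def Submetacompact (Y : Type*) [TopologicalSpace Y] : Prop :=
  ∀ 𝒰 : Set (Set Y), (∀ U ∈ 𝒰, IsOpen U) → ⋃₀ 𝒰 = univ →
    ∃ 𝒱 : ℕ → Set (Set Y), (∀ n, (∀ V ∈ 𝒱 n, IsOpen V ∧ ∃ U ∈ 𝒰, V ⊆ U) ∧ ⋃₀ 𝒱 n = univ) ∧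
      ∀ y, ∃ n, {V ∈ 𝒱 n | y ∈ V}.Finite

/-- Closing off a countable set under a countable-set-valued operation on finite sets. -/
theorem exists_closed_countable (T : Set G → Set G) (hT : ∀ r, (T r).Countable) :
    ∃ N : Set G, N.Countable ∧ ∀ r : Set G, r.Finite → r ⊆ N → T r ⊆ N := by
  let N : ℕ → Set G := fun k => Nat.rec ∅ (fun _ S => S ∪ ⋃ r ∈ {r : Set G | r.Finite ∧ r ⊆ S}, T r) k
  have hs : ∀ k, N (k + 1) = N k ∪ ⋃ r ∈ {r : Set G | r.Finite ∧ r ⊆ N k}, T r := fun _ => rfl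
  have hc : ∀ k, (N k).Countable := by
    intro k
    induction k with
    | zero => exact countable_empty
    | succ k ih =>
      rw [hs]
      exact ih.union ((countable_setOf_finite_subset ih).biUnion fun r _ => hT r)
  have hm : Monotone N := monotone_nat_of_le_succ fun k => by
    rw [hs]
    exact subset_union_left
  refine ⟨⋃ k, N k, countable_iUnion hc, fun r hr hrN => ?_⟩
  obtain ⟨k, hk⟩ : ∃ k, r ⊆ N k := by
    have h1 : ∀ x ∈ r, ∃ k, x ∈ N k := fun x hx => mem_iUnion.1 (hrN hx)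
    choose! k hk using h1
    obtain ⟨K, hK⟩ := (hr.image k).bddAbove
    exact ⟨K, fun x hx => hm (hK (mem_image_of_mem k hx)) (hk x hx)⟩
  refine Subset.trans ?_ (subset_iUnion N (k + 1))
  rw [hs]
  exact Subset.trans (subset_biUnion_of_mem (u := T) (show r ∈ {r : Set G | r.Finite ∧ r ⊆ N k} from
    ⟨hr, hk⟩)) subset_union_right

variable [TopologicalSpace X]

/-- An open set of the orbit contains all points agreeing with a given one of its points on a
suitable finite set. -/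
theorem exists_finite_support {f : G → X} (y : KOrbit f) (V : Set (KOrbit f)) (hV : IsOpen V)
    (hy : y ∈ V) : ∃ s : Set G, s.Finite ∧ ∀ y' : KOrbit f, (∀ x ∈ s, y'.1 x = y.1 x) → y' ∈ V := by
  obtain ⟨W, hW, rfl⟩ := isOpen_induced_iff.1 hV
  obtain ⟨I, u, h1, h2⟩ := isOpen_pi_iff.1 hW y.1 hy
  refine ⟨I, I.finite_toSet, fun y' hy' => h2 fun x hx => ?_⟩
  rw [hy' x hx]
  exact (h1 x hx).2

theorem exists_infinite {f : G → X} (hf : IsKorovin f) {a : X} {V₀ : Set X} (ha : a ∉ V₀)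
    (𝒱 : ℕ → Set (Set (KOrbit f)))
    (hV : ∀ n, ∀ V ∈ 𝒱 n, IsOpen V ∧ ∃ x : G, V ⊆ {y : KOrbit f | y.1 x ∈ V₀})
    (hc : ∀ n, ⋃₀ 𝒱 n = univ) : ∃ y, ∀ n, {V ∈ 𝒱 n | y ∈ V}.Infinite := by
  -- cells
  have h1 : ∀ (n : ℕ) (y : KOrbit f), ∃ (V : Set (KOrbit f)) (m : G) (s : Set G), V ∈ 𝒱 n ∧ y ∈ V ∧
      (∀ y' ∈ V, y'.1 m ∈ V₀) ∧ s.Finite ∧
      ∀ y' : KOrbit f, (∀ x ∈ s, y'.1 x = y.1 x) → y' ∈ V := by
    intro n y
    have : y ∈ ⋃₀ 𝒱 n := by
      rw [hc]
      exact mem_univ y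
    obtain ⟨V, hVn, hyV⟩ := this
    obtain ⟨hVo, m, hm⟩ := hV n V hVn
    obtain ⟨s, hs1, hs2⟩ := exists_finite_support y V hVo hyV
    exact ⟨V, m, s, hVn, hyV, fun y' hy' => hm hy', hs1, hs2⟩
  choose W m s hW hyW hm hs hcell using h1
  have hall : ∀ T : Set G, T.Countable → ∃ y : KOrbit f, ∀ x ∈ T, y.1 x = a := by
    intro T hT
    obtain ⟨y, hy, hy'⟩ := hf T hT fun _ => a
    exact ⟨⟨y, hy⟩, fun x hx => hy' ⟨x, hx⟩⟩
  have hroot : ∀ n, ∃ r : Set G, r.Finite ∧ ∀ T : Set G, T.Countable → ∃ y : KOrbit f,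
      (∀ x ∈ T, y.1 x = a) ∧ ∀ x ∈ s n y, x ∈ T → x ∈ r := by
    intro n
    by_contra hcon
    push Not at hcon
    choose! T hT1 hT2 using hcon
    obtain ⟨N, hN1, hN2⟩ := exists_closed_countable (fun r => {x | x ∈ T r ∧ (T r).Countable})
      (fun r => by
        by_cases h : (T r).Countable
        · simpa [h] using h
        · simp [h])
    obtain ⟨y, hy⟩ := hall N hN1
    have hr : (s n y ∩ N).Finite := (hs n y).subset inter_subset_left
    have hsub := hN2 _ hr inter_subset_right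
    have hsub' : T (s n y ∩ N) ⊆ N := fun x hx => hsub ⟨hx, hT1 _ hr⟩
    obtain ⟨x, hx1, hx2, hx3⟩ := hT2 _ hr y fun x hx => hy x (hsub' hx)
    exact hx3 ⟨hx1, hsub' hx2⟩
  have hne : Nonempty (KOrbit f) := ⟨⟨_, 1, rfl⟩⟩
  choose r hr1 hr2 using hroot
  choose! F hF1 hF2 using hr2
  let e : ℕ → ℕ := fun i => (Nat.unpair i).1
  let T : ℕ → Set G := fun i => Nat.rec (⋃ n, r n)
    (fun i S => S ∪ (s (e i) (F (e i) S) ∪ {m (e i) (F (e i) S)})) i
  have hT0 : T 0 = ⋃ n, r n := rfl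
  have hTs : ∀ i, T (i + 1) = T i ∪ (s (e i) (F (e i) (T i)) ∪ {m (e i) (F (e i) (T i))}) :=
    fun _ => rfl
  have hTc : ∀ i, (T i).Countable := by
    intro i
    induction i with
    | zero => exact countable_iUnion fun n => (hr1 n).countable
    | succ i ih =>
      rw [hTs]
      exact ih.union ((hs _ _).countable.union (countable_singleton _))
  have hTm : Monotone T := monotone_nat_of_le_succ fun k => by
    rw [hTs]
    exact subset_union_left
  let y : ℕ → KOrbit f := fun i => F (e i) (T i)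
  have hy1 : ∀ i, ∀ x ∈ T i, (y i).1 x = a := fun i => hF1 (e i) (T i) (hTc i)
  have hy2 : ∀ i, ∀ x ∈ s (e i) (y i), x ∈ T i → x ∈ r (e i) := fun i => hF2 (e i) (T i) (hTc i)
  have hs1 : ∀ i j, j < i → s (e j) (y j) ⊆ T i := by
    intro i j hji
    refine Subset.trans ?_ (hTm (Nat.succ_le_of_lt hji))
    rw [Nat.succ_eq_add_one, hTs]
    exact Subset.trans subset_union_left subset_union_right
  have hm1 : ∀ i j, j < i → m (e j) (y j) ∈ T i := by
    intro i j hji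
    refine hTm (Nat.succ_le_of_lt hji) ?_
    rw [Nat.succ_eq_add_one, hTs]
    exact Or.inr (Or.inr rfl)
  have hr0 : ∀ i n, r n ⊆ T i := fun i n =>
    Subset.trans (subset_iUnion r n) (hTm (Nat.zero_le i))
  have hcomp : ∀ i j x, x ∈ s (e i) (y i) → x ∈ s (e j) (y j) → (y i).1 x = (y j).1 x := by
    have key : ∀ i j x, j < i → x ∈ s (e i) (y i) → x ∈ s (e j) (y j) →
        (y i).1 x = (y j).1 x := by
      intro i j x hji hxi hxj
      have h2 := hy2 i x hxi (hs1 i j hji hxj)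
      rw [hy1 i x (hr0 i _ h2), hy1 j x (hr0 j _ h2)]
    intro i j x hi hj
    rcases lt_trichotomy i j with h | h | h
    · exact (key j i x h hj hi).symm
    · rw [h]
    · exact key i j x h hi hj
  obtain ⟨ys, hys, hys'⟩ := hf (⋃ i, s (e i) (y i)) (countable_iUnion fun i => (hs _ _).countable)
    (fun x => (y (mem_iUnion.1 x.2).choose).1 x)
  have hys2 : ∀ i, ∀ x ∈ s (e i) (y i), ys x = (y i).1 x := by
    intro i x hx
    have h2 : x ∈ ⋃ i, s (e i) (y i) := mem_iUnion.2 ⟨i, hx⟩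
    rw [hys' ⟨x, h2⟩]
    exact hcomp _ _ x (mem_iUnion.1 h2).choose_spec hx
  have hin : ∀ i, (⟨ys, hys⟩ : KOrbit f) ∈ W (e i) (y i) := fun i =>
    hcell (e i) (y i) ⟨ys, hys⟩ fun x hx => hys2 i x hx
  have hinj : Function.Injective fun i => W (e i) (y i) := by
    have key : ∀ i j, j < i → W (e i) (y i) ≠ W (e j) (y j) := by
      intro i j hji h
      have h2 : y i ∈ W (e j) (y j) := h ▸ hyW (e i) (y i)
      have h3 := hm (e j) (y j) (y i) h2
      rw [hy1 i _ (hm1 i j hji)] at h3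
      exact ha h3
    intro i j hij
    rcases lt_trichotomy i j with h | h | h
    · exact absurd hij.symm (key j i h)
    · exact h
    · exact absurd hij (key i j h)
  refine ⟨⟨ys, hys⟩, fun n => ?_⟩
  have hinf : {i : ℕ | e i = n}.Infinite := by
    have h2 : Function.Injective fun k : ℕ => Nat.pair n k := fun k l hkl => by
      have := congrArg (fun t => (Nat.unpair t).2) hkl
      simpa using this
    refine (infinite_range_of_injective h2).mono ?_
    rintro _ ⟨k, rfl⟩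
    simp [e]
  refine (hinf.image hinj.injOn).mono ?_
  rintro _ ⟨i, hi, rfl⟩
  have hi' : e i = n := hi
  exact ⟨hi' ▸ hW (e i) (y i), hin i⟩

theorem not_submetacompact {f : G → X} (hf : IsKorovin f)
    (hX : ∃ U : Set X, IsOpen U ∧ U.Nonempty ∧ U ≠ univ) : ¬ Submetacompact (KOrbit f) := by
  obtain ⟨V₀, hV₀, ⟨b, hb⟩, hne⟩ := hX
  obtain ⟨a, ha⟩ := (ne_univ_iff_exists_notMem V₀).1 hne
  intro h
  obtain ⟨𝒱, h1, h2⟩ := h (range fun x : G => {y : KOrbit f | y.1 x ∈ V₀}) (by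
    rintro _ ⟨x, rfl⟩
    exact hV₀.preimage ((continuous_apply x).comp continuous_subtype_val)) (by
    refine eq_univ_of_forall fun y => ?_
    obtain ⟨y', hy', h3⟩ := hf {1} (countable_singleton _) fun _ => b
    obtain ⟨g', rfl⟩ := hy'
    obtain ⟨_, g, rfl⟩ := y
    have h4 : f (1 * g') = b := h3 ⟨1, rfl⟩
    refine ⟨_, ⟨g' * g⁻¹, rfl⟩, ?_⟩
    change f (g' * g⁻¹ * g) ∈ V₀
    rw [inv_mul_cancel_right]
    rw [one_mul] at h4
    rw [h4]
    exact hb)
  obtain ⟨y, hy⟩ := exists_infinite hf ha 𝒱 (fun n V hVn => by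
    obtain ⟨h3, U, ⟨x, rfl⟩, h4⟩ := (h1 n).1 V hVn
    exact ⟨h3, x, h4⟩) (fun n => (h1 n).2)
  obtain ⟨n, hn⟩ := h2 y
  exact hy n hn

theorem submetacompact_of_paracompact (Y : Type*) [TopologicalSpace Y] [ParacompactSpace Y] :
    Submetacompact Y := by
  intro 𝒰 hU hc
  obtain ⟨v, hv1, hv2, hv3, hv4⟩ := precise_refinement (fun U : 𝒰 => U.1) (fun U => hU U.1 U.2) (by
    rw [← sUnion_eq_iUnion]
    exact hc)
  refine ⟨fun _ => range v, fun _ => ⟨?_, ?_⟩, fun y => ⟨0, ?_⟩⟩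
  · rintro _ ⟨U, rfl⟩
    exact ⟨hv1 U, U.1, U.2, hv4 U⟩
  · rw [sUnion_range]
    exact hv2
  · refine ((hv3.point_finite y).image v).subset ?_
    rintro _ ⟨⟨U, rfl⟩, h⟩
    exact ⟨U, h, rfl⟩

theorem exists_open_of_t2 [Nontrivial X] {f : G → X} (hf : IsKorovin f) (h : T2Space (KOrbit f)) :
    ∃ U : Set X, IsOpen U ∧ U.Nonempty ∧ U ≠ univ := by
  by_contra hcon
  push Not at hcon
  obtain ⟨a, b, hab⟩ := exists_pair_ne X
  obtain ⟨y, hy, hy'⟩ := hf {1} (countable_singleton _) fun _ => a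
  obtain ⟨z, hz, hz'⟩ := hf {1} (countable_singleton _) fun _ => b
  have hne : (⟨y, hy⟩ : KOrbit f) ≠ ⟨z, hz⟩ := by
    intro heq
    have h1 : y = z := congrArg Subtype.val heq
    apply hab
    rw [← hy' ⟨1, rfl⟩, ← hz' ⟨1, rfl⟩, h1]
  obtain ⟨U, V, hU, hV, hyU, hzV, hdis⟩ := t2_separation hne
  obtain ⟨W, hW, rfl⟩ := isOpen_induced_iff.1 hU
  obtain ⟨I, u, h1, h2⟩ := isOpen_pi_iff.1 hW y hyU
  have h3 : z ∈ W := h2 fun x hx => by
    rw [hcon (u x) (h1 x hx).1 ⟨_, (h1 x hx).2⟩]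
    exact mem_univ _
  exact (disjoint_left.1 hdis) h3 hzV

end Pool.Agent.X199
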