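import Mathlib

set_option autoImplicit false

open MeasureTheory Measure Filter Topology Set
open scoped ENNReal

namespace Pool.Agent.X199.LinfA

/-! ### generalities on `L^∞` of counting measures -/
section gen
variable {Ω : Type} [MeasurableSpace Ω]

/-- `L^∞` of the counting measure -/
noncomputable abbrev Li (Ω : Type) [MeasurableSpace Ω] := Lp ℝ ⊤ (count : Measure Ω)

theorem abs_le (x : Li Ω) (w : Ω) : |x w| ≤ ‖x‖ := by
  have h : ∀ᵐ w ∂(count : Measure Ω), ‖x w‖ₑ ≤ eLpNormEssSup x count := ae_le_eLpNormEssSup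
  rw [ae_count_iff] at h
  have h1 := h w
  rw [Lp.norm_def, eLpNorm_exponent_top]
  have h2 : eLpNormEssSup x (count : Measure Ω) ≠ ⊤ := by
    have := Lp.eLpNorm_ne_top x
    rwa [eLpNorm_exponent_top] at this
  have h3 := ENNReal.toReal_mono h2 h1
  simpa using h3

theorem norm_le (x : Li Ω) (C : ℝ) (hC : 0 ≤ C) (h : ∀ w, |x w| ≤ C) : ‖x‖ ≤ C := by
  rw [Lp.norm_def, eLpNorm_exponent_top]
  refine ENNReal.toReal_le_of_le_ofReal hC ?_
  refine eLpNormEssSup_le_of_ae_bound ?_
  exact Eventually.of_forall (fun w => by simpa using h w)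

theorem coe_add (x y : Li Ω) (w : Ω) : (x + y) w = x w + y w := by
  have := Lp.coeFn_add x y
  exact (ae_count_iff.1 this) w

theorem coe_sub (x y : Li Ω) (w : Ω) : (x - y) w = x w - y w := by
  have := Lp.coeFn_sub x y
  exact (ae_count_iff.1 this) w

theorem coe_smul (c : ℝ) (x : Li Ω) (w : Ω) : (c • x) w = c * x w := by
  have := Lp.coeFn_smul c x
  exact (ae_count_iff.1 this) w

theorem coe_zero (w : Ω) : (0 : Li Ω) w = 0 := by
  have := Lp.coeFn_zero ℝ ⊤ (count : Measure Ω)
  exact (ae_count_iff.1 this) w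

theorem coe_sum {ι : Type} (s : Finset ι) (x : ι → Li Ω) (w : Ω) :
    (∑ i ∈ s, x i) w = ∑ i ∈ s, x i w := by
  classical
  induction s using Finset.induction_on with
  | empty => simpa using coe_zero w
  | insert a s ha ih => rw [Finset.sum_insert ha, Finset.sum_insert ha, coe_add, ih]

theorem meas (x : Li Ω) : Measurable (x : Ω → ℝ) := by
  obtain ⟨g, hg, hxg⟩ := Lp.aestronglyMeasurable x
  have : (x : Ω → ℝ) = g := funext (ae_count_iff.1 hxg)
  rw [this]; exact hg.measurable

theorem nonneg_iff (x : Li Ω) : 0 ≤ x ↔ ∀ w, 0 ≤ x w := by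
  rw [← Lp.coeFn_nonneg]
  constructor
  · intro h w
    exact (ae_count_iff.1 h) w
  · intro h
    exact Eventually.of_forall h

/-- the element of `L^∞` given by a bounded measurable function -/
noncomputable def mk (f : Ω → ℝ) (hf : Measurable f) (C : ℝ) (hC : ∀ w, |f w| ≤ C) : Li Ω :=
  MemLp.toLp f (memLp_top_of_bound hf.aestronglyMeasurable C
    (Eventually.of_forall (fun w => by simpa using hC w)))

theorem coe_mk (f : Ω → ℝ) (hf : Measurable f) (C : ℝ) (hC : ∀ w, |f w| ≤ C) (w : Ω) :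
    mk f hf C hC w = f w := by
  have := MemLp.coeFn_toLp (memLp_top_of_bound (μ := (count : Measure Ω)) hf.aestronglyMeasurable C
    (Eventually.of_forall (fun w => by simpa using hC w)))
  exact (ae_count_iff.1 this) w

theorem ext_Li (x y : Li Ω) (h : ∀ w, x w = y w) : x = y :=
  Lp.ext (Eventually.of_forall h)

end gen

/-! ### index sets -/

/-- a sequence of infinite sets of quickly increasing size -/
def B : ℕ → Type
  | 0 => ℕ
  | n + 1 => Set (B n)

/-- the disjoint union of the sets `B n` -/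
structure J : Type where
  lev : ℕ
  val : B lev

instance infB : ∀ n, Infinite (B n)
  | 0 => inferInstanceAs (Infinite ℕ)
  | n + 1 => by
      have := infB n
      exact inferInstanceAs (Infinite (Set (B n)))

theorem card_level (m : ℕ) : Cardinal.mk {j : J | j.lev ≤ m} ≤ Cardinal.mk (B m) := by
  induction m with
  | zero =>
    refine Cardinal.mk_le_of_injective (f := fun j : {j : J | j.lev ≤ 0} =>
      (Nat.le_zero.1 j.2 ▸ j.1.val : B 0)) ?_
    rintro ⟨⟨a, x⟩, ha⟩ ⟨⟨b, y⟩, hb⟩ h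
    obtain rfl : a = 0 := Nat.le_zero.1 ha
    obtain rfl : b = 0 := Nat.le_zero.1 hb
    simp only at h
    subst h
    rfl
  | succ m ih =>
    have h1 : {j : J | j.lev ≤ m + 1} ⊆ {j : J | j.lev ≤ m} ∪ range (fun b : B (m + 1) => (⟨m + 1, b⟩ : J)) := by
      rintro ⟨a, x⟩ ha
      rcases Nat.lt_or_ge m a with h | h
      · obtain rfl : a = m + 1 := le_antisymm ha h
        exact Or.inr ⟨x, rfl⟩
      · exact Or.inl h
    have hinf : Cardinal.aleph0 ≤ Cardinal.mk (B (m + 1)) := Cardinal.aleph0_le_mk _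
    have h2 : Cardinal.mk (B m) ≤ Cardinal.mk (B (m + 1)) := by
      have : Cardinal.mk (B (m + 1)) = 2 ^ Cardinal.mk (B m) := Cardinal.mk_set
      rw [this]; exact (Cardinal.cantor _).le
    calc Cardinal.mk {j : J | j.lev ≤ m + 1}
        ≤ Cardinal.mk ({j : J | j.lev ≤ m} ∪ range (fun b : B (m + 1) => (⟨m + 1, b⟩ : J)) : Set J) :=
          Cardinal.mk_le_mk_of_subset h1
      _ ≤ Cardinal.mk {j : J | j.lev ≤ m} + Cardinal.mk (range (fun b : B (m + 1) => (⟨m + 1, b⟩ : J))) :=
          Cardinal.mk_union_le _ _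
      _ ≤ Cardinal.mk (B (m + 1)) + Cardinal.mk (B (m + 1)) :=
          add_le_add (ih.trans h2) Cardinal.mk_range_le
      _ = Cardinal.mk (B (m + 1)) := Cardinal.add_eq_self hinf

theorem exists_new (D : J → Set J) (hD : ∀ j, (D j).Countable) (m : ℕ) (F : Finset J) :
    ∃ b : B (m + 1), (∀ j : J, j.lev ≤ m → (⟨m + 1, b⟩ : J) ∉ D j) ∧
      ∀ j ∈ F, (⟨m + 1, b⟩ : J) ∉ D j := by
  by_contra hcon
  push Not at hcon
  set X : Set J := (⋃ j ∈ {j : J | j.lev ≤ m}, D j) ∪ ⋃ j ∈ (F : Set J), D j with hX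
  have hinf : Cardinal.aleph0 ≤ Cardinal.mk (B m) := Cardinal.aleph0_le_mk _
  have h1 : Cardinal.mk X ≤ Cardinal.mk (B m) := by
    refine (Cardinal.mk_union_le _ _).trans ?_
    refine (add_le_add (b := Cardinal.mk (B m)) (d := Cardinal.mk (B m)) ?_ ?_).trans
      (Cardinal.add_eq_self hinf).le
    · refine (Cardinal.mk_biUnion_le _ _).trans ?_
      refine (mul_le_mul' (card_level m) (?_ : _ ≤ Cardinal.aleph0)).trans ?_
      · refine ciSup_le' ?_
        intro j
        exact (hD _).le_aleph0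
      · exact (Cardinal.mul_le_max_of_aleph0_le_left hinf).trans (max_le le_rfl hinf)
    · have : (⋃ j ∈ (F : Set J), D j).Countable :=
        F.countable_toSet.biUnion (fun j _ => hD j)
      exact this.le_aleph0.trans hinf
  have h2 : ∀ b : B (m + 1), (⟨m + 1, b⟩ : J) ∈ X := by
    intro b
    by_cases hb : ∀ j : J, j.lev ≤ m → (⟨m + 1, b⟩ : J) ∉ D j
    · obtain ⟨j, hj, hj'⟩ := hcon b hb
      exact Or.inr (mem_biUnion (x := j) hj hj')
    · push Not at hb
      obtain ⟨j, hj, hj'⟩ := hb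
      exact Or.inl (mem_biUnion (x := j) hj hj')
  have h3 : Cardinal.mk (B (m + 1)) ≤ Cardinal.mk X := by
    refine Cardinal.mk_le_of_injective (f := fun b : B (m + 1) => (⟨⟨m + 1, b⟩, h2 b⟩ : X)) ?_
    intro b b' h
    have := congrArg Subtype.val h
    simpa [J.mk.injEq] using this
  have h4 : Cardinal.mk (B (m + 1)) = 2 ^ Cardinal.mk (B m) := Cardinal.mk_set
  rw [h4] at h3
  exact absurd (h3.trans h1) (not_le.2 (Cardinal.cantor _))

theorem exists_free (D : J → Set J) (hD : ∀ j, (D j).Countable) (n : ℕ) : ∀ m : ℕ,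
    ∃ F : Finset J, F.card = n ∧ (∀ j ∈ F, m < j.lev) ∧ (∀ j ∈ F, ∀ j' ∈ F, j ≠ j' → j ∉ D j') ∧
      ∀ j ∈ F, ∀ j' : J, j'.lev ≤ m → j ∉ D j' := by
  classical
  induction n with
  | zero => intro m; exact ⟨∅, by simp⟩
  | succ n ih =>
    intro m
    obtain ⟨F, h1, h2, h3, h4⟩ := ih (m + 1)
    obtain ⟨b, hb1, hb2⟩ := exists_new D hD m F
    have hnot : (⟨m + 1, b⟩ : J) ∉ F := fun h => lt_irrefl _ (h2 _ h)
    refine ⟨insert ⟨m + 1, b⟩ F, by rw [Finset.card_insert_of_notMem hnot, h1], ?_, ?_, ?_⟩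
    · intro j hj
      rcases Finset.mem_insert.1 hj with rfl | hj
      · exact Nat.lt_succ_self m
      · exact (Nat.lt_succ_self m).trans (h2 j hj)
    · intro j hj j' hj' hne
      rcases Finset.mem_insert.1 hj with rfl | hj
      · rcases Finset.mem_insert.1 hj' with rfl | hj'
        · exact absurd rfl hne
        · exact hb2 j' hj'
      · rcases Finset.mem_insert.1 hj' with rfl | hj'
        · exact h4 j hj _ le_rfl
        · exact h3 j hj j' hj' hne
    · intro j hj j' hj'
      rcases Finset.mem_insert.1 hj with rfl | hj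
      · exact hb1 j' hj'
      · exact h4 j hj j' (hj'.trans (Nat.le_succ m))

/-- the index set `I`: a set `s ≠ J` of indices and a label -/
def I : Type := {p : Set J × Set J // p.1ᶜ.Nonempty}

/-- given a set `s ≠ J` and countable sets `D j ⊆ I` (`j ∈ J`), some `i` with `s_i = s` avoids all. -/
theorem exists_i (s : Set J) (hs : sᶜ.Nonempty) (D : J → Set I) (hD : ∀ j, (D j).Countable) :
    ∃ i : I, i.1.1 = s ∧ ∀ j, i ∉ D j := by
  by_contra hcon
  push Not at hcon
  have hJ : Cardinal.aleph0 ≤ Cardinal.mk J := by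
    have : Infinite J := Infinite.of_injective (fun b : B 0 => (⟨0, b⟩ : J)) (by
      intro b b' h; simpa [J.mk.injEq] using h)
    exact Cardinal.aleph0_le_mk _
  have h1 : Cardinal.mk (⋃ j, D j : Set I) ≤ Cardinal.mk J := by
    refine (Cardinal.mk_iUnion_le _).trans ?_
    refine (mul_le_mul' le_rfl (?_ : _ ≤ Cardinal.aleph0)).trans ?_
    · exact ciSup_le' (fun j => (hD j).le_aleph0)
    · exact (Cardinal.mul_le_max_of_aleph0_le_left hJ).trans (max_le le_rfl hJ)
  have h2 : Cardinal.mk (Set J) ≤ Cardinal.mk (⋃ j, D j : Set I) := by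
    refine Cardinal.mk_le_of_injective (f := fun r : Set J =>
      (⟨⟨(s, r), hs⟩, by
        obtain ⟨j, hj⟩ := hcon ⟨(s, r), hs⟩ rfl
        exact mem_iUnion.2 ⟨j, hj⟩⟩ : (⋃ j, D j : Set I))) ?_
    intro r r' h
    have := congrArg Subtype.val h
    have := congrArg Subtype.val this
    simpa using this
  rw [Cardinal.mk_set] at h2
  exact absurd (h2.trans h1) (not_le.2 (Cardinal.cantor _))

end Pool.Agent.X199.LinfA
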