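import Mathlib

/-!
# A maximal algebra of subsets of `ℤ` all of whose nonempty members are infinite

The topology generated by such an algebra is a maximal crowded zero-dimensional topology on a
countable set; every subset differs from a member of the algebra by a scattered set.
-/

set_option autoImplicit false

open Set

namespace Pool.Agent.X199.Ultra

/-- Algebras of subsets of `ℤ` separating points in which all nonempty members are infinite. -/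
structure Alg (𝔹 : Set (Set ℤ)) : Prop where
  univ_mem : univ ∈ 𝔹
  compl_mem : ∀ B ∈ 𝔹, Bᶜ ∈ 𝔹
  inter_mem : ∀ B ∈ 𝔹, ∀ C ∈ 𝔹, B ∩ C ∈ 𝔹
  inf : ∀ B ∈ 𝔹, B.Nonempty → B.Infinite
  sep : ∀ a b : ℤ, a ≠ b → ∃ B ∈ 𝔹, a ∈ B ∧ b ∉ B

/-- The algebra of periodic sets. -/
def periodic : Set (Set ℤ) := {B | ∃ m : ℤ, 0 < m ∧ ∀ x, x ∈ B ↔ x + m ∈ B}

theorem periodic_mul {B : Set ℤ} {m : ℤ} (h : ∀ x, x ∈ B ↔ x + m ∈ B) (k : ℕ) :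
    ∀ x, x ∈ B ↔ x + k * m ∈ B := by
  induction k with
  | zero => simp
  | succ k ih =>
    intro x
    rw [ih x, h (x + k * m)]
    have : x + (k : ℤ) * m + m = x + ((k + 1 : ℕ) : ℤ) * m := by push_cast; ring
    rw [this]

theorem alg_periodic : Alg periodic := by
  refine ⟨⟨1, one_pos, fun x => by simp⟩, ?_, ?_, ?_, ?_⟩
  · rintro B ⟨m, hm, h⟩
    exact ⟨m, hm, fun x => not_congr (h x)⟩
  · rintro B ⟨m, hm, h⟩ C ⟨n, hn, h'⟩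
    refine ⟨n * m, by positivity, fun x => and_congr ?_ ?_⟩
    · have := periodic_mul h n.toNat x
      rwa [Int.toNat_of_nonneg hn.le] at this
    · have := periodic_mul h' m.toNat x
      rwa [Int.toNat_of_nonneg hm.le, mul_comm] at this
  · rintro B ⟨m, hm, h⟩ ⟨x, hx⟩
    have hinj : Function.Injective fun k : ℕ => x + k * m := by
      intro k l hkl
      have h1 : (k : ℤ) * m = l * m := by
        have : x + (k : ℤ) * m = x + l * m := hkl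
        linarith
      exact_mod_cast mul_right_cancel₀ hm.ne' h1
    refine (infinite_range_of_injective hinj).mono ?_
    rintro _ ⟨k, rfl⟩
    exact (periodic_mul h k x).1 hx
  · intro a b hab
    let m : ℤ := |b - a| + 1
    have hm : 0 < m := by positivity
    refine ⟨{x | m ∣ x - a}, ⟨m, hm, fun x => ?_⟩, by simp, ?_⟩
    · change m ∣ x - a ↔ m ∣ x + m - a
      have : x + m - a = (x - a) + m := by ring
      rw [this]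
      exact (dvd_add_self_right).symm
    · intro h
      have h1 : m ∣ b - a := h
      have h2 := Int.eq_zero_of_abs_lt_dvd h1 (by change |b - a| < |b - a| + 1; linarith)
      exact hab (by linarith)

theorem Alg.union_mem {𝔹 : Set (Set ℤ)} (h : Alg 𝔹) {B C : Set ℤ} (hB : B ∈ 𝔹) (hC : C ∈ 𝔹) :
    B ∪ C ∈ 𝔹 := by
  have := h.compl_mem _ (h.inter_mem _ (h.compl_mem B hB) _ (h.compl_mem C hC))
  rwa [compl_inter, compl_compl, compl_compl] at this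

theorem Alg.diff_mem {𝔹 : Set (Set ℤ)} (h : Alg 𝔹) {B C : Set ℤ} (hB : B ∈ 𝔹) (hC : C ∈ 𝔹) :
    B \ C ∈ 𝔹 := h.inter_mem B hB _ (h.compl_mem C hC)

theorem exists_maximal_alg : ∃ 𝔹 : Set (Set ℤ), Alg 𝔹 ∧ ∀ 𝔸, Alg 𝔸 → 𝔹 ⊆ 𝔸 → 𝔸 ⊆ 𝔹 := by
  obtain ⟨𝔹, -, h⟩ := zorn_subset_nonempty {𝔹 : Set (Set ℤ) | Alg 𝔹} (by
    intro c hc hchain hne
    obtain ⟨𝔹₀, h₀⟩ := hne
    refine ⟨⋃₀ c, ⟨?_, ?_, ?_, ?_, ?_⟩, fun s hs => subset_sUnion_of_mem hs⟩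
    · exact ⟨𝔹₀, h₀, (hc h₀).univ_mem⟩
    · rintro B ⟨𝔸, h𝔸, hB⟩
      exact ⟨𝔸, h𝔸, (hc h𝔸).compl_mem B hB⟩
    · rintro B ⟨𝔸, h𝔸, hB⟩ C ⟨𝔸', h𝔸', hC⟩
      rcases hchain.total h𝔸 h𝔸' with h | h
      · exact ⟨𝔸', h𝔸', (hc h𝔸').inter_mem B (h hB) C hC⟩
      · exact ⟨𝔸, h𝔸, (hc h𝔸).inter_mem B hB C (h hC)⟩
    · rintro B ⟨𝔸, h𝔸, hB⟩ hne
      exact (hc h𝔸).inf B hB hne
    · intro a b hab
      obtain ⟨B, hB, h1, h2⟩ := (hc h₀).sep a b hab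
      exact ⟨B, ⟨𝔹₀, h₀, hB⟩, h1, h2⟩) periodic alg_periodic
  exact ⟨𝔹, h.prop, fun 𝔸 h𝔸 hle => h.le_of_ge h𝔸 hle⟩

/-- `P` has no isolated point in the topology generated by `𝔹`. -/
def Crowded (𝔹 : Set (Set ℤ)) (P : Set ℤ) : Prop :=
  ∀ x ∈ P, ∀ B ∈ 𝔹, x ∈ B → ∃ y ∈ P, y ∈ B ∧ y ≠ x

theorem Crowded.infinite {𝔹 : Set (Set ℤ)} (h𝔹 : Alg 𝔹) {P B : Set ℤ} (hP : Crowded 𝔹 P)
    (hB : B ∈ 𝔹) (hne : (B ∩ P).Nonempty) : (B ∩ P).Infinite := by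
  intro hfin
  obtain ⟨x, hxB, hxP⟩ := hne
  -- separate `x` from the other points
  have h1 : ∀ s : Set ℤ, s.Finite → x ∉ s → ∃ C ∈ 𝔹, x ∈ C ∧ Disjoint C s := by
    intro s hs
    induction s, hs using Set.Finite.induction_on with
    | empty => exact fun _ => ⟨univ, h𝔹.univ_mem, mem_univ x, disjoint_empty _⟩
    | @insert a s _ _ ih =>
      intro hx
      have hxa : x ≠ a := fun h => hx (h ▸ mem_insert _ _)
      obtain ⟨C, hC, hxC, hd⟩ := ih fun h => hx (mem_insert_of_mem _ h)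
      obtain ⟨D, hD, hxD, haD⟩ := h𝔹.sep x a hxa
      refine ⟨C ∩ D, h𝔹.inter_mem C hC D hD, ⟨hxC, hxD⟩, ?_⟩
      rw [disjoint_left]
      rintro y ⟨hy1, hy2⟩ (rfl | hy3)
      · exact haD hy2
      · exact disjoint_left.1 hd hy1 hy3
  obtain ⟨C, hC, hxC, hd⟩ := h1 ((B ∩ P) \ {x}) (hfin.subset sdiff_subset) fun h => h.2 rfl
  obtain ⟨y, hyP, hyB, hyx⟩ := hP x hxP (B ∩ C) (h𝔹.inter_mem B hB C hC) ⟨hxB, hxC⟩
  exact disjoint_left.1 hd hyB.2 ⟨⟨hyB.1, hyP⟩, hyx⟩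

theorem mem_of_crowded {𝔹 : Set (Set ℤ)} (h𝔹 : Alg 𝔹) (hmax : ∀ 𝔸, Alg 𝔸 → 𝔹 ⊆ 𝔸 → 𝔸 ⊆ 𝔹)
    {P : Set ℤ} (h1 : Crowded 𝔹 P) (h2 : Crowded 𝔹 Pᶜ) : P ∈ 𝔹 := by
  let 𝔸 : Set (Set ℤ) := {D | ∃ B ∈ 𝔹, ∃ C ∈ 𝔹, D = (B ∩ P) ∪ (C \ P)}
  have hemp : ∅ ∈ 𝔹 := by
    have := h𝔹.compl_mem _ h𝔹.univ_mem
    rwa [compl_univ] at this
  have h𝔸 : Alg 𝔸 := by
    refine ⟨⟨univ, h𝔹.univ_mem, univ, h𝔹.univ_mem, ?_⟩, ?_, ?_, ?_, ?_⟩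
    · ext x
      simp [em]
    · rintro _ ⟨B, hB, C, hC, rfl⟩
      refine ⟨Bᶜ, h𝔹.compl_mem B hB, Cᶜ, h𝔹.compl_mem C hC, ?_⟩
      ext x
      simp only [mem_compl_iff, mem_union, mem_inter_iff, mem_sdiff]
      tauto
    · rintro _ ⟨B, hB, C, hC, rfl⟩ _ ⟨B', hB', C', hC', rfl⟩
      refine ⟨B ∩ B', h𝔹.inter_mem B hB B' hB', C ∩ C', h𝔹.inter_mem C hC C' hC', ?_⟩
      ext x
      simp only [mem_union, mem_inter_iff, mem_sdiff]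
      tauto
    · rintro _ ⟨B, hB, C, hC, rfl⟩ ⟨x, hx | hx⟩
      · exact (h1.infinite h𝔹 hB ⟨x, hx⟩).mono subset_union_left
      · exact (h2.infinite h𝔹 hC ⟨x, hx⟩).mono subset_union_right
    · intro a b hab
      obtain ⟨B, hB, h3, h4⟩ := h𝔹.sep a b hab
      refine ⟨B, ⟨B, hB, B, hB, ?_⟩, h3, h4⟩
      ext x
      simp only [mem_union, mem_inter_iff, mem_sdiff]
      tauto
  have hle : 𝔹 ⊆ 𝔸 := by
    intro B hB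
    refine ⟨B, hB, B, hB, ?_⟩
    ext x
    simp only [mem_union, mem_inter_iff, mem_sdiff]
    tauto
  refine hmax 𝔸 h𝔸 hle ⟨univ, h𝔹.univ_mem, ∅, hemp, ?_⟩
  ext x
  simp

/-- Every set differs from a member of a maximal algebra by a scattered set. -/
theorem exists_scattered_diff {𝔹 : Set (Set ℤ)} (h𝔹 : Alg 𝔹)
    (hmax : ∀ 𝔸, Alg 𝔸 → 𝔹 ⊆ 𝔸 → 𝔸 ⊆ 𝔹) (S : Set ℤ) :
    ∃ C ∈ 𝔹, ∀ R ⊆ (S \ C) ∪ (C \ S), Crowded 𝔹 R → R = ∅ := by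
  let K : Set ℤ → Set ℤ := fun S => ⋃₀ {P | P ⊆ S ∧ Crowded 𝔹 P}
  have hK1 : ∀ S, K S ⊆ S := fun S => sUnion_subset fun P hP => hP.1
  have hK2 : ∀ S, Crowded 𝔹 (K S) := by
    rintro S x ⟨P, hP, hx⟩ B hB hxB
    obtain ⟨y, hy1, hy2, hy3⟩ := hP.2 x hx B hB hxB
    exact ⟨y, ⟨P, hP, hy1⟩, hy2, hy3⟩
  have hK3 : ∀ S P, P ⊆ S → Crowded 𝔹 P → P ⊆ K S := fun S P h1 h2 =>
    subset_sUnion_of_mem (show P ∈ {P | P ⊆ S ∧ Crowded 𝔹 P} from ⟨h1, h2⟩)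
  -- closure of the crowded kernel
  let L : Set ℤ := {x | ∀ B ∈ 𝔹, x ∈ B → (B ∩ K S).Nonempty}
  have hKL : K S ⊆ L := fun x hx B _ hxB => ⟨x, hxB, hx⟩
  have hdisj : ∀ x, x ∈ K S → x ∉ K Sᶜ := fun x h1 h2 => hK1 _ h2 (hK1 _ h1)
  let P : Set ℤ := L \ K Sᶜ
  have hP1 : Crowded 𝔹 P := by
    rintro x ⟨hxL, hxK⟩ B hB hxB
    obtain ⟨z, hzB, hzK⟩ := hxL B hB hxB
    by_cases hzx : z = x
    · subst hzx
      obtain ⟨y, hy1, hy2, hy3⟩ := hK2 S z hzK B hB hzB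
      exact ⟨y, ⟨hKL hy1, hdisj y hy1⟩, hy2, hy3⟩
    · exact ⟨z, ⟨hKL hzK, hdisj z hzK⟩, hzB, hzx⟩
  have hP2 : Crowded 𝔹 Pᶜ := by
    intro x hx B hB hxB
    by_cases hxK : x ∈ K Sᶜ
    · obtain ⟨y, hy1, hy2, hy3⟩ := hK2 _ x hxK B hB hxB
      exact ⟨y, fun h => h.2 hy1, hy2, hy3⟩
    · have hxL : x ∉ L := fun h => hx ⟨h, hxK⟩
      have h3 : ∃ C ∈ 𝔹, x ∈ C ∧ ¬ (C ∩ K S).Nonempty := by
        by_contra hcon
        exact hxL fun C hC hxC => by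
          by_contra h
          exact hcon ⟨C, hC, hxC, h⟩
      obtain ⟨C, hC, hxC, hC2⟩ := h3
      have hinf := h𝔹.inf (B ∩ C) (h𝔹.inter_mem B hB C hC) ⟨x, hxB, hxC⟩
      obtain ⟨y, hy⟩ := (hinf.sdiff (finite_singleton x)).nonempty
      refine ⟨y, fun h => ?_, hy.1.1, hy.2⟩
      exact hC2 (h.1 C hC hy.1.2)
  refine ⟨P, mem_of_crowded h𝔹 hmax hP1 hP2, fun R hR hRc => ?_⟩
  -- the difference avoids both kernels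
  have hR1 : ∀ x ∈ R, x ∉ K S ∧ x ∉ K Sᶜ := by
    intro x hx
    rcases hR hx with h | h
    · refine ⟨fun hxK => h.2 ⟨hKL hxK, hdisj x hxK⟩, fun hxK => hK1 _ hxK h.1⟩
    · refine ⟨fun hxK => h.2 (hK1 _ hxK), h.1.2⟩
  by_contra hne
  obtain ⟨x, hx⟩ := nonempty_iff_ne_empty.2 hne
  by_cases hdense : ∀ y ∈ R, ∀ B ∈ 𝔹, y ∈ B → (B ∩ (R ∩ S)).Nonempty
  · have hc : Crowded 𝔹 (R ∩ S) := by
      rintro y ⟨hyR, hyS⟩ B hB hyB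
      obtain ⟨z, hzR, hzB, hzy⟩ := hRc y hyR B hB hyB
      obtain ⟨D, hD, hzD, hyD⟩ := h𝔹.sep z y hzy
      obtain ⟨w, hw1, hw2⟩ := hdense z hzR (B ∩ D) (h𝔹.inter_mem B hB D hD) ⟨hzB, hzD⟩
      exact ⟨w, hw2, hw1.1, fun h => hyD (h ▸ hw1.2)⟩
    obtain ⟨w, -, hw⟩ := hdense x hx univ h𝔹.univ_mem (mem_univ x)
    exact (hR1 w hw.1).1 (hK3 S _ inter_subset_right hc hw)
  · push Not at hdense
    obtain ⟨y, hyR, B, hB, hyB, hBe⟩ := hdense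
    have hc : Crowded 𝔹 (R ∩ B) := by
      rintro z ⟨hzR, hzB⟩ C hC hzC
      obtain ⟨w, hwR, hwC, hwz⟩ := hRc z hzR (B ∩ C) (h𝔹.inter_mem B hB C hC) ⟨hzB, hzC⟩
      exact ⟨w, ⟨hwR, hwC.1⟩, hwC.2, hwz⟩
    have hsub : R ∩ B ⊆ Sᶜ := by
      intro z hz hzS
      have : z ∈ B ∩ (R ∩ S) := ⟨hz.2, hz.1, hzS⟩
      have h4 : B ∩ (R ∩ S) = ∅ := by simpa using hBe
      rw [h4] at this
      exact this
    exact (hR1 y hyR).2 (hK3 _ _ hsub hc ⟨hyR, hyB⟩)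

end Pool.Agent.X199.Ultra
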