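import Mathlib
import Pool.Agent.H151.Combi

/-!
# A ccc zero-dimensional space of cardinality `ℵ₁` that is not weakly Menger
-/

set_option autoImplicit false

open Set Topology Filter TopologicalSpace
open Cardinal hiding univ

namespace Pool.Agent.X199.WM

/-- Every open cover has a countable subfamily with dense union. -/
def WeaklyLindelof (X : Type*) [TopologicalSpace X] : Prop :=
  ∀ 𝒰 : Set (Set X), (∀ U ∈ 𝒰, IsOpen U) → ⋃₀ 𝒰 = univ →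
    ∃ 𝒱 ⊆ 𝒰, 𝒱.Countable ∧ Dense (⋃₀ 𝒱)

/-- Weakly Menger spaces. -/
def WeaklyMenger (X : Type*) [TopologicalSpace X] : Prop :=
  ∀ 𝒰 : ℕ → Set (Set X), (∀ n, (∀ U ∈ 𝒰 n, IsOpen U) ∧ ⋃₀ 𝒰 n = univ) →
    ∃ 𝒱 : ℕ → Set (Set X), (∀ n, 𝒱 n ⊆ 𝒰 n ∧ (𝒱 n).Finite) ∧ Dense (⋃ n, ⋃₀ 𝒱 n)

/-- Weakly Scheepers spaces in the sense of Sakai. -/
def WeaklyScheepersSakai (X : Type*) [TopologicalSpace X] : Prop :=
  ∀ 𝒰 : ℕ → Set (Set X), (∀ n, (∀ U ∈ 𝒰 n, IsOpen U) ∧ ⋃₀ 𝒰 n = univ) →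
    ∃ 𝒱 : ℕ → Set (Set X), (∀ n, 𝒱 n ⊆ 𝒰 n ∧ (𝒱 n).Finite) ∧
      ∀ ℱ : Set (Set X), ℱ.Finite → (∀ U ∈ ℱ, IsOpen U ∧ U.Nonempty) →
        {n | ∀ U ∈ ℱ, (U ∩ ⋃₀ 𝒱 n).Nonempty}.Infinite

/-- Weakly Scheepers spaces in the sense of Kočinac. -/
def WeaklyScheepersKocinac (X : Type*) [TopologicalSpace X] : Prop :=
  ∀ 𝒰 : ℕ → Set (Set X), (∀ n, (∀ U ∈ 𝒰 n, IsOpen U) ∧ ⋃₀ 𝒰 n = univ) →
    ∃ Y : Set X, Dense Y ∧ ∃ 𝒱 : ℕ → Set (Set X), (∀ n, 𝒱 n ⊆ 𝒰 n ∧ (𝒱 n).Finite) ∧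
      ∀ F : Set X, F.Finite → F ⊆ Y → {n | F ⊆ ⋃₀ 𝒱 n}.Infinite

/-- The countable chain condition. -/
def CCC (X : Type*) [TopologicalSpace X] : Prop :=
  ∀ 𝒪 : Set (Set X), (∀ O ∈ 𝒪, IsOpen O ∧ O.Nonempty) → 𝒪.PairwiseDisjoint id → 𝒪.Countable

/-- The dominating number. -/
noncomputable def dNumber : Cardinal.{0} :=
  sInf {κ | ∃ D : Set (ℕ → ℕ), #D = κ ∧ ∀ g : ℕ → ℕ, ∃ f ∈ D, ∀ᶠ n in atTop, g n ≤ f n}

theorem aleph_one_le_dNumber : ℵ₁ ≤ dNumber := by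
  refine le_csInf ⟨#(univ : Set (ℕ → ℕ)), univ, rfl, fun g => ⟨g, mem_univ g,
    Eventually.of_forall fun _ => le_rfl⟩⟩ ?_
  rintro κ ⟨D, rfl, hD⟩
  by_contra hlt
  rw [not_le, lt_aleph_one_iff] at hlt
  have hDc : D.Countable := Cardinal.le_aleph0_iff_set_countable.1 hlt
  have hne : D.Nonempty := by
    obtain ⟨f, hf, -⟩ := hD 0
    exact ⟨f, hf⟩
  obtain ⟨e, he⟩ := hDc.exists_eq_range hne
  obtain ⟨f, hf, h⟩ := hD fun n => ((Finset.range (n + 1)).sup fun i => e i n) + 1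
  rw [he] at hf
  obtain ⟨i, rfl⟩ := hf
  obtain ⟨n, hn1, hn2⟩ := (h.and (eventually_ge_atTop i)).exists
  have h3 : e i n ≤ (Finset.range (n + 1)).sup fun i => e i n :=
    Finset.le_sup (f := fun i => e i n) (Finset.mem_range.2 (Nat.lt_succ_of_le hn2))
  omega

theorem sakai_of_kocinac {X : Type*} [TopologicalSpace X] (h : WeaklyScheepersKocinac X) :
    WeaklyScheepersSakai X := by
  intro 𝒰 hU
  obtain ⟨Y, hY, 𝒱, h1, h2⟩ := h 𝒰 hU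
  refine ⟨𝒱, h1, fun ℱ hℱ hO => ?_⟩
  have h3 : ∀ U ∈ ℱ, ∃ x, x ∈ U ∩ Y := fun U hUℱ =>
    hY.inter_open_nonempty U (hO U hUℱ).1 (hO U hUℱ).2
  choose x hx using h3
  have : Finite ℱ := hℱ
  refine (h2 (range fun U : ℱ => x U.1 U.2) (finite_range _) ?_).mono ?_
  · rintro _ ⟨U, rfl⟩
    exact (hx U.1 U.2).2
  · intro n hn U hUℱ
    exact ⟨x U hUℱ, (hx U hUℱ).1, hn ⟨⟨U, hUℱ⟩, rfl⟩⟩

theorem menger_of_sakai {X : Type*} [TopologicalSpace X] (h : WeaklyScheepersSakai X) :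
    WeaklyMenger X := by
  intro 𝒰 hU
  obtain ⟨𝒱, h1, h2⟩ := h 𝒰 hU
  refine ⟨𝒱, h1, ?_⟩
  rw [dense_iff_inter_open]
  intro O hO hne
  obtain ⟨n, hn⟩ := (h2 {O} (finite_singleton O) (by
    rintro _ rfl
    exact ⟨hO, hne⟩)).nonempty
  obtain ⟨x, hx1, hx2⟩ := hn O rfl
  exact ⟨x, hx1, mem_iUnion.2 ⟨n, hx2⟩⟩

theorem kocinac_of_countable {X : Type*} [TopologicalSpace X] [Countable X] :
    WeaklyScheepersKocinac X := by
  classical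
  intro 𝒰 hU
  obtain ⟨e, he⟩ := exists_injective_nat X
  have h1 : ∀ n (x : X), ∃ U ∈ 𝒰 n, x ∈ U := by
    intro n x
    have : x ∈ ⋃₀ 𝒰 n := by
      rw [(hU n).2]
      exact mem_univ x
    exact this
  choose U hU1 hU2 using h1
  refine ⟨univ, dense_univ, fun n => U n '' {x | e x ≤ n}, fun n => ⟨?_, ?_⟩, ?_⟩
  · rintro _ ⟨x, -, rfl⟩
    exact hU1 n x
  · refine Set.Finite.image _ ?_
    exact (finite_Iic n).preimage he.injOn
  · intro F hF _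
    obtain ⟨m, hm⟩ := (hF.image e).bddAbove
    refine (Set.Ici_infinite m).mono ?_
    intro n hn x hx
    exact ⟨U n x, ⟨x, (hm (mem_image_of_mem e hx)).trans hn, rfl⟩, hU2 n x⟩

theorem weaklyLindelof_of_ccc {X : Type*} [TopologicalSpace X] (h : CCC X) :
    WeaklyLindelof X := by
  intro 𝒰 hU hc
  obtain ⟨𝒟, h𝒟⟩ := zorn_subset {𝒟 : Set (Set X) | (∀ D ∈ 𝒟, IsOpen D ∧ D.Nonempty ∧
      ∃ U ∈ 𝒰, D ⊆ U) ∧ 𝒟.PairwiseDisjoint id} (by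
    intro c hc1 hc2
    refine ⟨⋃₀ c, ⟨?_, ?_⟩, fun s hs => subset_sUnion_of_mem hs⟩
    · rintro D ⟨s, hs, hD⟩
      exact (hc1 hs).1 D hD
    · rintro D ⟨s, hs, hD⟩ D' ⟨s', hs', hD'⟩ hne
      rcases hc2.total hs hs' with h' | h'
      · exact (hc1 hs').2 (h' hD) hD' hne
      · exact (hc1 hs).2 hD (h' hD') hne)
  have hcount : 𝒟.Countable := h 𝒟 (fun D hD => ⟨(h𝒟.prop.1 D hD).1, (h𝒟.prop.1 D hD).2.1⟩)
    h𝒟.prop.2
  have h1 : ∀ D ∈ 𝒟, ∃ U ∈ 𝒰, D ⊆ U := fun D hD => (h𝒟.prop.1 D hD).2.2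
  choose! W hW1 hW2 using h1
  refine ⟨W '' 𝒟, ?_, hcount.image W, ?_⟩
  · rintro _ ⟨D, hD, rfl⟩
    exact hW1 D hD
  · rw [dense_iff_inter_open]
    rintro O hO ⟨x, hx⟩
    by_contra hcon
    rw [not_nonempty_iff_eq_empty] at hcon
    have hxc : x ∈ ⋃₀ 𝒰 := by
      rw [hc]
      exact mem_univ x
    obtain ⟨U, hU1, hxU⟩ := hxc
    have h2 : insert (O ∩ U) 𝒟 ⊆ 𝒟 := by
      refine h𝒟.le_of_ge (y := insert (O ∩ U) 𝒟) ⟨?_, ?_⟩ (subset_insert _ _)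
      · rintro D (rfl | hD)
        · exact ⟨hO.inter (hU U hU1), ⟨x, hx, hxU⟩, U, hU1, inter_subset_right⟩
        · exact h𝒟.prop.1 D hD
      · refine h𝒟.prop.2.insert fun D hD _ => ?_
        change Disjoint (O ∩ U) D
        rw [disjoint_left]
        intro y hy hyD
        have : y ∈ O ∩ ⋃₀ (W '' 𝒟) := ⟨hy.1, W D, ⟨D, hD, rfl⟩, hW2 D hD hyD⟩
        rw [hcon] at this
        exact this
    have h3 : O ∩ U ∈ 𝒟 := h2 (mem_insert _ _)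
    have : x ∈ O ∩ ⋃₀ (W '' 𝒟) := ⟨hx, W (O ∩ U), ⟨_, h3, rfl⟩, hW2 _ h3 ⟨hx, hxU⟩⟩
    rw [hcon] at this
    exact this

section Space

variable {Ω : Type}

/-- The points: subsets of `ℕ × Ω` differing by a finite set from a row `ℕ × {α}`, containing
the row. -/
def Pt (Ω : Type) : Type :=
  {T : Set (ℕ × Ω) // ∃ (s : Finset (ℕ × Ω)) (α : Ω), T = (s : Set (ℕ × Ω)) ∪ {p | p.2 = α}}

def mkPt (s : Finset (ℕ × Ω)) (α : Ω) : Pt Ω := ⟨(s : Set (ℕ × Ω)) ∪ {p | p.2 = α}, s, α, rfl⟩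

def Cell (s : Finset (ℕ × Ω)) (F : ℕ → Finset Ω) : Set (Pt Ω) :=
  {T | (∀ p ∈ s, p ∈ T.1) ∧ ∀ n, ∀ γ ∈ F n, (n, γ) ∉ T.1}

open Classical in
instance topPt : TopologicalSpace (Pt Ω) where
  IsOpen O := ∀ T ∈ O, ∃ s F, T ∈ Cell s F ∧ Cell s F ⊆ O
  isOpen_univ := fun T _ => ⟨∅, fun _ => ∅, ⟨by simp, by simp⟩, subset_univ _⟩
  isOpen_inter := by
    intro O O' h h' T hT
    obtain ⟨s, F, h1, h2⟩ := h T hT.1
    obtain ⟨s', F', h1', h2'⟩ := h' T hT.2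
    refine ⟨s ∪ s', fun n => F n ∪ F' n, ⟨?_, ?_⟩, fun T' hT' => ⟨h2 ⟨?_, ?_⟩, h2' ⟨?_, ?_⟩⟩⟩
    · intro p hp
      rcases Finset.mem_union.1 hp with hp | hp
      · exact h1.1 p hp
      · exact h1'.1 p hp
    · intro n γ hγ
      rcases Finset.mem_union.1 hγ with hγ | hγ
      · exact h1.2 n γ hγ
      · exact h1'.2 n γ hγ
    · exact fun p hp => hT'.1 p (Finset.mem_union_left _ hp)
    · exact fun n γ hγ => hT'.2 n γ (Finset.mem_union_left _ hγ)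
    · exact fun p hp => hT'.1 p (Finset.mem_union_right _ hp)
    · exact fun n γ hγ => hT'.2 n γ (Finset.mem_union_right _ hγ)
  isOpen_sUnion := by
    intro S hS T hT
    obtain ⟨O, hO, hTO⟩ := hT
    obtain ⟨s, F, h1, h2⟩ := hS O hO T hTO
    exact ⟨s, F, h1, fun T' hT' => ⟨O, hO, h2 hT'⟩⟩

theorem isOpen_iffP {O : Set (Pt Ω)} : IsOpen O ↔ ∀ T ∈ O, ∃ s F, T ∈ Cell s F ∧ Cell s F ⊆ O :=
  Iff.rfl

theorem isOpen_Cell (s : Finset (ℕ × Ω)) (F : ℕ → Finset Ω) : IsOpen (Cell s F) :=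
  isOpen_iffP.2 fun _ hT => ⟨s, F, hT, Subset.rfl⟩

theorem isClopen_Cell (s : Finset (ℕ × Ω)) (F : ℕ → Finset Ω) : IsClopen (Cell s F) := by
  classical
  refine ⟨⟨?_⟩, isOpen_Cell s F⟩
  rw [isOpen_iffP]
  intro T hT
  by_cases h : ∀ p ∈ s, p ∈ T.1
  · have h2 : ∃ n, ∃ γ ∈ F n, (n, γ) ∈ T.1 := by
      by_contra hcon
      push Not at hcon
      exact hT ⟨h, hcon⟩
    obtain ⟨n, γ, hγ, hn⟩ := h2
    refine ⟨{(n, γ)}, fun _ => ∅, ⟨by simpa using hn, by simp⟩, ?_⟩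
    intro T' hT' hT''
    exact hT''.2 n γ hγ (hT'.1 (n, γ) (by simp))
  · push Not at h
    obtain ⟨p, hp, hpT⟩ := h
    refine ⟨∅, fun n => if n = p.1 then {p.2} else ∅, ⟨by simp, ?_⟩, ?_⟩
    · intro n γ hγ
      dsimp only at hγ
      by_cases hn : n = p.1
      · rw [if_pos hn, Finset.mem_singleton] at hγ
        rw [hn, hγ]
        exact hpT
      · rw [if_neg hn] at hγ
        exact absurd hγ (Finset.notMem_empty _)
    · intro T' hT' hT''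
      exact hT'.2 p.1 p.2 (by simp) (hT''.1 p hp)

theorem basisP : IsTopologicalBasis {s : Set (Pt Ω) | IsClopen s} := by
  refine isTopologicalBasis_of_isOpen_of_nhds (fun s hs => hs.2) ?_
  intro T O hT hO
  obtain ⟨s, F, h1, h2⟩ := isOpen_iffP.1 hO T hT
  exact ⟨Cell s F, isClopen_Cell s F, h1, h2⟩

theorem t2P : T2Space (Pt Ω) := by
  have key : ∀ T T' : Pt Ω, ∀ p, p ∈ T.1 → p ∉ T'.1 →
      ∃ U : Set (Pt Ω), IsClopen U ∧ T ∈ U ∧ T' ∉ U := by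
    intro T T' p h1 h2
    exact ⟨Cell {p} fun _ => ∅, isClopen_Cell _ _, ⟨by simpa using h1, by simp⟩,
      fun h => h2 (h.1 p (by simp))⟩
  refine ⟨fun T T' hne => ?_⟩
  have h1 : T.1 ≠ T'.1 := fun h => hne (Subtype.ext h)
  have h2 : (∃ p, p ∈ T.1 ∧ p ∉ T'.1) ∨ ∃ p, p ∈ T'.1 ∧ p ∉ T.1 := by
    by_contra hcon
    push Not at hcon
    exact h1 (Set.ext fun p => ⟨hcon.1 p, hcon.2 p⟩)
  rcases h2 with ⟨p, h3, h4⟩ | ⟨p, h3, h4⟩
  · obtain ⟨U, hU, hT, hT'⟩ := key T T' p h3 h4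
    exact ⟨U, Uᶜ, hU.2, hU.1.isOpen_compl, hT, hT', disjoint_compl_right⟩
  · obtain ⟨U, hU, hT, hT'⟩ := key T' T p h3 h4
    exact ⟨Uᶜ, U, hU.1.isOpen_compl, hU.2, hT', hT, disjoint_compl_left⟩

theorem nonempty_of_unc (hΩ : ¬ (univ : Set Ω).Countable) : Nonempty Ω := by
  by_contra hcon
  rw [not_nonempty_iff] at hcon
  exact hΩ (to_countable _)

/-- Compatible cells meet. -/
theorem Cell_inter (hΩ : ¬ (univ : Set Ω).Countable) {s s' : Finset (ℕ × Ω)}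
    {F F' : ℕ → Finset Ω}
    (h1 : ∀ p ∈ s, p.2 ∉ F p.1) (h2 : ∀ p ∈ s, p.2 ∉ F' p.1)
    (h3 : ∀ p ∈ s', p.2 ∉ F p.1) (h4 : ∀ p ∈ s', p.2 ∉ F' p.1) :
    (Cell s F ∩ Cell s' F').Nonempty := by
  classical
  obtain ⟨α, hα⟩ : ∃ α, α ∉ ⋃ n, ((F n : Set Ω) ∪ (F' n : Set Ω)) := by
    by_contra hcon
    push Not at hcon
    exact hΩ ((countable_iUnion fun n => (Finset.countable_toSet (F n)).union
      (Finset.countable_toSet (F' n))).mono fun α _ => hcon α)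
  have hα' : ∀ n, α ∉ F n ∧ α ∉ F' n := fun n =>
    ⟨fun h => hα (mem_iUnion.2 ⟨n, Or.inl h⟩), fun h => hα (mem_iUnion.2 ⟨n, Or.inr h⟩)⟩
  refine ⟨mkPt (s ∪ s') α, ⟨?_, ?_⟩, ?_, ?_⟩
  · intro p hp
    exact Or.inl (Finset.mem_union_left _ hp)
  · rintro n γ hγ (h | h)
    · rcases Finset.mem_union.1 h with h | h
      · exact h1 _ h hγ
      · exact h3 _ h hγ
    · have h5 : γ = α := h
      exact (hα' n).1 (h5 ▸ hγ)
  · intro p hp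
    exact Or.inl (Finset.mem_union_right _ hp)
  · rintro n γ hγ (h | h)
    · rcases Finset.mem_union.1 h with h | h
      · exact h2 _ h hγ
      · exact h4 _ h hγ
    · have h5 : γ = α := h
      exact (hα' n).2 (h5 ▸ hγ)

theorem cccP (hΩ : ¬ (univ : Set Ω).Countable) : CCC (Pt Ω) := by
  classical
  intro 𝒪 hO hdis
  by_contra hcount
  have h1 : ∀ O ∈ 𝒪, ∃ (s : Finset (ℕ × Ω)) (F : ℕ → Finset Ω), (∀ p ∈ s, p.2 ∉ F p.1) ∧
      Cell s F ⊆ O := by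
    intro O hO1
    obtain ⟨T, hT⟩ := (hO O hO1).2
    obtain ⟨s, F, h1, h2⟩ := isOpen_iffP.1 (hO O hO1).1 T hT
    exact ⟨s, F, fun p hp hpF => h1.2 p.1 p.2 hpF (h1.1 p hp), h2⟩
  choose! s F hsF hcell using h1
  -- uniformize the levels
  obtain ⟨L, hL⟩ := Pool.Agent.H151.uncountable_fiber (fun O => (s O).image Prod.fst) 𝒪 hcount
  obtain ⟨J, R, hJ1, hJ2, hJ3, hJ4⟩ := Pool.Agent.H151.delta_system s _ hL
  have hJO : ∀ O ∈ J, O ∈ 𝒪 := fun O h => (hJ1 h).1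
  have hJL : ∀ O ∈ J, (s O).image Prod.fst = L := fun O h => (hJ1 h).2
  -- each `F O` meets only finitely many `s O'`
  have hfin : ∀ O ∈ J, {O' ∈ J | O' ≠ O ∧ ∃ p ∈ s O', p.2 ∈ F O p.1}.Finite := by
    intro O hOJ
    let E : Set (ℕ × Ω) := ⋃ n ∈ (L : Set ℕ), (fun γ => (n, γ)) '' (F O n : Set Ω)
    have hE : E.Finite := (Finset.finite_toSet L).biUnion fun n _ =>
      (Finset.finite_toSet (F O n)).image _
    have h2 : ∀ O' ∈ {O' ∈ J | O' ≠ O ∧ ∃ p ∈ s O', p.2 ∈ F O p.1}, ∃ p, p ∈ s O' ∧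
        p.2 ∈ F O p.1 := by
      rintro O' ⟨-, -, p, hp1, hp2⟩
      exact ⟨p, hp1, hp2⟩
    have hneΩ : Nonempty Ω := nonempty_of_unc hΩ
    choose! q hq1 hq2 using h2
    refine Set.Finite.of_finite_image (f := q) (hE.subset ?_) ?_
    · rintro _ ⟨O', hO', rfl⟩
      have h3 := hq1 O' hO'
      refine mem_iUnion₂.2 ⟨(q O').1, ?_, (q O').2, hq2 O' hO', rfl⟩
      have h4 : (q O').1 ∈ (s O').image Prod.fst := Finset.mem_image_of_mem _ h3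
      rw [hJL O' hO'.1] at h4
      exact h4
    · intro O₁ h₁ O₂ h₂ heq
      by_contra hne
      have h3 : q O₁ ∈ R := hJ4 O₁ h₁.1 O₂ h₂.1 hne _ (hq1 O₁ h₁) (heq ▸ hq1 O₂ h₂)
      exact hsF O (hJO O hOJ) _ (hJ3 O hOJ h3) (hq2 O₁ h₁)
  -- two compatible indices
  have hJinf : J.Infinite := fun h => hJ2 h.countable
  let K : Set (Set (Pt Ω)) := range fun k => ((hJinf.natEmbedding J k) : Set (Pt Ω))
  have hKJ : K ⊆ J := by
    rintro _ ⟨k, rfl⟩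
    exact (hJinf.natEmbedding J k).2
  have hKinf : K.Infinite := infinite_range_of_injective fun a b hab =>
    (hJinf.natEmbedding J).injective (Subtype.ext hab)
  have hKc : K.Countable := countable_range _
  obtain ⟨O, hOJ, hOn⟩ : ∃ O ∈ J, O ∉ K ∪ ⋃ O' ∈ K, {O'' ∈ J | O'' ≠ O' ∧
      ∃ p ∈ s O'', p.2 ∈ F O' p.1} := by
    by_contra hcon
    push Not at hcon
    exact hJ2 ((hKc.union (hKc.biUnion fun O' hO' => (hfin O' (hKJ hO')).countable)).mono hcon)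
  obtain ⟨O', hO'K, hO'n⟩ := (hKinf.sdiff (hfin O hOJ)).nonempty
  have hO'J : O' ∈ J := hKJ hO'K
  have hne : O ≠ O' := fun h => hOn (Or.inl (h ▸ hO'K))
  have h5 : ∀ p ∈ s O', p.2 ∉ F O p.1 := by
    intro p hp hpF
    exact hO'n ⟨hO'J, hne.symm, p, hp, hpF⟩
  have h6 : ∀ p ∈ s O, p.2 ∉ F O' p.1 := by
    intro p hp hpF
    exact hOn (Or.inr (mem_iUnion₂.2 ⟨O', hO'K, hOJ, hne, p, hp, hpF⟩))
  obtain ⟨T, hT1, hT2⟩ := Cell_inter hΩ (hsF O (hJO O hOJ)) h6 h5 (hsF O' (hJO O' hO'J))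
  exact (disjoint_left.1 (hdis (hJO O hOJ) (hJO O' hO'J) hne)) (hcell O (hJO O hOJ) hT1)
    (hcell O' (hJO O' hO'J) hT2)

theorem not_weaklyMengerP (hΩ : ¬ (univ : Set Ω).Countable) : ¬ WeaklyMenger (Pt Ω) := by
  classical
  intro h
  obtain ⟨𝒱, h1, h2⟩ := h (fun n => range fun γ : Ω => Cell {(n, γ)} fun _ => ∅) (by
    intro n
    refine ⟨?_, ?_⟩
    · rintro _ ⟨γ, rfl⟩
      exact isOpen_Cell _ _
    · refine eq_univ_of_forall fun T => ?_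
      obtain ⟨s, α, hT⟩ := T.2
      refine ⟨_, ⟨α, rfl⟩, ?_, by simp⟩
      intro p hp
      rw [Finset.mem_singleton] at hp
      rw [hp, hT]
      exact Or.inr rfl)
  have hneΩ : Nonempty Ω := nonempty_of_unc hΩ
  have h3 : ∀ n, ∃ F : Finset Ω, ∀ V ∈ 𝒱 n, ∃ γ ∈ F, V = Cell {(n, γ)} fun _ => ∅ := by
    intro n
    have h4 : ∀ V ∈ 𝒱 n, ∃ γ : Ω, (Cell {(n, γ)} fun _ => ∅) = V := fun V hV => (h1 n).1 hV
    choose! c hc using h4
    exact ⟨((h1 n).2.image c).toFinset, fun V hV => ⟨c V, by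
      rw [Set.Finite.mem_toFinset]
      exact ⟨V, hV, rfl⟩, (hc V hV).symm⟩⟩
  choose F hF using h3
  obtain ⟨α, hα⟩ : ∃ α, α ∉ ⋃ n, (F n : Set Ω) := by
    by_contra hcon
    push Not at hcon
    exact hΩ ((countable_iUnion fun n => (Finset.countable_toSet (F n))).mono fun α _ => hcon α)
  obtain ⟨T, hT1, hT2⟩ := h2.inter_open_nonempty _ (isOpen_Cell ∅ F) ⟨mkPt ∅ α, by simp, by
    rintro n γ hγ (h | h)
    · exact absurd h (by simp)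
    · have h5 : γ = α := h
      exact hα (mem_iUnion.2 ⟨n, h5 ▸ hγ⟩)⟩
  obtain ⟨n, V, hV, hTV⟩ := mem_iUnion.1 hT2
  obtain ⟨γ, hγ, rfl⟩ := hF n V hV
  exact hT1.2 n γ hγ (hTV.1 (n, γ) (by simp))

theorem mk_Pt (hΩ : #Ω = ℵ₁) : #(Pt Ω) = ℵ₁ := by
  classical
  have hinf : Infinite Ω := by
    rw [infinite_iff, hΩ]
    exact aleph0_le_aleph 1
  apply le_antisymm
  · have hsurj : Function.Surjective fun p : Finset (ℕ × Ω) × Ω => mkPt p.1 p.2 := by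
      rintro ⟨T, s, α, rfl⟩
      exact ⟨(s, α), rfl⟩
    refine (mk_le_of_surjective hsurj).trans ?_
    have h1 : #(Finset (ℕ × Ω)) = ℵ₁ := by
      rw [mk_finset_of_infinite, mk_prod, lift_id, lift_id, hΩ, mk_nat]
      exact aleph0_mul_eq (aleph0_le_aleph 1)
    rw [mk_prod, lift_id, lift_id, h1, hΩ]
    exact (mul_eq_self (aleph0_le_aleph 1)).le
  · have hinj : Function.Injective fun α : Ω => mkPt (∅ : Finset (ℕ × Ω)) α := by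
      intro α β h
      have h1 : (mkPt (∅ : Finset (ℕ × Ω)) α).1 = (mkPt (∅ : Finset (ℕ × Ω)) β).1 := by
        have : mkPt (∅ : Finset (ℕ × Ω)) α = mkPt (∅ : Finset (ℕ × Ω)) β := h
        rw [this]
      have h2 : ((0 : ℕ), α) ∈ (mkPt (∅ : Finset (ℕ × Ω)) α).1 := Or.inr rfl
      rw [h1] at h2
      rcases h2 with h2 | h2
      · exact absurd h2 (by simp)
      · exact h2
    rw [← hΩ]
    exact mk_le_of_injective hinj

end Space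

/-- There is a ccc zero-dimensional Hausdorff space of cardinality `ℵ₁` that is not weakly
Menger. -/
theorem exists_space : ∃ (X : Type) (_ : TopologicalSpace X), T2Space X ∧
    IsTopologicalBasis {s : Set X | IsClopen s} ∧ CCC X ∧ #X = ℵ₁ ∧ ¬ WeaklyMenger X := by
  have hΩ : ¬ (univ : Set (Quotient.out (ℵ₁ : Cardinal.{0}))).Countable := by
    intro h
    have h2 := h.le_aleph0
    rw [mk_univ, mk_out] at h2
    exact absurd h2 (not_le.2 (aleph0_lt_aleph_one))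
  exact ⟨Pt (Quotient.out (ℵ₁ : Cardinal.{0})), inferInstance, t2P, basisP, cccP hΩ,
    mk_Pt (mk_out _), not_weaklyMengerP hΩ⟩

end Pool.Agent.X199.WM
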